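import Pool.Agent.helper132_sph.LB3

/-! Lower bound for the number of lattice points. -/

namespace Pool.Agent.helper132_sph

open Finset

/-- representations of `n` as a sum of `d` nonnegative `k`-th powers. -/
def Rp (k d n : ℕ) : Finset (Fin d → ℕ) :=
  (Fintype.piFinset (fun _ : Fin d => range (n + 1))).filter (fun m => ∑ i, (m i) ^ k = n)

lemma mem_Rp (k d n : ℕ) (hk : 1 ≤ k) (m : Fin d → ℕ) : m ∈ Rp k d n ↔ ∑ i, (m i) ^ k = n := by
  unfold Rp
  rw [Finset.mem_filter, Fintype.mem_piFinset]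
  constructor
  · exact fun h => h.2
  · intro h
    refine ⟨fun i => ?_, h⟩
    rw [Finset.mem_range]
    have h1 : m i ≤ (m i) ^ k := Nat.le_self_pow (by omega) _
    have h2 : (m i) ^ k ≤ ∑ i, (m i) ^ k :=
      Finset.single_le_sum (f := fun i => (m i) ^ k) (fun _ _ => Nat.zero_le _) (Finset.mem_univ i)
    omega

lemma Rp_succ (k d n : ℕ) (hk : 1 ≤ k) (S : Finset ℕ) (hS : ∀ z ∈ S, z ^ k ≤ n) :
    ∑ z ∈ S, (Rp k d (n - z ^ k)).card ≤ (Rp k (d + 1) n).card := by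
  classical
  rw [← Finset.card_sigma]
  refine Finset.card_le_card_of_injOn
    (fun p : (_ : ℕ) × (Fin d → ℕ) => (Fin.cons p.1 p.2 : Fin (d + 1) → ℕ)) ?_ ?_
  · intro p hp
    rw [Finset.mem_coe, Finset.mem_sigma] at hp
    obtain ⟨h1, h2⟩ := hp
    rw [mem_Rp k d _ hk] at h2
    rw [Finset.mem_coe, mem_Rp k (d + 1) n hk, Fin.sum_univ_succ]
    simp only [Fin.cons_zero, Fin.cons_succ]
    rw [h2]
    have := hS _ h1
    omega
  · intro p _ p' _ h
    simp only at h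
    have h1 := Fin.cons_injective2 h
    rcases p with ⟨a, b⟩
    rcases p' with ⟨a', b'⟩
    simp only at h1
    obtain ⟨rfl, rfl⟩ := h1
    rfl

lemma cS_le_Rp (k X s n : ℕ) (hk : 1 ≤ k) : cS k X s n ≤ (Rp k s n).card := by
  unfold cS
  refine Finset.card_le_card ?_
  intro y hy
  rw [mem_Rp k s n hk]
  exact (Finset.mem_filter.1 hy).2

lemma exists_root (k M : ℕ) (hk : 1 ≤ k) : ∃ w : ℕ, w ^ k ≤ M ∧ M < (w + 1) ^ k := by
  have hex : ∃ w : ℕ, M < (w + 1) ^ k :=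
    ⟨M, lt_of_lt_of_le (Nat.lt_succ_self M) (Nat.le_self_pow (by omega) _)⟩
  classical
  refine ⟨Nat.find hex, ?_, Nat.find_spec hex⟩
  rcases Nat.eq_zero_or_pos (Nat.find hex) with h | h
  · rw [h, Nat.zero_pow (by omega)]; exact Nat.zero_le _
  · have := Nat.find_min hex (m := Nat.find hex - 1) (by omega)
    rw [Nat.sub_add_cancel h] at this
    omega

lemma step_one (k X s n n0 B T1 : ℕ) (δ : ℝ) (hk : 1 ≤ k) (hX : 1 ≤ X)
    (hn0 : n0 < s * X ^ k)
    (hint : ∀ n : ℕ, n0 ≤ n → (n : ℝ) ≤ n0 + δ * (X : ℝ) ^ k →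
      (X : ℝ) ^ s ≤ 2 * s * (X : ℝ) ^ k * cS k X s n)
    (hn1 : (s + 1) * X ^ k ≤ n) (hn2 : n ≤ B * X ^ k) (hT1 : T1 ≤ X)
    (hT2 : (k : ℝ) * T1 * ((B : ℝ) + 1) ^ (k - 1) ≤ δ * X) :
    (T1 : ℝ) * (X : ℝ) ^ s ≤ 2 * s * (X : ℝ) ^ k * (Rp k (s + 1) n).card := by
  classical
  have hXR : (1 : ℝ) ≤ X := by exact_mod_cast hX
  have hX0 : (0 : ℝ) < X := by linarith
  obtain ⟨M, hM⟩ : ∃ M : ℕ, M = n - n0 := ⟨_, rfl⟩
  have hexp : (s + 1) * X ^ k = s * X ^ k + X ^ k := by ring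
  have hMX : X ^ k ≤ M := by omega
  have hMn : n = n0 + M := by omega
  obtain ⟨w, hw1, hw2⟩ := exists_root k M hk
  have hwX : X ≤ w := by
    by_contra hlt
    push Not at hlt
    have : (w + 1) ^ k ≤ X ^ k := Nat.pow_le_pow_left hlt k
    omega
  have hwB : w ≤ B * X := by
    have h1 : w ^ k ≤ (B * X) ^ k := by
      calc w ^ k ≤ M := hw1
        _ ≤ B * X ^ k := by omega
        _ ≤ B ^ k * X ^ k := Nat.mul_le_mul_right _ (Nat.le_self_pow (by omega) _)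
        _ = (B * X) ^ k := (Nat.mul_pow _ _ _).symm
    exact (Nat.pow_le_pow_iff_left (by omega)).1 h1
  have hw1R : ((w : ℝ) + 1) ≤ (B + 1) * X := by
    have : w + 1 ≤ (B + 1) * X := by
      rw [Nat.add_mul, Nat.one_mul]; omega
    exact_mod_cast this
  obtain ⟨S, hS⟩ : ∃ S : Finset ℕ, S = Ioc (w - T1) w := ⟨_, rfl⟩
  have hScard : S.card = T1 := by rw [hS, Nat.card_Ioc]; omega
  have hSz : ∀ z ∈ S, z ^ k ≤ M := by
    intro z hz
    rw [hS, Finset.mem_Ioc] at hz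
    exact (Nat.pow_le_pow_left hz.2 k).trans hw1
  have hmain : ∀ z ∈ S, (X : ℝ) ^ s ≤ 2 * s * (X : ℝ) ^ k * (Rp k s (n - z ^ k)).card := by
    intro z hz
    have hzM := hSz z hz
    rw [hS, Finset.mem_Ioc] at hz
    have h1 : n0 ≤ n - z ^ k := by omega
    have h2 : ((n - z ^ k : ℕ) : ℝ) ≤ n0 + δ * (X : ℝ) ^ k := by
      have h3 : ((n - z ^ k : ℕ) : ℝ) = n0 + M - (z : ℝ) ^ k := by
        rw [Nat.cast_sub (by omega)]
        rw [hMn]
        push_cast
        ring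
      rw [h3]
      have h4 := pow_sub_pow_le k ((w : ℝ) + 1) z (by positivity) (by
        have : (z : ℝ) ≤ w := by exact_mod_cast hz.2
        linarith)
      have h5 : (M : ℝ) ≤ ((w : ℝ) + 1) ^ k := by exact_mod_cast hw2.le
      have h6 : (w : ℝ) + 1 - z ≤ T1 := by
        have : w + 1 ≤ T1 + z := by omega
        have : (w : ℝ) + 1 ≤ T1 + z := by exact_mod_cast this
        linarith
      have h7 : (k : ℝ) * ((w : ℝ) + 1 - z) * ((w : ℝ) + 1) ^ (k - 1) ≤ δ * (X : ℝ) ^ k := by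
        calc (k : ℝ) * ((w : ℝ) + 1 - z) * ((w : ℝ) + 1) ^ (k - 1)
            ≤ (k : ℝ) * T1 * ((B + 1) * X) ^ (k - 1) := by gcongr
          _ = ((k : ℝ) * T1 * ((B : ℝ) + 1) ^ (k - 1)) * (X : ℝ) ^ (k - 1) := by
              rw [mul_pow]; ring
          _ ≤ (δ * X) * (X : ℝ) ^ (k - 1) := mul_le_mul_of_nonneg_right hT2 (by positivity)
          _ = δ * (X : ℝ) ^ k := by
              obtain ⟨k', rfl⟩ : ∃ k', k = k' + 1 := ⟨k - 1, by omega⟩
              rw [Nat.add_sub_cancel, pow_succ]; ring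
      linarith
    refine (hint _ h1 h2).trans ?_
    have h8 : (cS k X s (n - z ^ k) : ℝ) ≤ (Rp k s (n - z ^ k)).card := by
      exact_mod_cast cS_le_Rp k X s _ hk
    exact mul_le_mul_of_nonneg_left h8 (by positivity)
  have hR := Rp_succ k s n hk S (fun z hz => by have := hSz z hz; omega)
  calc (T1 : ℝ) * (X : ℝ) ^ s = ∑ z ∈ S, (X : ℝ) ^ s := by
        rw [Finset.sum_const, nsmul_eq_mul, hScard]
    _ ≤ ∑ z ∈ S, 2 * s * (X : ℝ) ^ k * (Rp k s (n - z ^ k)).card := Finset.sum_le_sum hmain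
    _ = 2 * s * (X : ℝ) ^ k * ((∑ z ∈ S, (Rp k s (n - z ^ k)).card : ℕ) : ℝ) := by
        rw [← Finset.mul_sum]; push_cast; ring
    _ ≤ _ := by
        refine mul_le_mul_of_nonneg_left ?_ (by positivity)
        exact_mod_cast hR

lemma step_two (k X s B T1 : ℕ) (hk : 1 ≤ k) (hX : 1 ≤ X)
    (h1 : ∀ n, (s + 1) * X ^ k ≤ n → n ≤ B * X ^ k →
      (T1 : ℝ) * (X : ℝ) ^ s ≤ 2 * s * (X : ℝ) ^ k * (Rp k (s + 1) n).card) (t : ℕ) :
    ∀ n, (s + 1 + t) * X ^ k ≤ n → n ≤ B * X ^ k →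
      (T1 : ℝ) * (X : ℝ) ^ (s + t) ≤ 2 * s * (X : ℝ) ^ k * (Rp k (s + 1 + t) n).card := by
  induction t with
  | zero =>
    intro n hn1 hn2
    exact h1 n (by simpa using hn1) hn2
  | succ t ih =>
    intro n hn1 hn2
    have hexp : (s + 1 + (t + 1)) * X ^ k = (s + 1 + t) * X ^ k + X ^ k := by ring
    have hz : ∀ z ∈ range X, z ^ k ≤ X ^ k := fun z hz =>
      Nat.pow_le_pow_left (Finset.mem_range.1 hz).le k
    have hXn : X ^ k ≤ n := by omega
    have hR := Rp_succ k (s + 1 + t) n hk (range X) (fun z hz' => (hz z hz').trans hXn)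
    have hmain : ∀ z ∈ range X, (T1 : ℝ) * (X : ℝ) ^ (s + t) ≤
        2 * s * (X : ℝ) ^ k * (Rp k (s + 1 + t) (n - z ^ k)).card := by
      intro z hz'
      have := hz z hz'
      exact ih (n - z ^ k) (by omega) (by omega)
    calc (T1 : ℝ) * (X : ℝ) ^ (s + (t + 1)) = ∑ z ∈ range X, (T1 : ℝ) * (X : ℝ) ^ (s + t) := by
          rw [Finset.sum_const, Finset.card_range, nsmul_eq_mul]; ring
      _ ≤ ∑ z ∈ range X, 2 * s * (X : ℝ) ^ k * (Rp k (s + 1 + t) (n - z ^ k)).card :=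
          Finset.sum_le_sum hmain
      _ = 2 * s * (X : ℝ) ^ k * ((∑ z ∈ range X, (Rp k (s + 1 + t) (n - z ^ k)).card : ℕ) : ℝ) := by
          rw [← Finset.mul_sum]; push_cast; ring
      _ ≤ _ := by
          refine mul_le_mul_of_nonneg_left ?_ (by positivity)
          exact_mod_cast hR

/-- lower bound for the number of representations. -/
theorem sphere_lower (k : ℕ) (hk : 2 ≤ k) : ∃ D1 : ℕ, k ≤ D1 ∧ ∀ d, D1 ≤ d → ∃ c : ℝ, 0 < c ∧
    ∀ (n : ℕ) (r : ℝ), 0 < r → r ^ k = n →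
      c * r ^ (d - k) ≤ max 1 (((Rp k d n).card : ℕ) : ℝ) := by
  obtain ⟨s, X1, δ, hs, hX1, hδ0, hδ1, hint⟩ := interval_lemma k hk
  have hkR : (0 : ℝ) < k := by exact_mod_cast (by omega : 0 < k)
  have hsR : (0 : ℝ) < s := by exact_mod_cast (by omega : 0 < s)
  refine ⟨max k (s + 1), le_max_left _ _, ?_⟩
  intro d hd
  have hdk : k ≤ d := le_trans (le_max_left _ _) hd
  have hds : s + 1 ≤ d := le_trans (le_max_right _ _) hd
  obtain ⟨B, hB⟩ : ∃ B : ℕ, B = d * 2 ^ k := ⟨_, rfl⟩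
  have hB1 : 1 ≤ B := by rw [hB]; exact Nat.mul_pos (by omega) (by positivity)
  have hBR : (1 : ℝ) ≤ B := by exact_mod_cast hB1
  have hdB : d ≤ B := by rw [hB]; exact Nat.le_mul_of_pos_right _ (by positivity)
  obtain ⟨v, hv⟩ : ∃ v : ℝ, v = δ / (k * ((B : ℝ) + 1) ^ (k - 1)) := ⟨_, rfl⟩
  have hv0 : 0 < v := by rw [hv]; positivity
  have hden1 : (1 : ℝ) ≤ k * ((B : ℝ) + 1) ^ (k - 1) := by
    have h1 : (1 : ℝ) ≤ k := by exact_mod_cast (by omega : 1 ≤ k)
    have h2 : (1 : ℝ) ≤ ((B : ℝ) + 1) ^ (k - 1) := one_le_pow₀ (by linarith)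
    calc (1 : ℝ) = 1 * 1 := by ring
      _ ≤ _ := mul_le_mul h1 h2 zero_le_one (by positivity)
  have hv1 : v ≤ 1 := by
    rw [hv, div_le_one (by positivity)]
    linarith
  obtain ⟨X2, hX2⟩ := exists_nat_ge (max (X1 : ℝ) (2 / v))
  have hX2a : X1 ≤ X2 := by exact_mod_cast (le_max_left _ _).trans hX2
  have hX2b : 2 / v ≤ X2 := (le_max_right _ _).trans hX2
  have hX21 : 1 ≤ X2 := hX1.trans hX2a
  obtain ⟨c1, hc1⟩ : ∃ c1 : ℝ, c1 = v / (4 * s) := ⟨_, rfl⟩
  have hc10 : 0 < c1 := by rw [hc1]; positivity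
  have hdX2 : (0 : ℝ) < (((d * X2 : ℕ)) : ℝ) := by
    exact_mod_cast Nat.mul_pos (by omega) hX21
  refine ⟨min (c1 / (B : ℝ) ^ (d - k)) (1 / (((d * X2 : ℕ)) : ℝ) ^ (d - k)),
    lt_min (by positivity) (by positivity), ?_⟩
  intro n r hr hrn
  have hrk0 : 0 ≤ r ^ (d - k) := by positivity
  rcases lt_or_ge n (d * X2 ^ k) with hcase | hcase
  · refine le_trans ?_ (le_max_left _ _)
    refine (mul_le_mul_of_nonneg_right (min_le_right _ _) hrk0).trans ?_
    rw [one_div, inv_mul_le_iff₀ (by positivity), mul_one]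
    refine pow_le_pow_left₀ hr.le ?_ _
    refine le_of_pow_le_pow_left₀ (n := k) (by omega) hdX2.le ?_
    rw [hrn]
    have : n ≤ (d * X2) ^ k := by
      calc n ≤ d * X2 ^ k := hcase.le
        _ ≤ d ^ k * X2 ^ k := Nat.mul_le_mul_right _ (Nat.le_self_pow (by omega) _)
        _ = (d * X2) ^ k := (Nat.mul_pow _ _ _).symm
    exact_mod_cast this
  · refine le_trans ?_ (le_max_right _ _)
    obtain ⟨X, hXa, hXb⟩ := exists_root k (n / d) (by omega)
    have hd0 : 0 < d := by omega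
    have hXa' : d * X ^ k ≤ n := by
      calc d * X ^ k ≤ d * (n / d) := Nat.mul_le_mul_left _ hXa
        _ ≤ n := Nat.mul_div_le _ _
    have hX2X : X2 ≤ X := by
      by_contra hlt
      push Not at hlt
      have h1 : X2 ^ k ≤ n / d := by
        rw [Nat.le_div_iff_mul_le hd0, mul_comm]; exact hcase
      have h2 : (X + 1) ^ k ≤ X2 ^ k := Nat.pow_le_pow_left hlt k
      omega
    have hX1' : 1 ≤ X := hX21.trans hX2X
    have hXR : (1 : ℝ) ≤ X := by exact_mod_cast hX1'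
    have hX0 : (0 : ℝ) < X := by linarith
    have hnB : n ≤ B * X ^ k := by
      have h1 : n < d * (X + 1) ^ k := by
        rw [mul_comm, ← Nat.div_lt_iff_lt_mul hd0]
        exact hXb
      have h2 : (X + 1) ^ k ≤ (2 * X) ^ k := Nat.pow_le_pow_left (by omega) k
      calc n ≤ d * (X + 1) ^ k := h1.le
        _ ≤ d * (2 * X) ^ k := Nat.mul_le_mul_left _ h2
        _ = B * X ^ k := by rw [hB, Nat.mul_pow]; ring
    obtain ⟨n0, hn0, hn0i⟩ := hint X (hX2a.trans hX2X)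
    obtain ⟨T1, hT1⟩ : ∃ T1 : ℕ, T1 = ⌊v * X⌋₊ := ⟨_, rfl⟩
    have hvX : 2 ≤ v * X := by
      have h1 : 2 / v ≤ (X : ℝ) := hX2b.trans (by exact_mod_cast hX2X)
      rw [div_le_iff₀ hv0] at h1
      linarith
    have hT1a : (T1 : ℝ) ≤ v * X := by rw [hT1]; exact Nat.floor_le (by positivity)
    have hT1b : v * X / 2 ≤ T1 := by
      have : v * X < T1 + 1 := by rw [hT1]; exact Nat.lt_floor_add_one _
      linarith
    have hT1X : T1 ≤ X := by
      have h1 : (T1 : ℝ) ≤ X := by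
        refine hT1a.trans ?_
        calc v * X ≤ 1 * X := mul_le_mul_of_nonneg_right hv1 hX0.le
          _ = X := one_mul _
      exact_mod_cast h1
    have hT2 : (k : ℝ) * T1 * ((B : ℝ) + 1) ^ (k - 1) ≤ δ * X := by
      calc (k : ℝ) * T1 * ((B : ℝ) + 1) ^ (k - 1) = (k * ((B : ℝ) + 1) ^ (k - 1)) * T1 := by ring
        _ ≤ (k * ((B : ℝ) + 1) ^ (k - 1)) * (v * X) := mul_le_mul_of_nonneg_left hT1a (by positivity)
        _ = δ * X := by rw [hv]; field_simp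
    have hst := step_two k X s B T1 (by omega) hX1' (fun n' hn1 hn2 =>
      step_one k X s n' n0 B T1 δ (by omega) hX1' hn0 hn0i hn1 hn2 hT1X hT2) (d - s - 1) n
      (by
        have : s + 1 + (d - s - 1) = d := by omega
        rw [this]; exact hXa') hnB
    have hd1 : s + 1 + (d - s - 1) = d := by omega
    rw [hd1] at hst
    have hpow : (X : ℝ) ^ (s + (d - s - 1)) = (X : ℝ) ^ (d - 1) := by congr 1; omega
    rw [hpow] at hst
    -- conclude
    have h1 : c1 * (X : ℝ) ^ (d - k) ≤ (Rp k d n).card := by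
      have h2 : (v * X / 2) * (X : ℝ) ^ (d - 1) ≤ 2 * s * (X : ℝ) ^ k * (Rp k d n).card :=
        (mul_le_mul_of_nonneg_right hT1b (by positivity)).trans hst
      have h3 : (v * X / 2) * (X : ℝ) ^ (d - 1) = (c1 * (X : ℝ) ^ (d - k)) * (2 * s * (X : ℝ) ^ k) := by
        have h4 : (X : ℝ) * (X : ℝ) ^ (d - 1) = (X : ℝ) ^ (d - k) * (X : ℝ) ^ k := by
          rw [← pow_succ', ← pow_add]; congr 1; omega
        calc (v * X / 2) * (X : ℝ) ^ (d - 1) = (v / 2) * ((X : ℝ) * (X : ℝ) ^ (d - 1)) := by ring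
          _ = (v / 2) * ((X : ℝ) ^ (d - k) * (X : ℝ) ^ k) := by rw [h4]
          _ = _ := by rw [hc1]; field_simp; ring
      rw [h3] at h2
      have h5 : (0 : ℝ) < 2 * s * (X : ℝ) ^ k := by positivity
      refine le_of_mul_le_mul_right ?_ h5
      linarith
    refine le_trans ?_ h1
    refine (mul_le_mul_of_nonneg_right (min_le_left _ _) hrk0).trans ?_
    have h6 : r ≤ B * X := by
      refine le_of_pow_le_pow_left₀ (n := k) (by omega) (by positivity) ?_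
      rw [hrn]
      have : n ≤ (B * X) ^ k := by
        calc n ≤ B * X ^ k := hnB
          _ ≤ B ^ k * X ^ k := Nat.mul_le_mul_right _ (Nat.le_self_pow (by omega) _)
          _ = (B * X) ^ k := (Nat.mul_pow _ _ _).symm
      exact_mod_cast this
    calc c1 / (B : ℝ) ^ (d - k) * r ^ (d - k) ≤ c1 / (B : ℝ) ^ (d - k) * (B * X) ^ (d - k) := by
          refine mul_le_mul_of_nonneg_left ?_ (by positivity)
          exact pow_le_pow_left₀ hr.le h6 _
      _ = c1 * (X : ℝ) ^ (d - k) := by rw [mul_pow]; field_simp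

end Pool.Agent.helper132_sph
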