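import Pool.Agent.helper132_sph.SumWt

/-! Mean values and decay of the full exponential sum. -/

namespace Pool.Agent.helper132_sph

open Finset

/-- the full exponential sum. -/
noncomputable def fS (k X : ℕ) (α : ℝ) : ℂ := ∑ n ∈ Ico (0 : ℤ) X, ec (α * (n : ℝ) ^ k)

lemma norm_fS_le (k X : ℕ) (α : ℝ) : ‖fS k X α‖ ≤ X := by
  unfold fS
  exact norm_sum_ec_le _ _ (fun n : ℤ => α * (n : ℝ) ^ k) X (by simp)

lemma mean_value (k : ℕ) (hk : 1 ≤ k) : ∃ s0 : ℕ, ∃ K : ℝ, 1 ≤ s0 ∧ 1 ≤ K ∧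
    ∀ R X : ℕ, 1 ≤ R → 1 ≤ X →
      ∑ a ∈ range (R * X ^ k), (‖fS k X ((a : ℝ) / ((R * X ^ k : ℕ) : ℝ))‖ / X) ^ s0 ≤
        K * (R + 2) ^ 3 := by
  classical
  obtain ⟨A, C, hA, hC, hW⟩ := weyl_inverse k hk
  obtain ⟨Ks, hKs1, hKs⟩ := sum_wt
  have hC0 : 0 < C := by linarith
  refine ⟨3 * A, C ^ 3 * Ks, by omega, ?_, ?_⟩
  · have h1 : (1 : ℝ) ≤ C ^ 3 := one_le_pow₀ hC
    calc (1 : ℝ) = 1 * 1 := by ring
      _ ≤ C ^ 3 * Ks := mul_le_mul h1 hKs1 zero_le_one (by positivity)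
  intro R X hR hX
  have hXR : (1 : ℝ) ≤ X := by exact_mod_cast hX
  have hX0 : (0 : ℝ) < X := by linarith
  have hRR : (1 : ℝ) ≤ R := by exact_mod_cast hR
  have hR0 : (0 : ℝ) < R := by linarith
  have hXk : (0 : ℝ) < (X : ℝ) ^ k := by positivity
  obtain ⟨P, hP⟩ : ∃ P : ℕ, P = R * X ^ k := ⟨_, rfl⟩
  have hPR : (P : ℝ) = R * (X : ℝ) ^ k := by rw [hP]; push_cast; ring
  have hP0 : (0 : ℝ) < P := by rw [hPR]; positivity
  rw [← hP]
  obtain ⟨u, hu⟩ : ∃ u : ℕ → ℝ, u = fun a : ℕ => ‖fS k X ((a : ℝ) / (P : ℝ))‖ / X := ⟨_, rfl⟩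
  have hu0 : ∀ a, 0 ≤ u a := by intro a; rw [hu]; positivity
  have hgoal : ∑ a ∈ range P, (‖fS k X ((a : ℝ) / ((P : ℕ) : ℝ))‖ / X) ^ (3 * A) =
      ∑ a ∈ range P, u a ^ (3 * A) := by rw [hu]
  rw [hgoal]
  have hex : ∀ a, ∃ τ : ℕ × ℤ × ℤ, a < P → ((1 ≤ τ.1 ∧ -1 ≤ τ.2.1 ∧ τ.2.1 ≤ τ.1 + 1) ∧
      (a : ℤ) = τ.2.2 + ((P : ℤ) * τ.2.1) / (τ.1 : ℤ) ∧ u a ^ A * (wt τ : ℝ) ≤ (R + 2) * C) := by
    intro a
    by_cases haP : a < P
    swap
    · exact ⟨(0, 0, 0), fun h => absurd h haP⟩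
    obtain ⟨α, hα⟩ : ∃ α : ℝ, α = (a : ℝ) / P := ⟨_, rfl⟩
    obtain ⟨q, c0, hq, h1, h2⟩ := hW X hX α (fun n : ℤ => α * (n : ℝ) ^ k) (Ph_pow k α) 0 X (by simp)
    have hua : ‖∑ n ∈ Ico (0 : ℤ) X, ec ((fun n : ℤ => α * (n : ℝ) ^ k) n)‖ / X = u a := by
      rw [hu, hα]; rfl
    rw [hua] at h1 h2
    have hqR : (1 : ℝ) ≤ q := by exact_mod_cast hq
    have hq0 : (0 : ℝ) < q := by linarith
    have hqz : (0 : ℤ) < q := by exact_mod_cast (by omega : 0 < q)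
    obtain ⟨c, hc⟩ : ∃ c : ℤ, c = round ((q : ℝ) * α) := ⟨_, rfl⟩
    have hcle : |(q : ℝ) * α - c| ≤ |(q : ℝ) * α - c0| := by rw [hc]; exact round_le _ _
    have hchalf : |(q : ℝ) * α - c| ≤ 1 / 2 := by rw [hc]; exact abs_sub_round _
    have hα0 : 0 ≤ α := by rw [hα]; positivity
    have hα1 : α ≤ 1 := by
      rw [hα, div_le_one hP0]; exact_mod_cast haP.le
    have hqα : (q : ℝ) * α ≤ q := by
      calc (q : ℝ) * α ≤ q * 1 := mul_le_mul_of_nonneg_left hα1 hq0.le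
        _ = q := by ring
    have hqα0 : 0 ≤ (q : ℝ) * α := by positivity
    rw [abs_le] at hchalf
    have hc1 : -1 ≤ c := by
      have : (-1 : ℝ) ≤ c := by linarith [hchalf.2]
      exact_mod_cast this
    have hc2 : c ≤ q + 1 := by
      have : (c : ℝ) ≤ q + 1 := by linarith [hchalf.1]
      exact_mod_cast this
    obtain ⟨i, hi⟩ : ∃ i : ℤ, i = (a : ℤ) - ((P : ℤ) * c) / (q : ℤ) := ⟨_, rfl⟩
    refine ⟨(q, c, i), fun _ => ⟨⟨hq, hc1, hc2⟩, by simp only; rw [hi]; ring, ?_⟩⟩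
    have hqi : (q : ℝ) * |(i : ℝ)| ≤ P * |(q : ℝ) * α - c| + q := by
      have e2 := Int.mul_ediv_add_emod ((P : ℤ) * c) (q : ℤ)
      have e3 : ((q : ℤ) * i : ℤ) = q * a - P * c + ((P : ℤ) * c) % (q : ℤ) := by
        rw [hi]; linarith
      have e4 : ((q : ℝ) * i) = q * a - P * c + ((((P : ℤ) * c) % (q : ℤ) : ℤ) : ℝ) := by
        exact_mod_cast e3
      have e5 : (0 : ℤ) ≤ ((P : ℤ) * c) % (q : ℤ) := Int.emod_nonneg _ hqz.ne'
      have e6 : ((P : ℤ) * c) % (q : ℤ) < q := Int.emod_lt_of_pos _ hqz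
      have e5' : (0 : ℝ) ≤ ((((P : ℤ) * c) % (q : ℤ) : ℤ) : ℝ) := by exact_mod_cast e5
      have e6' : ((((P : ℤ) * c) % (q : ℤ) : ℤ) : ℝ) ≤ q := by exact_mod_cast e6.le
      have e7 : (q : ℝ) * a - P * c = P * (q * α - c) := by
        rw [hα]; field_simp
      have e8 : (q : ℝ) * |(i : ℝ)| = |(q : ℝ) * i| := by rw [abs_mul, abs_of_pos hq0]
      rw [e8, e4, e7]
      refine (abs_add_le _ _).trans (add_le_add ?_ ?_)
      · rw [abs_mul, abs_of_pos hP0]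
      · rw [abs_of_nonneg e5']; exact e6'
    have hwt : (wt (q, c, i) : ℝ) = q + q * |(i : ℝ)| := by
      unfold wt
      push_cast
      have : ((i.natAbs : ℕ) : ℝ) = |(i : ℝ)| := by rw [Nat.cast_natAbs]; simp
      rw [this]; ring
    have hA0 : 0 ≤ u a ^ A := pow_nonneg (hu0 a) _
    have h3 : P * |(q : ℝ) * α - c| * u a ^ A ≤ R * C := by
      calc P * |(q : ℝ) * α - c| * u a ^ A ≤ P * |(q : ℝ) * α - c0| * u a ^ A := by gcongr
        _ = R * (|(q : ℝ) * α - c0| * u a ^ A * (X : ℝ) ^ k) := by rw [hPR]; ring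
        _ ≤ R * C := mul_le_mul_of_nonneg_left h2 hR0.le
    rw [hwt]
    calc u a ^ A * (q + q * |(i : ℝ)|) ≤ u a ^ A * (q + (P * |(q : ℝ) * α - c| + q)) := by gcongr
      _ = 2 * (q * u a ^ A) + P * |(q : ℝ) * α - c| * u a ^ A := by ring
      _ ≤ 2 * C + R * C := by linarith
      _ = (R + 2) * C := by ring
  choose tau htau using hex
  have hterm : ∀ a ∈ range P, u a ^ (3 * A) ≤ ((R + 2) * C) ^ 3 * (wt (tau a) : ℝ) ^ (-(9 / 4) : ℝ) := by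
    intro a ha
    rw [Finset.mem_range] at ha
    obtain ⟨⟨t1, _, _⟩, _, t3⟩ := htau a ha
    have hw := wt_pos (tau a) t1
    have hwR : (1 : ℝ) ≤ (wt (tau a) : ℝ) := by exact_mod_cast hw
    have hw0 : (0 : ℝ) < (wt (tau a) : ℝ) := by linarith
    have h3 : u a ^ A ≤ (R + 2) * C / (wt (tau a) : ℝ) := by
      rw [le_div_iff₀ hw0]; exact t3
    calc u a ^ (3 * A) = (u a ^ A) ^ 3 := by rw [← pow_mul, mul_comm]
      _ ≤ ((R + 2) * C / (wt (tau a) : ℝ)) ^ 3 := pow_le_pow_left₀ (pow_nonneg (hu0 a) _) h3 3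
      _ = ((R + 2) * C) ^ 3 * (wt (tau a) : ℝ) ^ (-3 : ℝ) := by
          rw [div_pow, Real.rpow_neg hw0.le]
          have : (wt (tau a) : ℝ) ^ (3 : ℝ) = (wt (tau a) : ℝ) ^ 3 := by
            exact_mod_cast Real.rpow_natCast (wt (tau a) : ℝ) 3
          rw [this]
          rfl
      _ ≤ ((R + 2) * C) ^ 3 * (wt (tau a) : ℝ) ^ (-(9 / 4) : ℝ) := by
          refine mul_le_mul_of_nonneg_left ?_ (by positivity)
          exact Real.rpow_le_rpow_of_exponent_le hwR (by norm_num)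
  refine (Finset.sum_le_sum hterm).trans ?_
  rw [← Finset.mul_sum]
  have hinj : Set.InjOn tau (range P : Set ℕ) := by
    intro a ha b hb hab
    rw [Finset.mem_coe, Finset.mem_range] at ha hb
    have h1 := (htau a ha).2.1
    have h2 := (htau b hb).2.1
    rw [hab] at h1
    have : (a : ℤ) = b := h1.trans h2.symm
    exact_mod_cast this
  have h5 := hKs ((range P).image tau) (by
    intro τ hτ
    rw [Finset.mem_image] at hτ
    obtain ⟨a, ha, rfl⟩ := hτ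
    exact (htau a (Finset.mem_range.1 ha)).1)
  rw [Finset.sum_image hinj] at h5
  calc ((R + 2) * C) ^ 3 * ∑ a ∈ range P, (wt (tau a) : ℝ) ^ (-(9 / 4) : ℝ)
      ≤ ((R + 2) * C) ^ 3 * Ks := mul_le_mul_of_nonneg_left h5 (by positivity)
    _ = C ^ 3 * Ks * (R + 2) ^ 3 := by ring

lemma norm_one_add_ec (x : ℝ) : ‖1 + ec x‖ ^ 2 = 2 + 2 * Real.cos (2 * Real.pi * x) := by
  have h1 : ec x = Complex.exp (((2 * Real.pi * x : ℝ) : ℂ) * Complex.I) := by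
    unfold ec
    congr 1
  rw [h1, Complex.exp_mul_I, ← Complex.ofReal_cos, ← Complex.ofReal_sin, ← Complex.normSq_eq_norm_sq,
    Complex.normSq_apply]
  have hc := Real.sin_sq_add_cos_sq (2 * Real.pi * x)
  simp only [Complex.add_re, Complex.one_re, Complex.mul_re, Complex.ofReal_re, Complex.I_re,
    Complex.ofReal_im, Complex.I_im, Complex.add_im, Complex.one_im, Complex.mul_im]
  ring_nf
  ring_nf at hc
  linarith

lemma one_add_ec_le (Q : ℝ) (hQ : 2 ≤ Q) (q : ℕ) (c : ℤ) (hq : 1 ≤ q) (hqQ : (q : ℝ) ≤ Q)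
    (hc : ¬ (q : ℤ) ∣ c) : ‖1 + ec ((c : ℝ) / q)‖ ≤ 2 - 4 / Q ^ 2 := by
  have hqR : (0 : ℝ) < q := by exact_mod_cast hq
  have hQ0 : 0 < Q := by linarith
  have hQ2 : 4 ≤ Q ^ 2 := by
    calc (4 : ℝ) = 2 ^ 2 := by norm_num
      _ ≤ Q ^ 2 := pow_le_pow_left₀ (by norm_num) hQ 2
  obtain ⟨b, hb⟩ : ∃ b : ℤ, b = round ((c : ℝ) / q) := ⟨_, rfl⟩
  obtain ⟨x, hx⟩ : ∃ x : ℝ, x = (c : ℝ) / q - b := ⟨_, rfl⟩
  have hx1 : |x| ≤ 1 / 2 := by rw [hx, hb]; exact abs_sub_round _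
  have hne : c - q * b ≠ 0 := by
    intro h0
    exact hc ⟨b, by linarith⟩
  have hx2 : 1 / Q ≤ |x| := by
    have h1 : (1 : ℝ) ≤ |(c : ℝ) - q * b| := by
      have := Int.one_le_abs hne
      exact_mod_cast this
    have h2 : x = ((c : ℝ) - q * b) / q := by rw [hx]; field_simp
    rw [h2, abs_div, abs_of_pos hqR]
    exact div_le_div₀ (abs_nonneg _) h1 hqR hqQ
  have hec : ec ((c : ℝ) / q) = ec x := by
    have : (c : ℝ) / q = x + (b : ℤ) := by rw [hx]; ring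
    rw [this, ec_add_int]
  rw [hec]
  have h3 := norm_one_add_ec x
  have h4 : Real.cos (2 * Real.pi * x) ≤ 1 - 2 / Real.pi ^ 2 * (2 * Real.pi * x) ^ 2 := by
    refine Real.cos_le_one_sub_mul_cos_sq ?_
    rw [abs_mul, abs_of_pos (by positivity : (0 : ℝ) < 2 * Real.pi)]
    have := Real.pi_pos
    calc 2 * Real.pi * |x| ≤ 2 * Real.pi * (1 / 2) := mul_le_mul_of_nonneg_left hx1 (by positivity)
      _ = Real.pi := by ring
  have h5 : 2 / Real.pi ^ 2 * (2 * Real.pi * x) ^ 2 = 8 * x ^ 2 := by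
    have := Real.pi_pos
    field_simp
    ring
  rw [h5] at h4
  have h6 : (1 / Q) ^ 2 ≤ x ^ 2 := by
    rw [← sq_abs x]
    exact pow_le_pow_left₀ (by positivity) hx2 2
  have h7 : ‖1 + ec x‖ ^ 2 ≤ (2 - 4 / Q ^ 2) ^ 2 := by
    have e : (1 / Q) ^ 2 = 1 / Q ^ 2 := by rw [div_pow, one_pow]
    rw [e] at h6
    have e2 : (2 - 4 / Q ^ 2) ^ 2 = 4 - 16 * (1 / Q ^ 2) + 16 * (1 / Q ^ 2) ^ 2 := by ring
    have e3 : 0 ≤ 16 * (1 / Q ^ 2) ^ 2 := by positivity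
    rw [e2, h3]
    linarith
  refine le_of_pow_le_pow_left₀ (n := 2) (by norm_num) ?_ h7
  have : 4 / Q ^ 2 ≤ 1 := by rw [div_le_one (by positivity)]; exact hQ2
  linarith

lemma pow_sub_pow_le (k : ℕ) (a b : ℝ) (hb : 0 ≤ b) (hab : b ≤ a) :
    a ^ k - b ^ k ≤ k * (a - b) * a ^ (k - 1) := by
  rcases Nat.eq_zero_or_pos k with h0 | hpos
  · rw [h0]; simp
  have ha : 0 ≤ a := hb.trans hab
  rcases ha.eq_or_lt with h | h
  · have hb0 : b = 0 := le_antisymm (by rw [h]; exact hab) hb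
    rw [← h, hb0]
    simp
  have h1 := one_add_mul_le_pow (a := b / a - 1) (by
    have : 0 ≤ b / a := by positivity
    linarith) k
  have h2 : (1 + (b / a - 1)) ^ k = b ^ k / a ^ k := by
    rw [show 1 + (b / a - 1) = b / a by ring, div_pow]
  rw [h2, le_div_iff₀ (by positivity)] at h1
  have h3 : (1 + (k : ℝ) * (b / a - 1)) * a ^ k = a ^ k - k * (a - b) * a ^ (k - 1) := by
    obtain ⟨k', rfl⟩ : ∃ k', k = k' + 1 := ⟨k - 1, by omega⟩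
    rw [Nat.add_sub_cancel, pow_succ]
    field_simp
    ring
  rw [h3] at h1
  linarith

lemma ec_pair (k q : ℕ) (hq : 1 ≤ q) (hk : 1 ≤ k) (c : ℤ) (β : ℝ) (l : ℕ) :
    ‖ec (((c : ℝ) / q + β) * ((q : ℝ) * l) ^ k) + ec (((c : ℝ) / q + β) * ((q : ℝ) * l + 1) ^ k)‖ ≤
      ‖1 + ec ((c : ℝ) / q)‖ + 2 * Real.pi * (|β| * (((q : ℝ) * l + 1) ^ k - ((q : ℝ) * l) ^ k)) := by
  have hqR : (0 : ℝ) < q := by exact_mod_cast hq
  have hdiff : 0 ≤ ((q : ℝ) * l + 1) ^ k - ((q : ℝ) * l) ^ k := by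
    have := pow_le_pow_left₀ (show 0 ≤ (q : ℝ) * l by positivity) (by linarith : (q : ℝ) * l ≤ q * l + 1) k
    linarith
  -- first phase
  have h1 : ec (((c : ℝ) / q + β) * ((q : ℝ) * l) ^ k) = ec (β * ((q : ℝ) * l) ^ k) := by
    obtain ⟨k', rfl⟩ : ∃ k', k = k' + 1 := ⟨k - 1, by omega⟩
    have : ((c : ℝ) / q + β) * ((q : ℝ) * l) ^ (k' + 1) = β * ((q : ℝ) * l) ^ (k' + 1) +
        ((c * (q : ℤ) ^ k' * (l : ℤ) ^ (k' + 1) : ℤ) : ℝ) := by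
      push_cast
      rw [mul_pow, pow_succ (q : ℝ) k']
      field_simp
      ring
    rw [this, ec_add_int]
  have h2 : ec (((c : ℝ) / q + β) * ((q : ℝ) * l + 1) ^ k) =
      ec ((c : ℝ) / q) * ec (β * ((q : ℝ) * l + 1) ^ k) := by
    have hd : (q : ℤ) ∣ ((q : ℤ) * l + 1) ^ k - 1 ^ k := by
      have : ((q : ℤ) * l + 1) - 1 ∣ ((q : ℤ) * l + 1) ^ k - 1 ^ k := sub_dvd_pow_sub_pow _ _ _
      refine dvd_trans ?_ this
      exact ⟨l, by ring⟩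
    obtain ⟨w, hw⟩ := hd
    rw [one_pow] at hw
    have hw' : ((q : ℝ) * l + 1) ^ k = 1 + q * w := by
      have : (((q : ℤ) * l + 1) ^ k : ℤ) = 1 + q * w := by linarith
      exact_mod_cast this
    have : ((c : ℝ) / q + β) * ((q : ℝ) * l + 1) ^ k =
        ((c : ℝ) / q + β * ((q : ℝ) * l + 1) ^ k) + ((c * w : ℤ) : ℝ) := by
      rw [add_mul]
      nth_rewrite 1 [hw']
      push_cast
      field_simp
      ring
    rw [this, ec_add_int, ec_add]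
  rw [h1, h2]
  have h3 : ec (β * ((q : ℝ) * l) ^ k) + ec ((c : ℝ) / q) * ec (β * ((q : ℝ) * l + 1) ^ k) =
      ec (β * ((q : ℝ) * l) ^ k) * (1 + ec ((c : ℝ) / q)) +
      ec ((c : ℝ) / q) * (ec (β * ((q : ℝ) * l + 1) ^ k) - ec (β * ((q : ℝ) * l) ^ k)) := by ring
  rw [h3]
  refine (norm_add_le _ _).trans (add_le_add ?_ ?_)
  · rw [norm_mul, norm_ec, one_mul]
  · rw [norm_mul, norm_ec, one_mul]
    refine (norm_ec_sub_le _ _).trans (le_of_eq ?_)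
    rw [← mul_sub, abs_mul, abs_of_nonneg hdiff]

end Pool.Agent.helper132_sph
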