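import Pool.Agent.helper132_sph.SumWt

/-! The main proposition. -/

namespace Pool.Agent.helper132_sph

open Finset

lemma geom_ec (P : ℕ) (hP : 1 ≤ P) (w : ℤ) :
    (∑ a ∈ range P, ec ((a : ℝ) / P * w) = 0 ∨ ∑ a ∈ range P, ec ((a : ℝ) / P * w) = P) ∧
    (w = 0 → ∑ a ∈ range P, ec ((a : ℝ) / P * w) = P) := by
  have hPR : (P : ℝ) ≠ 0 := by
    have : (0 : ℝ) < P := by exact_mod_cast hP
    exact this.ne'
  have h1 : ∀ a : ℕ, ec ((a : ℝ) / P * w) = ec ((w : ℝ) / P) ^ a := by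
    intro a
    rw [← ec_nat_mul]
    congr 1
    ring
  simp only [h1]
  obtain ⟨z, hz⟩ : ∃ z, z = ec ((w : ℝ) / P) := ⟨_, rfl⟩
  rw [← hz]
  have hzP : z ^ P = 1 := by
    rw [hz, ← ec_nat_mul]
    have : (P : ℝ) * ((w : ℝ) / P) = (w : ℤ) := by field_simp
    rw [this, ec_int]
  constructor
  · by_cases h : z = 1
    · right; rw [h]; simp
    · left
      have := mul_geom_sum z P
      rw [hzP, sub_self] at this
      rcases mul_eq_zero.1 this with h2 | h2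
      · exact absurd (sub_eq_zero.1 h2) h
      · exact h2
  · intro hw
    have : z = 1 := by rw [hz, hw]; simp [ec_zero]
    rw [this]; simp

/-- number of representations `Σ y^k = n` with `y ∈ [0, X)^d` and `x - y ∈ E`. -/
def cnt {d : ℕ} (k X : ℕ) (E : Finset (Fin d → ℤ)) (x : Fin d → ℤ) (n : ℤ) : ℕ :=
  (E.filter (fun e => (∀ j, 0 ≤ x j - e j ∧ x j - e j < X) ∧ ∑ j, (x j - e j) ^ k = n)).card

lemma cnt_le {d : ℕ} (k X : ℕ) (hX : 1 ≤ X) (E : Finset (Fin d → ℤ)) (x : Fin d → ℤ) (n : ℤ) :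
    ((X ^ k : ℕ) : ℝ) * cnt k X E x n ≤
      ∑ a ∈ range (X ^ k), ‖Ts k X ((a : ℝ) / ((X : ℝ)) ^ k) E x‖ := by
  classical
  have hP : 1 ≤ X ^ k := Nat.one_le_pow _ _ hX
  obtain ⟨P, hPe⟩ : ∃ P, P = X ^ k := ⟨_, rfl⟩
  rw [← hPe] at hP ⊢
  have hPc : ((X : ℝ)) ^ k = P := by rw [hPe]; push_cast; ring
  rw [hPc]
  obtain ⟨Eb, hEb⟩ : ∃ Eb, Eb = E.filter (fun e => ∀ j, 0 ≤ x j - e j ∧ x j - e j < X) := ⟨_, rfl⟩
  have h1 : ∀ α : ℝ, Ts k X α E x = ∑ e ∈ Eb, ec (α * ((∑ j, (x j - e j) ^ k : ℤ) : ℝ)) := by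
    intro α
    unfold Ts
    rw [hEb, Finset.sum_filter]
    refine Finset.sum_congr rfl fun e _ => ?_
    split_ifs with h
    · have : ∀ j ∈ (Finset.univ : Finset (Fin d)), kap k X α (x j - e j) = ec (α * ((x j - e j : ℤ) : ℝ) ^ k) := by
        intro j _
        unfold kap
        rw [if_pos (h j)]
      rw [Finset.prod_congr rfl this]
      push_cast
      rw [Finset.mul_sum]
      have hs : ∀ (s : Finset (Fin d)) (f : Fin d → ℝ), ∏ j ∈ s, ec (f j) = ec (∑ j ∈ s, f j) := by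
        intro s f
        induction s using Finset.induction_on with
        | empty => simp [ec_zero]
        | insert i s hi ih => rw [Finset.prod_insert hi, Finset.sum_insert hi, ec_add, ih]
      rw [hs]
    · by_contra hne
      apply h
      intro j
      exact kap_supp k X α _ (Finset.prod_ne_zero_iff.1 hne j (Finset.mem_univ j))
  have h2 : ((P : ℝ)) * cnt k X E x n ≤
      (∑ e ∈ Eb, ∑ a ∈ range P, ec ((a : ℝ) / P * ((∑ j, (x j - e j) ^ k - n : ℤ) : ℝ))).re := by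
    rw [Complex.re_sum]
    unfold cnt
    have h3 : E.filter (fun e => (∀ j, 0 ≤ x j - e j ∧ x j - e j < X) ∧ ∑ j, (x j - e j) ^ k = n) =
        Eb.filter (fun e => ∑ j, (x j - e j) ^ k = n) := by
      rw [hEb, Finset.filter_filter]
    rw [h3, mul_comm, ← nsmul_eq_mul, ← Finset.sum_const, Finset.sum_filter]
    refine Finset.sum_le_sum fun e _ => ?_
    obtain ⟨g1, g2⟩ := geom_ec P hP (∑ j, (x j - e j) ^ k - n)
    split_ifs with h
    · rw [g2 (by rw [h]; ring)]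
      simp
    · rcases g1 with g | g
      · rw [g]; simp
      · rw [g]; simp
  refine h2.trans ?_
  refine (Complex.re_le_norm _).trans ?_
  rw [Finset.sum_comm]
  refine (norm_sum_le _ _).trans (Finset.sum_le_sum fun a _ => ?_)
  rw [h1]
  have h4 : ∑ e ∈ Eb, ec ((a : ℝ) / P * ((∑ j, (x j - e j) ^ k - n : ℤ) : ℝ)) =
      ec (-((a : ℝ) / P * n)) * ∑ e ∈ Eb, ec ((a : ℝ) / P * ((∑ j, (x j - e j) ^ k : ℤ) : ℝ)) := by
    rw [Finset.mul_sum]
    refine Finset.sum_congr rfl fun e _ => ?_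
    rw [← ec_add]
    congr 1
    push_cast
    ring
  rw [h4, norm_mul, norm_ec, one_mul]

/-- minor frequencies. -/
def Minor (k m : ℕ) (C : ℝ) (X a : ℕ) : Prop :=
  Dl k m X ((a : ℝ) / (X : ℝ) ^ k) ^ (2 * k) ≤ C / (X : ℝ) ^ (2 * k)

lemma minor_part {d : ℕ} (k m : ℕ) (C : ℝ) (hC : 1 ≤ C) (hk : 1 ≤ k)
    (E F : Finset (Fin d → ℤ)) (ρ : ℝ) (hρ : 0 < ρ) (hD : Dens E F ρ) (J : (Fin d → ℤ) → ℕ)
    (M : ℕ → Finset ℕ) (hM : ∀ n, ∀ a ∈ M n, a < (2 ^ n) ^ k ∧ Minor k m C (2 ^ n) a)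
    (hkd : 2 * k + 2 < d) (hmd : m * (2 * k + 2) ≤ d) :
    ∑ x ∈ F, ∑ a ∈ M (J x),
      ‖Ts k (2 ^ J x) ((a : ℝ) / (((2 ^ J x : ℕ) : ℝ)) ^ k) E x‖ / (((2 ^ J x : ℕ) : ℝ)) ^ d ≤
      2 * (2 ^ d * C ^ (k + 1)) * √((F.card : ℝ) * E.card * ρ ^ (1 - ((2 * k : ℕ) : ℝ) / d)) := by
  classical
  have hdR : (0 : ℝ) < d := by exact_mod_cast (by omega : 0 < d)
  have hC0 : 0 < C := by linarith
  obtain ⟨u, hu⟩ : ∃ u : ℝ, u = ρ ^ ((1 : ℝ) / d) := ⟨_, rfl⟩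
  have hu0 : 0 < u := by rw [hu]; exact Real.rpow_pos_of_pos hρ _
  have hud : u ^ d = ρ := by
    rw [hu, one_div]
    exact Real.rpow_inv_natCast_pow hρ.le (by omega)
  obtain ⟨V, hV⟩ : ∃ V, V = √((F.card : ℝ) * E.card * ρ ^ (1 - ((2 * k : ℕ) : ℝ) / d)) := ⟨_, rfl⟩
  have hV0 : 0 ≤ V := by rw [hV]; exact Real.sqrt_nonneg _
  rw [← hV, sum_group F J]
  -- only scales with `u 2^n ≥ 1` contribute
  have hzero : ∀ n, u * 2 ^ n < 1 → ∀ x ∈ F, J x = n → ∀ α : ℝ, Ts k (2 ^ n) α E x = 0 := by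
    intro n hn x hx _ α
    have h1 := hD x hx n
    have h2 : ρ * ((2 : ℝ) ^ n) ^ d < 1 := by
      rw [← hud, ← mul_pow]
      exact pow_lt_one₀ (by positivity) hn (by omega)
    have h3 : (E.filter (fun e => nd x e < 2 ^ n)).card = 0 := by
      have : (((E.filter (fun e => nd x e < 2 ^ n)).card : ℕ) : ℝ) < 1 := lt_of_le_of_lt h1 h2
      have h4 : (E.filter (fun e => nd x e < 2 ^ n)).card < 1 := by exact_mod_cast this
      omega
    rw [Finset.card_eq_zero] at h3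
    rw [Ts_filter k (2 ^ n) Nat.one_le_two_pow α E x (fun e => nd x e < 2 ^ n) (fun e _ h => h), h3]
    simp [Ts]
  have hstep : ∀ n ∈ F.image J, ∑ x ∈ F.filter (fun x => J x = n), ∑ a ∈ M (J x),
      ‖Ts k (2 ^ J x) ((a : ℝ) / (((2 ^ J x : ℕ) : ℝ)) ^ k) E x‖ / (((2 ^ J x : ℕ) : ℝ)) ^ d ≤
      if 1 ≤ u * 2 ^ n then (2 ^ d * C ^ (k + 1)) * V * (1 / u) * (1 / 2) ^ n else 0 := by
    intro n _
    have h1 : ∀ x ∈ F.filter (fun x => J x = n), ∑ a ∈ M (J x),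
        ‖Ts k (2 ^ J x) ((a : ℝ) / (((2 ^ J x : ℕ) : ℝ)) ^ k) E x‖ / (((2 ^ J x : ℕ) : ℝ)) ^ d =
        ∑ a ∈ M n, ‖Ts k (2 ^ n) ((a : ℝ) / (((2 ^ n : ℕ) : ℝ)) ^ k) E x‖ / (((2 ^ n : ℕ) : ℝ)) ^ d := by
      intro x hx
      rw [(Finset.mem_filter.1 hx).2]
    rw [Finset.sum_congr rfl h1]
    split_ifs with hn
    · rw [Finset.sum_comm]
      obtain ⟨X, hX⟩ : ∃ X : ℝ, X = 2 ^ n := ⟨_, rfl⟩
      have hXc : ((2 ^ n : ℕ) : ℝ) = X := by rw [hX]; push_cast; ring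
      have hX0 : 0 < X := by rw [hX]; positivity
      have hone : ∀ a ∈ M n, ∑ x ∈ F.filter (fun x => J x = n),
          ‖Ts k (2 ^ n) ((a : ℝ) / (((2 ^ n : ℕ) : ℝ)) ^ k) E x‖ / (((2 ^ n : ℕ) : ℝ)) ^ d ≤
          2 ^ d * V * (1 / u) * (C / X) ^ (k + 1) := by
        intro a ha
        obtain ⟨_, ha2⟩ := hM n a ha
        unfold Minor at ha2
        have hs := single_scale k m (2 * k + 2) n ((a : ℝ) / (((2 ^ n : ℕ) : ℝ)) ^ k) E F
          (F.filter (fun x => J x = n)) ρ hρ.le hD (Finset.filter_subset _ _) (by omega) hkd hmd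
        refine hs.trans ?_
        obtain ⟨δ, hδ⟩ : ∃ δ, δ = Dl k m (2 ^ n) ((a : ℝ) / (((2 ^ n : ℕ) : ℝ)) ^ k) := ⟨_, rfl⟩
        rw [← hδ] at ha2 ⊢
        have hδ0 : 0 ≤ δ := by rw [hδ]; exact Dl_nonneg _ _ _ _
        rw [hXc] at ha2
        have hδC : δ ≤ C / X := by
          refine le_of_pow_le_pow_left₀ (n := 2 * k) (by omega) (by positivity) ?_
          refine ha2.trans ?_
          rw [div_pow]
          refine div_le_div_of_nonneg_right ?_ (by positivity)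
          exact le_self_pow₀ hC (by omega)
        have h4 := rpow_const_le 2 ρ d (2 * k + 2) (by norm_num) hρ.le hkd
        have h5 : ρ ^ (1 - ((2 * k + 2 : ℕ) : ℝ) / d) = ρ ^ (1 - ((2 * k : ℕ) : ℝ) / d) * (1 / u) ^ 2 := by
          rw [hu, one_div, ← Real.rpow_neg hρ.le, ← Real.rpow_natCast, ← Real.rpow_mul hρ.le,
            ← Real.rpow_add hρ]
          congr 1
          push_cast
          field_simp
          ring
        have h6 : (((F.filter (fun x => J x = n)).card : ℕ) : ℝ) ≤ F.card := by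
          exact_mod_cast Finset.card_filter_le _ _
        have h7 : √(((F.filter (fun x => J x = n)).card : ℕ) : ℝ) *
            √(E.card * ((2 : ℝ) ^ d * ρ) ^ (1 - ((2 * k + 2 : ℕ) : ℝ) / d) * δ ^ (2 * k + 2)) ≤
            √((F.card : ℝ) * E.card * ρ ^ (1 - ((2 * k : ℕ) : ℝ) / d) *
              (2 ^ d * (1 / u) * (C / X) ^ (k + 1)) ^ 2) := by
          rw [← Real.sqrt_mul (Nat.cast_nonneg _)]
          refine Real.sqrt_le_sqrt ?_
          have h8 : (2 : ℝ) ^ d ≤ (2 ^ d) ^ 2 := le_self_pow₀ (one_le_pow₀ (by norm_num)) (by norm_num)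
          have hR0 : 0 ≤ ρ ^ (1 - ((2 * k : ℕ) : ℝ) / d) := Real.rpow_nonneg hρ.le _
          calc (((F.filter (fun x => J x = n)).card : ℕ) : ℝ) *
              (E.card * ((2 : ℝ) ^ d * ρ) ^ (1 - ((2 * k + 2 : ℕ) : ℝ) / d) * δ ^ (2 * k + 2))
              ≤ (F.card : ℝ) * (E.card * (2 ^ d * ρ ^ (1 - ((2 * k + 2 : ℕ) : ℝ) / d)) *
                (C / X) ^ (2 * k + 2)) := by gcongr
            _ = (F.card : ℝ) * E.card * ρ ^ (1 - ((2 * k : ℕ) : ℝ) / d) *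
                (2 ^ d * ((1 / u) ^ 2 * (C / X) ^ (2 * k + 2))) := by rw [h5]; ring
            _ ≤ (F.card : ℝ) * E.card * ρ ^ (1 - ((2 * k : ℕ) : ℝ) / d) *
                ((2 ^ d) ^ 2 * ((1 / u) ^ 2 * (C / X) ^ (2 * k + 2))) := by gcongr
            _ = _ := by ring
        refine h7.trans (le_of_eq ?_)
        rw [Real.sqrt_mul (by positivity), ← hV, Real.sqrt_sq (by positivity)]
        ring
      refine (Finset.sum_le_sum hone).trans ?_
      rw [Finset.sum_const, nsmul_eq_mul]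
      have hcard : ((M n).card : ℝ) ≤ X ^ k := by
        have h1 : M n ⊆ range ((2 ^ n) ^ k) := fun a ha => Finset.mem_range.2 (hM n a ha).1
        have h2 := Finset.card_le_card h1
        rw [Finset.card_range] at h2
        have h3 : ((M n).card : ℝ) ≤ (((2 ^ n) ^ k : ℕ) : ℝ) := by exact_mod_cast h2
        refine h3.trans (le_of_eq ?_)
        rw [hX]; push_cast; ring
      calc ((M n).card : ℝ) * (2 ^ d * V * (1 / u) * (C / X) ^ (k + 1))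
          ≤ X ^ k * (2 ^ d * V * (1 / u) * (C / X) ^ (k + 1)) :=
            mul_le_mul_of_nonneg_right hcard (by positivity)
        _ = (2 ^ d * C ^ (k + 1)) * V * (1 / u) * (1 / X) := by
            rw [div_pow]; field_simp; ring
        _ = _ := by rw [hX, one_div_pow]
    · push Not at hn
      refine le_of_eq (Finset.sum_eq_zero fun x hx => Finset.sum_eq_zero fun a _ => ?_)
      rw [Finset.mem_filter] at hx
      rw [hzero n hn x hx.1 hx.2]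
      simp
  refine (Finset.sum_le_sum hstep).trans ?_
  rw [← Finset.sum_filter]
  rcases ((F.image J).filter (fun n => 1 ≤ u * 2 ^ n)).eq_empty_or_nonempty with h0 | hne
  · rw [h0]
    simp only [Finset.sum_empty]
    positivity
  · obtain ⟨N0, hN0⟩ : ∃ N0, N0 = ((F.image J).filter (fun n => 1 ≤ u * 2 ^ n)).min' hne := ⟨_, rfl⟩
    have hN0m : 1 ≤ u * 2 ^ N0 := by
      have := Finset.min'_mem _ hne
      rw [← hN0] at this
      exact (Finset.mem_filter.1 this).2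
    rw [← Finset.mul_sum]
    have h1 := sum_half_pow_le ((F.image J).filter (fun n => 1 ≤ u * 2 ^ n)) N0 (fun n hn => by
      rw [hN0]; exact Finset.min'_le _ _ hn)
    calc _ ≤ 2 ^ d * C ^ (k + 1) * V * (1 / u) * (2 * (1 / 2) ^ N0) :=
          mul_le_mul_of_nonneg_left h1 (by positivity)
      _ = (2 * (2 ^ d * C ^ (k + 1)) * V) * (1 / (u * 2 ^ N0)) := by
          rw [one_div_pow]; field_simp
      _ ≤ (2 * (2 ^ d * C ^ (k + 1)) * V) * 1 := by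
          refine mul_le_mul_of_nonneg_left ?_ (by positivity)
          rw [div_le_one (by positivity)]
          exact hN0m
      _ = _ := by ring

/-- The main proposition. -/
theorem main_prop (κ : ℕ) (hκ : 2 ≤ κ) :
    ∃ D : ℕ, ∀ d, D ≤ d → ∃ K : ℝ, 1 ≤ K ∧ ∀ (E F : Finset (Fin d → ℤ)) (ρ : ℝ)
      (_ : 0 < ρ) (_ : Dens E F ρ) (J : (Fin d → ℤ) → ℕ) (n : (Fin d → ℤ) → ℤ),
      ∑ x ∈ F, ((((2 ^ J x) ^ (κ + 1) : ℕ) : ℝ) * cnt (κ + 1) (2 ^ J x) E x (n x)) /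
        (((2 ^ J x : ℕ) : ℝ)) ^ d ≤
        K * (√((F.card : ℝ) * E.card * ρ ^ (1 - ((2 * (κ + 1) : ℕ) : ℝ) / d)) + E.card) := by
  classical
  obtain ⟨m, C, hm, hC, hst, hcl⟩ := classify κ hκ
  obtain ⟨D, hTP⟩ := triple_prop κ m hκ hm C hC hst
  obtain ⟨Ks, hKs1, hKs⟩ := sum_wt
  refine ⟨max D (m * (2 * (κ + 1) + 2) + 1), ?_⟩
  intro d hd
  have hd1 : D ≤ d := le_trans (le_max_left _ _) hd
  have hd2 : m * (2 * (κ + 1) + 2) + 1 ≤ d := le_trans (le_max_right _ _) hd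
  have hkd : 2 * (κ + 1) + 2 < d := by
    have : 2 * (κ + 1) + 2 ≤ m * (2 * (κ + 1) + 2) := Nat.le_mul_of_pos_left _ hm
    omega
  obtain ⟨K, hK1, hK⟩ := hTP d hd1
  have hK0 : 0 ≤ K := by linarith
  have hC0 : 0 ≤ C := by linarith
  refine ⟨2 * (2 ^ d * C ^ (κ + 1 + 1)) + K * Ks, ?_, ?_⟩
  · have h1 : (0 : ℝ) ≤ 2 * (2 ^ d * C ^ (κ + 1 + 1)) := by positivity
    have h2 : (1 : ℝ) * 1 ≤ K * Ks := mul_le_mul hK1 hKs1 zero_le_one hK0
    linarith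
  intro E F ρ hρ hD J n
  obtain ⟨M, hM⟩ : ∃ M : ℕ → Finset ℕ, M = fun n =>
    (range ((2 ^ n) ^ (κ + 1))).filter (fun a => Minor (κ + 1) m C (2 ^ n) a) := ⟨_, rfl⟩
  obtain ⟨N, hN⟩ : ∃ N : ℕ → Finset ℕ, N = fun n =>
    (range ((2 ^ n) ^ (κ + 1))).filter (fun a => ¬ Minor (κ + 1) m C (2 ^ n) a) := ⟨_, rfl⟩
  have hch : ∀ n a, ∃ τ : ℕ × ℤ × ℤ, a ∈ N n → GoodT (κ + 1) m C (2 ^ n) τ ∧
      (a : ℤ) = τ.2.2 + (((2 ^ n : ℕ) : ℤ) ^ (κ + 1) * τ.2.1) / (τ.1 : ℤ) := by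
    intro n a
    by_cases ha : a ∈ N n
    · rw [hN, Finset.mem_filter, Finset.mem_range] at ha
      rcases hcl (2 ^ n) Nat.one_le_two_pow a ha.1 with h | ⟨τ, h1, h2⟩
      · exact absurd h ha.2
      · exact ⟨τ, fun _ => ⟨h1, h2⟩⟩
    · exact ⟨(0, 0, 0), fun h => absurd h ha⟩
  choose tau htau using hch
  obtain ⟨V, hV⟩ : ∃ V, V = √((F.card : ℝ) * E.card * ρ ^ (1 - ((2 * (κ + 1) : ℕ) : ℝ) / d)) := ⟨_, rfl⟩
  have hV0 : 0 ≤ V := by rw [hV]; exact Real.sqrt_nonneg _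
  have hR0 : 0 ≤ ρ ^ (1 - ((2 * (κ + 1) : ℕ) : ℝ) / d) := Real.rpow_nonneg hρ.le _
  -- frequency at triples
  have hfr : ∀ n, ∀ a ∈ N n, frq (κ + 1) (2 ^ n) (tau n a) = (a : ℝ) / (((2 ^ n : ℕ) : ℝ)) ^ (κ + 1) := by
    intro n a ha
    unfold frq
    rw [← (htau n a ha).2]
    simp
  have hinj : ∀ n, Set.InjOn (tau n) (N n : Set ℕ) := by
    intro n a ha b hb hab
    have h1 := (htau n a ha).2
    have h2 := (htau n b hb).2
    rw [hab] at h1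
    have : (a : ℤ) = b := h1.trans h2.symm
    exact_mod_cast this
  -- pointwise bound
  have hpt : ∀ x ∈ F, ((((2 ^ J x) ^ (κ + 1) : ℕ) : ℝ) * cnt (κ + 1) (2 ^ J x) E x (n x)) /
        (((2 ^ J x : ℕ) : ℝ)) ^ d ≤
      ∑ a ∈ M (J x), ‖Ts (κ + 1) (2 ^ J x) ((a : ℝ) / (((2 ^ J x : ℕ) : ℝ)) ^ (κ + 1)) E x‖ /
        (((2 ^ J x : ℕ) : ℝ)) ^ d +
      ∑ τ ∈ (N (J x)).image (tau (J x)),
        ‖Ts (κ + 1) (2 ^ J x) (frq (κ + 1) (2 ^ J x) τ) E x‖ / (((2 ^ J x : ℕ) : ℝ)) ^ d := by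
    intro x _
    have h1 := cnt_le (κ + 1) (2 ^ J x) Nat.one_le_two_pow E x (n x)
    rw [Finset.sum_image (hinj (J x))]
    have h2 : ∑ a ∈ N (J x), ‖Ts (κ + 1) (2 ^ J x) (frq (κ + 1) (2 ^ J x) (tau (J x) a)) E x‖ /
        (((2 ^ J x : ℕ) : ℝ)) ^ d =
        ∑ a ∈ N (J x), ‖Ts (κ + 1) (2 ^ J x) ((a : ℝ) / (((2 ^ J x : ℕ) : ℝ)) ^ (κ + 1)) E x‖ /
        (((2 ^ J x : ℕ) : ℝ)) ^ d := by
      refine Finset.sum_congr rfl fun a ha => ?_
      rw [hfr _ a ha]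
    rw [h2, ← Finset.sum_div, ← Finset.sum_div, ← add_div]
    refine div_le_div_of_nonneg_right ?_ (by positivity)
    refine h1.trans (le_of_eq ?_)
    rw [hM, hN]
    simp only
    rw [Finset.sum_filter_add_sum_filter_not]
  refine (Finset.sum_le_sum hpt).trans ?_
  rw [Finset.sum_add_distrib]
  have hminor := minor_part (κ + 1) m C hC (by omega) E F ρ hρ hD J M (by
    intro n a ha
    rw [hM, Finset.mem_filter, Finset.mem_range] at ha
    exact ha) hkd (by omega)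
  rw [← hV] at hminor
  -- the triples
  obtain ⟨T, hT⟩ : ∃ T : Finset (ℕ × ℤ × ℤ), T = (F.image J).biUnion (fun n => (N n).image (tau n)) :=
    ⟨_, rfl⟩
  have hTgood : ∀ n, ∀ τ ∈ (N n).image (tau n), GoodT (κ + 1) m C (2 ^ n) τ := by
    intro n τ hτ
    rw [Finset.mem_image] at hτ
    obtain ⟨a, ha, rfl⟩ := hτ
    exact (htau n a ha).1
  have hmajor : ∑ x ∈ F, ∑ τ ∈ (N (J x)).image (tau (J x)),
        ‖Ts (κ + 1) (2 ^ J x) (frq (κ + 1) (2 ^ J x) τ) E x‖ / (((2 ^ J x : ℕ) : ℝ)) ^ d ≤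
      K * Ks * (V + E.card) := by
    have hsw : ∑ x ∈ F, ∑ τ ∈ (N (J x)).image (tau (J x)),
        ‖Ts (κ + 1) (2 ^ J x) (frq (κ + 1) (2 ^ J x) τ) E x‖ / (((2 ^ J x : ℕ) : ℝ)) ^ d =
        ∑ τ ∈ T, ∑ x ∈ F.filter (fun x => τ ∈ (N (J x)).image (tau (J x))),
        ‖Ts (κ + 1) (2 ^ J x) (frq (κ + 1) (2 ^ J x) τ) E x‖ / (((2 ^ J x : ℕ) : ℝ)) ^ d := by
      refine Finset.sum_comm' ?_
      intro x τ
      rw [Finset.mem_filter, hT, Finset.mem_biUnion]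
      constructor
      · rintro ⟨h1, h2⟩
        exact ⟨⟨h1, h2⟩, J x, Finset.mem_image_of_mem J h1, h2⟩
      · rintro ⟨⟨h1, h2⟩, _⟩
        exact ⟨h1, h2⟩
    rw [hsw]
    have hone : ∀ τ ∈ T, ∑ x ∈ F.filter (fun x => τ ∈ (N (J x)).image (tau (J x))),
        ‖Ts (κ + 1) (2 ^ J x) (frq (κ + 1) (2 ^ J x) τ) E x‖ / (((2 ^ J x : ℕ) : ℝ)) ^ d ≤
        (wt τ : ℝ) ^ (-(9 / 4) : ℝ) * (K * (V + E.card)) := by
      intro τ _
      have h1 := hK τ E (F.filter (fun x => τ ∈ (N (J x)).image (tau (J x)))) ρ hρ.le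
        (hD.mono (Finset.filter_subset _ _)) J (by
          intro x hx
          exact hTgood _ _ (Finset.mem_filter.1 hx).2)
      refine h1.trans ?_
      have h2 : √(((F.filter (fun x => τ ∈ (N (J x)).image (tau (J x)))).card : ℝ) * E.card *
          ρ ^ (1 - ((2 * (κ + 1) : ℕ) : ℝ) / d)) ≤ V := by
        rw [hV]
        refine Real.sqrt_le_sqrt ?_
        have h3 : ((F.filter (fun x => τ ∈ (N (J x)).image (tau (J x)))).card : ℝ) ≤ F.card := by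
          exact_mod_cast Finset.card_filter_le _ _
        gcongr
      have h4 : 0 ≤ (wt τ : ℝ) ^ (-(9 / 4) : ℝ) := by positivity
      calc _ ≤ K * ((wt τ : ℝ) ^ (-(9 / 4) : ℝ) * (V + E.card)) := by gcongr
        _ = _ := by ring
    refine (Finset.sum_le_sum hone).trans ?_
    rw [← Finset.sum_mul]
    have h5 := hKs T (by
      intro τ hτ
      rw [hT, Finset.mem_biUnion] at hτ
      obtain ⟨n, _, hn⟩ := hτ
      have := hTgood n τ hn
      exact ⟨this.q_pos, this.c_ge, this.c_le⟩)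
    calc _ ≤ Ks * (K * (V + E.card)) := mul_le_mul_of_nonneg_right h5 (by positivity)
      _ = _ := by ring
  rw [← hV]
  have h6 : 2 * (2 ^ d * C ^ (κ + 1 + 1)) * V ≤ 2 * (2 ^ d * C ^ (κ + 1 + 1)) * (V + E.card) := by
    refine mul_le_mul_of_nonneg_left ?_ (by positivity)
    have : (0 : ℝ) ≤ E.card := Nat.cast_nonneg _
    linarith
  linarith

end Pool.Agent.helper132_sph
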