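import Pool.Agent.helper132_sph.Large

/-! The contribution of a single triple, all scales. -/

namespace Pool.Agent.helper132_sph

open Finset

lemma exists_box {d : ℕ} (F : Finset (Fin d → ℤ)) (J : (Fin d → ℤ) → ℕ) :
    ∃ B : Finset (Fin d → ℤ), ∀ x ∈ F, ∀ y : Fin d → ℤ,
      (∀ j, 0 ≤ x j - y j ∧ x j - y j < ((2 ^ J x : ℕ) : ℤ)) → y ∈ B := by
  classical
  refine ⟨F.biUnion (fun x => Fintype.piFinset (fun j => Icc (x j - ((2 ^ J x : ℕ) : ℤ)) (x j))), ?_⟩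
  intro x hx y hy
  rw [Finset.mem_biUnion]
  refine ⟨x, hx, ?_⟩
  rw [Fintype.mem_piFinset]
  intro j
  rw [Finset.mem_Icc]
  have := hy j
  constructor <;> linarith [this.1, this.2]

lemma large_scales {d k m : ℕ} {C : ℝ} {τ : ℕ × ℤ × ℤ} {F : Finset (Fin d → ℤ)}
    {J : (Fin d → ℤ) → ℕ} {Θ : ℝ} (hC : 1 ≤ C) (H : DualHyp k m C τ F J Θ)
    (hG : ∀ x ∈ F, GoodT k m C (2 ^ J x) τ)
    (E : Finset (Fin d → ℤ)) (ρ : ℝ) (hρ : 0 ≤ ρ) (hD : Dens E F ρ)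
    (j0 l : ℕ) (hl : 2 ≤ l) (hj0 : Nat.log 2 τ.1 + 2 ≤ j0) (hJ : ∀ x ∈ F, j0 + 2 ≤ J x)
    (hk : 1 ≤ k) (hkd : 2 * k < d) (hmd : m * (2 * k) ≤ d) :
    ∑ x ∈ F, ‖Ts k (2 ^ J x) (frq k (2 ^ J x) τ) E x‖ / (((2 ^ J x : ℕ) : ℝ)) ^ d ≤
      l * (6 * 32 ^ d * C ^ 2) * √((F.card : ℝ) * E.card *
        (ρ ^ (1 - ((2 * k : ℕ) : ℝ) / d) / (wt τ : ℝ) ^ 5)) +
      E.card * (d * 4 ^ (d - 1) * (2 * Real.pi * k * (τ.2.2.natAbs + 1) + 4) * (2 / 2 ^ l)) := by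
  classical
  obtain ⟨B, hB⟩ := exists_box F J
  have hC0 : 0 ≤ C := by linarith
  -- pointwise decomposition
  have hpt : ∀ x ∈ F, ‖Ts k (2 ^ J x) (frq k (2 ^ J x) τ) E x‖ / (((2 ^ J x : ℕ) : ℝ)) ^ d ≤
      ‖∑ y ∈ B, (∏ j, lam τ.1 k (2 ^ J x) (bet k τ (J x)) (x j - y j)) *
        Gf k τ.1 τ.2.1 j0 F E y‖ +
      ∑ s ∈ Ico 2 l, ‖∑ y ∈ B, (∏ j, lam τ.1 k (2 ^ J x) (bet k τ (J x)) (x j - y j)) *
        Gf k τ.1 τ.2.1 j0 F (E.filter (fun e => idx j0 F e + s = J x)) y‖ +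
      ∑ e ∈ E.filter (fun e => idx j0 F e + l ≤ J x),
      ‖∏ j, (kap k (2 ^ J x) (frq k (2 ^ J x) τ) (x j - e j) / ((2 ^ J x : ℕ) : ℂ)) -
        ∏ j, bker τ.1 k (2 ^ J x) (sj τ.1 (idx j0 F e)) τ.2.1 (bet k τ (J x)) (x j - e j)‖ +
      ∑ s ∈ Ico 2 l, ‖Ts k (2 ^ J x) (frq k (2 ^ J x) τ)
        (E.filter (fun e => idx j0 F e + s = J x)) x‖ / (((2 ^ J x : ℕ) : ℝ)) ^ d := by
    intro x hx
    have hX : 1 ≤ 2 ^ J x := Nat.one_le_two_pow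
    have hXR : (0 : ℝ) < ((2 ^ J x : ℕ) : ℝ) := by exact_mod_cast hX
    have hXC : ((2 ^ J x : ℕ) : ℂ) ≠ 0 := by
      rw [Nat.cast_ne_zero]; omega
    obtain ⟨α, hα⟩ : ∃ α, α = frq k (2 ^ J x) τ := ⟨_, rfl⟩
    rw [← hα]
    -- kap decomposition
    have d1 : Ts k (2 ^ J x) α E x = Ts k (2 ^ J x) α (E.filter (fun e => idx j0 F e + l ≤ J x)) x +
        ∑ s ∈ Ico 2 l, Ts k (2 ^ J x) α (E.filter (fun e => idx j0 F e + s = J x)) x := by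
      unfold Ts
      refine split_levels E (idx j0 F) (J x) l hl (fun e => ∏ j, kap k (2 ^ J x) α (x j - e j)) ?_
      intro e _ he
      by_contra hne
      have h1 := prod_kap_ne k (2 ^ J x) hX α x e hne
      have h2 := idx_visible j0 F x e hx (J x) (hJ x hx) h1
      omega
    have d2 : ∑ e ∈ E, ∏ j, bker τ.1 k (2 ^ J x) (sj τ.1 (idx j0 F e)) τ.2.1 (bet k τ (J x)) (x j - e j) =
        ∑ e ∈ E.filter (fun e => idx j0 F e + l ≤ J x),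
          ∏ j, bker τ.1 k (2 ^ J x) (sj τ.1 (idx j0 F e)) τ.2.1 (bet k τ (J x)) (x j - e j) +
        ∑ s ∈ Ico 2 l, ∑ e ∈ E.filter (fun e => idx j0 F e + s = J x),
          ∏ j, bker τ.1 k (2 ^ J x) (sj τ.1 (idx j0 F e)) τ.2.1 (bet k τ (J x)) (x j - e j) := by
      refine split_levels E (idx j0 F) (J x) l hl _ ?_
      intro e _ he
      by_contra hne
      have h1 := idx_far j0 F x e hx (J x) (hJ x hx) he
      have hge := idx_ge j0 F e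
      have hs := sj_ge τ.1 (idx j0 F e) H.q_pos (by omega)
      have hs3 := sj_le τ.1 (idx j0 F e)
      have h2 : nd x e < 2 ^ J x + sj τ.1 (idx j0 F e) := by
        rw [nd_lt_iff _ _ _ (by omega)]
        intro j
        have h3 := Finset.prod_ne_zero_iff.1 hne j (Finset.mem_univ j)
        have h4 := bker_supp _ _ _ _ _ _ _ (by omega) h3
        rw [abs_of_nonneg h4.1]
        have := h4.2
        push_cast at this ⊢
        linarith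
      omega
    have c1 : ∀ S : Finset (Fin d → ℤ), ∑ e ∈ S,
        ∏ j, bker τ.1 k (2 ^ J x) (sj τ.1 (idx j0 F e)) τ.2.1 (bet k τ (J x)) (x j - e j) =
        ∑ y ∈ B, (∏ j, lam τ.1 k (2 ^ J x) (bet k τ (J x)) (x j - y j)) * Gf k τ.1 τ.2.1 j0 F S y :=
      fun S => conv_set k τ.1 (2 ^ J x) τ.2.1 (bet k τ (J x)) j0 F S x B (hB x hx)
    rw [c1 E, Finset.sum_congr rfl (fun s _ => c1 _)] at d2
    have d3 : Ts k (2 ^ J x) α (E.filter (fun e => idx j0 F e + l ≤ J x)) x / ((2 ^ J x : ℕ) : ℂ) ^ d =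
        ∑ e ∈ E.filter (fun e => idx j0 F e + l ≤ J x),
          ∏ j, (kap k (2 ^ J x) α (x j - e j) / ((2 ^ J x : ℕ) : ℂ)) := by
      unfold Ts
      rw [Finset.sum_div]
      refine Finset.sum_congr rfl fun e _ => ?_
      rw [Finset.prod_div_distrib, Finset.prod_const, Finset.card_univ, Fintype.card_fin]
    have d4 : ‖Ts k (2 ^ J x) α (E.filter (fun e => idx j0 F e + l ≤ J x)) x‖ / (((2 ^ J x : ℕ) : ℝ)) ^ d =
        ‖∑ e ∈ E.filter (fun e => idx j0 F e + l ≤ J x),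
          ∏ j, (kap k (2 ^ J x) α (x j - e j) / ((2 ^ J x : ℕ) : ℂ))‖ := by
      rw [← d3, norm_div, norm_pow, Complex.norm_natCast]
    have d5 : ‖∑ e ∈ E.filter (fun e => idx j0 F e + l ≤ J x),
          ∏ j, (kap k (2 ^ J x) α (x j - e j) / ((2 ^ J x : ℕ) : ℂ))‖ ≤
        ‖∑ e ∈ E.filter (fun e => idx j0 F e + l ≤ J x),
          ∏ j, bker τ.1 k (2 ^ J x) (sj τ.1 (idx j0 F e)) τ.2.1 (bet k τ (J x)) (x j - e j)‖ +
        ∑ e ∈ E.filter (fun e => idx j0 F e + l ≤ J x),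
          ‖∏ j, (kap k (2 ^ J x) α (x j - e j) / ((2 ^ J x : ℕ) : ℂ)) -
          ∏ j, bker τ.1 k (2 ^ J x) (sj τ.1 (idx j0 F e)) τ.2.1 (bet k τ (J x)) (x j - e j)‖ := by
      have h1 : ∑ e ∈ E.filter (fun e => idx j0 F e + l ≤ J x),
          ∏ j, (kap k (2 ^ J x) α (x j - e j) / ((2 ^ J x : ℕ) : ℂ)) =
          ∑ e ∈ E.filter (fun e => idx j0 F e + l ≤ J x),
          ∏ j, bker τ.1 k (2 ^ J x) (sj τ.1 (idx j0 F e)) τ.2.1 (bet k τ (J x)) (x j - e j) +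
          ∑ e ∈ E.filter (fun e => idx j0 F e + l ≤ J x),
          (∏ j, (kap k (2 ^ J x) α (x j - e j) / ((2 ^ J x : ℕ) : ℂ)) -
          ∏ j, bker τ.1 k (2 ^ J x) (sj τ.1 (idx j0 F e)) τ.2.1 (bet k τ (J x)) (x j - e j)) := by
        rw [← Finset.sum_add_distrib]
        refine Finset.sum_congr rfl fun e _ => by ring
      rw [h1]
      exact (norm_add_le _ _).trans (add_le_add le_rfl (norm_sum_le _ _))
    have d6 : ‖∑ e ∈ E.filter (fun e => idx j0 F e + l ≤ J x),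
          ∏ j, bker τ.1 k (2 ^ J x) (sj τ.1 (idx j0 F e)) τ.2.1 (bet k τ (J x)) (x j - e j)‖ ≤
        ‖∑ y ∈ B, (∏ j, lam τ.1 k (2 ^ J x) (bet k τ (J x)) (x j - y j)) *
          Gf k τ.1 τ.2.1 j0 F E y‖ +
        ∑ s ∈ Ico 2 l, ‖∑ y ∈ B, (∏ j, lam τ.1 k (2 ^ J x) (bet k τ (J x)) (x j - y j)) *
          Gf k τ.1 τ.2.1 j0 F (E.filter (fun e => idx j0 F e + s = J x)) y‖ := by
      have h1 : ∑ e ∈ E.filter (fun e => idx j0 F e + l ≤ J x),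
          ∏ j, bker τ.1 k (2 ^ J x) (sj τ.1 (idx j0 F e)) τ.2.1 (bet k τ (J x)) (x j - e j) =
          ∑ y ∈ B, (∏ j, lam τ.1 k (2 ^ J x) (bet k τ (J x)) (x j - y j)) *
          Gf k τ.1 τ.2.1 j0 F E y -
          ∑ s ∈ Ico 2 l, ∑ y ∈ B, (∏ j, lam τ.1 k (2 ^ J x) (bet k τ (J x)) (x j - y j)) *
          Gf k τ.1 τ.2.1 j0 F (E.filter (fun e => idx j0 F e + s = J x)) y := by
        rw [d2]; ring
      rw [h1]
      exact (norm_sub_le _ _).trans (add_le_add le_rfl (norm_sum_le _ _))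
    have d7 : ‖Ts k (2 ^ J x) α E x‖ / (((2 ^ J x : ℕ) : ℝ)) ^ d ≤
        ‖Ts k (2 ^ J x) α (E.filter (fun e => idx j0 F e + l ≤ J x)) x‖ / (((2 ^ J x : ℕ) : ℝ)) ^ d +
        ∑ s ∈ Ico 2 l, ‖Ts k (2 ^ J x) α
        (E.filter (fun e => idx j0 F e + s = J x)) x‖ / (((2 ^ J x : ℕ) : ℝ)) ^ d := by
      rw [d1, ← Finset.sum_div, ← add_div]
      refine div_le_div_of_nonneg_right ?_ (by positivity)
      exact (norm_add_le _ _).trans (add_le_add le_rfl (norm_sum_le _ _))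
    linarith
  refine (Finset.sum_le_sum hpt).trans ?_
  rw [Finset.sum_add_distrib, Finset.sum_add_distrib, Finset.sum_add_distrib]
  obtain ⟨Z, hZ⟩ : ∃ Z, Z = √((F.card : ℝ) * E.card *
        (ρ ^ (1 - ((2 * k : ℕ) : ℝ) / d) / (wt τ : ℝ) ^ 5)) := ⟨_, rfl⟩
  have hZ0 : 0 ≤ Z := by rw [hZ]; exact Real.sqrt_nonneg _
  have p1 := full_lam hC H E B ρ hρ hD j0 hj0 hk hkd hmd
  have p3 := err_total k hk τ H.q_pos E F J j0 l hj0
  have p2 : ∑ x ∈ F, ∑ s ∈ Ico 2 l, ‖∑ y ∈ B, (∏ j, lam τ.1 k (2 ^ J x) (bet k τ (J x)) (x j - y j)) *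
        Gf k τ.1 τ.2.1 j0 F (E.filter (fun e => idx j0 F e + s = J x)) y‖ ≤
      l * (32 ^ d * C ^ 2 * Z) := by
    rw [Finset.sum_comm]
    calc _ ≤ ∑ s ∈ Ico 2 l, (32 ^ d * C ^ 2 * Z) := by
          refine Finset.sum_le_sum fun s _ => ?_
          rw [hZ]
          exact window_lam hC H E B ρ hρ hD j0 s hj0 hk hkd hmd
      _ = ((l - 2 : ℕ) : ℝ) * (32 ^ d * C ^ 2 * Z) := by
          rw [Finset.sum_const, Nat.card_Ico, nsmul_eq_mul]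
      _ ≤ l * (32 ^ d * C ^ 2 * Z) := by
          refine mul_le_mul_of_nonneg_right ?_ (by positivity)
          exact_mod_cast Nat.sub_le _ _
  have p4 : ∑ x ∈ F, ∑ s ∈ Ico 2 l, ‖Ts k (2 ^ J x) (frq k (2 ^ J x) τ)
        (E.filter (fun e => idx j0 F e + s = J x)) x‖ / (((2 ^ J x : ℕ) : ℝ)) ^ d ≤
      l * (16 ^ d * C * Z) := by
    rw [Finset.sum_comm]
    calc _ ≤ ∑ s ∈ Ico 2 l, (16 ^ d * C * Z) := by
          refine Finset.sum_le_sum fun s _ => ?_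
          rw [hZ]
          exact window_kap k m C hC τ E F ρ hρ hD J hG j0 s hk hkd hmd
      _ = ((l - 2 : ℕ) : ℝ) * (16 ^ d * C * Z) := by
          rw [Finset.sum_const, Nat.card_Ico, nsmul_eq_mul]
      _ ≤ l * (16 ^ d * C * Z) := by
          refine mul_le_mul_of_nonneg_right ?_ (by positivity)
          exact_mod_cast Nat.sub_le _ _
  rw [← hZ] at p1 ⊢
  have hl1 : (1 : ℝ) ≤ l := by exact_mod_cast (by omega : 1 ≤ l)
  have q1 : (16 : ℝ) ^ d * C ≤ 32 ^ d * C ^ 2 := by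
    refine mul_le_mul (pow_le_pow_left₀ (by norm_num) (by norm_num) d) ?_ hC0 (by positivity)
    exact le_self_pow₀ hC (by norm_num)
  have q2 : (l : ℝ) * (16 ^ d * C * Z) ≤ l * (32 ^ d * C ^ 2 * Z) := by
    refine mul_le_mul_of_nonneg_left (mul_le_mul_of_nonneg_right q1 hZ0) (by positivity)
  have q3 : 3 * (32 ^ d * C ^ 2) * Z ≤ l * (3 * (32 ^ d * C ^ 2) * Z) := by
    refine le_mul_of_one_le_left (by positivity) hl1
  have q4 : 0 ≤ (l : ℝ) * (32 ^ d * C ^ 2 * Z) := by positivity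
  have e1 : (l : ℝ) * (6 * 32 ^ d * C ^ 2) * Z = 6 * (l * (32 ^ d * C ^ 2 * Z)) := by ring
  have e2 : (l : ℝ) * (3 * (32 ^ d * C ^ 2) * Z) = 3 * (l * (32 ^ d * C ^ 2 * Z)) := by ring
  rw [e1]
  rw [e2] at q3
  linarith

end Pool.Agent.helper132_sph
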