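import Pool.Agent.helper132_sph.Vino

/-! An inverse theorem for one-variable Weyl sums with polynomial losses. -/

namespace Pool.Agent.helper132_sph

open Finset

/-- Phase functions of degree `m` with leading coefficient `α`, defined through differences. -/
def Ph : ℕ → ℝ → (ℤ → ℝ) → Prop
  | 0, α, φ => ∀ n, φ n = α
  | (m + 1), α, φ => ∀ h : ℤ, Ph m (((m : ℝ) + 1) * h * α) (fun n => φ (n + h) - φ n)

lemma Ph_zero (m : ℕ) : Ph m 0 (fun _ => 0) := by
  induction m with
  | zero => intro n; rfl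
  | succ m ih =>
    intro h
    simpa using ih

lemma Ph_add {m : ℕ} : ∀ {α β : ℝ} {φ ψ : ℤ → ℝ}, Ph m α φ → Ph m β ψ →
    Ph m (α + β) (fun n => φ n + ψ n) := by
  induction m with
  | zero =>
    intro α β φ ψ h1 h2 n
    simp only [h1 n, h2 n]
  | succ m ih =>
    intro α β φ ψ h1 h2 h
    have := ih (h1 h) (h2 h)
    convert this using 1
    · ring
    · funext n; ring

lemma Ph_smul {m : ℕ} (c : ℝ) : ∀ {α : ℝ} {φ : ℤ → ℝ}, Ph m α φ →
    Ph m (c * α) (fun n => c * φ n) := by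
  induction m with
  | zero =>
    intro α φ h1 n
    simp only [h1 n]
  | succ m ih =>
    intro α φ h1 h
    have := ih (h1 h)
    convert this using 1
    · ring
    · funext n; ring

lemma Ph_shift {m : ℕ} (c : ℤ) : ∀ {α : ℝ} {φ : ℤ → ℝ}, Ph m α φ →
    Ph m α (fun n => φ (n + c)) := by
  induction m with
  | zero =>
    intro α φ h1 n
    exact h1 _
  | succ m ih =>
    intro α φ h1 h
    have := ih (h1 h)
    convert this using 1
    funext n
    congr 2
    ring

lemma Ph_sum {m : ℕ} {ι : Type} (s : Finset ι) (a : ι → ℝ) (f : ι → ℤ → ℝ)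
    (h : ∀ i ∈ s, Ph m (a i) (f i)) : Ph m (∑ i ∈ s, a i) (fun n => ∑ i ∈ s, f i n) := by
  classical
  induction s using Finset.induction_on with
  | empty => simpa using Ph_zero m
  | insert i s hi ih =>
    simp only [Finset.sum_insert hi]
    exact Ph_add (h i (Finset.mem_insert_self _ _))
      (ih fun j hj => h j (Finset.mem_insert_of_mem hj))

lemma Ph_pow_aux (m : ℕ) : (∀ c : ℝ, Ph m c (fun n => c * (n : ℝ) ^ m)) ∧
    (∀ j < m, ∀ c : ℝ, Ph m 0 (fun n => c * (n : ℝ) ^ j)) := by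
  induction m with
  | zero => exact ⟨fun c n => by simp, fun j hj => by omega⟩
  | succ m ih =>
    have key : ∀ j ≤ m + 1, ∀ c : ℝ, ∀ h : ℤ,
        (fun n : ℤ => c * (((n + h : ℤ)) : ℝ) ^ j - c * (n : ℝ) ^ j) =
        fun n : ℤ => ∑ i ∈ range j, (c * (h : ℝ) ^ (j - i) * (j.choose i)) * (n : ℝ) ^ i := by
      intro j _ c h
      funext n
      push_cast
      rw [add_pow, Finset.sum_range_succ]
      simp only [Nat.sub_self, pow_zero, Nat.choose_self, Nat.cast_one, mul_one]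
      rw [mul_add, add_sub_cancel_right, Finset.mul_sum]
      refine Finset.sum_congr rfl fun i _ => by ring
    constructor
    · intro c h
      rw [key (m + 1) le_rfl c h]
      simp only [Finset.sum_range_succ]
      have h1 := Ph_sum (m := m) (range m) (fun _ => 0)
        (fun i n => (c * (h : ℝ) ^ (m + 1 - i) * ((m + 1).choose i)) * (n : ℝ) ^ i)
        (fun i hi => ih.2 i (Finset.mem_range.1 hi) _)
      have h2 := ih.1 (c * (h : ℝ) ^ (m + 1 - m) * ((m + 1).choose m))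
      have h3 := Ph_add h1 h2
      convert h3 using 1
      have : m + 1 - m = 1 := by omega
      rw [this]
      simp
      ring
    · intro j hj c h
      rw [key j hj.le c h]
      have h1 := Ph_sum (m := m) (range j) (fun _ => 0)
        (fun i n => (c * (h : ℝ) ^ (j - i) * (j.choose i)) * (n : ℝ) ^ i)
        (fun i hi => ih.2 i (by have := Finset.mem_range.1 hi; omega) _)
      convert h1 using 1
      simp

lemma Ph_pow (m : ℕ) (c : ℝ) : Ph m c (fun n => c * (n : ℝ) ^ m) := (Ph_pow_aux m).1 c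

lemma sum_Ico_int (a b : ℤ) {M : Type} [AddCommMonoid M] (f : ℤ → M) :
    ∑ n ∈ Ico a b, f n = ∑ i ∈ range (b - a).toNat, f (a + i) := by
  rw [Int.Ico_eq_finset_map, Finset.sum_map]
  rfl

lemma norm_sum_ec_le (a b : ℤ) (φ : ℤ → ℝ) (N : ℕ) (h : b - a ≤ N) :
    ‖∑ n ∈ Ico a b, ec (φ n)‖ ≤ N := by
  refine (norm_sum_le _ _).trans ?_
  simp only [norm_ec, Finset.sum_const, Int.card_Ico, nsmul_eq_mul, mul_one]
  have : (b - a).toNat ≤ N := by omega
  exact_mod_cast this

/-- base case: geometric sums. -/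
lemma weyl_one (N : ℕ) (hN : 1 ≤ N) (α : ℝ) (φ : ℤ → ℝ) (hφ : Ph 1 α φ) (a b : ℤ)
    (hab : b - a ≤ N) : ∃ c : ℤ, |α - c| * (‖∑ n ∈ Ico a b, ec (φ n)‖ / N) * N ≤ 1 := by
  obtain ⟨c, _, hc⟩ := exists_int_abs_sub_le α
  refine ⟨c, ?_⟩
  have hNR : (0 : ℝ) < N := by exact_mod_cast hN
  have e : |α - c| * (‖∑ n ∈ Ico a b, ec (φ n)‖ / N) * N = |α - c| * ‖∑ n ∈ Ico a b, ec (φ n)‖ := by
    field_simp
  rw [e]
  have h1 : ∀ n : ℤ, φ (n + 1) = φ n + α := by
    intro n
    have := hφ 1 n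
    simp at this
    linarith
  have h2 : (ec α - 1) * ∑ n ∈ Ico a b, ec (φ n) = ∑ n ∈ Ico a b, (ec (φ (n + 1)) - ec (φ n)) := by
    rw [Finset.mul_sum]
    refine Finset.sum_congr rfl fun n _ => ?_
    rw [h1 n, ec_add]
    ring
  have h3 : ‖∑ n ∈ Ico a b, (ec (φ (n + 1)) - ec (φ n))‖ ≤ 2 := by
    rw [sum_Ico_int]
    have : ∑ i ∈ range (b - a).toNat, (ec (φ (a + i + 1)) - ec (φ (a + i))) =
        ec (φ (a + ((b - a).toNat : ℕ))) - ec (φ (a + (0 : ℕ))) := by
      rw [← Finset.sum_range_sub (fun j : ℕ => ec (φ (a + j)))]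
      refine Finset.sum_congr rfl fun i _ => ?_
      push_cast
      rw [add_assoc]
    rw [this]
    refine (norm_sub_le _ _).trans ?_
    rw [norm_ec, norm_ec]
    norm_num
  rw [← h2, norm_mul] at h3
  have h4 : 4 * |α - c| * ‖∑ n ∈ Ico a b, ec (φ n)‖ ≤ 2 := by
    calc 4 * |α - c| * ‖∑ n ∈ Ico a b, ec (φ n)‖
        ≤ ‖ec α - 1‖ * ‖∑ n ∈ Ico a b, ec (φ n)‖ := by gcongr
      _ ≤ 2 := h3
  linarith

lemma filter_shift (a b h : ℤ) :
    (Ico a b).filter (fun n => n + h ∈ Ico a b) = Ico (max a (a - h)) (min b (b - h)) := by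
  ext n
  simp only [Finset.mem_filter, Finset.mem_Ico]
  constructor
  · rintro ⟨⟨h1, h2⟩, h3, h4⟩
    constructor
    · exact max_le h1 (by linarith)
    · exact lt_min h2 (by linarith)
  · rintro ⟨h1, h2⟩
    have h3 := le_max_left a (a - h)
    have h4 := le_max_right a (a - h)
    have h5 := min_le_left b (b - h)
    have h6 := min_le_right b (b - h)
    refine ⟨⟨by linarith, by linarith⟩, by linarith, by linarith⟩

/-- Weyl differencing. -/
lemma weyl_diff (N : ℕ) (φ : ℤ → ℝ) (a b : ℤ) (hab : b - a ≤ N) :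
    ‖∑ n ∈ Ico a b, ec (φ n)‖ ^ 2 ≤ ∑ h ∈ Ioo (-(N : ℤ)) N,
      ‖∑ n ∈ Ico (max a (a - h)) (min b (b - h)), ec (φ (n + h) - φ n)‖ := by
  have h1 : ‖∑ n ∈ Ico a b, ec (φ n)‖ ^ 2 =
      ‖(∑ n' ∈ Ico a b, ec (φ n')) * (starRingEnd ℂ) (∑ n ∈ Ico a b, ec (φ n))‖ := by
    rw [norm_mul, RCLike.norm_conj, sq]
  have h2 : (∑ n' ∈ Ico a b, ec (φ n')) * (starRingEnd ℂ) (∑ n ∈ Ico a b, ec (φ n)) =
      ∑ h ∈ Ioo (-(N : ℤ)) N,
      ∑ n ∈ Ico (max a (a - h)) (min b (b - h)), ec (φ (n + h) - φ n) := by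
    rw [map_sum, Finset.sum_mul_sum, Finset.sum_comm]
    have e1 : ∀ n ∈ Ico a b, ∑ n' ∈ Ico a b, ec (φ n') * (starRingEnd ℂ) (ec (φ n)) =
        ∑ h ∈ Ioo (-(N : ℤ)) N, if n + h ∈ Ico a b then ec (φ (n + h) - φ n) else 0 := by
      intro n hn
      rw [← Finset.sum_filter]
      refine Finset.sum_bij' (fun n' _ => n' - n) (fun h _ => n + h) ?_ ?_ ?_ ?_ ?_
      · intro n' hn'
        simp only [Finset.mem_filter, Finset.mem_Ioo, Finset.mem_Ico] at hn hn' ⊢
        constructor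
        · constructor <;> linarith
        · constructor <;> linarith
      · intro h hh
        simp only [Finset.mem_filter] at hh
        exact hh.2
      · intro n' _; ring
      · intro h _; ring
      · intro n' _
        rw [← ec_sub]
        congr 3
        ring
    rw [Finset.sum_congr rfl e1, Finset.sum_comm]
    refine Finset.sum_congr rfl fun h _ => ?_
    rw [← filter_shift, Finset.sum_filter]
  rw [h1, h2]
  exact norm_sum_le _ _

lemma norm_neg_shift (φ : ℤ → ℝ) (a b h : ℤ) :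
    ‖∑ n ∈ Ico (max a (a - -h)) (min b (b - -h)), ec (φ (n + -h) - φ n)‖ =
    ‖∑ n ∈ Ico (max a (a - h)) (min b (b - h)), ec (φ (n + h) - φ n)‖ := by
  rw [← RCLike.norm_conj (∑ n ∈ Ico (max a (a - h)) (min b (b - h)), ec (φ (n + h) - φ n)), map_sum]
  congr 1
  refine Finset.sum_bij' (fun n _ => n - h) (fun n _ => n + h) ?_ ?_ ?_ ?_ ?_
  · intro n hn
    rw [← filter_shift] at hn ⊢
    simp only [Finset.mem_filter, Finset.mem_Ico] at hn ⊢
    refine ⟨⟨by linarith [hn.2.1], by linarith [hn.2.2]⟩, by linarith [hn.1.1], by linarith [hn.1.2]⟩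
  · intro n hn
    rw [← filter_shift] at hn ⊢
    simp only [Finset.mem_filter, Finset.mem_Ico] at hn ⊢
    refine ⟨⟨by linarith [hn.2.1], by linarith [hn.2.2]⟩, by linarith [hn.1.1], by linarith [hn.1.2]⟩
  · intro n _; ring
  · intro n _; ring
  · intro n _
    rw [conj_ec]
    have e1 : n + -h = n - h := by ring
    have e2 : n - h + h = n := by ring
    rw [e1, e2]
    congr 1
    ring

lemma sum_Ioo_symm (N : ℕ) (f : ℤ → ℝ) (hN : 1 ≤ N) :
    ∑ h ∈ Ioo (-(N : ℤ)) N, f h = f 0 + ∑ h ∈ Ico 1 N, (f (h : ℤ) + f (-(h : ℤ))) := by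
  induction N, hN using Nat.le_induction with
  | base =>
    have e : Ioo (-((1 : ℕ) : ℤ)) ((1 : ℕ) : ℤ) = {0} := by
      ext x
      simp only [Finset.mem_Ioo, Finset.mem_singleton]
      omega
    rw [e]
    simp
  | succ N hN ih =>
    rw [Finset.sum_Ico_succ_top hN, ← add_assoc, ← ih]
    have e : Ioo (-((N + 1 : ℕ) : ℤ)) ((N + 1 : ℕ) : ℤ) =
        insert (N : ℤ) (insert (-(N : ℤ)) (Ioo (-(N : ℤ)) N)) := by
      ext x
      simp only [Finset.mem_insert, Finset.mem_Ioo]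
      push_cast
      omega
    rw [e, Finset.sum_insert, Finset.sum_insert]
    · ring
    · simp
    · simp only [Finset.mem_insert, Finset.mem_Ioo, not_or]
      omega

end Pool.Agent.helper132_sph
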