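import Pool.Agent.helper132_sph.Corr

/-! Factorisation of the kernel near a rational. -/

namespace Pool.Agent.helper132_sph

open Finset

lemma norm_ec_sub_le (x y : ℝ) : ‖ec x - ec y‖ ≤ 2 * Real.pi * |x - y| := by
  have h1 : ec x - ec y = ec y * (ec (x - y) - 1) := by
    rw [mul_sub, mul_one, ← ec_add]
    congr 2
    ring
  rw [h1, norm_mul, norm_ec, one_mul]
  have h2 := Complex.norm_exp_I_mul_ofReal_sub_one (2 * Real.pi * (x - y))
  rw [mul_comm Complex.I] at h2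
  unfold ec
  rw [h2, Real.norm_eq_abs, abs_mul, abs_two]
  have h3 : |Real.sin (2 * Real.pi * (x - y) / 2)| ≤ |2 * Real.pi * (x - y) / 2| := Real.abs_sin_le_abs
  have h4 : |2 * Real.pi * (x - y) / 2| = Real.pi * |x - y| := by
    have : 2 * Real.pi * (x - y) / 2 = Real.pi * (x - y) := by ring
    rw [this, abs_mul, abs_of_pos Real.pi_pos]
  rw [h4] at h3
  linarith

/-- the one-variable averaging kernel on `q ℤ`. -/
noncomputable def lam (q k X : ℕ) (β : ℝ) (n : ℤ) : ℂ :=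
  if (q : ℤ) ∣ n then ((q : ℂ) / X) * kap k X β n else 0

lemma lam_supp (q k X : ℕ) (β : ℝ) (n : ℤ) (h : lam q k X β n ≠ 0) :
    (q : ℤ) ∣ n ∧ 0 ≤ n ∧ n < X := by
  unfold lam at h
  by_cases hq : (q : ℤ) ∣ n
  · rw [if_pos hq] at h
    exact ⟨hq, kap_supp k X β n (right_ne_zero_of_mul h)⟩
  · rw [if_neg hq] at h
    exact absurd rfl h

lemma norm_lam_le (q k X : ℕ) (β : ℝ) (n : ℤ) : ‖lam q k X β n‖ ≤ (q : ℝ) / X := by
  unfold lam
  split_ifs
  · rw [norm_mul]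
    have h1 := norm_kap_le k X β n
    have h2 : ‖((q : ℂ) / X)‖ = (q : ℝ) / X := by simp
    rw [h2]
    exact mul_le_of_le_one_right (by positivity) h1
  · rw [norm_zero]; positivity

/-- the composed one-variable kernel. -/
noncomputable def bker (q k X s : ℕ) (c : ℤ) (β : ℝ) (n : ℤ) : ℂ :=
  ∑ z ∈ Ico (0 : ℤ) X, lam q k X β z * (kap k s ((c : ℝ) / q) (n - z) / s)

lemma card_mult (q s : ℕ) (hq : 1 ≤ q) (hs : q ∣ s) (n : ℤ) :
    ((Ioc (n - s) n).filter (fun z => (q : ℤ) ∣ z)).card = s / q := by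
  obtain ⟨s', rfl⟩ := hs
  have hqz : (0 : ℤ) < q := by exact_mod_cast hq
  have h := Int.Ioc_filter_dvd_card (n - ((q * s' : ℕ) : ℤ)) n hqz
  have hqQ : (q : ℚ) ≠ 0 := by
    have : (0 : ℚ) < q := by exact_mod_cast hq
    exact this.ne'
  have e1 : ((n - ((q * s' : ℕ) : ℤ) : ℤ) : ℚ) / ((q : ℤ) : ℚ) = (n : ℚ) / ((q : ℤ) : ℚ) - (s' : ℤ) := by
    push_cast
    field_simp
  rw [e1, Int.floor_sub_intCast] at h
  have e2 : ⌊(n : ℚ) / ((q : ℤ) : ℚ)⌋ - (⌊(n : ℚ) / ((q : ℤ) : ℚ)⌋ - (s' : ℤ)) = s' := by ring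
  rw [e2, max_eq_left (by positivity)] at h
  rw [Nat.mul_div_cancel_left _ (by omega)]
  exact_mod_cast h

lemma ec_rat_congr (k q : ℕ) (hq : 1 ≤ q) (c n z : ℤ) (hz : (q : ℤ) ∣ z) :
    ec ((c : ℝ) / q * ((n - z : ℤ) : ℝ) ^ k) = ec ((c : ℝ) / q * (n : ℝ) ^ k) := by
  have hqR : (q : ℝ) ≠ 0 := by
    have : (0 : ℝ) < q := by exact_mod_cast hq
    exact this.ne'
  have h1 : (q : ℤ) ∣ (n - z) ^ k - n ^ k := by
    have : (n - z) - n ∣ (n - z) ^ k - n ^ k := sub_dvd_pow_sub_pow _ _ _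
    refine dvd_trans ?_ this
    have h2 : (n - z) - n = -z := by ring
    rw [h2]
    exact (dvd_neg).2 hz
  obtain ⟨w, hw⟩ := h1
  have h2 : (((n - z : ℤ)) : ℝ) ^ k = (n : ℝ) ^ k + q * w := by
    have h3 : ((n - z) ^ k : ℤ) = n ^ k + q * w := by linarith
    have h4 : (((n - z) ^ k : ℤ) : ℝ) = ((n ^ k + q * w : ℤ) : ℝ) := by rw [h3]
    push_cast at h4 ⊢
    exact h4
  rw [h2]
  have h5 : (c : ℝ) / q * ((n : ℝ) ^ k + q * w) = (c : ℝ) / q * (n : ℝ) ^ k + ((c * w : ℤ) : ℝ) := by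
    push_cast
    field_simp
  rw [h5, ec_add_int]

lemma bker_eq (q k X s : ℕ) (c : ℤ) (β : ℝ) (n : ℤ) :
    bker q k X s c β n = ∑ z ∈ (Ioc (n - s) n).filter (fun z => (q : ℤ) ∣ z),
      (if 0 ≤ z ∧ z < X then ((q : ℂ) / (X * s)) * (ec (β * (z : ℝ) ^ k) *
        ec ((c : ℝ) / q * ((n - z : ℤ) : ℝ) ^ k)) else 0) := by
  classical
  unfold bker
  have e1 : ∀ z ∈ Ico (0 : ℤ) X, lam q k X β z * (kap k s ((c : ℝ) / q) (n - z) / s) =
      if z ∈ (Ioc (n - s) n).filter (fun z => (q : ℤ) ∣ z) then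
      (if 0 ≤ z ∧ z < X then ((q : ℂ) / (X * s)) * (ec (β * (z : ℝ) ^ k) *
        ec ((c : ℝ) / q * ((n - z : ℤ) : ℝ) ^ k)) else 0) else 0 := by
    intro z hz
    rw [Finset.mem_Ico] at hz
    rw [if_pos hz]
    unfold lam kap
    rw [if_pos hz]
    by_cases hq : (q : ℤ) ∣ z
    · rw [if_pos hq]
      by_cases h2 : 0 ≤ n - z ∧ n - z < s
      · rw [if_pos h2, if_pos]
        · rw [← div_div]
          ring
        · rw [Finset.mem_filter, Finset.mem_Ioc]
          exact ⟨⟨by linarith [h2.2], by linarith [h2.1]⟩, hq⟩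
      · rw [if_neg h2, if_neg]
        · simp
        · rw [Finset.mem_filter, Finset.mem_Ioc]
          rintro ⟨⟨h3, h4⟩, _⟩
          exact h2 ⟨by linarith, by linarith⟩
    · rw [if_neg hq, zero_mul]
      have hnm : ¬ z ∈ (Ioc (n - s) n).filter (fun z => (q : ℤ) ∣ z) := by
        rw [Finset.mem_filter]
        exact fun h => hq h.2
      rw [if_neg hnm]
  rw [Finset.sum_congr rfl e1, ← Finset.sum_filter, Finset.filter_mem_eq_inter]
  refine Finset.sum_subset Finset.inter_subset_right ?_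
  intro z hz hz2
  rw [if_neg]
  intro h
  exact hz2 (Finset.mem_inter.2 ⟨Finset.mem_Ico.2 h, hz⟩)

lemma sum_Ico_consec (f : ℤ → ℝ) {a b c : ℤ} (h1 : a ≤ b) (h2 : b ≤ c) :
    ∑ n ∈ Ico a b, f n + ∑ n ∈ Ico b c, f n = ∑ n ∈ Ico a c, f n := by
  rw [← Finset.sum_union (Finset.Ico_disjoint_Ico_consecutive a b c),
    Finset.Ico_union_Ico_eq_Ico h1 h2]

lemma bker_supp (q k X s : ℕ) (c : ℤ) (β : ℝ) (n : ℤ) (hs : 1 ≤ s) (h : bker q k X s c β n ≠ 0) :
    0 ≤ n ∧ n < X + s := by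
  rw [bker_eq] at h
  obtain ⟨z, hz, hne⟩ := Finset.exists_ne_zero_of_sum_ne_zero h
  rw [Finset.mem_filter, Finset.mem_Ioc] at hz
  by_cases h2 : 0 ≤ z ∧ z < X
  · constructor <;> linarith [hz.1.1, hz.1.2]
  · rw [if_neg h2] at hne
    exact absurd rfl hne

lemma norm_bker_le (q k X s : ℕ) (c : ℤ) (β : ℝ) (n : ℤ) (hX : 1 ≤ X) (hq : 1 ≤ q) (hs : 1 ≤ s)
    (hqs : q ∣ s) : ‖bker q k X s c β n‖ ≤ 1 / X := by
  have hXR : (0 : ℝ) < X := by exact_mod_cast hX
  have hqR : (0 : ℝ) < q := by exact_mod_cast hq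
  have hsR : (0 : ℝ) < s := by exact_mod_cast hs
  rw [bker_eq]
  calc _ ≤ ∑ z ∈ (Ioc (n - s) n).filter (fun z => (q : ℤ) ∣ z), ((q : ℝ) / (X * s)) := by
        refine (norm_sum_le _ _).trans (Finset.sum_le_sum fun z _ => ?_)
        split_ifs
        · rw [norm_mul, norm_mul, norm_ec, norm_ec, mul_one, mul_one]
          simp
        · rw [norm_zero]; positivity
    _ = ((s / q : ℕ) : ℝ) * ((q : ℝ) / (X * s)) := by
        rw [Finset.sum_const, card_mult q s hq hqs, nsmul_eq_mul]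
    _ = 1 / X := by
        obtain ⟨s', rfl⟩ := hqs
        rw [Nat.mul_div_cancel_left _ (by omega)]
        have : (s' : ℝ) ≠ 0 := by
          rintro h
          rw [Nat.cast_mul, h, mul_zero] at hsR
          exact lt_irrefl _ hsR
        push_cast
        field_simp

lemma ker_close (q k X s : ℕ) (c : ℤ) (t : ℝ) (n : ℤ) (hk : 1 ≤ k) (hX : 1 ≤ X) (hq : 1 ≤ q) (hs : 1 ≤ s)
    (hqs : q ∣ s) (hn1 : (s : ℤ) ≤ n) (hn2 : n < X) :
    ‖kap k X ((c : ℝ) / q + t / (X : ℝ) ^ k) n / X - bker q k X s c (t / (X : ℝ) ^ k) n‖ ≤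
      (2 * Real.pi * k * |t| * s / X) / X := by
  have hXR : (0 : ℝ) < X := by exact_mod_cast hX
  have hqR : (0 : ℝ) < q := by exact_mod_cast hq
  have hsR : (0 : ℝ) < s := by exact_mod_cast hs
  set β : ℝ := t / (X : ℝ) ^ k with hβ
  set Z := (Ioc (n - s) n).filter (fun z => (q : ℤ) ∣ z) with hZ
  have hn0 : 0 ≤ n := by
    have : (0 : ℤ) ≤ s := Nat.cast_nonneg s
    linarith
  have hcard : (Z.card : ℝ) * ((q : ℝ) / (X * s)) = 1 / X := by
    rw [hZ, card_mult q s hq hqs]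
    obtain ⟨s', rfl⟩ := hqs
    rw [Nat.mul_div_cancel_left _ (by omega)]
    have : (s' : ℝ) ≠ 0 := by
      rintro h
      rw [Nat.cast_mul, h, mul_zero] at hsR
      exact lt_irrefl _ hsR
    push_cast
    field_simp
  have hcardC : (Z.card : ℂ) * ((q : ℂ) / (X * s)) = 1 / X := by
    have := congrArg (fun x : ℝ => (x : ℂ)) hcard
    push_cast at this
    exact this
  have h1 : kap k X ((c : ℝ) / q + β) n / X = ∑ z ∈ Z, ((q : ℂ) / (X * s)) *
      (ec (β * (n : ℝ) ^ k) * ec ((c : ℝ) / q * (n : ℝ) ^ k)) := by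
    rw [Finset.sum_const, nsmul_eq_mul, ← mul_assoc, hcardC]
    unfold kap
    rw [if_pos ⟨hn0, hn2⟩, ← ec_add]
    have : ((c : ℝ) / q + β) * (n : ℝ) ^ k = β * (n : ℝ) ^ k + (c : ℝ) / q * (n : ℝ) ^ k := by ring
    rw [this]
    ring
  have h2 : bker q k X s c β n = ∑ z ∈ Z, ((q : ℂ) / (X * s)) *
      (ec (β * (z : ℝ) ^ k) * ec ((c : ℝ) / q * (n : ℝ) ^ k)) := by
    rw [bker_eq]
    refine Finset.sum_congr rfl fun z hz => ?_
    rw [hZ, Finset.mem_filter, Finset.mem_Ioc] at hz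
    rw [if_pos ⟨by linarith [hz.1.1], by linarith [hz.1.2]⟩, ec_rat_congr k q hq c n z hz.2]
  rw [h1, h2, ← Finset.sum_sub_distrib]
  have hpt : ∀ z ∈ Z, ‖((q : ℂ) / (X * s)) * (ec (β * (n : ℝ) ^ k) * ec ((c : ℝ) / q * (n : ℝ) ^ k)) -
      ((q : ℂ) / (X * s)) * (ec (β * (z : ℝ) ^ k) * ec ((c : ℝ) / q * (n : ℝ) ^ k))‖ ≤
      ((q : ℝ) / (X * s)) * (2 * Real.pi * k * |t| * s / X) := by
    intro z hz
    rw [hZ, Finset.mem_filter, Finset.mem_Ioc] at hz
    have e1 : ((q : ℂ) / (X * s)) * (ec (β * (n : ℝ) ^ k) * ec ((c : ℝ) / q * (n : ℝ) ^ k)) -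
      ((q : ℂ) / (X * s)) * (ec (β * (z : ℝ) ^ k) * ec ((c : ℝ) / q * (n : ℝ) ^ k)) =
      ((q : ℂ) / (X * s)) * ((ec (β * (n : ℝ) ^ k) - ec (β * (z : ℝ) ^ k)) *
        ec ((c : ℝ) / q * (n : ℝ) ^ k)) := by ring
    rw [e1, norm_mul, norm_mul, norm_ec, mul_one]
    have e2 : ‖((q : ℂ) / (X * s))‖ = (q : ℝ) / (X * s) := by simp
    rw [e2]
    refine mul_le_mul_of_nonneg_left ?_ (by positivity)
    refine (norm_ec_sub_le _ _).trans ?_
    have e3 : |β * (n : ℝ) ^ k - β * (z : ℝ) ^ k| ≤ (|t| / (X : ℝ) ^ k) * (s * k * (X : ℝ) ^ (k - 1)) := by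
      rw [← mul_sub, abs_mul]
      have e4 : |β| = |t| / (X : ℝ) ^ k := by
        rw [hβ, abs_div, abs_of_pos (show (0 : ℝ) < (X : ℝ) ^ k by positivity)]
      rw [e4]
      refine mul_le_mul_of_nonneg_left ?_ (by positivity)
      refine (abs_pow_sub_pow_le (n : ℝ) (z : ℝ) k).trans ?_
      have hzn : |(n : ℝ) - z| ≤ s := by
        rw [abs_le]
        have a1 : ((n - s : ℤ) : ℝ) < z := by exact_mod_cast hz.1.1
        have a2 : (z : ℝ) ≤ n := by exact_mod_cast hz.1.2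
        push_cast at a1
        constructor <;> linarith
      have hz0 : (0 : ℤ) ≤ z := by linarith [hz.1.1]
      have hmax : max |(n : ℝ)| |(z : ℝ)| ≤ X := by
        have a1 : (0 : ℝ) ≤ n := by exact_mod_cast hn0
        have a2 : (0 : ℝ) ≤ z := by exact_mod_cast hz0
        have a3 : (n : ℝ) ≤ X := by exact_mod_cast hn2.le
        have a4 : (z : ℝ) ≤ n := by exact_mod_cast hz.1.2
        rw [abs_of_nonneg a1, abs_of_nonneg a2]
        exact max_le a3 (a4.trans a3)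
      refine mul_le_mul (mul_le_mul_of_nonneg_right hzn (Nat.cast_nonneg _)) ?_ (by positivity)
        (by positivity)
      exact pow_le_pow_left₀ (by positivity) hmax _
    have e5 : (|t| / (X : ℝ) ^ k) * (s * k * (X : ℝ) ^ (k - 1)) = k * |t| * s / X := by
      have : (X : ℝ) ^ k = (X : ℝ) ^ (k - 1) * X := by
        rw [← pow_succ]; congr 1; omega
      rw [this]
      field_simp
    rw [e5] at e3
    calc 2 * Real.pi * |β * (n : ℝ) ^ k - β * (z : ℝ) ^ k| ≤ 2 * Real.pi * (k * |t| * s / X) := by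
          refine mul_le_mul_of_nonneg_left e3 (by positivity)
      _ = 2 * Real.pi * k * |t| * s / X := by ring
  calc _ ≤ ∑ z ∈ Z, ((q : ℝ) / (X * s)) * (2 * Real.pi * k * |t| * s / X) :=
        (norm_sum_le _ _).trans (Finset.sum_le_sum hpt)
    _ = (Z.card * ((q : ℝ) / (X * s))) * (2 * Real.pi * k * |t| * s / X) := by
        rw [Finset.sum_const, nsmul_eq_mul]; ring
    _ = _ := by rw [hcard]; ring

lemma fact_one (q k X s : ℕ) (c : ℤ) (t : ℝ) (hk : 1 ≤ k) (hX : 1 ≤ X) (hq : 1 ≤ q) (hs : 1 ≤ s)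
    (hqs : q ∣ s) (hsX : s ≤ X) :
    ∑ n ∈ Ico (0 : ℤ) (X + s),
      ‖kap k X ((c : ℝ) / q + t / (X : ℝ) ^ k) n / X - bker q k X s c (t / (X : ℝ) ^ k) n‖ ≤
      (2 * Real.pi * k * |t| + 4) * s / X := by
  have hXR : (0 : ℝ) < X := by exact_mod_cast hX
  have hsR : (0 : ℝ) < s := by exact_mod_cast hs
  have hsXz : (s : ℤ) ≤ X := by exact_mod_cast hsX
  have hpi := Real.pi_pos
  set f : ℤ → ℝ := fun n =>
    ‖kap k X ((c : ℝ) / q + t / (X : ℝ) ^ k) n / X - bker q k X s c (t / (X : ℝ) ^ k) n‖ with hf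
  have htriv : ∀ n, f n ≤ 2 / X := by
    intro n
    have h1 : ‖kap k X ((c : ℝ) / q + t / (X : ℝ) ^ k) n / X‖ ≤ 1 / X := by
      rw [norm_div]
      have : ‖(X : ℂ)‖ = X := by simp
      rw [this]
      exact div_le_div_of_nonneg_right (norm_kap_le _ _ _ _) hXR.le
    have h2 := norm_bker_le q k X s c (t / (X : ℝ) ^ k) n hX hq hs hqs
    refine (norm_sub_le _ _).trans ?_
    have : (2 : ℝ) / X = 1 / X + 1 / X := by ring
    linarith
  have hsplit : ∑ n ∈ Ico (0 : ℤ) (X + s), f n =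
      ∑ n ∈ Ico (0 : ℤ) s, f n + (∑ n ∈ Ico (s : ℤ) X, f n + ∑ n ∈ Ico (X : ℤ) (X + s), f n) := by
    rw [sum_Ico_consec f hsXz (by linarith), sum_Ico_consec f (by positivity) (by linarith)]
  rw [hsplit]
  have h1 : ∑ n ∈ Ico (0 : ℤ) s, f n ≤ s * (2 / X) := by
    calc ∑ n ∈ Ico (0 : ℤ) s, f n ≤ ∑ n ∈ Ico (0 : ℤ) s, (2 / X : ℝ) := Finset.sum_le_sum fun n _ => htriv n
      _ = s * (2 / X) := by rw [Finset.sum_const, Int.card_Ico, nsmul_eq_mul]; simp
  have h3 : ∑ n ∈ Ico (X : ℤ) (X + s), f n ≤ s * (2 / X) := by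
    calc ∑ n ∈ Ico (X : ℤ) (X + s), f n ≤ ∑ n ∈ Ico (X : ℤ) (X + s), (2 / X : ℝ) :=
          Finset.sum_le_sum fun n _ => htriv n
      _ = s * (2 / X) := by rw [Finset.sum_const, Int.card_Ico, nsmul_eq_mul]; simp
  have h2 : ∑ n ∈ Ico (s : ℤ) X, f n ≤ 2 * Real.pi * k * |t| * s / X := by
    calc ∑ n ∈ Ico (s : ℤ) X, f n ≤ ∑ n ∈ Ico (s : ℤ) X, ((2 * Real.pi * k * |t| * s / X) / X) := by
          refine Finset.sum_le_sum fun n hn => ?_
          rw [Finset.mem_Ico] at hn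
          exact ker_close q k X s c t n hk hX hq hs hqs hn.1 hn.2
      _ = (((X : ℤ) - s).toNat : ℝ) * ((2 * Real.pi * k * |t| * s / X) / X) := by
          rw [Finset.sum_const, Int.card_Ico, nsmul_eq_mul]
      _ ≤ X * ((2 * Real.pi * k * |t| * s / X) / X) := by
          refine mul_le_mul_of_nonneg_right ?_ (by positivity)
          have : ((X : ℤ) - s).toNat ≤ X := by omega
          exact_mod_cast this
      _ = 2 * Real.pi * k * |t| * s / X := by field_simp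
  have e : (2 * Real.pi * k * |t| + 4) * s / X =
      s * (2 / X) + (2 * Real.pi * k * |t| * s / X + s * (2 / X)) := by ring
  rw [e]
  linarith

lemma prod_sub_prod_le {ι : Type} [DecidableEq ι] (S : Finset ι) (a b : ι → ℂ) :
    ‖∏ i ∈ S, a i - ∏ i ∈ S, b i‖ ≤
      ∑ i ∈ S, ‖a i - b i‖ * ∏ l ∈ S.erase i, (‖a l‖ + ‖b l‖) := by
  induction S using Finset.induction_on with
  | empty => simp
  | insert j S hj ih =>
    rw [Finset.prod_insert hj, Finset.prod_insert hj, Finset.sum_insert hj,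
      Finset.erase_insert hj]
    have h1 : a j * ∏ i ∈ S, a i - b j * ∏ i ∈ S, b i =
        (a j - b j) * ∏ i ∈ S, a i + b j * (∏ i ∈ S, a i - ∏ i ∈ S, b i) := by ring
    rw [h1]
    refine (norm_add_le _ _).trans (add_le_add ?_ ?_)
    · rw [norm_mul, norm_prod]
      refine mul_le_mul_of_nonneg_left ?_ (norm_nonneg _)
      refine Finset.prod_le_prod (fun i _ => norm_nonneg _) fun i _ => ?_
      linarith [norm_nonneg (b i)]
    · rw [norm_mul]
      calc ‖b j‖ * ‖∏ i ∈ S, a i - ∏ i ∈ S, b i‖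
          ≤ (‖a j‖ + ‖b j‖) * ∑ i ∈ S, ‖a i - b i‖ * ∏ l ∈ S.erase i, (‖a l‖ + ‖b l‖) := by
            refine mul_le_mul ?_ ih (norm_nonneg _) (by positivity)
            linarith [norm_nonneg (a j)]
        _ = ∑ i ∈ S, ‖a i - b i‖ * ∏ l ∈ (insert j S).erase i, (‖a l‖ + ‖b l‖) := by
            rw [Finset.mul_sum]
            refine Finset.sum_congr rfl fun i hi => ?_
            have hij : i ≠ j := fun h => hj (h ▸ hi)
            rw [Finset.erase_insert_of_ne hij.symm, Finset.prod_insert (by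
              rw [Finset.mem_erase]; exact fun h => hj h.2)]
            ring

/-- `ℓ¹` distance of two product kernels supported in a box. -/
lemma prod_ker_l1 (d : ℕ) (a b : ℤ → ℂ) (N : ℤ) (δ Ma : ℝ)
    (h1 : ∑ n ∈ Ico (0 : ℤ) N, ‖a n - b n‖ ≤ δ)
    (h2 : ∑ n ∈ Ico (0 : ℤ) N, (‖a n‖ + ‖b n‖) ≤ Ma) (hδ : 0 ≤ δ) :
    ∑ v ∈ Fintype.piFinset (fun _ : Fin d => Ico (0 : ℤ) N), ‖∏ j, a (v j) - ∏ j, b (v j)‖ ≤
      d * (δ * Ma ^ (d - 1)) := by
  classical
  have hMa : 0 ≤ Ma := (Finset.sum_nonneg fun n _ => by positivity).trans h2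
  calc ∑ v ∈ Fintype.piFinset (fun _ : Fin d => Ico (0 : ℤ) N), ‖∏ j, a (v j) - ∏ j, b (v j)‖
      ≤ ∑ v ∈ Fintype.piFinset (fun _ : Fin d => Ico (0 : ℤ) N), ∑ i : Fin d,
        ‖a (v i) - b (v i)‖ * ∏ l ∈ Finset.univ.erase i, (‖a (v l)‖ + ‖b (v l)‖) :=
        Finset.sum_le_sum fun v _ => prod_sub_prod_le Finset.univ (fun j => a (v j)) (fun j => b (v j))
    _ = ∑ i : Fin d, ∑ v ∈ Fintype.piFinset (fun _ : Fin d => Ico (0 : ℤ) N),
        ∏ l, (if l = i then ‖a (v l) - b (v l)‖ else (‖a (v l)‖ + ‖b (v l)‖)) := by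
        rw [Finset.sum_comm]
        refine Finset.sum_congr rfl fun i _ => Finset.sum_congr rfl fun v _ => ?_
        rw [← Finset.mul_prod_erase Finset.univ _ (Finset.mem_univ i), if_pos rfl]
        congr 1
        refine Finset.prod_congr rfl fun l hl => ?_
        rw [if_neg (Finset.ne_of_mem_erase hl)]
    _ = ∑ i : Fin d, ∏ l : Fin d, ∑ n ∈ Ico (0 : ℤ) N,
        (if l = i then ‖a n - b n‖ else (‖a n‖ + ‖b n‖)) := by
        refine Finset.sum_congr rfl fun i _ => ?_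
        rw [Finset.prod_univ_sum]
    _ ≤ ∑ _i : Fin d, (δ * Ma ^ (d - 1)) := by
        refine Finset.sum_le_sum fun i _ => ?_
        rw [← Finset.mul_prod_erase Finset.univ _ (Finset.mem_univ i)]
        simp only [if_true]
        refine mul_le_mul h1 ?_ ?_ hδ
        · calc ∏ l ∈ Finset.univ.erase i, ∑ n ∈ Ico (0 : ℤ) N,
                (if l = i then ‖a n - b n‖ else (‖a n‖ + ‖b n‖))
              ≤ ∏ _l ∈ Finset.univ.erase i, Ma := by
                refine Finset.prod_le_prod (fun l _ => ?_) fun l hl => ?_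
                · refine Finset.sum_nonneg fun n _ => ?_
                  split_ifs <;> positivity
                · simp only [if_neg (Finset.ne_of_mem_erase hl)]
                  exact h2
            _ = Ma ^ (d - 1) := by
                rw [Finset.prod_const, Finset.card_erase_of_mem (Finset.mem_univ i), Finset.card_univ,
                  Fintype.card_fin]
        · refine Finset.prod_nonneg fun l _ => Finset.sum_nonneg fun n _ => ?_
          split_ifs <;> positivity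
    _ = d * (δ * Ma ^ (d - 1)) := by
        rw [Finset.sum_const, Finset.card_univ, Fintype.card_fin, nsmul_eq_mul]

end Pool.Agent.helper132_sph
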