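import Pool.Agent.helper132_sph.MP

/-! Weak type (1,1) for dyadic density, and the induction on the size of `F`. -/

namespace Pool.Agent.helper132_sph

open Finset

lemma card_ball {d : ℕ} (S : Finset (Fin d → ℤ)) (x0 : Fin d → ℤ) (M : ℕ) (hM : 1 ≤ M) :
    (((S.filter (fun x => nd x x0 < M)).card : ℕ) : ℝ) ≤ (2 * (M : ℝ)) ^ d := by
  classical
  have h1 : S.filter (fun x => nd x x0 < M) ⊆
      Fintype.piFinset (fun j => Ioo (x0 j - M) (x0 j + M)) := by
    intro x hx
    rw [Finset.mem_filter, nd_lt_iff _ _ _ hM] at hx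
    rw [Fintype.mem_piFinset]
    intro j
    have := hx.2 j
    rw [abs_lt] at this
    rw [Finset.mem_Ioo]
    constructor <;> linarith [this.1, this.2]
  have h2 := Finset.card_le_card h1
  rw [Fintype.card_piFinset] at h2
  have h3 : ∀ j : Fin d, (Ioo (x0 j - M) (x0 j + M)).card ≤ 2 * M := by
    intro j
    rw [Int.card_Ioo]
    omega
  have h4 : ∏ j : Fin d, (Ioo (x0 j - M) (x0 j + M)).card ≤ (2 * M) ^ d := by
    calc ∏ j : Fin d, (Ioo (x0 j - M) (x0 j + M)).card ≤ ∏ _j : Fin d, (2 * M) :=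
          Finset.prod_le_prod' fun j _ => h3 j
      _ = (2 * M) ^ d := by simp
  have h5 : (S.filter (fun x => nd x x0 < M)).card ≤ (2 * M) ^ d := h2.trans h4
  calc (((S.filter (fun x => nd x x0 < M)).card : ℕ) : ℝ) ≤ (((2 * M) ^ d : ℕ) : ℝ) := by
        exact_mod_cast h5
    _ = (2 * (M : ℝ)) ^ d := by push_cast; ring

lemma weak11_aux {d : ℕ} (E : Finset (Fin d → ℤ)) (ρ : ℝ) (hρ : 0 < ρ) (j : (Fin d → ℤ) → ℕ) :
    ∀ (n : ℕ) (S : Finset (Fin d → ℤ)), S.card ≤ n →
    (∀ x ∈ S, ρ * ((2 : ℝ) ^ j x) ^ d ≤ (((E.filter (fun e => nd x e < 2 ^ j x)).card : ℕ) : ℝ)) →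
    (S.card : ℝ) * ρ ≤ 4 ^ d *
      (((E.filter (fun e => ∃ x ∈ S, nd x e < 2 ^ j x)).card : ℕ) : ℝ) := by
  classical
  intro n
  induction n with
  | zero =>
    intro S hS _
    have : S.card = 0 := by omega
    rw [this]
    simp only [Nat.cast_zero, zero_mul]
    positivity
  | succ n ih =>
    intro S hS hd
    rcases S.eq_empty_or_nonempty with h0 | hne
    · rw [h0]; simp
    obtain ⟨x0, hx0, hmax⟩ := Finset.exists_max_image S j hne
    obtain ⟨S1, hS1⟩ : ∃ S1, S1 = S.filter (fun x => ¬ nd x x0 < 2 ^ (j x0 + 1)) := ⟨_, rfl⟩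
    have hS1S : S1 ⊆ S := by rw [hS1]; exact Finset.filter_subset _ _
    have hx0S1 : x0 ∉ S1 := by
      rw [hS1, Finset.mem_filter]
      rintro ⟨_, h2⟩
      apply h2
      have : nd x0 x0 = 0 := by unfold nd; simp
      rw [this]; positivity
    have hcard1 : S1.card ≤ n := by
      have : S1.card < S.card := Finset.card_lt_card (Finset.ssubset_iff_subset_ne.2 ⟨hS1S, by
        intro h; rw [h] at hx0S1; exact hx0S1 hx0⟩)
      omega
    have h1 := ih S1 hcard1 (fun x hx => hd x (hS1S hx))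
    have h2 : (S.card : ℝ) = ((S.filter (fun x => nd x x0 < 2 ^ (j x0 + 1))).card : ℕ) + S1.card := by
      rw [hS1]
      have := Finset.card_filter_add_card_filter_not (s := S) (fun x => nd x x0 < 2 ^ (j x0 + 1))
      exact_mod_cast this.symm
    have h3 := card_ball S x0 (2 ^ (j x0 + 1)) Nat.one_le_two_pow
    have h4 : (2 * (((2 ^ (j x0 + 1) : ℕ)) : ℝ)) ^ d = 4 ^ d * ((2 : ℝ) ^ j x0) ^ d := by
      rw [← mul_pow]
      congr 1
      push_cast
      rw [pow_succ]
      ring
    rw [h4] at h3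
    have h5 := hd x0 hx0
    -- disjointness
    have h6 : (((E.filter (fun e => nd x0 e < 2 ^ j x0)).card : ℕ) : ℝ) +
        (((E.filter (fun e => ∃ x ∈ S1, nd x e < 2 ^ j x)).card : ℕ) : ℝ) ≤
        (((E.filter (fun e => ∃ x ∈ S, nd x e < 2 ^ j x)).card : ℕ) : ℝ) := by
      have hdis : Disjoint (E.filter (fun e => nd x0 e < 2 ^ j x0))
          (E.filter (fun e => ∃ x ∈ S1, nd x e < 2 ^ j x)) := by
        rw [Finset.disjoint_left]
        intro e he1 he2
        rw [Finset.mem_filter] at he1 he2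
        obtain ⟨_, x, hx, hxe⟩ := he2
        rw [hS1, Finset.mem_filter] at hx
        apply hx.2
        have t1 := nd_triangle x e x0
        have t2 := nd_comm e x0
        have t3 : (2 : ℕ) ^ j x ≤ 2 ^ j x0 := Nat.pow_le_pow_right (by norm_num) (hmax x hx.1)
        have t4 : (2 : ℕ) ^ (j x0 + 1) = 2 ^ j x0 + 2 ^ j x0 := by rw [pow_succ]; ring
        omega
      have hsub : E.filter (fun e => nd x0 e < 2 ^ j x0) ∪
          E.filter (fun e => ∃ x ∈ S1, nd x e < 2 ^ j x) ⊆
          E.filter (fun e => ∃ x ∈ S, nd x e < 2 ^ j x) := by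
        intro e he
        rw [Finset.mem_union, Finset.mem_filter, Finset.mem_filter] at he
        rw [Finset.mem_filter]
        rcases he with ⟨h7, h8⟩ | ⟨h7, x, hx, h8⟩
        · exact ⟨h7, x0, hx0, h8⟩
        · exact ⟨h7, x, hS1S hx, h8⟩
      have := Finset.card_le_card hsub
      rw [Finset.card_union_of_disjoint hdis] at this
      exact_mod_cast this
    have h4d : (0 : ℝ) ≤ 4 ^ d := by positivity
    rw [h2, add_mul]
    calc _ ≤ (4 ^ d * ((2 : ℝ) ^ j x0) ^ d) * ρ +
          4 ^ d * (((E.filter (fun e => ∃ x ∈ S1, nd x e < 2 ^ j x)).card : ℕ) : ℝ) :=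
          add_le_add (mul_le_mul_of_nonneg_right h3 hρ.le) h1
      _ = 4 ^ d * (ρ * ((2 : ℝ) ^ j x0) ^ d +
          (((E.filter (fun e => ∃ x ∈ S1, nd x e < 2 ^ j x)).card : ℕ) : ℝ)) := by ring
      _ ≤ 4 ^ d * ((((E.filter (fun e => nd x0 e < 2 ^ j x0)).card : ℕ) : ℝ) +
          (((E.filter (fun e => ∃ x ∈ S1, nd x e < 2 ^ j x)).card : ℕ) : ℝ)) := by
          refine mul_le_mul_of_nonneg_left ?_ h4d
          linarith
      _ ≤ _ := mul_le_mul_of_nonneg_left h6 h4d

/-- weak type (1,1): most points of `F` have density at most `ρ`. -/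
lemma weak11 {d : ℕ} (E F : Finset (Fin d → ℤ)) (ρ : ℝ) (hρ : 0 < ρ) :
    ∃ G : Finset (Fin d → ℤ), G ⊆ F ∧ Dens E G ρ ∧ ((F \ G).card : ℝ) * ρ ≤ 4 ^ d * E.card := by
  classical
  obtain ⟨P, hP⟩ : ∃ P : (Fin d → ℤ) → Prop, P = fun x =>
    ∃ j : ℕ, ρ * ((2 : ℝ) ^ j) ^ d < (((E.filter (fun e => nd x e < 2 ^ j)).card : ℕ) : ℝ) := ⟨_, rfl⟩
  have hch : ∀ x, ∃ j : ℕ, P x → ρ * ((2 : ℝ) ^ j) ^ d <
      (((E.filter (fun e => nd x e < 2 ^ j)).card : ℕ) : ℝ) := by
    intro x
    by_cases h : P x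
    · have h' := h
      rw [hP] at h'
      obtain ⟨j, hj⟩ := h'
      exact ⟨j, fun _ => hj⟩
    · exact ⟨0, fun h' => absurd h' h⟩
  choose jj hjj using hch
  refine ⟨F.filter (fun x => ¬ P x), Finset.filter_subset _ _, ?_, ?_⟩
  · intro x hx j
    rw [Finset.mem_filter] at hx
    by_contra hcon
    push Not at hcon
    apply hx.2
    rw [hP]
    exact ⟨j, hcon⟩
  · have h1 : F \ F.filter (fun x => ¬ P x) = F.filter P := by
      ext x
      simp only [Finset.mem_sdiff, Finset.mem_filter, not_and, not_not]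
      tauto
    rw [h1]
    have h2 := weak11_aux E ρ hρ jj (F.filter P).card (F.filter P) le_rfl (by
      intro x hx
      exact (hjj x (Finset.mem_filter.1 hx).2).le)
    refine h2.trans (mul_le_mul_of_nonneg_left ?_ (by positivity))
    exact_mod_cast Finset.card_filter_le _ _

lemma rpow_split (x θ : ℝ) (hx : 0 < x) : x ^ θ * x ^ (1 - θ) = x := by
  rw [← Real.rpow_add hx]
  rw [show θ + (1 - θ) = 1 by ring, Real.rpow_one]

/-- the induction on the size of `F`. -/
lemma induct_bound {d : ℕ} (θ : ℝ) (hθ0 : 0 < θ) (hθ1 : θ < 1 / 2) (A0 K : ℝ) (hA0 : 0 ≤ A0)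
    (hK : 0 ≤ K) :
    ∃ K' : ℝ, 0 ≤ K' ∧ ∀ (E : Finset (Fin d → ℤ)) (a : (Fin d → ℤ) → ℝ) (_ : ∀ x, 0 ≤ a x)
      (_ : ∀ x, a x ≤ A0)
      (_ : ∀ (F : Finset (Fin d → ℤ)) (ρ : ℝ), 0 < ρ → Dens E F ρ →
        ∑ x ∈ F, a x ≤ K * (√((F.card : ℝ) * E.card * ρ ^ (1 - 2 * θ)) + E.card)),
      ∀ F : Finset (Fin d → ℤ), ∑ x ∈ F, a x ≤ K' * ((F.card : ℝ) ^ θ * (E.card : ℝ) ^ (1 - θ)) := by
  classical
  obtain ⟨C0, hC0⟩ : ∃ C0 : ℝ, C0 = 2 * 4 ^ d := ⟨_, rfl⟩
  have h4d : (1 : ℝ) ≤ 4 ^ d := one_le_pow₀ (by norm_num)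
  have hC01 : 1 ≤ C0 := by rw [hC0]; linarith
  have hC0p : 0 < C0 := by linarith
  obtain ⟨t, ht⟩ : ∃ t : ℝ, t = (1 / 2 : ℝ) ^ θ := ⟨_, rfl⟩
  have ht0 : 0 < t := by rw [ht]; positivity
  have ht1 : t < 1 := by
    rw [ht]
    exact Real.rpow_lt_one (by norm_num) (by norm_num) hθ0
  have h1t : 0 < 1 - t := by linarith
  refine ⟨(K * (C0 + 1) + A0 * C0) / (1 - t), by positivity, ?_⟩
  intro E a ha0 haA hMP
  obtain ⟨K', hK'⟩ : ∃ K', K' = (K * (C0 + 1) + A0 * C0) / (1 - t) := ⟨_, rfl⟩
  rw [← hK']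
  have hK'0 : 0 ≤ K' := by rw [hK']; positivity
  have hK't : K' * (1 - t) = K * (C0 + 1) + A0 * C0 := by
    rw [hK']; field_simp
  have hK'A : A0 * C0 ≤ K' := by
    have h1 : K' * (1 - t) ≤ K' * 1 := mul_le_mul_of_nonneg_left (by linarith) hK'0
    have h2 : 0 ≤ K * (C0 + 1) := by positivity
    linarith
  have hmain : ∀ (n : ℕ) (F : Finset (Fin d → ℤ)), F.card ≤ n →
      ∑ x ∈ F, a x ≤ K' * ((F.card : ℝ) ^ θ * (E.card : ℝ) ^ (1 - θ)) := by
    intro n
    induction n with
    | zero =>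
      intro F hF
      have : F = ∅ := Finset.card_eq_zero.1 (by omega)
      rw [this]
      simp only [Finset.sum_empty]
      positivity
    | succ n ih =>
      intro F hF
      rcases Nat.eq_zero_or_pos F.card with hF0 | hFpos
      · have : F = ∅ := Finset.card_eq_zero.1 hF0
        rw [this]
        simp only [Finset.sum_empty]
        positivity
      have hFR : (1 : ℝ) ≤ F.card := by exact_mod_cast hFpos
      have hFp : (0 : ℝ) < F.card := by linarith
      rcases Nat.eq_zero_or_pos E.card with hE0 | hEpos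
      · have h1 := hMP F 1 one_pos (by
          intro x _ j
          have : E = ∅ := Finset.card_eq_zero.1 hE0
          rw [this]
          simp only [Finset.filter_empty, Finset.card_empty, Nat.cast_zero]
          positivity)
        rw [hE0] at h1 ⊢
        simp only [Nat.cast_zero, mul_zero, zero_mul, Real.sqrt_zero, add_zero] at h1
        refine h1.trans (by positivity)
      have hER : (1 : ℝ) ≤ E.card := by exact_mod_cast hEpos
      have hEp : (0 : ℝ) < E.card := by linarith
      obtain ⟨f, hf⟩ : ∃ f : ℝ, f = F.card := ⟨_, rfl⟩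
      obtain ⟨e, he⟩ : ∃ e : ℝ, e = E.card := ⟨_, rfl⟩
      rw [← hf, ← he]
      rw [← hf] at hFR hFp
      rw [← he] at hER hEp
      obtain ⟨X, hX⟩ : ∃ X, X = f ^ θ * e ^ (1 - θ) := ⟨_, rfl⟩
      have hX0 : 0 < X := by rw [hX]; positivity
      rw [← hX]
      rcases le_or_gt f (C0 * e) with hcase | hcase
      · -- trivial bound
        have h1 : ∑ x ∈ F, a x ≤ A0 * f := by
          calc ∑ x ∈ F, a x ≤ ∑ x ∈ F, A0 := Finset.sum_le_sum fun x _ => haA x
            _ = A0 * f := by rw [Finset.sum_const, nsmul_eq_mul, hf]; ring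
        have h2 : f ≤ C0 * X := by
          calc f = f ^ θ * f ^ (1 - θ) := (rpow_split f θ hFp).symm
            _ ≤ f ^ θ * (C0 * e) ^ (1 - θ) := by
                refine mul_le_mul_of_nonneg_left ?_ (by positivity)
                exact Real.rpow_le_rpow hFp.le hcase (by linarith)
            _ = f ^ θ * (C0 ^ (1 - θ) * e ^ (1 - θ)) := by
                rw [Real.mul_rpow hC0p.le hEp.le]
            _ ≤ f ^ θ * (C0 * e ^ (1 - θ)) := by
                refine mul_le_mul_of_nonneg_left ?_ (by positivity)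
                refine mul_le_mul_of_nonneg_right ?_ (by positivity)
                calc C0 ^ (1 - θ) ≤ C0 ^ (1 : ℝ) :=
                      Real.rpow_le_rpow_of_exponent_le hC01 (by linarith)
                  _ = C0 := Real.rpow_one _
            _ = C0 * X := by rw [hX]; ring
        calc ∑ x ∈ F, a x ≤ A0 * f := h1
          _ ≤ A0 * (C0 * X) := mul_le_mul_of_nonneg_left h2 hA0
          _ = (A0 * C0) * X := by ring
          _ ≤ K' * X := mul_le_mul_of_nonneg_right hK'A hX0.le
      · obtain ⟨ρ, hρ⟩ : ∃ ρ, ρ = C0 * e / f := ⟨_, rfl⟩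
        have hρ0 : 0 < ρ := by rw [hρ]; positivity
        obtain ⟨G, hGF, hGD, hGc⟩ := weak11 E F ρ hρ0
        have hbad : ((F \ G).card : ℝ) ≤ f / 2 := by
          have h1 : ((F \ G).card : ℝ) * (C0 * e / f) ≤ 4 ^ d * e := by
            rw [← hρ, he]; exact hGc
          have h2 : ((F \ G).card : ℝ) * (C0 * e / f) = ((F \ G).card : ℝ) * 2 / f * (4 ^ d * e) := by
            rw [hC0]; field_simp
          rw [h2] at h1
          have h3 : (0 : ℝ) < 4 ^ d * e := by positivity
          have h4 : ((F \ G).card : ℝ) * 2 / f ≤ 1 := by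
            by_contra hcon
            push Not at hcon
            have : 1 * (4 ^ d * e) < ((F \ G).card : ℝ) * 2 / f * (4 ^ d * e) :=
              mul_lt_mul_of_pos_right hcon h3
            linarith
          rw [div_le_one hFp] at h4
          linarith
        have hbadn : (F \ G).card ≤ n := by
          have h1 : ((F \ G).card : ℝ) < F.card := by
            rw [← hf]; linarith
          have : (F \ G).card < F.card := by exact_mod_cast h1
          omega
        have h1 := ih (F \ G) hbadn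
        have h2 := hMP G ρ hρ0 hGD
        have h3 : ∑ x ∈ F, a x = ∑ x ∈ F \ G, a x + ∑ x ∈ G, a x := (Finset.sum_sdiff hGF).symm
        have h4 : ((F \ G).card : ℝ) ^ θ ≤ f ^ θ * t := by
          calc ((F \ G).card : ℝ) ^ θ ≤ (f / 2) ^ θ :=
                Real.rpow_le_rpow (Nat.cast_nonneg _) hbad hθ0.le
            _ = f ^ θ * t := by
                rw [ht, ← Real.mul_rpow hFp.le (by norm_num)]
                congr 1
                ring
        have h5 : √((G.card : ℝ) * e * ρ ^ (1 - 2 * θ)) ≤ C0 * X := by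
          have hGf : (G.card : ℝ) ≤ f := by
            rw [hf]; exact_mod_cast Finset.card_le_card hGF
          have h6 : (G.card : ℝ) * e * ρ ^ (1 - 2 * θ) ≤ (C0 * X) ^ 2 := by
            have h7 : ρ ^ (1 - 2 * θ) ≤ C0 * (e ^ (1 - 2 * θ) / f ^ (1 - 2 * θ)) := by
              rw [hρ, Real.div_rpow (by positivity) hFp.le, Real.mul_rpow hC0p.le hEp.le, mul_div_assoc]
              refine mul_le_mul_of_nonneg_right ?_ (by positivity)
              calc C0 ^ (1 - 2 * θ) ≤ C0 ^ (1 : ℝ) :=
                    Real.rpow_le_rpow_of_exponent_le hC01 (by linarith)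
                _ = C0 := Real.rpow_one _
            have h8 : f / f ^ (1 - 2 * θ) = (f ^ θ) ^ 2 := by
              rw [← Real.rpow_natCast, ← Real.rpow_mul hFp.le]
              nth_rewrite 1 [← Real.rpow_one f]
              rw [← Real.rpow_sub hFp]
              congr 1
              push_cast
              ring
            have h9 : e * e ^ (1 - 2 * θ) = (e ^ (1 - θ)) ^ 2 := by
              rw [← Real.rpow_natCast, ← Real.rpow_mul hEp.le]
              nth_rewrite 1 [← Real.rpow_one e]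
              rw [← Real.rpow_add hEp]
              congr 1
              push_cast
              ring
            calc (G.card : ℝ) * e * ρ ^ (1 - 2 * θ)
                ≤ f * e * (C0 * (e ^ (1 - 2 * θ) / f ^ (1 - 2 * θ))) := by gcongr
              _ = C0 * (f / f ^ (1 - 2 * θ)) * (e * e ^ (1 - 2 * θ)) := by ring
              _ = C0 * X ^ 2 := by rw [h8, h9, hX]; ring
              _ ≤ C0 ^ 2 * X ^ 2 := by
                  refine mul_le_mul_of_nonneg_right ?_ (by positivity)
                  exact le_self_pow₀ hC01 (by norm_num)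
              _ = (C0 * X) ^ 2 := by ring
          rw [← Real.sqrt_sq (show 0 ≤ C0 * X by positivity)]
          exact Real.sqrt_le_sqrt h6
        have h10 : e ≤ X := by
          rw [hX]
          calc e = e ^ θ * e ^ (1 - θ) := (rpow_split e θ hEp).symm
            _ ≤ f ^ θ * e ^ (1 - θ) := by
                refine mul_le_mul_of_nonneg_right ?_ (by positivity)
                refine Real.rpow_le_rpow hEp.le ?_ hθ0.le
                have : 1 * e ≤ C0 * e := mul_le_mul_of_nonneg_right hC01 hEp.le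
                linarith
        rw [← he] at h1 h2
        have h11 : ∑ x ∈ F \ G, a x ≤ K' * t * X := by
          refine h1.trans ?_
          calc K' * (((F \ G).card : ℝ) ^ θ * e ^ (1 - θ)) ≤ K' * ((f ^ θ * t) * e ^ (1 - θ)) := by
                gcongr
            _ = K' * t * X := by rw [hX]; ring
        have h12 : ∑ x ∈ G, a x ≤ K * (C0 + 1) * X := by
          refine h2.trans ?_
          calc K * (√((G.card : ℝ) * e * ρ ^ (1 - 2 * θ)) + e) ≤ K * (C0 * X + X) := by gcongr
            _ = K * (C0 + 1) * X := by ring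
        rw [h3]
        have h13 : K * (C0 + 1) ≤ K' * (1 - t) := by
          rw [hK't]
          have : 0 ≤ A0 * C0 := by positivity
          linarith
        have h14 := mul_le_mul_of_nonneg_right h13 hX0.le
        linarith
  intro F
  exact hmain F.card F le_rfl

end Pool.Agent.helper132_sph
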