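import Pool.Agent.helper132_sph.LB4
import Pool.Agent.helper132_sph.Weak

/-! The restricted estimate for averages over the k-spheres. -/

namespace Pool.Agent.helper132_sph

open Finset

/-- lattice points with `Σ |m_i|^k = n`. -/
noncomputable def SpF (k d n : ℕ) : Finset (Fin d → ℤ) :=
  (Fintype.piFinset (fun _ : Fin d => Icc (-(n : ℤ)) n)).filter (fun m => ∑ i, (m i).natAbs ^ k = n)

lemma mem_SpF (k d n : ℕ) (hk : 1 ≤ k) (m : Fin d → ℤ) :
    m ∈ SpF k d n ↔ ∑ i, (m i).natAbs ^ k = n := by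
  unfold SpF
  rw [Finset.mem_filter, Fintype.mem_piFinset]
  constructor
  · exact fun h => h.2
  · intro h
    refine ⟨fun i => ?_, h⟩
    have h1 : (m i).natAbs ≤ (m i).natAbs ^ k := Nat.le_self_pow (by omega) _
    have h2 : (m i).natAbs ^ k ≤ ∑ i, (m i).natAbs ^ k :=
      Finset.single_le_sum (f := fun i => (m i).natAbs ^ k) (fun _ _ => Nat.zero_le _) (Finset.mem_univ i)
    rw [Finset.mem_Icc]
    omega

lemma Rp_le_SpF (k d n : ℕ) (hk : 1 ≤ k) : (Rp k d n).card ≤ (SpF k d n).card := by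
  refine Finset.card_le_card_of_injOn (fun m : Fin d → ℕ => (fun i => (m i : ℤ))) ?_ ?_
  · intro m hm
    rw [Finset.mem_coe, mem_Rp k d n hk] at hm
    rw [Finset.mem_coe, mem_SpF k d n hk]
    simpa using hm
  · intro m _ m' _ h
    funext i
    have := congrFun h i
    simp only at this
    exact_mod_cast this

/-- coordinate reflection. -/
def rf {d : ℕ} (ε x : Fin d → ℤ) : Fin d → ℤ := fun i => ε i * x i

/-- sign vectors. -/
def sgns (d : ℕ) : Finset (Fin d → ℤ) := Fintype.piFinset (fun _ : Fin d => ({1, -1} : Finset ℤ))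

lemma mem_sgns {d : ℕ} {ε : Fin d → ℤ} : ε ∈ sgns d ↔ ∀ i, ε i = 1 ∨ ε i = -1 := by
  unfold sgns
  rw [Fintype.mem_piFinset]
  simp

lemma card_sgns (d : ℕ) : (sgns d).card = 2 ^ d := by
  unfold sgns
  rw [Fintype.card_piFinset]
  simp

lemma rf_rf {d : ℕ} {ε : Fin d → ℤ} (hε : ε ∈ sgns d) (x : Fin d → ℤ) : rf ε (rf ε x) = x := by
  funext i
  unfold rf
  rcases (mem_sgns.1 hε) i with h | h
  · rw [h]; ring
  · rw [h]; ring

lemma rf_inj {d : ℕ} {ε : Fin d → ℤ} (hε : ε ∈ sgns d) : Function.Injective (rf ε) := by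
  intro x y h
  rw [← rf_rf hε x, h, rf_rf hε y]

lemma nd_rf {d : ℕ} {ε : Fin d → ℤ} (hε : ε ∈ sgns d) (x y : Fin d → ℤ) :
    nd (rf ε x) (rf ε y) = nd x y := by
  unfold nd rf
  congr 1
  funext i
  rcases (mem_sgns.1 hε) i with h | h
  · rw [h]; congr 1; ring
  · rw [h, ← Int.natAbs_neg]; congr 1; ring

lemma Dens_rf {d : ℕ} {ε : Fin d → ℤ} (hε : ε ∈ sgns d) (E F : Finset (Fin d → ℤ)) (ρ : ℝ)
    (hD : Dens E F ρ) : Dens (E.image (rf ε)) (F.image (rf ε)) ρ := by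
  classical
  intro x' hx' j
  rw [Finset.mem_image] at hx'
  obtain ⟨x, hx, rfl⟩ := hx'
  refine le_trans ?_ (hD x hx j)
  have h1 : (E.image (rf ε)).filter (fun e => nd (rf ε x) e < 2 ^ j) =
      (E.filter (fun e => nd x e < 2 ^ j)).image (rf ε) := by
    ext e
    simp only [Finset.mem_filter, Finset.mem_image]
    constructor
    · rintro ⟨⟨e', he', rfl⟩, h⟩
      rw [nd_rf hε] at h
      exact ⟨e', ⟨he', h⟩, rfl⟩
    · rintro ⟨e', ⟨he', h⟩, rfl⟩
      refine ⟨⟨e', he', rfl⟩, ?_⟩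
      rw [nd_rf hε]; exact h
  rw [h1]
  exact_mod_cast Finset.card_image_le

/-- counting points of a sphere through the orthants. -/
lemma sphere_count_le {d : ℕ} (k n X : ℕ) (hk : 1 ≤ k) (hX : n < X ^ k) (E : Finset (Fin d → ℤ))
    (x : Fin d → ℤ) :
    ((SpF k d n).filter (fun y => x - y ∈ E)).card ≤
      ∑ ε ∈ sgns d, cnt k X (E.image (rf ε)) (rf ε x) (n : ℤ) := by
  classical
  obtain ⟨sg, hsg⟩ : ∃ sg : (Fin d → ℤ) → (Fin d → ℤ), sg = fun y i => if 0 ≤ y i then 1 else -1 :=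
    ⟨_, rfl⟩
  have hsgm : ∀ y, sg y ∈ sgns d := by
    intro y
    rw [mem_sgns, hsg]
    intro i
    simp only
    split_ifs
    · left; rfl
    · right; rfl
  have hsga : ∀ y i, sg y i * y i = ((y i).natAbs : ℤ) := by
    intro y i
    rw [hsg]
    simp only
    split_ifs with h
    · rw [one_mul]; omega
    · omega
  rw [Finset.card_eq_sum_card_fiberwise (f := sg) (t := sgns d) (fun y _ => hsgm y)]
  refine Finset.sum_le_sum fun ε hε => ?_
  unfold cnt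
  refine Finset.card_le_card_of_injOn (fun y => rf ε (x - y)) ?_ ?_
  · intro y hy
    rw [Finset.mem_coe, Finset.mem_filter, Finset.mem_filter, mem_SpF k d n hk] at hy
    obtain ⟨⟨hy1, hy2⟩, hy3⟩ := hy
    rw [Finset.mem_coe, Finset.mem_filter]
    have hdiff : ∀ i, rf ε x i - rf ε (x - y) i = ((y i).natAbs : ℤ) := by
      intro i
      rw [← hsga y i, hy3]
      unfold rf
      simp only [Pi.sub_apply]
      ring
    refine ⟨Finset.mem_image_of_mem _ hy2, ?_, ?_⟩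
    · intro i
      rw [hdiff i]
      refine ⟨Nat.cast_nonneg _, ?_⟩
      have h2 : (y i).natAbs ^ k ≤ ∑ i, (y i).natAbs ^ k :=
        Finset.single_le_sum (f := fun i => (y i).natAbs ^ k) (fun _ _ => Nat.zero_le _) (Finset.mem_univ i)
      have h3 : (y i).natAbs ^ k < X ^ k := by omega
      have h4 : (y i).natAbs < X := lt_of_pow_lt_pow_left₀ k (Nat.zero_le _) h3
      exact_mod_cast h4
    · rw [Finset.sum_congr rfl fun i _ => by rw [hdiff i]]
      exact_mod_cast hy1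
  · intro y _ y' _ h
    have h1 := rf_inj hε h
    have : x - y = x - y' := h1
    exact sub_right_injective this

/-- The restricted estimate. -/
theorem restricted (κ : ℕ) (hκ : 2 ≤ κ) : ∃ D : ℕ, 2 * (κ + 1) < D ∧ ∀ d, D ≤ d →
    ∃ K : ℝ, 0 ≤ K ∧ ∀ (n : (Fin d → ℤ) → ℕ)
      (_ : ∀ x, 1 ≤ n x ∧ (SpF (κ + 1) d (n x)).Nonempty) (E F : Finset (Fin d → ℤ)),
      ∑ x ∈ F, (((SpF (κ + 1) d (n x)).filter (fun y => x - y ∈ E)).card : ℝ) /
        (SpF (κ + 1) d (n x)).card ≤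
        K * ((F.card : ℝ) ^ (((κ + 1 : ℕ) : ℝ) / d) * (E.card : ℝ) ^ (1 - ((κ + 1 : ℕ) : ℝ) / d)) := by
  classical
  obtain ⟨D, hD⟩ := main_prop κ hκ
  obtain ⟨D1, hD1k, hD1⟩ := sphere_lower (κ + 1) (by omega)
  refine ⟨max D (max D1 (2 * (κ + 1) + 1)), ?_, ?_⟩
  · have := le_max_right D (max D1 (2 * (κ + 1) + 1))
    have := le_max_right D1 (2 * (κ + 1) + 1)
    omega
  intro d hd
  have hdD : D ≤ d := (le_max_left _ _).trans hd
  have hdD1 : D1 ≤ d := (le_max_left _ _).trans ((le_max_right _ _).trans hd)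
  have hdk : 2 * (κ + 1) + 1 ≤ d := (le_max_right _ _).trans ((le_max_right _ _).trans hd)
  obtain ⟨K, hK1, hK⟩ := hD d hdD
  obtain ⟨c, hc0, hc⟩ := hD1 d hdD1
  have hdR : (0 : ℝ) < d := by exact_mod_cast (by omega : 0 < d)
  have hK0 : 0 ≤ K := by linarith
  obtain ⟨θ, hθ⟩ : ∃ θ : ℝ, θ = ((κ + 1 : ℕ) : ℝ) / d := ⟨_, rfl⟩
  have hθ0 : 0 < θ := by rw [hθ]; positivity
  have hθ1 : θ < 1 / 2 := by
    rw [hθ, div_lt_iff₀ hdR]
    have : ((2 * (κ + 1) + 1 : ℕ) : ℝ) ≤ d := by exact_mod_cast hdk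
    push_cast at this ⊢
    linarith
  have h2θ : 1 - ((2 * (κ + 1) : ℕ) : ℝ) / d = 1 - 2 * θ := by
    rw [hθ]; push_cast; ring
  obtain ⟨Kb, hKb⟩ : ∃ Kb : ℝ, Kb = 2 ^ (d - (κ + 1)) / c * (2 ^ d * K) := ⟨_, rfl⟩
  have hKb0 : 0 ≤ Kb := by rw [hKb]; positivity
  obtain ⟨K', hK'0, hK'⟩ := induct_bound (d := d) θ hθ0 hθ1 1 Kb zero_le_one hKb0
  refine ⟨K', hK'0, ?_⟩
  intro n hn E F
  rw [← hθ]
  refine hK' E (fun x => (((SpF (κ + 1) d (n x)).filter (fun y => x - y ∈ E)).card : ℝ) /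
        (SpF (κ + 1) d (n x)).card) ?_ ?_ ?_ F
  · intro x; positivity
  · intro x
    have h1 : (0 : ℝ) < (SpF (κ + 1) d (n x)).card := by
      exact_mod_cast Finset.card_pos.2 (hn x).2
    rw [div_le_one h1]
    exact_mod_cast Finset.card_filter_le _ _
  clear F
  intro F ρ hρ hDens
  -- scales
  have hJex : ∀ x, ∃ j : ℕ, n x < (2 ^ j) ^ (κ + 1) ∧
      (((2 ^ j : ℕ) : ℝ)) ^ (d - (κ + 1)) * c ≤ 2 ^ (d - (κ + 1)) * (SpF (κ + 1) d (n x)).card := by
    intro x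
    obtain ⟨w, hw1, hw2⟩ := exists_root (κ + 1) (n x) (by omega)
    have hw0 : w ≠ 0 := by
      intro h0
      rw [h0] at hw2
      simp only [zero_add, one_pow] at hw2
      have := (hn x).1
      omega
    refine ⟨Nat.log 2 w + 1, ?_, ?_⟩
    · have h1 : w + 1 ≤ 2 ^ (Nat.log 2 w + 1) := Nat.lt_pow_succ_log_self (by norm_num) _
      exact lt_of_lt_of_le hw2 (Nat.pow_le_pow_left h1 _)
    · obtain ⟨r, hr⟩ : ∃ r : ℝ, r = ((n x : ℕ) : ℝ) ^ ((((κ + 1 : ℕ)) : ℝ)⁻¹) := ⟨_, rfl⟩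
      have hnx : (0 : ℝ) < n x := by exact_mod_cast (hn x).1
      have hr0 : 0 < r := by rw [hr]; positivity
      have hrk : r ^ (κ + 1) = n x := by
        rw [hr]; exact Real.rpow_inv_natCast_pow hnx.le (by omega)
      have h2 := hc (n x) r hr0 hrk
      have h3 : max 1 (((Rp (κ + 1) d (n x)).card : ℕ) : ℝ) ≤ (SpF (κ + 1) d (n x)).card := by
        refine max_le ?_ ?_
        · exact_mod_cast Finset.card_pos.2 (hn x).2
        · exact_mod_cast Rp_le_SpF (κ + 1) d (n x) (by omega)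
      have h4 : (2 : ℝ) ^ (Nat.log 2 w) ≤ r := by
        refine le_of_pow_le_pow_left₀ (n := κ + 1) (by omega) hr0.le ?_
        rw [hrk]
        have : (2 ^ Nat.log 2 w) ^ (κ + 1) ≤ n x :=
          (Nat.pow_le_pow_left (Nat.pow_log_le_self 2 hw0) _).trans hw1
        exact_mod_cast this
      calc (((2 ^ (Nat.log 2 w + 1) : ℕ) : ℝ)) ^ (d - (κ + 1)) * c
          = 2 ^ (d - (κ + 1)) * (c * ((2 : ℝ) ^ (Nat.log 2 w)) ^ (d - (κ + 1))) := by
            push_cast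
            rw [pow_succ, mul_pow]; ring
        _ ≤ 2 ^ (d - (κ + 1)) * (c * r ^ (d - (κ + 1))) := by gcongr
        _ ≤ 2 ^ (d - (κ + 1)) * (SpF (κ + 1) d (n x)).card := by
            refine mul_le_mul_of_nonneg_left (h2.trans h3) (by positivity)
  choose J hJ1 hJ2 using hJex
  -- pointwise
  have hpt : ∀ x ∈ F, (((SpF (κ + 1) d (n x)).filter (fun y => x - y ∈ E)).card : ℝ) /
        (SpF (κ + 1) d (n x)).card ≤ 2 ^ (d - (κ + 1)) / c *
        ∑ ε ∈ sgns d, ((((2 ^ J x) ^ (κ + 1) : ℕ) : ℝ) *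
          cnt (κ + 1) (2 ^ J x) (E.image (rf ε)) (rf ε x) (n x : ℤ)) / (((2 ^ J x : ℕ) : ℝ)) ^ d := by
    intro x _
    have hS : (0 : ℝ) < (SpF (κ + 1) d (n x)).card := by
      exact_mod_cast Finset.card_pos.2 (hn x).2
    have h1 := sphere_count_le (κ + 1) (n x) (2 ^ J x) (by omega) (hJ1 x) E x
    have h1R : (((SpF (κ + 1) d (n x)).filter (fun y => x - y ∈ E)).card : ℝ) ≤
        ∑ ε ∈ sgns d, (cnt (κ + 1) (2 ^ J x) (E.image (rf ε)) (rf ε x) (n x : ℤ) : ℝ) := by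
      exact_mod_cast h1
    obtain ⟨X, hX⟩ : ∃ X : ℝ, X = ((2 ^ J x : ℕ) : ℝ) := ⟨_, rfl⟩
    have hX0 : 0 < X := by rw [hX]; positivity
    have h2 := hJ2 x
    rw [← hX] at h2
    have hXk : ((((2 ^ J x) ^ (κ + 1) : ℕ) : ℝ)) = X ^ (κ + 1) := by rw [hX]; push_cast; ring
    rw [hXk, ← hX]
    have hXd : X ^ d = X ^ (κ + 1) * X ^ (d - (κ + 1)) := by rw [← pow_add]; congr 1; omega
    rw [div_le_iff₀ hS]
    have h3 : ∑ ε ∈ sgns d, (X ^ (κ + 1) *
          cnt (κ + 1) (2 ^ J x) (E.image (rf ε)) (rf ε x) (n x : ℤ)) / X ^ d =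
        (∑ ε ∈ sgns d, (cnt (κ + 1) (2 ^ J x) (E.image (rf ε)) (rf ε x) (n x : ℤ) : ℝ)) / X ^ (d - (κ + 1)) := by
      rw [Finset.sum_div]
      refine Finset.sum_congr rfl fun ε _ => ?_
      rw [hXd]
      field_simp
    rw [h3]
    obtain ⟨Sm, hSm⟩ : ∃ Sm : ℝ, Sm = ∑ ε ∈ sgns d, (cnt (κ + 1) (2 ^ J x) (E.image (rf ε)) (rf ε x) (n x : ℤ) : ℝ) :=
      ⟨_, rfl⟩
    rw [← hSm] at h1R ⊢
    have hSm0 : 0 ≤ Sm := by rw [hSm]; positivity
    refine h1R.trans ?_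
    have h4 : 2 ^ (d - (κ + 1)) / c * (Sm / X ^ (d - (κ + 1))) * (SpF (κ + 1) d (n x)).card =
        Sm * ((2 ^ (d - (κ + 1)) * (SpF (κ + 1) d (n x)).card) / (X ^ (d - (κ + 1)) * c)) := by
      field_simp
    rw [h4]
    refine le_mul_of_one_le_right hSm0 ?_
    rw [le_div_iff₀ (by positivity), one_mul]
    exact h2
  refine (Finset.sum_le_sum hpt).trans ?_
  rw [← Finset.mul_sum, Finset.sum_comm]
  have hone : ∀ ε ∈ sgns d, ∑ x ∈ F, ((((2 ^ J x) ^ (κ + 1) : ℕ) : ℝ) *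
          cnt (κ + 1) (2 ^ J x) (E.image (rf ε)) (rf ε x) (n x : ℤ)) / (((2 ^ J x : ℕ) : ℝ)) ^ d ≤
      K * (√((F.card : ℝ) * E.card * ρ ^ (1 - 2 * θ)) + E.card) := by
    intro ε hε
    have h1 := hK (E.image (rf ε)) (F.image (rf ε)) ρ hρ (Dens_rf hε E F ρ hDens)
      (fun x' => J (rf ε x')) (fun x' => (n (rf ε x') : ℤ))
    rw [Finset.sum_image (fun a _ b _ h => rf_inj hε h), Finset.card_image_of_injective _ (rf_inj hε),
      Finset.card_image_of_injective _ (rf_inj hε), h2θ] at h1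
    simp only [rf_rf hε] at h1
    exact h1
  have h5 := Finset.sum_le_sum hone
  rw [Finset.sum_const, card_sgns, nsmul_eq_mul] at h5
  push_cast at h5
  calc _ ≤ 2 ^ (d - (κ + 1)) / c * (2 ^ d * (K * (√((F.card : ℝ) * E.card * ρ ^ (1 - 2 * θ)) + E.card))) := by
        refine mul_le_mul_of_nonneg_left ?_ (by positivity)
        refine le_trans (le_of_eq ?_) h5
        push_cast
        rfl
    _ = _ := by rw [hKb]; ring

end Pool.Agent.helper132_sph
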