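import Pool.Agent.helper132_sph.Defs
import Pool.Agent.helper132_sph.Restr

/-! From the restricted estimate to the Lorentz space bound. -/

namespace Pool.Agent.helper132_sph

open Finset MeasureTheory
open scoped ENNReal NNReal

lemma sphere_eq (k d n : ℕ) (r : ℝ) (hk : 1 ≤ k) (hr : r ^ k = n) :
    sphere k d r = (SpF k d n : Set (Fin d → ℤ)) := by
  ext m
  unfold sphere
  rw [Set.mem_ofPred_eq, Finset.mem_coe, mem_SpF k d n hk, hr]
  have h1 : ∀ i : Fin d, |((m i : ℤ) : ℝ)| ^ k = (((m i).natAbs ^ k : ℕ) : ℝ) := by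
    intro i
    push_cast
    congr 1
    rw [Nat.cast_natAbs]
    simp
  rw [Finset.sum_congr rfl fun i _ => h1 i, ← Nat.cast_sum, Nat.cast_inj]

lemma radii_nat (k d : ℕ) (r : ℝ) (hr : r ∈ radii k d) :
    ∃ n : ℕ, 1 ≤ n ∧ r ^ k = n := by
  obtain ⟨h0, m, hm⟩ := hr
  unfold sphere at hm
  rw [Set.mem_ofPred_eq] at hm
  have h1 : ∀ i : Fin d, |((m i : ℤ) : ℝ)| ^ k = (((m i).natAbs ^ k : ℕ) : ℝ) := by
    intro i
    push_cast
    congr 1
    rw [Nat.cast_natAbs]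
    simp
  rw [Finset.sum_congr rfl fun i _ => h1 i, ← Nat.cast_sum] at hm
  refine ⟨_, ?_, hm.symm⟩
  have h2 : (0 : ℝ) < r ^ k := by positivity
  rw [← hm] at h2
  have h3 : 0 < ∑ i, (m i).natAbs ^ k := by exact_mod_cast h2
  exact h3

lemma SpF_one_nonempty (k d : ℕ) (hk : 1 ≤ k) (hd : 1 ≤ d) : (SpF k d 1).Nonempty := by
  classical
  refine ⟨Pi.single (⟨0, by omega⟩ : Fin d) (1 : ℤ), ?_⟩
  rw [mem_SpF k d 1 hk, Finset.sum_eq_single (⟨0, by omega⟩ : Fin d)]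
  · simp
  · intro b _ hb
    rw [Pi.single_eq_of_ne hb]
    simp only [Int.natAbs_zero]
    exact Nat.zero_pow (by omega)
  · intro h
    exact absurd (Finset.mem_univ _) h

lemma norm_sphAvg_le (k n : ℕ) {d : ℕ} (r : ℝ) (hk : 1 ≤ k) (hr : r ^ k = n)
    (f : (Fin d → ℤ) → ℂ) (x : Fin d → ℤ) :
    ‖sphAvg k r f x‖ ≤ (∑ y ∈ SpF k d n, ‖f (x - y)‖) / (SpF k d n).card := by
  unfold sphAvg numPts
  rw [sphere_eq k d n r hk hr, Set.ncard_coe_finset, finsum_mem_coe_finset, norm_div, Complex.norm_natCast]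
  exact div_le_div_of_nonneg_right (norm_sum_le _ _) (Nat.cast_nonneg _)

lemma lint_layer (v : ℝ) (c : ℝ≥0∞) :
    ∫⁻ s in Set.Ioi (0 : ℝ), (Set.Iio v).indicator (fun _ => c) s = c * ENNReal.ofReal v := by
  rw [lintegral_indicator_const measurableSet_Iio, Measure.restrict_apply measurableSet_Iio]
  have : Set.Iio v ∩ Set.Ioi 0 = Set.Ioo 0 v := by
    ext s
    simp only [Set.mem_inter_iff, Set.mem_Iio, Set.mem_Ioi, Set.mem_Ioo]
    tauto
  rw [this, Real.volume_Ioo, sub_zero]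

/-- the estimate for finite sets. -/
lemma finite_bound {d : ℕ} (k : ℕ) (hk : 1 ≤ k) (hd1 : 1 ≤ d) (K θ : ℝ) (hK : 0 ≤ K) (hθ0 : 0 < θ)
    (hθ1 : θ < 1)
    (hR : ∀ (n : (Fin d → ℤ) → ℕ)
      (_ : ∀ x, 1 ≤ n x ∧ (SpF k d (n x)).Nonempty) (E F : Finset (Fin d → ℤ)),
      ∑ x ∈ F, (((SpF k d (n x)).filter (fun y => x - y ∈ E)).card : ℝ) /
        (SpF k d (n x)).card ≤ K * ((F.card : ℝ) ^ θ * (E.card : ℝ) ^ (1 - θ)))
    (f : (Fin d → ℤ) → ℂ) (t : ℝ) (F : Finset (Fin d → ℤ))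
    (hF : ∀ x ∈ F, ENNReal.ofReal t < sphMax k f x) :
    ENNReal.ofReal t * (F.card : ℝ≥0∞) ^ (1 - θ) ≤
      ENNReal.ofReal K * ∫⁻ s in Set.Ioi (0 : ℝ), distr (fun x => ENNReal.ofReal ‖f x‖) s ^ (1 - θ) := by
  classical
  rcases F.eq_empty_or_nonempty with h0 | hne
  · rw [h0]
    simp only [Finset.card_empty, Nat.cast_zero]
    rw [ENNReal.zero_rpow_of_pos (by linarith), mul_zero]
    exact bot_le
  -- choose radii
  have hch : ∀ x, ∃ n : ℕ, (1 ≤ n ∧ (SpF k d n).Nonempty) ∧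
      (x ∈ F → t ≤ (∑ y ∈ SpF k d n, ‖f (x - y)‖) / (SpF k d n).card) := by
    intro x
    by_cases hx : x ∈ F
    · have h1 := hF x hx
      unfold sphMax at h1
      rw [lt_iSup_iff] at h1
      obtain ⟨r, h1⟩ := h1
      rw [lt_iSup_iff] at h1
      obtain ⟨hr, h1⟩ := h1
      obtain ⟨n, hn1, hn2⟩ := radii_nat k d r hr
      refine ⟨n, ⟨hn1, ?_⟩, fun _ => ?_⟩
      · have := hr.2
        rw [sphere_eq k d n r hk hn2] at this
        exact Finset.coe_nonempty.1 this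
      · have h2 : t < ‖sphAvg k r f x‖ := by
          by_contra hcon
          push Not at hcon
          exact absurd h1 (not_lt.2 (ENNReal.ofReal_le_ofReal hcon))
        exact h2.le.trans (norm_sphAvg_le k n r hk hn2 f x)
    · exact ⟨1, ⟨le_rfl, SpF_one_nonempty k d hk hd1⟩, fun h => absurd h hx⟩
  choose n hn hnt using hch
  obtain ⟨Y, hY⟩ : ∃ Y : Finset (Fin d → ℤ), Y = F.biUnion (fun x => (SpF k d (n x)).image (fun y => x - y)) :=
    ⟨_, rfl⟩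
  have hYm : ∀ x ∈ F, ∀ y ∈ SpF k d (n x), x - y ∈ Y := by
    intro x hx y hy
    rw [hY, Finset.mem_biUnion]
    exact ⟨x, hx, Finset.mem_image_of_mem _ hy⟩
  have hcardpos : ∀ x, (0 : ℝ) < (SpF k d (n x)).card := fun x => by
    exact_mod_cast Finset.card_pos.2 (hn x).2
  -- layer cake
  have hlayer : ∀ x ∈ F, ENNReal.ofReal ((∑ y ∈ SpF k d (n x), ‖f (x - y)‖) / (SpF k d (n x)).card) =
      ∑ y ∈ SpF k d (n x), ∫⁻ s in Set.Ioi (0 : ℝ), (Set.Iio ‖f (x - y)‖).indicator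
        (fun _ => ENNReal.ofReal (1 / (SpF k d (n x)).card)) s := by
    intro x _
    rw [Finset.sum_div, ENNReal.ofReal_sum_of_nonneg (fun y _ => by positivity)]
    refine Finset.sum_congr rfl fun y _ => ?_
    rw [lint_layer, ← ENNReal.ofReal_mul (by positivity)]
    congr 1
    ring
  have hmeas : ∀ (v : ℝ) (c : ℝ≥0∞), Measurable (fun s : ℝ => (Set.Iio v).indicator (fun _ => c) s) :=
    fun v c => measurable_const.indicator measurableSet_Iio
  have hpoint : ∀ s ∈ Set.Ioi (0 : ℝ), ∑ x ∈ F, ∑ y ∈ SpF k d (n x), (Set.Iio ‖f (x - y)‖).indicator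
        (fun _ => ENNReal.ofReal (1 / (SpF k d (n x)).card)) s ≤
      ENNReal.ofReal K * (F.card : ℝ≥0∞) ^ θ *
        distr (fun x => ENNReal.ofReal ‖f x‖) s ^ (1 - θ) := by
    intro s hs0
    rw [Set.mem_Ioi] at hs0
    obtain ⟨E, hE⟩ : ∃ E : Finset (Fin d → ℤ), E = Y.filter (fun z => s < ‖f z‖) := ⟨_, rfl⟩
    have h1 := hR n hn E F
    have h2 : ∀ x ∈ F, ∑ y ∈ SpF k d (n x), (Set.Iio ‖f (x - y)‖).indicator
        (fun _ => ENNReal.ofReal (1 / (SpF k d (n x)).card)) s =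
        ENNReal.ofReal ((((SpF k d (n x)).filter (fun y => x - y ∈ E)).card : ℝ) /
        (SpF k d (n x)).card) := by
      intro x hx
      have h3 : (SpF k d (n x)).filter (fun y => x - y ∈ E) =
          (SpF k d (n x)).filter (fun y => s < ‖f (x - y)‖) := by
        refine Finset.filter_congr fun y hy => ?_
        rw [hE, Finset.mem_filter]
        constructor
        · exact fun h => h.2
        · exact fun h => ⟨hYm x hx y hy, h⟩
      rw [h3]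
      have h4 : ∀ y ∈ SpF k d (n x), (Set.Iio ‖f (x - y)‖).indicator
          (fun _ => ENNReal.ofReal (1 / (SpF k d (n x)).card)) s =
          if s < ‖f (x - y)‖ then ENNReal.ofReal (1 / (SpF k d (n x)).card) else 0 := by
        intro y _
        rw [Set.indicator_apply]
        rfl
      rw [Finset.sum_congr rfl h4, ← Finset.sum_filter, Finset.sum_const, nsmul_eq_mul,
        ← ENNReal.ofReal_natCast, ← ENNReal.ofReal_mul (Nat.cast_nonneg _)]
      congr 1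
      ring
    rw [Finset.sum_congr rfl h2, ← ENNReal.ofReal_sum_of_nonneg (fun x _ => by positivity)]
    refine (ENNReal.ofReal_le_ofReal h1).trans ?_
    rw [ENNReal.ofReal_mul hK, ENNReal.ofReal_mul (by positivity), mul_assoc]
    refine mul_le_mul_right ?_ _
    rw [← ENNReal.ofReal_rpow_of_nonneg (Nat.cast_nonneg _) hθ0.le,
      ← ENNReal.ofReal_rpow_of_nonneg (Nat.cast_nonneg _) (by linarith : 0 ≤ 1 - θ),
      ENNReal.ofReal_natCast, ENNReal.ofReal_natCast]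
    refine mul_le_mul_right ?_ _
    refine ENNReal.rpow_le_rpow ?_ (by linarith)
    unfold distr
    have h5 : (E : Set (Fin d → ℤ)) ⊆ {x | ENNReal.ofReal s < ENNReal.ofReal ‖f x‖} := by
      intro z hz
      rw [Finset.mem_coe, hE, Finset.mem_filter] at hz
      rw [Set.mem_ofPred_eq]
      exact (ENNReal.ofReal_lt_ofReal_iff_of_nonneg hs0.le).2 hz.2
    have h6 := Set.encard_le_encard h5
    rw [Set.encard_coe_eq_coe_finsetCard] at h6
    exact_mod_cast h6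
  obtain ⟨I, hI⟩ : ∃ I, I = ∫⁻ s in Set.Ioi (0 : ℝ), distr (fun x => ENNReal.ofReal ‖f x‖) s ^ (1 - θ) :=
    ⟨_, rfl⟩
  rw [← hI]
  have hFtop : ((F.card : ℕ) : ℝ≥0∞) ≠ ⊤ := ENNReal.natCast_ne_top _
  have hF0 : ((F.card : ℕ) : ℝ≥0∞) ≠ 0 := by
    rw [Nat.cast_ne_zero]
    exact (Finset.card_pos.2 hne).ne'
  have hFθtop : ((F.card : ℕ) : ℝ≥0∞) ^ θ ≠ ⊤ := ENNReal.rpow_ne_top_of_nonneg hθ0.le hFtop
  have hFθ0 : ((F.card : ℕ) : ℝ≥0∞) ^ θ ≠ 0 := by
    rw [Ne, ENNReal.rpow_eq_zero_iff]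
    rintro (⟨h, _⟩ | ⟨h, _⟩)
    · exact hF0 h
    · exact hFtop h
  have hmain : ENNReal.ofReal t * (F.card : ℝ≥0∞) ≤ ENNReal.ofReal K * (F.card : ℝ≥0∞) ^ θ * I := by
    calc ENNReal.ofReal t * (F.card : ℝ≥0∞) = ∑ x ∈ F, ENNReal.ofReal t := by
          rw [Finset.sum_const, nsmul_eq_mul, mul_comm]
      _ ≤ ∑ x ∈ F, ENNReal.ofReal ((∑ y ∈ SpF k d (n x), ‖f (x - y)‖) / (SpF k d (n x)).card) :=
          Finset.sum_le_sum fun x hx => ENNReal.ofReal_le_ofReal (hnt x hx)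
      _ = ∑ x ∈ F, ∑ y ∈ SpF k d (n x), ∫⁻ s in Set.Ioi (0 : ℝ), (Set.Iio ‖f (x - y)‖).indicator
            (fun _ => ENNReal.ofReal (1 / (SpF k d (n x)).card)) s := Finset.sum_congr rfl hlayer
      _ = ∑ x ∈ F, ∫⁻ s in Set.Ioi (0 : ℝ), ∑ y ∈ SpF k d (n x), (Set.Iio ‖f (x - y)‖).indicator
            (fun _ => ENNReal.ofReal (1 / (SpF k d (n x)).card)) s := by
          refine Finset.sum_congr rfl fun x _ => ?_
          rw [lintegral_finsetSum _ (fun y _ => hmeas _ _)]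
      _ = ∫⁻ s in Set.Ioi (0 : ℝ), ∑ x ∈ F, ∑ y ∈ SpF k d (n x), (Set.Iio ‖f (x - y)‖).indicator
            (fun _ => ENNReal.ofReal (1 / (SpF k d (n x)).card)) s := by
          rw [lintegral_finsetSum _ (fun x _ => Finset.measurable_sum _ fun y _ => hmeas _ _)]
      _ ≤ ∫⁻ s in Set.Ioi (0 : ℝ), ENNReal.ofReal K * (F.card : ℝ≥0∞) ^ θ *
            distr (fun x => ENNReal.ofReal ‖f x‖) s ^ (1 - θ) :=
          setLIntegral_mono' measurableSet_Ioi hpoint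
      _ = ENNReal.ofReal K * (F.card : ℝ≥0∞) ^ θ * I := by
          rw [lintegral_const_mul' _ _ (ENNReal.mul_ne_top ENNReal.ofReal_ne_top hFθtop), hI]
  have hsplit : ((F.card : ℕ) : ℝ≥0∞) = (F.card : ℝ≥0∞) ^ (1 - θ) * (F.card : ℝ≥0∞) ^ θ := by
    rw [← ENNReal.rpow_add _ _ hF0 hFtop, show 1 - θ + θ = 1 by ring, ENNReal.rpow_one]
  rw [hsplit] at hmain
  have h7 : (F.card : ℝ≥0∞) ^ θ * (ENNReal.ofReal t * (F.card : ℝ≥0∞) ^ (1 - θ)) ≤
      (F.card : ℝ≥0∞) ^ θ * (ENNReal.ofReal K * I) := by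
    have e1 : (F.card : ℝ≥0∞) ^ θ * (ENNReal.ofReal t * (F.card : ℝ≥0∞) ^ (1 - θ)) =
        ENNReal.ofReal t * ((F.card : ℝ≥0∞) ^ (1 - θ) * (F.card : ℝ≥0∞) ^ θ) := by ring
    rw [e1, ← hsplit]
    rw [← hsplit] at hmain
    refine hmain.trans (le_of_eq ?_)
    ring
  exact (ENNReal.mul_le_mul_iff_right hFθ0 hFθtop).1 h7

/-- passage from finite sets to the whole level set. -/
lemma level_bound {d : ℕ} (S : Set (Fin d → ℤ)) (t a : ℝ) (ht : 0 < t) (ha : 0 < a) (M : ℝ≥0∞)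
    (h : ∀ F : Finset (Fin d → ℤ), (F : Set (Fin d → ℤ)) ⊆ S →
      ENNReal.ofReal t * (F.card : ℝ≥0∞) ^ a ≤ M) :
    ENNReal.ofReal t * ((S.encard : ℝ≥0∞)) ^ a ≤ M := by
  classical
  have ht0 : ENNReal.ofReal t ≠ 0 := by
    rw [Ne, ENNReal.ofReal_eq_zero, not_le]; exact ht
  rcases S.finite_or_infinite with hS | hS
  · have h1 := h hS.toFinset (by rw [hS.coe_toFinset])
    have h2 : S.encard = (hS.toFinset.card : ℕ∞) := by
      rw [← Set.encard_coe_eq_coe_finsetCard, hS.coe_toFinset]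
    rw [h2]
    exact_mod_cast h1
  · by_cases hM : M = ⊤
    · rw [hM]; exact le_top
    exfalso
    have h1 : ∀ n : ℕ, (n : ℝ≥0∞) ≤ (M / ENNReal.ofReal t) ^ (1 / a) := by
      intro n
      obtain ⟨F, hF1, hF2⟩ := hS.exists_subset_card_eq n
      have h2 := h F hF1
      rw [hF2] at h2
      have h3 : (n : ℝ≥0∞) ^ a ≤ M / ENNReal.ofReal t := by
        rw [ENNReal.le_div_iff_mul_le (Or.inl ht0) (Or.inl ENNReal.ofReal_ne_top), mul_comm]
        exact h2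
      have h4 := ENNReal.rpow_le_rpow h3 (by positivity : 0 ≤ 1 / a)
      rw [← ENNReal.rpow_mul, mul_one_div_cancel ha.ne', ENNReal.rpow_one] at h4
      exact h4
    have h5 : (M / ENNReal.ofReal t) ^ (1 / a) ≠ ⊤ :=
      ENNReal.rpow_ne_top_of_nonneg (by positivity) (ENNReal.div_ne_top hM ht0)
    obtain ⟨n, hn⟩ := ENNReal.exists_nat_gt h5
    exact absurd (h1 n) (not_le.2 hn)

/-- The endpoint bound in all sufficiently large dimensions. -/
theorem endpoint_large (k : ℕ) (hk : 3 ≤ k) : ∃ D : ℕ, k < D ∧ ∀ d : ℕ, D ≤ d →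
    ∃ C : ℝ≥0, ∀ f : (Fin d → ℤ) → ℂ,
      weakNorm ((d : ℝ) / (d - k)) (sphMax k f) ≤
        C * lorentzNorm ((d : ℝ) / (d - k)) (fun x => ENNReal.ofReal ‖f x‖) := by
  obtain ⟨κ, rfl⟩ : ∃ κ, k = κ + 1 := ⟨k - 1, by omega⟩
  obtain ⟨D, hDk, hD⟩ := restricted κ (by omega)
  refine ⟨D, by omega, ?_⟩
  intro d hd
  obtain ⟨K, hK0, hK⟩ := hD d hd
  refine ⟨Real.toNNReal K, ?_⟩
  intro f
  have hdk : 2 * (κ + 1) < d := lt_of_lt_of_le hDk hd
  have hd0 : (0 : ℝ) < d := by exact_mod_cast (by omega : 0 < d)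
  have hdkR : 2 * (((κ + 1 : ℕ)) : ℝ) < d := by exact_mod_cast hdk
  have hkpos : (0 : ℝ) < ((κ + 1 : ℕ) : ℝ) := by exact_mod_cast Nat.succ_pos κ
  have hp1 : 1 ≤ (d : ℝ) / (d - ((κ + 1 : ℕ) : ℝ)) := by
    rw [le_div_iff₀ (by linarith)]; linarith
  have hp : 1 / ((d : ℝ) / (d - ((κ + 1 : ℕ) : ℝ))) = 1 - ((κ + 1 : ℕ) : ℝ) / d := by
    rw [one_div_div, sub_div, div_self hd0.ne']
  have hθ0 : 0 < ((κ + 1 : ℕ) : ℝ) / d := by positivity
  have hθ1 : ((κ + 1 : ℕ) : ℝ) / d < 1 := by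
    rw [div_lt_one hd0]; linarith
  unfold weakNorm lorentzNorm
  rw [hp]
  refine iSup_le fun t => iSup_le fun ht => ?_
  refine le_trans (level_bound _ t (1 - ((κ + 1 : ℕ) : ℝ) / d) ht (by linarith)
    (ENNReal.ofReal K * ∫⁻ s in Set.Ioi (0 : ℝ), distr (fun x => ENNReal.ofReal ‖f x‖) s ^
      (1 - ((κ + 1 : ℕ) : ℝ) / d)) ?_) ?_
  · intro F hF
    exact finite_bound (κ + 1) (by omega) (by omega) K _ hK0 hθ0 hθ1 hK f t F (fun x hx => hF hx)
  · change ENNReal.ofReal K * _ ≤ ENNReal.ofReal K * _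
    refine mul_le_mul_right ?_ _
    refine le_mul_of_one_le_left bot_le ?_
    rw [← ENNReal.ofReal_one]
    exact ENNReal.ofReal_le_ofReal hp1

end Pool.Agent.helper132_sph
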