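import Mathlib

/-! Basic exponential notation `ec x = exp (2 pi i x)` and phase classes. -/

namespace Pool.Agent.helper132_sph

open Finset

/-- `ec x = exp (2 pi i x)`. -/
noncomputable def ec (x : ℝ) : ℂ := Complex.exp ((2 * Real.pi * x : ℝ) * Complex.I)

lemma ec_zero : ec 0 = 1 := by simp [ec]

lemma ec_add (x y : ℝ) : ec (x + y) = ec x * ec y := by
  unfold ec
  rw [← Complex.exp_add]
  congr 1
  push_cast
  ring

lemma norm_ec (x : ℝ) : ‖ec x‖ = 1 := by
  unfold ec
  exact Complex.norm_exp_ofReal_mul_I _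

lemma ec_int (n : ℤ) : ec n = 1 := by
  unfold ec
  rw [Complex.exp_eq_one_iff]
  exact ⟨n, by push_cast; ring⟩

lemma ec_ne_zero (x : ℝ) : ec x ≠ 0 := Complex.exp_ne_zero _

lemma ec_neg (x : ℝ) : ec (-x) = (ec x)⁻¹ := by
  have h : ec (-x) * ec x = 1 := by rw [← ec_add]; simp [ec_zero]
  exact eq_inv_of_mul_eq_one_left h

lemma conj_ec (x : ℝ) : (starRingEnd ℂ) (ec x) = ec (-x) := by
  unfold ec
  rw [← Complex.exp_conj]
  congr 1
  rw [map_mul, Complex.conj_ofReal, Complex.conj_I]
  push_cast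
  ring

lemma ec_sub (x y : ℝ) : ec (x - y) = ec x * (starRingEnd ℂ) (ec y) := by
  rw [conj_ec, sub_eq_add_neg, ec_add]

lemma ec_add_int (x : ℝ) (n : ℤ) : ec (x + n) = ec x := by
  rw [ec_add, ec_int, mul_one]

lemma ec_nat_mul (n : ℕ) (x : ℝ) : ec (n * x) = ec x ^ n := by
  induction n with
  | zero => simp [ec_zero]
  | succ n ih =>
    rw [pow_succ, ← ih, ← ec_add]
    congr 1
    push_cast
    ring

/-- lower bound for `|ec x - 1|` by the distance to the nearest integer. -/
lemma exists_int_abs_sub_le (x : ℝ) : ∃ b : ℤ, |x - b| ≤ 1 / 2 ∧ 4 * |x - b| ≤ ‖ec x - 1‖ := by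
  refine ⟨round x, abs_sub_round x, ?_⟩
  set y := x - round x with hy
  have hy2 : |y| ≤ 1 / 2 := abs_sub_round x
  have h1 : ec x = ec y := by
    have : x = y + (round x : ℤ) := by rw [hy]; ring
    rw [this, ec_add_int]
  rw [h1]
  have h2 : ‖ec y - 1‖ = ‖2 * Real.sin (Real.pi * y)‖ := by
    have := Complex.norm_exp_I_mul_ofReal_sub_one (2 * Real.pi * y)
    unfold ec
    rw [mul_comm Complex.I] at this
    rw [this]
    congr 3
    ring
  rw [h2]
  rw [Real.norm_eq_abs, abs_mul, abs_two]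
  have h3 : 2 * |y| ≤ |Real.sin (Real.pi * y)| := by
    have hpi := Real.pi_pos
    have key : ∀ z : ℝ, 0 ≤ z → z ≤ 1 / 2 → 2 * z ≤ Real.sin (Real.pi * z) := by
      intro z hz0 hz1
      have := Real.mul_le_sin (x := Real.pi * z) (by positivity) (by nlinarith)
      calc 2 * z = 2 / Real.pi * (Real.pi * z) := by field_simp
        _ ≤ _ := this
    rcases le_total 0 y with h | h
    · rw [abs_of_nonneg h] at hy2 ⊢
      exact (key y h hy2).trans (le_abs_self _)
    · rw [abs_of_nonpos h] at hy2 ⊢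
      have h5 := key (-y) (by linarith) hy2
      have h6 : Real.pi * -y = -(Real.pi * y) := by ring
      rw [h6, Real.sin_neg] at h5
      exact h5.trans (neg_le_abs _)
  linarith

end Pool.Agent.helper132_sph
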