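import Pool.Agent.helper132_sph.Geom

/-! The inner averages and the convolution identity. -/

namespace Pool.Agent.helper132_sph

open Finset

/-- largest multiple of `q` below `2^j`. -/
def sj (q j : ℕ) : ℕ := q * (2 ^ j / q)

lemma sj_dvd (q j : ℕ) : q ∣ sj q j := Dvd.intro _ rfl

lemma sj_le (q j : ℕ) : sj q j ≤ 2 ^ j := Nat.mul_div_le _ _

lemma sj_ge (q j : ℕ) (hq : 1 ≤ q) (hj : Nat.log 2 q + 2 ≤ j) : 2 ^ j < 2 * sj q j ∧ q ≤ sj q j := by
  unfold sj
  have h1 : q < 2 ^ (Nat.log 2 q + 1) := Nat.lt_pow_succ_log_self (by norm_num) _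
  have h2 : (2 : ℕ) ^ (Nat.log 2 q + 2) ≤ 2 ^ j := Nat.pow_le_pow_right (by norm_num) hj
  have h3 : (2 : ℕ) ^ (Nat.log 2 q + 2) = 2 * 2 ^ (Nat.log 2 q + 1) := by
    rw [show Nat.log 2 q + 2 = (Nat.log 2 q + 1) + 1 by ring, pow_succ]; ring
  have h4 := Nat.lt_mul_div_succ (2 ^ j) (by omega : 0 < q)
  rw [Nat.mul_add, Nat.mul_one] at h4
  constructor
  · omega
  · omega

/-- the inner average of a set at level-dependent scales. -/
noncomputable def Gf {d : ℕ} (k q : ℕ) (c : ℤ) (j0 : ℕ) (F : Finset (Fin d → ℤ))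
    (S : Finset (Fin d → ℤ)) (y : Fin d → ℤ) : ℂ :=
  ∑ e ∈ S, ∏ i, (kap k (sj q (idx j0 F e)) ((c : ℝ) / q) (y i - e i) / (sj q (idx j0 F e) : ℂ))

lemma conv_one {d : ℕ} (k q X s : ℕ) (c : ℤ) (β : ℝ) (x e : Fin d → ℤ) (B : Finset (Fin d → ℤ))
    (hB : ∀ y : Fin d → ℤ, (∀ j, 0 ≤ x j - y j ∧ x j - y j < X) → y ∈ B) :
    ∏ j, bker q k X s c β (x j - e j) =
      ∑ y ∈ B, (∏ j, lam q k X β (x j - y j)) * ∏ j, (kap k s ((c : ℝ) / q) (y j - e j) / (s : ℂ)) := by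
  classical
  unfold bker
  rw [Finset.prod_univ_sum]
  have h1 : ∑ y ∈ B, (∏ j, lam q k X β (x j - y j)) * ∏ j, (kap k s ((c : ℝ) / q) (y j - e j) / (s : ℂ)) =
      ∑ y ∈ B.filter (fun y => ∀ j, 0 ≤ x j - y j ∧ x j - y j < X),
        (∏ j, lam q k X β (x j - y j)) * ∏ j, (kap k s ((c : ℝ) / q) (y j - e j) / (s : ℂ)) := by
    rw [Finset.sum_filter]
    refine Finset.sum_congr rfl fun y _ => ?_
    split_ifs with hP
    · rfl
    · by_contra hne
      apply hP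
      intro j
      have h2 := left_ne_zero_of_mul hne
      have h3 := Finset.prod_ne_zero_iff.1 h2 j (Finset.mem_univ j)
      exact (lam_supp q k X β _ h3).2
  rw [h1]
  refine Finset.sum_bij' (fun z _ => fun j => x j - z j) (fun y _ => fun j => x j - y j) ?_ ?_ ?_ ?_ ?_
  · intro z hz
    rw [Fintype.mem_piFinset] at hz
    have hz' : ∀ j, 0 ≤ x j - (x j - z j) ∧ x j - (x j - z j) < X := by
      intro j
      have := hz j
      rw [Finset.mem_Ico] at this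
      constructor <;> linarith [this.1, this.2]
    rw [Finset.mem_filter]
    exact ⟨hB _ hz', hz'⟩
  · intro y hy
    rw [Finset.mem_filter] at hy
    rw [Fintype.mem_piFinset]
    intro j
    rw [Finset.mem_Ico]
    exact hy.2 j
  · intro z _
    funext j
    ring
  · intro y _
    funext j
    ring
  · intro z _
    rw [← Finset.prod_mul_distrib]
    refine Finset.prod_congr rfl fun j _ => ?_
    have e1 : x j - (x j - z j) = z j := by ring
    have e2 : x j - z j - e j = x j - e j - z j := by ring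
    rw [e1, e2]

lemma conv_set {d : ℕ} (k q X : ℕ) (c : ℤ) (β : ℝ) (j0 : ℕ) (F S : Finset (Fin d → ℤ))
    (x : Fin d → ℤ) (B : Finset (Fin d → ℤ))
    (hB : ∀ y : Fin d → ℤ, (∀ j, 0 ≤ x j - y j ∧ x j - y j < X) → y ∈ B) :
    ∑ e ∈ S, ∏ j, bker q k X (sj q (idx j0 F e)) c β (x j - e j) =
      ∑ y ∈ B, (∏ j, lam q k X β (x j - y j)) * Gf k q c j0 F S y := by
  unfold Gf
  rw [Finset.sum_congr rfl fun e _ => conv_one k q X (sj q (idx j0 F e)) c β x e B hB,
    Finset.sum_comm]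
  refine Finset.sum_congr rfl fun y _ => ?_
  rw [Finset.mul_sum]

/-- second moment of `Gf` on a single level. -/
lemma Gf_level {d : ℕ} (k m q r : ℕ) (c : ℤ) (E F S B : Finset (Fin d → ℤ)) (ρ : ℝ) (hρ : 0 ≤ ρ)
    (hq : 1 ≤ q) (hD : Dens E F ρ) (hF : F.Nonempty) (j0 j : ℕ) (hj0 : Nat.log 2 q + 2 ≤ j0)
    (hS : S ⊆ E) (hj : ∀ e ∈ S, idx j0 F e = j)
    (hr1 : 1 ≤ r) (hr : r < d) (hm : m * r ≤ d) :
    ∑ y ∈ B, ‖Gf k q c j0 F S y‖ ^ 2 ≤
      S.card * ((32 : ℝ) ^ d * ρ) ^ (1 - (r : ℝ) / d) * Dl k m (sj q j) ((c : ℝ) / q) ^ r := by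
  classical
  rcases S.eq_empty_or_nonempty with h0 | hne
  · rw [h0]; simp [Gf]
  obtain ⟨e0, he0⟩ := hne
  have hjj : j0 ≤ j := by rw [← hj e0 he0]; exact idx_ge _ _ _
  obtain ⟨hs1, hs2⟩ := sj_ge q j hq (by omega)
  have hs3 := sj_le q j
  obtain ⟨s, hs⟩ : ∃ s, s = sj q j := ⟨_, rfl⟩
  rw [← hs] at hs1 hs2 hs3 ⊢
  have hs1' : 1 ≤ s := by omega
  have hsR : (0 : ℝ) < s := by exact_mod_cast hs1'
  refine le_trans (le_of_eq ?_) (restricted_second_moment k m s r hs1' ((c : ℝ) / q) S B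
    ((32 : ℝ) ^ d * ρ) (by positivity) ?_ hr1 hr hm)
  · rw [Finset.sum_div]
    refine Finset.sum_congr rfl fun y _ => ?_
    have h1 : Gf k q c j0 F S y = (∑ e ∈ S, ∏ i, kap k s ((c : ℝ) / q) (y i - e i)) / (s : ℂ) ^ d := by
      unfold Gf
      rw [Finset.sum_div]
      refine Finset.sum_congr rfl fun e he => ?_
      rw [hj e he, ← hs, Finset.prod_div_distrib, Finset.prod_const, Finset.card_univ, Fintype.card_fin]
    rw [h1, norm_div, div_pow, norm_pow, Complex.norm_natCast, ← pow_mul, mul_comm d 2]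
  · intro e he
    have h1 := dens_level hD hF j0 e j (hj e he).le
    have h2 : (((S.filter (fun e' => ∀ j, |e j - e' j| < s)).card : ℕ) : ℝ) ≤
        (((E.filter (fun e' => nd e e' < 2 ^ j)).card : ℕ) : ℝ) := by
      have : (S.filter (fun e' => ∀ j, |e j - e' j| < s)).card ≤
          (E.filter (fun e' => nd e e' < 2 ^ j)).card := by
        refine Finset.card_le_card ?_
        intro e' he'
        rw [Finset.mem_filter] at he' ⊢
        refine ⟨hS he'.1, ?_⟩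
        have := (nd_lt_iff e e' s hs1').2 he'.2
        omega
      exact_mod_cast this
    refine h2.trans (h1.trans ?_)
    have h3 : (2 : ℝ) ^ (j + 4) ≤ 32 * s := by
      have h4 : (2 : ℝ) ^ j ≤ 2 * s := by exact_mod_cast hs1.le
      rw [pow_add]
      norm_num
      linarith
    calc ρ * ((2 : ℝ) ^ (j + 4)) ^ d ≤ ρ * (32 * (s : ℝ)) ^ d := by gcongr
      _ = (32 : ℝ) ^ d * ρ * (s : ℝ) ^ d := by rw [mul_pow]; ring

/-- second moment of `Gf` over all levels. -/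
lemma Gf_total {d : ℕ} (k q : ℕ) (c : ℤ) (E F B : Finset (Fin d → ℤ)) (hF : F.Nonempty)
    (j0 : ℕ) (hq : 1 ≤ q) (hj0 : Nat.log 2 q + 2 ≤ j0) :
    ∑ y ∈ B, ‖Gf k q c j0 F E y‖ ^ 2 ≤
      3 * ∑ j ∈ E.image (idx j0 F), ∑ y ∈ B,
        ‖Gf k q c j0 F (E.filter (fun e => idx j0 F e = j)) y‖ ^ 2 := by
  classical
  rw [Finset.sum_comm, Finset.mul_sum]
  refine Finset.sum_le_sum fun y _ => ?_
  set g : ℕ → ℂ := fun j => Gf k q c j0 F (E.filter (fun e => idx j0 F e = j)) y with hg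
  set T := (E.image (idx j0 F)).filter (fun j => g j ≠ 0) with hT
  have h1 : Gf k q c j0 F E y = ∑ j ∈ T, g j := by
    rw [hT, Finset.sum_filter_ne_zero]
    simp only [hg]
    unfold Gf
    rw [Finset.sum_fiberwise_of_maps_to (fun e he => Finset.mem_image_of_mem _ he)]
  have hgne : ∀ j, g j ≠ 0 → ∃ e ∈ E, idx j0 F e = j ∧ nd y e < 2 ^ j := by
    intro j hj
    simp only [hg] at hj
    unfold Gf at hj
    obtain ⟨e, he, hne⟩ := Finset.exists_ne_zero_of_sum_ne_zero hj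
    rw [Finset.mem_filter] at he
    refine ⟨e, he.1, he.2, ?_⟩
    rw [he.2] at hne
    have hjj : j0 ≤ j := by rw [← he.2]; exact idx_ge _ _ _
    have hs := sj_ge q j hq (by omega)
    have h2 : ∏ i, kap k (sj q j) ((c : ℝ) / q) (y i - e i) ≠ 0 := by
      rw [Finset.prod_ne_zero_iff] at hne ⊢
      intro i hi h0
      exact hne i hi (by rw [h0, zero_div])
    have h3 := prod_kap_ne k (sj q j) (by omega) _ y e h2
    have h4 := sj_le q j
    omega
  have hkey : ∀ a ∈ T, ∀ b ∈ T, j0 < a → a < b → b ≤ a + 1 := by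
    intro a ha b hb h0 hab
    rw [hT, Finset.mem_filter] at ha hb
    obtain ⟨e, he, hea, hen⟩ := hgne a ha.2
    obtain ⟨e', he', heb, hen'⟩ := hgne b hb.2
    obtain ⟨x, hx, hxe⟩ := dF_mem hF e
    have u1 := idx_upper j0 F e
    have u2 := idx_lower j0 F e' (by rw [heb]; omega)
    rw [hea] at u1
    rw [heb] at u2
    have u3 := dF_le hx e'
    have t1 := nd_triangle x e e'
    have t2 := nd_triangle e y e'
    have t3 := nd_comm e y
    have u4 : (2 : ℕ) ^ (a + 3) = 8 * 2 ^ a := by rw [pow_add]; norm_num; ring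
    have u5 : 3 * 2 ^ b < 9 * 2 ^ a := by omega
    by_contra hcon
    have u6 : (2 : ℕ) ^ (a + 2) ≤ 2 ^ b := Nat.pow_le_pow_right (by norm_num) (by omega)
    have u7 : (2 : ℕ) ^ (a + 2) = 4 * 2 ^ a := by rw [pow_add]; norm_num; ring
    omega
  have hcard : T.card ≤ 3 := by
    by_cases hT2 : (T.filter (fun j => j0 < j)).Nonempty
    · set a := (T.filter (fun j => j0 < j)).min' hT2 with ha
      have ham := Finset.min'_mem _ hT2
      rw [← ha, Finset.mem_filter] at ham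
      have : T ⊆ {j0, a, a + 1} := by
        intro b hb
        simp only [Finset.mem_insert, Finset.mem_singleton]
        have hbi : b ∈ E.image (idx j0 F) := (Finset.mem_filter.1 hb).1
        rw [Finset.mem_image] at hbi
        obtain ⟨e, _, hbe⟩ := hbi
        have hb0 : j0 ≤ b := by rw [← hbe]; exact idx_ge _ _ _
        rcases hb0.eq_or_lt with h | h
        · left; exact h.symm
        · have h2 : a ≤ b := by
            rw [ha]; exact Finset.min'_le _ _ (Finset.mem_filter.2 ⟨hb, h⟩)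
          rcases h2.eq_or_lt with h3 | h3
          · right; left; exact h3.symm
          · right; right
            have := hkey a ham.1 b hb ham.2 h3
            omega
      exact (Finset.card_le_card this).trans Finset.card_le_three
    · rw [Finset.not_nonempty_iff_eq_empty] at hT2
      have : T ⊆ {j0} := by
        intro b hb
        simp only [Finset.mem_singleton]
        have hbi : b ∈ E.image (idx j0 F) := (Finset.mem_filter.1 hb).1
        rw [Finset.mem_image] at hbi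
        obtain ⟨e, _, hbe⟩ := hbi
        have hb0 : j0 ≤ b := by rw [← hbe]; exact idx_ge _ _ _
        rcases hb0.eq_or_lt with h | h
        · exact h.symm
        · have : b ∈ T.filter (fun j => j0 < j) := Finset.mem_filter.2 ⟨hb, h⟩
          rw [hT2] at this
          exact absurd this (Finset.notMem_empty _)
      exact (Finset.card_le_card this).trans (by simp)
  have h5 : ‖∑ j ∈ T, g j‖ ^ 2 ≤ T.card * ∑ j ∈ T, ‖g j‖ ^ 2 := by
    have h6 : ‖∑ j ∈ T, g j‖ ^ 2 ≤ (∑ j ∈ T, ‖g j‖) ^ 2 :=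
      pow_le_pow_left₀ (norm_nonneg _) (norm_sum_le _ _) 2
    exact h6.trans sq_sum_le_card_mul_sum_sq
  rw [h1]
  refine h5.trans ?_
  have h7 : ∑ j ∈ T, ‖g j‖ ^ 2 ≤ ∑ j ∈ E.image (idx j0 F), ‖g j‖ ^ 2 :=
    Finset.sum_le_sum_of_subset_of_nonneg (Finset.filter_subset _ _) fun _ _ _ => by positivity
  have h8 : (T.card : ℝ) ≤ 3 := by exact_mod_cast hcard
  calc (T.card : ℝ) * ∑ j ∈ T, ‖g j‖ ^ 2 ≤ 3 * ∑ j ∈ T, ‖g j‖ ^ 2 :=
        mul_le_mul_of_nonneg_right h8 (Finset.sum_nonneg fun _ _ => by positivity)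
    _ ≤ _ := mul_le_mul_of_nonneg_left h7 (by norm_num)

/-- bound at rational points. -/
lemma Dl_rat (κ m : ℕ) (hκ : 2 ≤ κ) (C : ℝ) (hC : 1 ≤ C)
    (hst : ∀ (X : ℕ) (_ : 1 ≤ X) (α R : ℝ) (_ : 1 ≤ R)
      (_ : ∀ (q : ℕ) (c : ℤ), 1 ≤ q → (q : ℝ) ≤ R → R < |q * α - c| * (X : ℝ) ^ (κ + 1)),
      Dl (κ + 1) m X α ^ (2 * (κ + 1)) ≤
        C * (1 / R ^ (2 * κ + 1) + 1 / (X : ℝ) ^ (2 * (κ + 1))))
    (q s : ℕ) (c : ℤ) (hq : 1 ≤ q) (hcop : IsCoprime c (q : ℤ)) (hs : q ≤ s) :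
    Dl (κ + 1) m s ((c : ℝ) / q) ^ (2 * (κ + 1)) * (q : ℝ) ^ 5 ≤ 33 * C + 4 ^ (κ + 1) := by
  have hs1 : 1 ≤ s := hq.trans hs
  have hqR : (0 : ℝ) < q := by exact_mod_cast hq
  have hsR : (q : ℝ) ≤ s := by exact_mod_cast hs
  rcases hq.eq_or_lt with h1 | h1
  · rw [← h1, Nat.cast_one, one_pow, mul_one]
    have : Dl (κ + 1) m s ((c : ℝ) / 1) ^ (2 * (κ + 1)) ≤ 4 ^ (κ + 1) := by
      calc _ ≤ (2 : ℝ) ^ (2 * (κ + 1)) :=
            pow_le_pow_left₀ (Dl_nonneg _ _ _ _) (Dl_le_two _ _ _ _ hs1) _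
        _ = 4 ^ (κ + 1) := by rw [pow_mul]; norm_num
    linarith
  · have hq2 : (2 : ℝ) ≤ q := by exact_mod_cast h1
    have hst1 := hst s hs1 ((c : ℝ) / q) ((q : ℝ) / 2) (by linarith) (by
      intro q' c' hq' hq'R
      have hlt : q' < q := by
        have : (q' : ℝ) < q := by linarith
        exact_mod_cast this
      have hne : (q' : ℤ) * c - c' * q ≠ 0 := by
        intro h0
        have h2 : (q : ℤ) ∣ (q' : ℤ) * c := ⟨c', by linarith⟩
        have h3 : (q : ℤ) ∣ (q' : ℤ) := hcop.symm.dvd_of_dvd_mul_right h2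
        have h4 : q ∣ q' := by exact_mod_cast h3
        have := Nat.le_of_dvd (by omega) h4
        omega
      have h2 : (1 : ℝ) ≤ |(q' : ℝ) * c - c' * q| := by
        have := Int.one_le_abs hne
        exact_mod_cast this
      have h3 : |(q' : ℝ) * ((c : ℝ) / q) - c'| = |(q' : ℝ) * c - c' * q| / q := by
        rw [← abs_of_pos hqR, ← abs_div, abs_of_pos hqR]
        congr 1
        field_simp
      rw [h3]
      have h4 : (q : ℝ) ^ 3 ≤ (s : ℝ) ^ (κ + 1) := by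
        calc (q : ℝ) ^ 3 ≤ (s : ℝ) ^ 3 := pow_le_pow_left₀ hqR.le hsR 3
          _ ≤ (s : ℝ) ^ (κ + 1) := pow_le_pow_right₀ (by linarith) (by omega)
      calc (q : ℝ) / 2 < 1 / q * q ^ 3 := by
            have : 1 / (q : ℝ) * q ^ 3 = q * q := by field_simp
            rw [this]
            have : (q : ℝ) * 1 ≤ q * q := mul_le_mul_of_nonneg_left (by linarith) hqR.le
            linarith
        _ ≤ |(q' : ℝ) * c - c' * q| / q * (s : ℝ) ^ (κ + 1) := by gcongr)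
    have h5 : 1 / ((q : ℝ) / 2) ^ (2 * κ + 1) ≤ 32 / (q : ℝ) ^ 5 := by
      have b1 : ((q : ℝ) / 2) ^ 5 ≤ ((q : ℝ) / 2) ^ (2 * κ + 1) :=
        pow_le_pow_right₀ (by linarith) (by omega)
      calc 1 / ((q : ℝ) / 2) ^ (2 * κ + 1) ≤ 1 / ((q : ℝ) / 2) ^ 5 :=
            one_div_le_one_div_of_le (by positivity) b1
        _ = 32 / (q : ℝ) ^ 5 := by rw [div_pow]; norm_num
    have h6 : 1 / (s : ℝ) ^ (2 * (κ + 1)) ≤ 1 / (q : ℝ) ^ 5 := by
      apply one_div_le_one_div_of_le (by positivity)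
      calc (q : ℝ) ^ 5 ≤ (s : ℝ) ^ 5 := pow_le_pow_left₀ hqR.le hsR 5
        _ ≤ (s : ℝ) ^ (2 * (κ + 1)) := pow_le_pow_right₀ (by linarith) (by omega)
    have h7 : Dl (κ + 1) m s ((c : ℝ) / q) ^ (2 * (κ + 1)) ≤ C * (33 / (q : ℝ) ^ 5) := by
      refine hst1.trans (mul_le_mul_of_nonneg_left ?_ (by linarith))
      have e : (33 : ℝ) / (q : ℝ) ^ 5 = 32 / (q : ℝ) ^ 5 + 1 / (q : ℝ) ^ 5 := by ring
      rw [e]; linarith
    have h8 : (0 : ℝ) ≤ 4 ^ (κ + 1) := by positivity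
    calc _ ≤ C * (33 / (q : ℝ) ^ 5) * (q : ℝ) ^ 5 := mul_le_mul_of_nonneg_right h7 (by positivity)
      _ = 33 * C := by field_simp
      _ ≤ _ := by linarith

end Pool.Agent.helper132_sph
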