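import Pool.Agent.helper132_sph.Struct

/-! Second moments of product kernels. -/

namespace Pool.Agent.helper132_sph

open Finset

lemma sum_shift_box (f : ℤ → ℂ) (M H : ℕ) (p : ℤ) (hf : ∀ n, f n ≠ 0 → |n| < M)
    (hp : |p| + M ≤ H) : ∑ z ∈ Icc (-(H : ℤ)) H, f (z - p) = ∑ n ∈ Ioo (-(M : ℤ)) M, f n := by
  have h1 : ∑ n ∈ Ioo (-(M : ℤ)) M, f n =
      ∑ z ∈ (Ioo (-(M : ℤ)) M).map (Equiv.addRight p).toEmbedding, f (z - p) := by
    rw [Finset.sum_map]
    refine Finset.sum_congr rfl fun n _ => ?_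
    simp
  rw [h1]
  symm
  refine Finset.sum_subset ?_ ?_
  · intro z hz
    rw [Finset.mem_map] at hz
    obtain ⟨n, hn, rfl⟩ := hz
    rw [Finset.mem_Ioo] at hn
    have hp1 := neg_abs_le p
    have hp2 := le_abs_self p
    simp only [Equiv.coe_toEmbedding, Equiv.coe_addRight, Finset.mem_Icc]
    constructor <;> linarith
  · intro z _ hz
    by_contra hne
    apply hz
    have := hf _ hne
    rw [abs_lt] at this
    rw [Finset.mem_map]
    exact ⟨z - p, Finset.mem_Ioo.2 this, by simp⟩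

lemma corr_general {d : ℕ} {ι : Type} (I : Finset ι) (g : ι → ℂ) (p : ι → Fin d → ℤ)
    (κ : ι → ℤ → ℂ) (M : ℕ) (hκ : ∀ i ∈ I, ∀ n, κ i n ≠ 0 → |n| < M)
    (B : Finset (Fin d → ℤ)) :
    ∑ z ∈ B, ‖∑ i ∈ I, g i * ∏ j, κ i (z j - p i j)‖ ^ 2 ≤
      ∑ i ∈ I, ∑ i' ∈ I, ‖g i‖ * ‖g i'‖ *
        ∏ j, ‖∑ n ∈ Ioo (-(M : ℤ)) M, κ i n * (starRingEnd ℂ) (κ i' (n + (p i j - p i' j)))‖ := by
  classical
  obtain ⟨H, hH1, hH2⟩ : ∃ H : ℕ, (∀ i ∈ I, ∀ j, |p i j| + M ≤ H) ∧
      (∀ z ∈ B, ∀ j, |z j| ≤ H) := by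
    refine ⟨M + ∑ i ∈ I, ∑ j, (p i j).natAbs + ∑ z ∈ B, ∑ j, (z j).natAbs, ?_, ?_⟩
    · intro i hi j
      have h1 : (p i j).natAbs ≤ ∑ j, (p i j).natAbs :=
        Finset.single_le_sum (f := fun j => (p i j).natAbs) (fun _ _ => Nat.zero_le _) (Finset.mem_univ j)
      have h2 : ∑ j, (p i j).natAbs ≤ ∑ i ∈ I, ∑ j, (p i j).natAbs :=
        Finset.single_le_sum (f := fun i => ∑ j, (p i j).natAbs) (fun _ _ => Nat.zero_le _) hi
      have h3 : (p i j).natAbs + M ≤
          M + ∑ i ∈ I, ∑ j, (p i j).natAbs + ∑ z ∈ B, ∑ j, (z j).natAbs := by omega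
      rw [Int.abs_eq_natAbs]
      exact_mod_cast h3
    · intro z hz j
      have h1 : (z j).natAbs ≤ ∑ j, (z j).natAbs :=
        Finset.single_le_sum (f := fun j => (z j).natAbs) (fun _ _ => Nat.zero_le _) (Finset.mem_univ j)
      have h2 : ∑ j, (z j).natAbs ≤ ∑ z ∈ B, ∑ j, (z j).natAbs :=
        Finset.single_le_sum (f := fun z => ∑ j, (z j).natAbs) (fun _ _ => Nat.zero_le _) hz
      rw [Int.abs_eq_natAbs]
      have h3 : (z j).natAbs ≤
          M + ∑ i ∈ I, ∑ j, (p i j).natAbs + ∑ z ∈ B, ∑ j, (z j).natAbs := by omega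
      exact_mod_cast h3
  set Bx : Finset (Fin d → ℤ) := Fintype.piFinset (fun _ => Icc (-(H : ℤ)) H) with hBx
  have hsub : B ⊆ Bx := by
    intro z hz
    rw [hBx, Fintype.mem_piFinset]
    intro j
    rw [Finset.mem_Icc, ← abs_le]
    exact hH2 z hz j
  set T : (Fin d → ℤ) → ℂ := fun z => ∑ i ∈ I, g i * ∏ j, κ i (z j - p i j) with hT
  have h1 : ∑ z ∈ B, ‖T z‖ ^ 2 ≤ ∑ z ∈ Bx, ‖T z‖ ^ 2 :=
    Finset.sum_le_sum_of_subset_of_nonneg hsub fun _ _ _ => by positivity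
  refine h1.trans ?_
  have h2 : ((∑ z ∈ Bx, ‖T z‖ ^ 2 : ℝ) : ℂ) = ∑ i ∈ I, ∑ i' ∈ I, g i * (starRingEnd ℂ) (g i') *
      ∏ j, ∑ n ∈ Ioo (-(M : ℤ)) M, κ i n * (starRingEnd ℂ) (κ i' (n + (p i j - p i' j))) := by
    push_cast
    have e1 : ∀ z ∈ Bx, ((‖T z‖ : ℂ)) ^ 2 = ∑ i ∈ I, ∑ i' ∈ I, g i * (starRingEnd ℂ) (g i') *
        ∏ j, (κ i (z j - p i j) * (starRingEnd ℂ) (κ i' (z j - p i' j))) := by
      intro z _
      rw [← Complex.mul_conj', hT]
      simp only
      rw [map_sum, Finset.sum_mul_sum]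
      refine Finset.sum_congr rfl fun i _ => Finset.sum_congr rfl fun i' _ => ?_
      rw [map_mul, map_prod, Finset.prod_mul_distrib]
      ring
    rw [Finset.sum_congr rfl e1, Finset.sum_comm]
    refine Finset.sum_congr rfl fun i hi => ?_
    rw [Finset.sum_comm]
    refine Finset.sum_congr rfl fun i' _ => ?_
    rw [← Finset.mul_sum]
    congr 1
    rw [hBx, ← Finset.prod_univ_sum (fun _ => Icc (-(H : ℤ)) H)
      (fun j n => κ i (n - p i j) * (starRingEnd ℂ) (κ i' (n - p i' j)))]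
    refine Finset.prod_congr rfl fun j _ => ?_
    have := sum_shift_box (fun n => κ i n * (starRingEnd ℂ) (κ i' (n + (p i j - p i' j)))) M H (p i j)
      (fun n hn => hκ i hi n (left_ne_zero_of_mul hn)) (hH1 i hi j)
    rw [← this]
    refine Finset.sum_congr rfl fun n _ => ?_
    congr 3
    ring
  have h3 : (∑ z ∈ Bx, ‖T z‖ ^ 2 : ℝ) = ‖((∑ z ∈ Bx, ‖T z‖ ^ 2 : ℝ) : ℂ)‖ := by
    rw [Complex.norm_real, Real.norm_of_nonneg]
    exact Finset.sum_nonneg fun _ _ => by positivity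
  rw [h3, h2]
  refine (norm_sum_le _ _).trans (Finset.sum_le_sum fun i _ => ?_)
  refine (norm_sum_le _ _).trans (Finset.sum_le_sum fun i' _ => ?_)
  rw [norm_mul, norm_mul, RCLike.norm_conj, norm_prod]

/-- the one-variable kernel `ec (α n^k)` on `[0, X)`. -/
noncomputable def kap (k X : ℕ) (α : ℝ) (n : ℤ) : ℂ :=
  if 0 ≤ n ∧ n < X then ec (α * (n : ℝ) ^ k) else 0

lemma kap_supp (k X : ℕ) (α : ℝ) (n : ℤ) (h : kap k X α n ≠ 0) : 0 ≤ n ∧ n < X := by
  unfold kap at h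
  by_contra hcon
  rw [if_neg hcon] at h
  exact h rfl

lemma norm_kap_le (k X : ℕ) (α : ℝ) (n : ℤ) : ‖kap k X α n‖ ≤ 1 := by
  unfold kap
  split_ifs
  · rw [norm_ec]
  · simp

lemma kap_corr (k X : ℕ) (α : ℝ) (h : ℤ) (M : ℕ) (hM : X ≤ M) :
    ‖∑ n ∈ Ioo (-(M : ℤ)) M, kap k X α n * (starRingEnd ℂ) (kap k X α (n + h))‖ = ‖Dk k X α h‖ := by
  have h1 : ∑ n ∈ Ioo (-(M : ℤ)) M, kap k X α n * (starRingEnd ℂ) (kap k X α (n + h)) =
      (starRingEnd ℂ) (Dk k X α h) := by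
    unfold Dk
    rw [map_sum]
    rw [← filter_shift, Finset.sum_filter]
    have hM' : (X : ℤ) ≤ M := by exact_mod_cast hM
    have hsub : Ico (0 : ℤ) X ⊆ Ioo (-(M : ℤ)) M ∨ X = 0 := by
      rcases Nat.eq_zero_or_pos X with h0 | h0
      · right; exact h0
      · left
        intro n hn
        rw [Finset.mem_Ico] at hn
        rw [Finset.mem_Ioo]
        constructor <;> omega
    have key : ∀ n : ℤ, kap k X α n * (starRingEnd ℂ) (kap k X α (n + h)) =
        if n ∈ Ico (0 : ℤ) X then (if n + h ∈ Ico (0 : ℤ) X then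
          (starRingEnd ℂ) (ec (α * (((n + h : ℤ)) : ℝ) ^ k - α * (n : ℝ) ^ k)) else 0) else 0 := by
      intro n
      unfold kap
      simp only [Finset.mem_Ico]
      split_ifs
      · rw [conj_ec, conj_ec, ← ec_add]
        congr 1
        ring
      · simp
      · simp
      · simp
    rw [Finset.sum_congr rfl fun n _ => key n, ← Finset.sum_filter]
    rcases hsub with hsub | h0
    · rw [Finset.filter_mem_eq_inter, Finset.inter_eq_right.2 hsub]
    · subst h0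
      simp
  rw [h1, RCLike.norm_conj]

lemma dl_eq_zero (k X : ℕ) (α : ℝ) (h : ℤ) (hh : ¬ |h| < X) : dl k X α h = 0 := by
  unfold dl Dk
  have : Ico (max (0 : ℤ) (0 - h)) (min (X : ℤ) (X - h)) = ∅ := by
    rw [Finset.Ico_eq_empty_iff]
    intro hcon
    apply hh
    rw [lt_min_iff, max_lt_iff, max_lt_iff] at hcon
    rw [abs_lt]
    constructor <;> linarith [hcon.1.2, hcon.2.1]
  rw [this]
  simp

/-- second moment of the kernel over a finite set in terms of pairs. -/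
lemma second_moment {d : ℕ} (k X : ℕ) (hX : 1 ≤ X) (α : ℝ) (E B : Finset (Fin d → ℤ)) :
    (∑ x ∈ B, ‖∑ e ∈ E, ∏ j, kap k X α (x j - e j)‖ ^ 2) / (X : ℝ) ^ (2 * d) ≤
      (∑ e ∈ E, ∑ e' ∈ E, ∏ j, dl k X α (e j - e' j)) / (X : ℝ) ^ d := by
  have hXR : (0 : ℝ) < X := by exact_mod_cast hX
  have h1 := corr_general E (fun _ => (1 : ℂ)) (fun e => e) (fun _ => kap k X α) X
    (fun i _ n hn => by
      have := kap_supp k X α n hn
      rw [abs_lt]
      constructor
      · have : (0 : ℤ) < X := by exact_mod_cast hX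
        linarith
      · exact this.2) B
  simp only [one_mul, norm_one] at h1
  rw [div_le_div_iff₀ (by positivity) (by positivity)]
  have h2 : ∑ e ∈ E, ∑ e' ∈ E, ∏ j : Fin d, ‖∑ n ∈ Ioo (-(X : ℤ)) X,
      kap k X α n * (starRingEnd ℂ) (kap k X α (n + (e j - e' j)))‖ =
      (X : ℝ) ^ d * ∑ e ∈ E, ∑ e' ∈ E, ∏ j, dl k X α (e j - e' j) := by
    rw [Finset.mul_sum]
    refine Finset.sum_congr rfl fun e _ => ?_
    rw [Finset.mul_sum]
    refine Finset.sum_congr rfl fun e' _ => ?_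
    have : (X : ℝ) ^ d = ∏ _j : Fin d, (X : ℝ) := by simp
    rw [this, ← Finset.prod_mul_distrib]
    refine Finset.prod_congr rfl fun j _ => ?_
    rw [kap_corr k X α _ X le_rfl]
    unfold dl
    field_simp
  rw [h2] at h1
  calc (∑ x ∈ B, ‖∑ e ∈ E, ∏ j, kap k X α (x j - e j)‖ ^ 2) * (X : ℝ) ^ d
      ≤ ((X : ℝ) ^ d * ∑ e ∈ E, ∑ e' ∈ E, ∏ j, dl k X α (e j - e' j)) * (X : ℝ) ^ d :=
        mul_le_mul_of_nonneg_right h1 (by positivity)
    _ = _ := by ring

/-- Hoelder's inequality for one row. -/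
lemma row_bound {d : ℕ} (k m X r : ℕ) (hX : 1 ≤ X) (α : ℝ) (E : Finset (Fin d → ℤ))
    (e : Fin d → ℤ) (Bd : ℝ)
    (hB : (((E.filter (fun e' => ∀ j, |e j - e' j| < X)).card : ℕ) : ℝ) ≤ Bd)
    (hr1 : 1 ≤ r) (hr : r < d) (hm : m * r ≤ d) :
    ∑ e' ∈ E, ∏ j, dl k X α (e j - e' j) ≤
      Bd ^ (1 - (r : ℝ) / d) * (X * Dl k m X α) ^ r := by
  classical
  have hXR : (0 : ℝ) < X := by exact_mod_cast hX
  have hdR : (0 : ℝ) < d := by exact_mod_cast (by omega : 0 < d)
  have hrR : (0 : ℝ) < r := by exact_mod_cast hr1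
  have hrd : (r : ℝ) < d := by exact_mod_cast hr
  set s : ℝ := (r : ℝ) / d with hs
  have hs0 : 0 < s := by positivity
  have hs1 : s < 1 := by rw [hs, div_lt_one hdR]; exact hrd
  set Nn := E.filter (fun e' => ∀ j, |e j - e' j| < X) with hNn
  set F : (Fin d → ℤ) → ℝ := fun e' => ∏ j, dl k X α (e j - e' j) with hF
  have hF0 : ∀ e', 0 ≤ F e' := fun e' => Finset.prod_nonneg fun j _ => dl_nonneg _ _ _ _
  have hF1 : ∀ e', F e' ≤ 1 := fun e' =>
    Finset.prod_le_one (fun j _ => dl_nonneg _ _ _ _) fun j _ => dl_le_one _ _ _ _ hX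
  have h1 : ∑ e' ∈ E, F e' = ∑ e' ∈ Nn, F e' := by
    symm
    refine Finset.sum_subset (Finset.filter_subset _ _) ?_
    intro e' he' hne
    rw [hNn, Finset.mem_filter] at hne
    have : ¬ ∀ j, |e j - e' j| < X := fun h => hne ⟨he', h⟩
    push Not at this
    obtain ⟨j, hj⟩ := this
    exact Finset.prod_eq_zero (Finset.mem_univ j) (dl_eq_zero _ _ _ _ (not_lt.2 hj))
  rw [h1]
  have hconj : (1 / (1 - s)).HolderConjugate (1 / s) := by
    rw [Real.holderConjugate_iff]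
    constructor
    · rw [lt_div_iff₀ (by linarith)]; linarith
    · rw [one_div, one_div, inv_inv, inv_inv]; ring
  have h2 := Real.inner_le_Lp_mul_Lq_of_nonneg Nn hconj (f := fun _ => (1 : ℝ)) (g := F)
    (fun _ _ => zero_le_one) (fun i _ => hF0 i)
  simp only [one_mul, Real.one_rpow, Finset.sum_const, nsmul_eq_mul, mul_one, one_div_one_div] at h2
  refine h2.trans ?_
  have hcard0 : (0 : ℝ) ≤ (Nn.card : ℝ) := Nat.cast_nonneg _
  have hBd0 : 0 ≤ Bd := hcard0.trans hB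
  refine mul_le_mul (Real.rpow_le_rpow hcard0 hB (by linarith)) ?_
    (Real.rpow_nonneg (Finset.sum_nonneg fun e' _ => Real.rpow_nonneg (hF0 e') _) _)
    (Real.rpow_nonneg hBd0 _)
  -- the sum of powers
  have h3 : ∑ e' ∈ Nn, F e' ^ (1 / s) ≤ (X * Dl k m X α) ^ d := by
    have hm' : (m : ℝ) ≤ 1 / s := by
      rw [hs, one_div_div, le_div_iff₀ hrR]
      exact_mod_cast hm
    calc ∑ e' ∈ Nn, F e' ^ (1 / s) ≤ ∑ e' ∈ Nn, F e' ^ m := by
          refine Finset.sum_le_sum fun e' _ => ?_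
          rcases (hF0 e').eq_or_lt with h | h
          · rw [← h, Real.zero_rpow (by positivity)]
            positivity
          · rw [← Real.rpow_natCast]
            exact Real.rpow_le_rpow_of_exponent_ge h (hF1 e') hm'
      _ ≤ ∑ h ∈ Fintype.piFinset (fun _ : Fin d => Ioo (-(X : ℤ)) X), ∏ j, dl k X α (h j) ^ m := by
          have e1 : ∀ e' ∈ Nn, F e' ^ m = (fun h : Fin d → ℤ => ∏ j, dl k X α (h j) ^ m)
              ((fun e' : Fin d → ℤ => (fun j => e j - e' j)) e') := by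
            intro e' _
            simp only [hF]
            rw [Finset.prod_pow]
          rw [Finset.sum_congr rfl e1]
          have hinj : Set.InjOn (fun e' : Fin d → ℤ => (fun j => e j - e' j)) (Nn : Set (Fin d → ℤ)) := by
            intro a _ b _ hab
            funext j
            have := congrFun hab j
            simp only at this
            linarith
          have e2 := Finset.sum_image (f := fun h : Fin d → ℤ => ∏ j, dl k X α (h j) ^ m) hinj
          refine e2.symm.le.trans ?_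
          refine Finset.sum_le_sum_of_subset_of_nonneg ?_ ?_
          · intro h hh
            rw [Finset.mem_image] at hh
            obtain ⟨e', he', rfl⟩ := hh
            rw [Fintype.mem_piFinset]
            intro j
            rw [hNn, Finset.mem_filter] at he'
            rw [Finset.mem_Ioo, ← abs_lt]
            exact he'.2 j
          · intro h _ _
            exact Finset.prod_nonneg fun j _ => pow_nonneg (dl_nonneg _ _ _ _) _
      _ = ∏ _j : Fin d, ∑ h ∈ Ioo (-(X : ℤ)) X, dl k X α h ^ m := by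
          rw [Finset.prod_univ_sum]
      _ = (X * Dl k m X α) ^ d := by
          rw [Finset.prod_const, Finset.card_univ, Fintype.card_fin]
          unfold Dl
          congr 1
          field_simp
  have hbase : 0 ≤ X * Dl k m X α := mul_nonneg hXR.le (Dl_nonneg _ _ _ _)
  calc (∑ e' ∈ Nn, F e' ^ (1 / s)) ^ s ≤ ((X * Dl k m X α) ^ d) ^ s := by
        refine Real.rpow_le_rpow ?_ h3 hs0.le
        exact Finset.sum_nonneg fun e' _ => Real.rpow_nonneg (hF0 e') _
    _ = (X * Dl k m X α) ^ r := by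
        rw [← Real.rpow_natCast, ← Real.rpow_mul hbase, ← Real.rpow_natCast]
        congr 1
        rw [hs]; field_simp

/-- the restricted second moment bound. -/
lemma restricted_second_moment {d : ℕ} (k m X r : ℕ) (hX : 1 ≤ X) (α : ℝ)
    (E B : Finset (Fin d → ℤ)) (σ : ℝ) (hσ : 0 ≤ σ)
    (hB : ∀ e ∈ E, (((E.filter (fun e' => ∀ j, |e j - e' j| < X)).card : ℕ) : ℝ) ≤ σ * (X : ℝ) ^ d)
    (hr1 : 1 ≤ r) (hr : r < d) (hm : m * r ≤ d) :
    (∑ x ∈ B, ‖∑ e ∈ E, ∏ j, kap k X α (x j - e j)‖ ^ 2) / (X : ℝ) ^ (2 * d) ≤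
      E.card * σ ^ (1 - (r : ℝ) / d) * Dl k m X α ^ r := by
  have hXR : (0 : ℝ) < X := by exact_mod_cast hX
  have hdR : (0 : ℝ) < d := by exact_mod_cast (by omega : 0 < d)
  refine (second_moment k X hX α E B).trans ?_
  rw [div_le_iff₀ (by positivity)]
  calc ∑ e ∈ E, ∑ e' ∈ E, ∏ j, dl k X α (e j - e' j)
      ≤ ∑ e ∈ E, (σ * (X : ℝ) ^ d) ^ (1 - (r : ℝ) / d) * (X * Dl k m X α) ^ r :=
        Finset.sum_le_sum fun e he => row_bound k m X r hX α E e _ (hB e he) hr1 hr hm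
    _ = E.card * ((σ * (X : ℝ) ^ d) ^ (1 - (r : ℝ) / d) * (X * Dl k m X α) ^ r) := by
        rw [Finset.sum_const, nsmul_eq_mul]
    _ = E.card * σ ^ (1 - (r : ℝ) / d) * Dl k m X α ^ r *
          (((X : ℝ) ^ d) ^ (1 - (r : ℝ) / d) * (X : ℝ) ^ r) := by
        rw [Real.mul_rpow hσ (by positivity), mul_pow]
        ring
    _ = _ := by
        congr 1
        rw [← Real.rpow_natCast (X : ℝ) d, ← Real.rpow_natCast (X : ℝ) r, ← Real.rpow_mul hXR.le,
          ← Real.rpow_add hXR]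
        congr 1
        field_simp
        ring

end Pool.Agent.helper132_sph
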