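import Pool.Agent.helper132_sph.Fact

/-! Dual (TT*) estimate for the averaging operators on `q ℤ^d`, several scales at once. -/

namespace Pool.Agent.helper132_sph

open Finset

/-- abstract dual estimate. -/
lemma dual_bound {d : ℕ} (F B : Finset (Fin d → ℤ)) (L : (Fin d → ℤ) → ℤ → ℂ) (M : ℕ)
    (hL : ∀ x ∈ F, ∀ n, L x n ≠ 0 → |n| < M) (G : (Fin d → ℤ) → ℂ) :
    ∑ x ∈ F, ‖∑ y ∈ B, (∏ j, L x (x j - y j)) * G y‖ ≤
      √(∑ y ∈ B, ‖G y‖ ^ 2) * √(∑ x ∈ F, ∑ x' ∈ F,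
        ∏ j, ‖∑ n ∈ Ioo (-(M : ℤ)) M, L x n * (starRingEnd ℂ) (L x' (n + (x' j - x j)))‖) := by
  classical
  set T : (Fin d → ℤ) → ℂ := fun x => ∑ y ∈ B, (∏ j, L x (x j - y j)) * G y with hT
  set g : (Fin d → ℤ) → ℂ := fun x => (starRingEnd ℂ) (T x) / ‖T x‖ with hg
  have hg1 : ∀ x, ‖g x‖ ≤ 1 := by
    intro x
    simp only [hg]
    rw [norm_div, RCLike.norm_conj]
    simp only [Complex.norm_real, norm_norm]
    exact div_self_le_one _
  have hgT : ∀ x, g x * T x = ‖T x‖ := by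
    intro x
    simp only [hg]
    rcases eq_or_ne (T x) 0 with h | h
    · rw [h]; simp
    · have h1 : (‖T x‖ : ℂ) ≠ 0 := by
        rw [Ne, Complex.ofReal_eq_zero, norm_eq_zero]; exact h
      rw [div_mul_eq_mul_div, div_eq_iff h1, mul_comm, Complex.mul_conj', sq]
  set H : (Fin d → ℤ) → ℂ := fun y => ∑ x ∈ F, g x * ∏ j, L x (x j - y j) with hH
  have h1 : ((∑ x ∈ F, ‖T x‖ : ℝ) : ℂ) = ∑ y ∈ B, G y * H y := by
    push_cast
    rw [Finset.sum_congr rfl fun x _ => (hgT x).symm]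
    simp only [hT, hH, Finset.mul_sum]
    rw [Finset.sum_comm]
    refine Finset.sum_congr rfl fun y _ => Finset.sum_congr rfl fun x _ => ?_
    ring
  have h2 : ∑ x ∈ F, ‖T x‖ = ‖((∑ x ∈ F, ‖T x‖ : ℝ) : ℂ)‖ := by
    rw [Complex.norm_real, Real.norm_of_nonneg]
    exact Finset.sum_nonneg fun _ _ => norm_nonneg _
  rw [h2, h1]
  have h3 : ‖∑ y ∈ B, G y * H y‖ ≤ √(∑ y ∈ B, ‖G y‖ ^ 2) * √(∑ y ∈ B, ‖H y‖ ^ 2) := by
    refine (norm_sum_le _ _).trans ?_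
    simp only [norm_mul]
    exact Real.sum_mul_le_sqrt_mul_sqrt B _ _
  refine h3.trans (mul_le_mul_of_nonneg_left (Real.sqrt_le_sqrt ?_) (Real.sqrt_nonneg _))
  have h4 := corr_general F g (fun x => x) (fun x n => L x (-n)) M
    (fun x hx n hn => by have := hL x hx (-n) hn; rwa [abs_neg] at this) B
  have h5 : ∀ y ∈ B, ‖H y‖ ^ 2 = ‖∑ i ∈ F, g i * ∏ j, L i (-(y j - i j))‖ ^ 2 := by
    intro y _
    simp only [hH]
    congr 2
    refine Finset.sum_congr rfl fun x _ => ?_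
    congr 1
    refine Finset.prod_congr rfl fun j _ => ?_
    congr 1
    ring
  rw [Finset.sum_congr rfl h5]
  refine h4.trans ?_
  refine Finset.sum_le_sum fun x _ => Finset.sum_le_sum fun x' _ => ?_
  have h6 : ∀ j : Fin d, ∑ n ∈ Ioo (-(M : ℤ)) M, L x (-n) * (starRingEnd ℂ) (L x' (-(n + (x j - x' j)))) =
      ∑ n ∈ Ioo (-(M : ℤ)) M, L x n * (starRingEnd ℂ) (L x' (n + (x' j - x j))) := by
    intro j
    refine Finset.sum_bij' (fun n _ => -n) (fun n _ => -n) ?_ ?_ ?_ ?_ ?_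
    · intro n hn; rw [Finset.mem_Ioo] at hn ⊢; constructor <;> linarith [hn.1, hn.2]
    · intro n hn; rw [Finset.mem_Ioo] at hn ⊢; constructor <;> linarith [hn.1, hn.2]
    · intro n _; simp
    · intro n _; simp
    · intro n _
      congr 3
      ring
  rw [Finset.prod_congr rfl fun j _ => by rw [h6 j]]
  refine mul_le_of_le_one_left (Finset.prod_nonneg fun j _ => norm_nonneg _) ?_
  exact mul_le_one₀ (hg1 x) (norm_nonneg _) (hg1 x')

lemma sum_le_sum_of_ne {ι : Type*} (s t : Finset ι) (f : ι → ℝ) (hf : ∀ i, 0 ≤ f i)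
    (h : ∀ i ∈ s, f i ≠ 0 → i ∈ t) : ∑ i ∈ s, f i ≤ ∑ i ∈ t, f i := by
  classical
  rw [← Finset.sum_filter_ne_zero]
  refine Finset.sum_le_sum_of_subset_of_nonneg ?_ (fun i _ _ => hf i)
  intro i hi
  rw [Finset.mem_filter] at hi
  exact h i hi.1 hi.2

/-- number of multiples of `q` in `[0, X)`. -/
def Nq (q X : ℕ) : ℕ := (X + q - 1) / q

lemma mul_lt_iff_Nq (q X : ℕ) (hq : 1 ≤ q) (m : ℤ) : (q : ℤ) * m < X ↔ m < (Nq q X : ℤ) := by
  unfold Nq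
  have hqz : (0 : ℤ) < q := by exact_mod_cast hq
  have e : (((X + q - 1) / q : ℕ) : ℤ) = ((X : ℤ) + q - 1) / q := by
    push_cast [Nat.cast_sub (show 1 ≤ X + q by omega)]
    rfl
  rw [e, Int.lt_iff_add_one_le, Int.lt_iff_add_one_le, Int.le_ediv_iff_mul_le hqz]
  constructor <;> intro h <;> nlinarith

lemma Nq_lower (q X : ℕ) (hq : 1 ≤ q) : X ≤ q * Nq q X := by
  have h : ¬ ((Nq q X : ℤ) < Nq q X) := lt_irrefl _
  rw [← mul_lt_iff_Nq q X hq] at h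
  push Not at h
  exact_mod_cast h

lemma Nq_upper (q X : ℕ) (hq : 1 ≤ q) : q * Nq q X ≤ X + q := by
  unfold Nq
  have := Nat.mul_div_le (X + q - 1) q
  omega

lemma Nq_pos (q X : ℕ) (hq : 1 ≤ q) (hX : 1 ≤ X) : 1 ≤ Nq q X := by
  have := Nq_lower q X hq
  rcases Nat.eq_zero_or_pos (Nq q X) with h | h
  · rw [h] at this; omega
  · exact h

/-- cross correlation sum of polynomial phases. -/
noncomputable def gsum (k N N' : ℕ) (γ γ' : ℝ) (h : ℤ) : ℂ :=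
  ∑ m ∈ Ico (max (0 : ℤ) (0 - h)) (min (N : ℤ) (N' - h)),
    ec (γ * (m : ℝ) ^ k - γ' * (((m + h : ℤ)) : ℝ) ^ k)

lemma norm_gsum_self (k N : ℕ) (γ : ℝ) (h : ℤ) : ‖gsum k N N γ γ h‖ = ‖Dk k N γ h‖ := by
  have : gsum k N N γ γ h = (starRingEnd ℂ) (Dk k N γ h) := by
    unfold gsum Dk
    rw [map_sum]
    refine Finset.sum_congr rfl fun n _ => ?_
    rw [conj_ec]
    congr 1
    ring
  rw [this, RCLike.norm_conj]

lemma lam_cor_not_dvd (q k X X' M : ℕ) (β β' : ℝ) (h : ℤ) (hh : ¬ (q : ℤ) ∣ h) :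
    ∑ n ∈ Ioo (-(M : ℤ)) M, lam q k X β n * (starRingEnd ℂ) (lam q k X' β' (n + h)) = 0 := by
  refine Finset.sum_eq_zero fun n _ => ?_
  by_contra hne
  have h1 := left_ne_zero_of_mul hne
  have h2 := right_ne_zero_of_mul hne
  rw [Ne, map_eq_zero] at h2
  have h3 := (lam_supp q k X β n h1).1
  have h4 := (lam_supp q k X' β' (n + h) h2).1
  exact hh ((Int.dvd_add_right h3).1 h4)

lemma lam_cor_dvd (q k X X' M : ℕ) (β β' : ℝ) (h' : ℤ) (hq : 1 ≤ q) (hX : 1 ≤ X) (hM : X ≤ M) :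
    ‖∑ n ∈ Ioo (-(M : ℤ)) M, lam q k X β n *
      (starRingEnd ℂ) (lam q k X' β' (n + q * h'))‖ =
    ((q : ℝ) / X) * ((q : ℝ) / X') *
      ‖gsum k (Nq q X) (Nq q X') (β * (q : ℝ) ^ k) (β' * (q : ℝ) ^ k) h'‖ := by
  classical
  have hqz : (0 : ℤ) < q := by exact_mod_cast hq
  set g : ℤ → ℂ := fun n => lam q k X β n * (starRingEnd ℂ) (lam q k X' β' (n + q * h')) with hg
  set I := Ico (max (0 : ℤ) (0 - h')) (min (Nq q X : ℤ) (Nq q X' - h')) with hI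
  have hMz : (X : ℤ) ≤ M := by exact_mod_cast hM
  have hXz : (1 : ℤ) ≤ X := by exact_mod_cast hX
  have hmemI : ∀ m : ℤ, m ∈ I ↔ (0 ≤ m ∧ m < Nq q X) ∧ (0 ≤ m + h' ∧ m + h' < Nq q X') := by
    intro m
    rw [hI, Finset.mem_Ico, max_le_iff, lt_min_iff]
    constructor
    · rintro ⟨⟨a1, a2⟩, a3, a4⟩
      exact ⟨⟨a1, a3⟩, by linarith, by linarith⟩
    · rintro ⟨⟨a1, a2⟩, a3, a4⟩
      exact ⟨⟨a1, by linarith⟩, a2, by linarith⟩
  have h1 : ∑ n ∈ Ioo (-(M : ℤ)) M, g n = ∑ m ∈ I, g (q * m) := by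
    have h2 : ∑ m ∈ I, g (q * m) = ∑ n ∈ I.image (fun m => (q : ℤ) * m), g n := by
      rw [Finset.sum_image]
      intro a _ b _ hab
      exact mul_left_cancel₀ hqz.ne' hab
    rw [h2]
    symm
    refine Finset.sum_subset ?_ ?_
    · intro n hn
      rw [Finset.mem_image] at hn
      obtain ⟨m, hm, rfl⟩ := hn
      rw [hmemI] at hm
      have a1 := (mul_lt_iff_Nq q X hq m).2 hm.1.2
      have a2 : 0 ≤ (q : ℤ) * m := mul_nonneg hqz.le hm.1.1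
      rw [Finset.mem_Ioo]
      constructor <;> linarith
    · intro n _ hn
      by_contra hne
      apply hn
      have b1 := left_ne_zero_of_mul hne
      have b2 := right_ne_zero_of_mul hne
      rw [Ne, map_eq_zero] at b2
      obtain ⟨⟨m, rfl⟩, c2, c3⟩ := lam_supp q k X β n b1
      obtain ⟨-, c5, c6⟩ := lam_supp q k X' β' _ b2
      have e : (q : ℤ) * m + q * h' = q * (m + h') := by ring
      rw [e] at c5 c6
      rw [Finset.mem_image]
      refine ⟨m, ?_, rfl⟩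
      rw [hmemI]
      refine ⟨⟨nonneg_of_mul_nonneg_right c2 hqz, (mul_lt_iff_Nq q X hq m).1 c3⟩,
        nonneg_of_mul_nonneg_right c5 hqz, (mul_lt_iff_Nq q X' hq (m + h')).1 c6⟩
  rw [h1]
  have h3 : ∑ m ∈ I, g (q * m) = ((q : ℂ) / X) * ((q : ℂ) / X') *
      gsum k (Nq q X) (Nq q X') (β * (q : ℝ) ^ k) (β' * (q : ℝ) ^ k) h' := by
    unfold gsum
    rw [Finset.mul_sum]
    refine Finset.sum_congr rfl fun m hm => ?_
    rw [hmemI] at hm
    simp only [hg]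
    unfold lam kap
    have e : (q : ℤ) * m + q * h' = q * (m + h') := by ring
    rw [if_pos (dvd_mul_right _ _), e, if_pos (dvd_mul_right _ _), if_pos, if_pos]
    · rw [map_mul, conj_ec]
      have e1 : (starRingEnd ℂ) ((q : ℂ) / X') = (q : ℂ) / X' := by
        rw [map_div₀, Complex.conj_natCast, Complex.conj_natCast]
      rw [e1]
      have e2 : ec (β * (q : ℝ) ^ k * (m : ℝ) ^ k - β' * (q : ℝ) ^ k * (((m + h' : ℤ)) : ℝ) ^ k) =
          ec (β * (((q : ℤ) * m : ℤ) : ℝ) ^ k) * ec (-(β' * (((q : ℤ) * (m + h') : ℤ) : ℝ) ^ k)) := by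
        rw [← ec_add]
        congr 1
        push_cast
        rw [mul_pow, mul_pow]
        ring
      rw [e2]
      ring
    · exact ⟨mul_nonneg hqz.le hm.2.1, (mul_lt_iff_Nq q X' hq (m + h')).2 hm.2.2⟩
    · exact ⟨mul_nonneg hqz.le hm.1.1, (mul_lt_iff_Nq q X hq m).2 hm.1.2⟩
  rw [h3, norm_mul, norm_mul]
  simp

lemma gsum_zero_of_large (k N N' : ℕ) (γ γ' : ℝ) (h : ℤ) (hh : (N : ℤ) ≤ -h ∨ (N' : ℤ) ≤ h) :
    gsum k N N' γ γ' h = 0 := by
  unfold gsum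
  have : Ico (max (0 : ℤ) (0 - h)) (min (N : ℤ) (N' - h)) = ∅ := by
    rw [Finset.Ico_eq_empty_iff]
    intro hcon
    rw [lt_min_iff, max_lt_iff, max_lt_iff] at hcon
    rcases hh with h1 | h1
    · linarith [hcon.1.2]
    · linarith [hcon.2.1]
  rw [this, Finset.sum_empty]

/-- the average of `dl` against `Dl`. -/
lemma avg_dl_le (k m N : ℕ) (γ : ℝ) (hN : 1 ≤ N) (hm : 1 ≤ m) :
    ((∑ h ∈ Ioo (-(N : ℤ)) N, dl k N γ h) / (2 * N)) ^ m ≤ Dl k m N γ := by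
  have hNR : (0 : ℝ) < N := by exact_mod_cast hN
  obtain ⟨m', rfl⟩ : ∃ m', m = m' + 1 := ⟨m - 1, by omega⟩
  have h1 := pow_sum_div_card_le_sum_pow (s := Ioo (-(N : ℤ)) N) (f := fun h => dl k N γ h)
    (fun h _ => dl_nonneg _ _ _ _) m'
  have hcard : (((Ioo (-(N : ℤ)) N).card : ℕ) : ℝ) ≤ 2 * N := by
    rw [Int.card_Ioo]
    have : ((N : ℤ) - -(N : ℤ) - 1).toNat ≤ 2 * N := by omega
    exact_mod_cast this
  have hcard0 : (0 : ℝ) < (((Ioo (-(N : ℤ)) N).card : ℕ) : ℝ) := by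
    have : 0 < (Ioo (-(N : ℤ)) N).card := by
      rw [Int.card_Ioo]; omega
    exact_mod_cast this
  have hS0 : 0 ≤ ∑ h ∈ Ioo (-(N : ℤ)) N, dl k N γ h := Finset.sum_nonneg fun h _ => dl_nonneg _ _ _ _
  rw [div_le_iff₀ (by positivity)] at h1
  have hP0 : 0 ≤ ∑ h ∈ Ioo (-(N : ℤ)) N, dl k N γ h ^ (m' + 1) :=
    Finset.sum_nonneg fun h _ => pow_nonneg (dl_nonneg _ _ _ _) _
  unfold Dl
  rw [div_pow, div_le_div_iff₀ (by positivity) hNR]
  calc (∑ h ∈ Ioo (-(N : ℤ)) N, dl k N γ h) ^ (m' + 1) * N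
      ≤ ((∑ h ∈ Ioo (-(N : ℤ)) N, dl k N γ h ^ (m' + 1)) * (2 * N) ^ m') * N := by
        refine mul_le_mul_of_nonneg_right (h1.trans ?_) hNR.le
        exact mul_le_mul_of_nonneg_left (pow_le_pow_left₀ hcard0.le hcard _) hP0
    _ ≤ (∑ h ∈ Ioo (-(N : ℤ)) N, dl k N γ h ^ (m' + 1)) * (2 * N) ^ (m' + 1) := by
        rw [pow_succ (2 * (N : ℝ)) m', mul_assoc]
        refine mul_le_mul_of_nonneg_left ?_ hP0
        refine mul_le_mul_of_nonneg_left ?_ (by positivity)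
        linarith

lemma sum_gsum_self (q k X M : ℕ) (β : ℝ) (hq : 1 ≤ q) (hX : q ≤ X) (hM : X ≤ M) :
    ∑ h ∈ Ioo (-(X : ℤ)) X, ‖∑ n ∈ Ioo (-(M : ℤ)) M, lam q k X β n *
      (starRingEnd ℂ) (lam q k X β (n + h))‖ ≤
    8 * ((∑ h ∈ Ioo (-(Nq q X : ℤ)) (Nq q X), dl k (Nq q X) (β * (q : ℝ) ^ k) h) / (2 * Nq q X)) := by
  classical
  have hX1 : 1 ≤ X := hq.trans hX
  have hXR : (0 : ℝ) < X := by exact_mod_cast hX1
  have hqR : (0 : ℝ) < q := by exact_mod_cast hq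
  have hN := Nq_pos q X hq hX1
  have hNR : (0 : ℝ) < Nq q X := by exact_mod_cast hN
  have hqz : (0 : ℤ) < q := by exact_mod_cast hq
  have hsub : ∑ h ∈ Ioo (-(X : ℤ)) X, ‖∑ n ∈ Ioo (-(M : ℤ)) M, lam q k X β n *
      (starRingEnd ℂ) (lam q k X β (n + h))‖ ≤
      ∑ h ∈ (Ioo (-(Nq q X : ℤ)) (Nq q X)).image (fun h => (q : ℤ) * h),
        ‖∑ n ∈ Ioo (-(M : ℤ)) M, lam q k X β n * (starRingEnd ℂ) (lam q k X β (n + h))‖ := by
    refine sum_le_sum_of_ne _ _ _ (fun _ => norm_nonneg _) ?_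
    intro h _ hne
    rw [norm_ne_zero_iff] at hne
    have hd : (q : ℤ) ∣ h := by
      by_contra hcon
      exact hne (lam_cor_not_dvd q k X X M β β h hcon)
    obtain ⟨h', rfl⟩ := hd
    rw [Finset.mem_image]
    refine ⟨h', ?_, rfl⟩
    rw [Finset.mem_Ioo]
    by_contra hcon
    apply hne
    rw [← norm_eq_zero, lam_cor_dvd q k X X M β β h' hq hX1 hM, gsum_zero_of_large, norm_zero, mul_zero]
    by_contra hcon2
    push Not at hcon2
    exact hcon ⟨by linarith [hcon2.1], hcon2.2⟩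
  refine hsub.trans ?_
  rw [Finset.sum_image (fun a _ b _ hab => mul_left_cancel₀ hqz.ne' hab)]
  have h1 : ∀ h ∈ Ioo (-(Nq q X : ℤ)) (Nq q X),
      ‖∑ n ∈ Ioo (-(M : ℤ)) M, lam q k X β n * (starRingEnd ℂ) (lam q k X β (n + q * h))‖ =
      ((q : ℝ) / X) * ((q : ℝ) / X) * (Nq q X * dl k (Nq q X) (β * (q : ℝ) ^ k) h) := by
    intro h _
    rw [lam_cor_dvd q k X X M β β h hq hX1 hM, norm_gsum_self]
    unfold dl
    field_simp
  rw [Finset.sum_congr rfl h1, ← Finset.mul_sum, ← Finset.mul_sum]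
  have hS0 : 0 ≤ ∑ h ∈ Ioo (-(Nq q X : ℤ)) (Nq q X), dl k (Nq q X) (β * (q : ℝ) ^ k) h :=
    Finset.sum_nonneg fun h _ => dl_nonneg _ _ _ _
  have hqN : (q : ℝ) * Nq q X ≤ 2 * X := by
    have h2 := Nq_upper q X hq
    have h3 : (q : ℝ) * Nq q X ≤ X + q := by exact_mod_cast h2
    have h4 : (q : ℝ) ≤ X := by exact_mod_cast hX
    linarith
  have hqN2 : ((q : ℝ) * Nq q X) ^ 2 ≤ 4 * X ^ 2 := by
    calc ((q : ℝ) * Nq q X) ^ 2 ≤ (2 * X) ^ 2 := pow_le_pow_left₀ (by positivity) hqN 2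
      _ = 4 * X ^ 2 := by ring
  set Sg := ∑ h ∈ Ioo (-(Nq q X : ℤ)) (Nq q X), dl k (Nq q X) (β * (q : ℝ) ^ k) h
  have h5 : ((q : ℝ) / X) * ((q : ℝ) / X) * (Nq q X * Sg) =
      (((q : ℝ) * Nq q X) ^ 2 / X ^ 2) * (Sg / Nq q X) := by
    field_simp
  have h6 : 8 * (Sg / (2 * Nq q X)) = 4 * (Sg / Nq q X) := by field_simp; ring
  rw [h5, h6]
  refine mul_le_mul_of_nonneg_right ?_ (by positivity)
  rw [div_le_iff₀ (by positivity)]
  exact hqN2

lemma card_mult_Ioo (q X : ℕ) (hq : 1 ≤ q) (hX : q ≤ X) :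
    ((((Ioo (-(X : ℤ)) X).filter (fun h => (q : ℤ) ∣ h)).card : ℕ) : ℝ) ≤ 3 * X / q := by
  classical
  have hqR : (0 : ℝ) < q := by exact_mod_cast hq
  have hqz : (0 : ℤ) < q := by exact_mod_cast hq
  have h1 : ((Ioo (-(X : ℤ)) X).filter (fun h => (q : ℤ) ∣ h)) ⊆
      (Icc (-((X / q : ℕ) : ℤ)) ((X / q : ℕ) : ℤ)).image (fun h => (q : ℤ) * h) := by
    intro h hh
    rw [Finset.mem_filter, Finset.mem_Ioo] at hh
    obtain ⟨⟨a1, a2⟩, ⟨m, rfl⟩⟩ := hh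
    rw [Finset.mem_image]
    refine ⟨m, ?_, rfl⟩
    rw [Finset.mem_Icc]
    have e : ((X / q : ℕ) : ℤ) = (X : ℤ) / q := by push_cast; rfl
    rw [e]
    constructor
    · have : -m ≤ (X : ℤ) / q := by
        rw [Int.le_ediv_iff_mul_le hqz]; linarith
      linarith
    · rw [Int.le_ediv_iff_mul_le hqz]; linarith
  have h2 : ((Ioo (-(X : ℤ)) X).filter (fun h => (q : ℤ) ∣ h)).card ≤ 2 * (X / q) + 1 := by
    refine (Finset.card_le_card h1).trans (Finset.card_image_le.trans ?_)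
    rw [Int.card_Icc]
    omega
  have h3 : ((X / q : ℕ) : ℝ) ≤ X / q := Nat.cast_div_le
  have h4 : (1 : ℝ) ≤ X / q := by
    rw [le_div_iff₀ hqR, one_mul]; exact_mod_cast hX
  calc ((((Ioo (-(X : ℤ)) X).filter (fun h => (q : ℤ) ∣ h)).card : ℕ) : ℝ) ≤ 2 * ((X / q : ℕ) : ℝ) + 1 := by
        exact_mod_cast h2
    _ ≤ 3 * X / q := by
        have : (3 : ℝ) * X / q = 3 * (X / q) := by ring
        rw [this]
        linarith

lemma sum_prod_shift_le {d : ℕ} (F : Finset (Fin d → ℤ)) (x : Fin d → ℤ) (f : ℤ → ℝ)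
    (hf : ∀ h, 0 ≤ f h) (Y : ℕ) (hs : ∀ h, f h ≠ 0 → |h| < Y) :
    ∑ x' ∈ F, ∏ j, f (x' j - x j) ≤ (∑ h ∈ Ioo (-(Y : ℤ)) Y, f h) ^ d := by
  classical
  have hinj : Set.InjOn (fun x' : Fin d → ℤ => (fun j => x' j - x j)) (F : Set (Fin d → ℤ)) := by
    intro a _ b _ hab
    funext j
    have := congrFun hab j
    simp only at this
    linarith
  have e2 := Finset.sum_image (f := fun v : Fin d → ℤ => ∏ j, f (v j)) hinj
  have e3 : (∑ h ∈ Ioo (-(Y : ℤ)) Y, f h) ^ d =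
      ∑ v ∈ Fintype.piFinset (fun _ : Fin d => Ioo (-(Y : ℤ)) Y), ∏ j, f (v j) := by
    rw [← Finset.prod_univ_sum, Finset.prod_const, Finset.card_univ, Fintype.card_fin]
  rw [e3]
  refine e2.symm.le.trans ?_
  refine sum_le_sum_of_ne _ _ _ (fun v => Finset.prod_nonneg fun j _ => hf _) ?_
  intro v _ hne
  rw [Fintype.mem_piFinset]
  intro j
  rw [Finset.mem_Ioo, ← abs_lt]
  refine hs _ ?_
  exact Finset.prod_ne_zero_iff.1 hne j (Finset.mem_univ j)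

/-- cross-scale majorant. -/
noncomputable def crs (q : ℕ) (U : ℝ) (Y : ℕ) (h : ℤ) : ℝ :=
  if (q : ℤ) ∣ h ∧ |h| < Y then 2 * q / Y * U else 0

lemma crs_nonneg (q : ℕ) (U : ℝ) (hU : 0 ≤ U) (Y : ℕ) (h : ℤ) : 0 ≤ crs q U Y h := by
  unfold crs
  split_ifs
  · positivity
  · exact le_rfl

lemma crs_supp (q : ℕ) (U : ℝ) (Y : ℕ) (h : ℤ) (hh : crs q U Y h ≠ 0) : |h| < Y := by
  unfold crs at hh
  by_contra hcon
  rw [if_neg (fun h => hcon h.2)] at hh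
  exact hh rfl

lemma crs_neg (q : ℕ) (U : ℝ) (Y : ℕ) (h : ℤ) : crs q U Y (-h) = crs q U Y h := by
  unfold crs
  simp only [abs_neg, dvd_neg]

lemma crs_sum (q : ℕ) (U : ℝ) (hU : 0 ≤ U) (Y : ℕ) (hq : 1 ≤ q) (hY : q ≤ Y) :
    ∑ h ∈ Ioo (-(Y : ℤ)) Y, crs q U Y h ≤ 6 * U := by
  classical
  have hqR : (0 : ℝ) < q := by exact_mod_cast hq
  have hYR : (0 : ℝ) < Y := by exact_mod_cast hq.trans hY
  have h1 := card_mult_Ioo q Y hq hY
  calc ∑ h ∈ Ioo (-(Y : ℤ)) Y, crs q U Y h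
      ≤ ∑ h ∈ (Ioo (-(Y : ℤ)) Y).filter (fun h => (q : ℤ) ∣ h), (2 * q / Y * U) := by
        rw [Finset.sum_filter]
        refine Finset.sum_le_sum fun h _ => ?_
        unfold crs
        have h0 : 0 ≤ 2 * (q : ℝ) / Y * U := by positivity
        split_ifs with c1 c2 c2
        · exact le_rfl
        · exact absurd c1.1 c2
        · exact h0
        · exact le_rfl
    _ = ((((Ioo (-(Y : ℤ)) Y).filter (fun h => (q : ℤ) ∣ h)).card : ℕ) : ℝ) * (2 * q / Y * U) := by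
        rw [Finset.sum_const, nsmul_eq_mul]
    _ ≤ (3 * Y / q) * (2 * q / Y * U) := mul_le_mul_of_nonneg_right h1 (by positivity)
    _ = 6 * U := by field_simp; ring

lemma cor_le_crs (q k X X' M : ℕ) (β β' U : ℝ) (hU : 0 ≤ U) (hq : 1 ≤ q) (hX : q ≤ X) (hX' : q ≤ X')
    (hM : X ≤ M) (hg : ∀ h : ℤ, ‖gsum k (Nq q X) (Nq q X') (β * (q : ℝ) ^ k) (β' * (q : ℝ) ^ k) h‖ ≤
      U * min (Nq q X : ℝ) (Nq q X')) (h : ℤ) :
    ‖∑ n ∈ Ioo (-(M : ℤ)) M, lam q k X β n * (starRingEnd ℂ) (lam q k X' β' (n + h))‖ ≤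
      crs q U (max X X') h := by
  have hX1 : 1 ≤ X := hq.trans hX
  have hX'1 : 1 ≤ X' := hq.trans hX'
  have hXR : (0 : ℝ) < X := by exact_mod_cast hX1
  have hX'R : (0 : ℝ) < X' := by exact_mod_cast hX'1
  have hqR : (0 : ℝ) < q := by exact_mod_cast hq
  have hqz : (0 : ℤ) < q := by exact_mod_cast hq
  by_cases hd : (q : ℤ) ∣ h
  · obtain ⟨h', rfl⟩ := hd
    rw [lam_cor_dvd q k X X' M β β' h' hq hX1 hM]
    by_cases hz : ((Nq q X : ℕ) : ℤ) ≤ -h' ∨ ((Nq q X' : ℕ) : ℤ) ≤ h'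
    · rw [gsum_zero_of_large _ _ _ _ _ _ hz, norm_zero, mul_zero]
      exact crs_nonneg _ _ hU _ _
    · push Not at hz
      have a1 := (mul_lt_iff_Nq q X hq (-h')).2 hz.1
      have a2 := (mul_lt_iff_Nq q X' hq h').2 hz.2
      have a3 : |(q : ℤ) * h'| < ((max X X' : ℕ) : ℤ) := by
        rw [abs_lt]
        have b1 : (X : ℤ) ≤ ((max X X' : ℕ) : ℤ) := by exact_mod_cast le_max_left _ _
        have b2 : (X' : ℤ) ≤ ((max X X' : ℕ) : ℤ) := by exact_mod_cast le_max_right _ _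
        constructor <;> linarith
      unfold crs
      rw [if_pos ⟨dvd_mul_right _ _, a3⟩]
      have g1 := hg h'
      have hq2 : ∀ Y : ℕ, q ≤ Y → (q : ℝ) * Nq q Y ≤ 2 * Y := by
        intro Y hY
        have h2 := Nq_upper q Y hq
        have h3 : (q : ℝ) * Nq q Y ≤ Y + q := by exact_mod_cast h2
        have h4 : (q : ℝ) ≤ Y := by exact_mod_cast hY
        linarith
      refine (mul_le_mul_of_nonneg_left g1 (by positivity)).trans ?_
      rcases le_total X X' with hle | hle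
      · rw [max_eq_right hle]
        have c1 : min (Nq q X : ℝ) (Nq q X') ≤ Nq q X := min_le_left _ _
        calc (q : ℝ) / X * (q / X') * (U * min (Nq q X : ℝ) (Nq q X'))
            ≤ (q : ℝ) / X * (q / X') * (U * Nq q X) := by gcongr
          _ = (q * Nq q X) * (q / X' * U / X) := by field_simp
          _ ≤ (2 * X) * (q / X' * U / X) := mul_le_mul_of_nonneg_right (hq2 X hX) (by positivity)
          _ = 2 * q / X' * U := by field_simp
      · rw [max_eq_left hle]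
        have c1 : min (Nq q X : ℝ) (Nq q X') ≤ Nq q X' := min_le_right _ _
        calc (q : ℝ) / X * (q / X') * (U * min (Nq q X : ℝ) (Nq q X'))
            ≤ (q : ℝ) / X * (q / X') * (U * Nq q X') := by gcongr
          _ = (q * Nq q X') * (q / X * U / X') := by field_simp
          _ ≤ (2 * X') * (q / X * U / X') := mul_le_mul_of_nonneg_right (hq2 X' hX') (by positivity)
          _ = 2 * q / X * U := by field_simp
  · rw [lam_cor_not_dvd q k X X' M β β' h hd, norm_zero]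
    exact crs_nonneg _ _ hU _ _

/-- combined dual estimate over all scales. -/
lemma lam_dual {d : ℕ} (k m q : ℕ) (hq : 1 ≤ q) (hm : 1 ≤ m) (hd : 2 * k * m ≤ d)
    (F B : Finset (Fin d → ℤ)) (J : (Fin d → ℤ) → ℕ) (hJ : ∀ x ∈ F, q ≤ 2 ^ J x) (β : ℕ → ℝ)
    (U D0 : ℝ) (hU : 0 ≤ U)
    (hD : ∀ x ∈ F, Dl k m (Nq q (2 ^ J x)) (β (J x) * (q : ℝ) ^ k) ^ (2 * k) ≤ D0)
    (hcross : ∀ x ∈ F, ∀ x' ∈ F, J x ≠ J x' → ∀ h : ℤ,
      ‖gsum k (Nq q (2 ^ J x)) (Nq q (2 ^ J x')) (β (J x) * (q : ℝ) ^ k) (β (J x') * (q : ℝ) ^ k) h‖ ≤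
        U * min (Nq q (2 ^ J x) : ℝ) (Nq q (2 ^ J x')))
    (G : (Fin d → ℤ) → ℂ) :
    ∑ x ∈ F, ‖∑ y ∈ B, (∏ j, lam q k (2 ^ J x) (β (J x)) (x j - y j)) * G y‖ ≤
      √(∑ y ∈ B, ‖G y‖ ^ 2) * √(F.card * (8 ^ d * D0 + 2 * (6 * U) ^ d)) := by
  classical
  obtain ⟨M, hM⟩ : ∃ M : ℕ, ∀ x ∈ F, 2 ^ J x ≤ M :=
    ⟨∑ x ∈ F, 2 ^ J x, fun x hx =>
      Finset.single_le_sum (f := fun x => 2 ^ J x) (fun _ _ => Nat.zero_le _) hx⟩
  have hdb := dual_bound F B (fun x => lam q k (2 ^ J x) (β (J x))) M (by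
    intro x hx n hn
    have h1 := lam_supp q k _ _ n hn
    have h2 : ((2 ^ J x : ℕ) : ℤ) ≤ M := by exact_mod_cast hM x hx
    rw [abs_lt]
    have h3 : (0 : ℤ) < ((2 ^ J x : ℕ) : ℤ) := by positivity
    constructor <;> linarith [h1.2.1, h1.2.2]) G
  refine hdb.trans (mul_le_mul_of_nonneg_left (Real.sqrt_le_sqrt ?_) (Real.sqrt_nonneg _))
  -- same scale function
  set f : (Fin d → ℤ) → ℤ → ℝ := fun x h => ‖∑ n ∈ Ioo (-(M : ℤ)) M, lam q k (2 ^ J x) (β (J x)) n *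
      (starRingEnd ℂ) (lam q k (2 ^ J x) (β (J x)) (n + h))‖ with hf
  have hpair : ∀ x ∈ F, ∀ x' ∈ F,
      ∏ j, ‖∑ n ∈ Ioo (-(M : ℤ)) M, lam q k (2 ^ J x) (β (J x)) n *
        (starRingEnd ℂ) (lam q k (2 ^ J x') (β (J x')) (n + (x' j - x j)))‖ ≤
      ∏ j, f x (x' j - x j) + ∏ j, crs q U (2 ^ J x) (x' j - x j) +
        ∏ j, crs q U (2 ^ J x') (x' j - x j) := by
    intro x hx x' hx'
    have n1 : 0 ≤ ∏ j, f x (x' j - x j) := Finset.prod_nonneg fun j _ => norm_nonneg _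
    have n2 : 0 ≤ ∏ j, crs q U (2 ^ J x) (x' j - x j) :=
      Finset.prod_nonneg fun j _ => crs_nonneg _ _ hU _ _
    have n3 : 0 ≤ ∏ j, crs q U (2 ^ J x') (x' j - x j) :=
      Finset.prod_nonneg fun j _ => crs_nonneg _ _ hU _ _
    by_cases he : J x = J x'
    · have : ∏ j, ‖∑ n ∈ Ioo (-(M : ℤ)) M, lam q k (2 ^ J x) (β (J x)) n *
        (starRingEnd ℂ) (lam q k (2 ^ J x') (β (J x')) (n + (x' j - x j)))‖ =
          ∏ j, f x (x' j - x j) := by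
        simp only [hf, ← he]
      rw [this]
      linarith
    · have h1 : ∏ j, ‖∑ n ∈ Ioo (-(M : ℤ)) M, lam q k (2 ^ J x) (β (J x)) n *
        (starRingEnd ℂ) (lam q k (2 ^ J x') (β (J x')) (n + (x' j - x j)))‖ ≤
          ∏ j, crs q U (max (2 ^ J x) (2 ^ J x')) (x' j - x j) := by
        refine Finset.prod_le_prod (fun j _ => norm_nonneg _) fun j _ => ?_
        exact cor_le_crs q k _ _ M _ _ U hU hq (hJ x hx) (hJ x' hx') (hM x hx)
          (hcross x hx x' hx' he) _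
      rcases le_total (2 ^ J x) (2 ^ J x') with hle | hle
      · rw [max_eq_right hle] at h1
        linarith
      · rw [max_eq_left hle] at h1
        linarith
  have hsame : ∀ x ∈ F, ∑ x' ∈ F, ∏ j, f x (x' j - x j) ≤ 8 ^ d * D0 := by
    intro x hx
    have hX1 : 1 ≤ 2 ^ J x := Nat.one_le_two_pow
    have h1 := sum_prod_shift_le F x (f x) (fun _ => norm_nonneg _) (2 ^ J x) (by
      intro h hh
      by_contra hcon
      apply hh
      simp only [hf]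
      rw [norm_eq_zero]
      refine Finset.sum_eq_zero fun n _ => ?_
      by_contra hne
      have b1 := left_ne_zero_of_mul hne
      have b2 := right_ne_zero_of_mul hne
      rw [Ne, map_eq_zero] at b2
      have c1 := lam_supp q k _ _ _ b1
      have c2 := lam_supp q k _ _ _ b2
      apply hcon
      rw [abs_lt]
      constructor <;> linarith [c1.2.1, c1.2.2, c2.2.1, c2.2.2])
    refine h1.trans ?_
    have h2 := sum_gsum_self q k (2 ^ J x) M (β (J x)) hq (hJ x hx) (hM x hx)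
    have hN := Nq_pos q (2 ^ J x) hq hX1
    obtain ⟨N, hNe⟩ : ∃ N, N = Nq q (2 ^ J x) := ⟨_, rfl⟩
    obtain ⟨γ, hγ⟩ : ∃ γ, γ = β (J x) * (q : ℝ) ^ k := ⟨_, rfl⟩
    have hDx := hD x hx
    rw [← hNe, ← hγ] at h2 hDx
    rw [← hNe] at hN
    have hNR : (0 : ℝ) < N := by exact_mod_cast hN
    have h3 := avg_dl_le k m N γ hN hm
    obtain ⟨avg, havg⟩ : ∃ avg, avg = (∑ h ∈ Ioo (-(N : ℤ)) N, dl k N γ h) / (2 * N) := ⟨_, rfl⟩
    rw [← havg] at h2 h3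
    have havg0 : 0 ≤ avg := by
      rw [havg]
      exact div_nonneg (Finset.sum_nonneg fun h _ => dl_nonneg _ _ _ _) (by positivity)
    have havg1 : avg ≤ 1 := by
      rw [havg, div_le_one (by positivity)]
      calc ∑ h ∈ Ioo (-(N : ℤ)) N, dl k N γ h ≤ ∑ h ∈ Ioo (-(N : ℤ)) N, (1 : ℝ) :=
            Finset.sum_le_sum fun h _ => dl_le_one _ _ _ _ hN
        _ = ((Ioo (-(N : ℤ)) N).card : ℝ) := by simp
        _ ≤ 2 * N := by
            rw [Int.card_Ioo]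
            have : ((N : ℤ) - -(N : ℤ) - 1).toNat ≤ 2 * N := by omega
            exact_mod_cast this
    calc (∑ h ∈ Ioo (-((2 ^ J x : ℕ) : ℤ)) ((2 ^ J x : ℕ) : ℤ), f x h) ^ d ≤ (8 * avg) ^ d := by
          refine pow_le_pow_left₀ (Finset.sum_nonneg fun _ _ => norm_nonneg _) h2 _
      _ = 8 ^ d * avg ^ d := mul_pow _ _ _
      _ ≤ 8 ^ d * D0 := by
          refine mul_le_mul_of_nonneg_left ?_ (by positivity)
          calc avg ^ d ≤ avg ^ (2 * k * m) := pow_le_pow_of_le_one havg0 havg1 hd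
            _ = (avg ^ m) ^ (2 * k) := by rw [← pow_mul]; congr 1; ring
            _ ≤ (Dl k m N γ) ^ (2 * k) := pow_le_pow_left₀ (pow_nonneg havg0 _) h3 _
            _ ≤ D0 := hDx
  have hc1 : ∀ x ∈ F, ∑ x' ∈ F, ∏ j, crs q U (2 ^ J x) (x' j - x j) ≤ (6 * U) ^ d := by
    intro x hx
    refine (sum_prod_shift_le F x (crs q U (2 ^ J x)) (crs_nonneg q U hU _) (2 ^ J x)
      (crs_supp q U _)).trans ?_
    refine pow_le_pow_left₀ (Finset.sum_nonneg fun _ _ => crs_nonneg _ _ hU _ _) ?_ _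
    exact crs_sum q U hU _ hq (hJ x hx)
  have hc2 : ∀ x' ∈ F, ∑ x ∈ F, ∏ j, crs q U (2 ^ J x') (x' j - x j) ≤ (6 * U) ^ d := by
    intro x' hx'
    have : ∀ x ∈ F, ∏ j, crs q U (2 ^ J x') (x' j - x j) = ∏ j, crs q U (2 ^ J x') (x j - x' j) := by
      intro x _
      refine Finset.prod_congr rfl fun j _ => ?_
      rw [← crs_neg]
      congr 1
      ring
    rw [Finset.sum_congr rfl this]
    exact hc1 x' hx'
  calc _ ≤ ∑ x ∈ F, ∑ x' ∈ F, (∏ j, f x (x' j - x j) + ∏ j, crs q U (2 ^ J x) (x' j - x j) +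
        ∏ j, crs q U (2 ^ J x') (x' j - x j)) :=
        Finset.sum_le_sum fun x hx => Finset.sum_le_sum fun x' hx' => hpair x hx x' hx'
    _ = ∑ x ∈ F, ∑ x' ∈ F, ∏ j, f x (x' j - x j) +
        ∑ x ∈ F, ∑ x' ∈ F, ∏ j, crs q U (2 ^ J x) (x' j - x j) +
        ∑ x' ∈ F, ∑ x ∈ F, ∏ j, crs q U (2 ^ J x') (x' j - x j) := by
        simp only [Finset.sum_add_distrib]
        congr 1
        exact Finset.sum_comm
    _ ≤ ∑ x ∈ F, (8 : ℝ) ^ d * D0 + ∑ x ∈ F, (6 * U) ^ d + ∑ x' ∈ F, (6 * U) ^ d :=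
        add_le_add (add_le_add (Finset.sum_le_sum hsame) (Finset.sum_le_sum hc1))
          (Finset.sum_le_sum hc2)
    _ = F.card * (8 ^ d * D0 + 2 * (6 * U) ^ d) := by
        simp only [Finset.sum_const, nsmul_eq_mul]
        ring

end Pool.Agent.helper132_sph
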