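import Pool.Agent.helper132_sph.Arc
import Pool.Agent.helper132_sph.Dual

/-! Bounds for the cross correlation sums. -/

namespace Pool.Agent.helper132_sph

open Finset

/-- the real shift attached to a triple. -/
noncomputable def tt (k X : ℕ) (τ : ℕ × ℤ × ℤ) : ℝ :=
  frq k X τ * (X : ℝ) ^ k - (X : ℝ) ^ k * (τ.2.1 : ℝ) / τ.1

lemma frq_eq (k X : ℕ) (hX : 1 ≤ X) (τ : ℕ × ℤ × ℤ) :
    frq k X τ = (τ.2.1 : ℝ) / τ.1 + tt k X τ / (X : ℝ) ^ k := by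
  have hXR : (0 : ℝ) < X := by exact_mod_cast hX
  have hXk : (0 : ℝ) < (X : ℝ) ^ k := by positivity
  unfold tt
  rw [sub_div, mul_div_assoc (frq k X τ), div_self hXk.ne', mul_one, mul_div_assoc,
    mul_div_cancel_left₀ _ hXk.ne']
  ring

lemma abs_tt_sub (k X : ℕ) (hX : 1 ≤ X) (τ : ℕ × ℤ × ℤ) (hq : 1 ≤ τ.1) :
    |tt k X τ - τ.2.2| ≤ 1 := by
  have hXR : (0 : ℝ) < X := by exact_mod_cast hX
  have hXk : (0 : ℝ) < (X : ℝ) ^ k := by positivity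
  have hqR : (0 : ℝ) < τ.1 := by exact_mod_cast hq
  have hqz : (0 : ℤ) < τ.1 := by exact_mod_cast hq
  obtain ⟨Av, hA⟩ : ∃ Av : ℤ, Av = (X : ℤ) ^ k * τ.2.1 := ⟨_, rfl⟩
  have hAR : (Av : ℝ) = (X : ℝ) ^ k * τ.2.1 := by rw [hA]; push_cast; ring
  have h1 := Int.mul_ediv_add_emod Av (τ.1 : ℤ)
  have h2 : (0 : ℤ) ≤ Av % (τ.1 : ℤ) := Int.emod_nonneg _ hqz.ne'
  have h3 : Av % (τ.1 : ℤ) < τ.1 := Int.emod_lt_of_pos _ hqz
  have h1' : (τ.1 : ℝ) * ((Av / (τ.1 : ℤ) : ℤ) : ℝ) + ((Av % (τ.1 : ℤ) : ℤ) : ℝ) = Av := by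
    exact_mod_cast h1
  have h2' : (0 : ℝ) ≤ ((Av % (τ.1 : ℤ) : ℤ) : ℝ) := by exact_mod_cast h2
  have h3' : ((Av % (τ.1 : ℤ) : ℤ) : ℝ) ≤ τ.1 := by exact_mod_cast h3.le
  have e : tt k X τ - τ.2.2 = -(((Av % (τ.1 : ℤ) : ℤ) : ℝ) / τ.1) := by
    unfold tt frq
    rw [← hA, ← hAR, div_mul_cancel₀ _ hXk.ne']
    push_cast
    field_simp
    linarith
  rw [e, abs_neg, abs_of_nonneg (by positivity), div_le_one hqR]
  exact h3'

lemma gsum_symm (k N N' : ℕ) (γ γ' : ℝ) (h : ℤ) :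
    ‖gsum k N N' γ γ' h‖ = ‖gsum k N' N γ' γ (-h)‖ := by
  have : gsum k N N' γ γ' h = (starRingEnd ℂ) (gsum k N' N γ' γ (-h)) := by
    unfold gsum
    rw [map_sum]
    refine Finset.sum_bij' (fun m _ => m + h) (fun m _ => m - h) ?_ ?_ ?_ ?_ ?_
    · intro m hm
      rw [Finset.mem_Ico, max_le_iff, lt_min_iff] at hm ⊢
      obtain ⟨⟨a1, a2⟩, a3, a4⟩ := hm
      exact ⟨⟨by linarith, by linarith⟩, by linarith, by linarith⟩
    · intro m hm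
      rw [Finset.mem_Ico, max_le_iff, lt_min_iff] at hm ⊢
      obtain ⟨⟨a1, a2⟩, a3, a4⟩ := hm
      exact ⟨⟨by linarith, by linarith⟩, by linarith, by linarith⟩
    · intro m _; ring
    · intro m _; ring
    · intro m _
      rw [conj_ec]
      congr 1
      have : m + h + -h = m := by ring
      rw [this]
      ring
  rw [this, RCLike.norm_conj]

lemma norm_gsum_le (k N N' : ℕ) (γ γ' : ℝ) (h : ℤ) :
    ‖gsum k N N' γ γ' h‖ ≤ min (N : ℝ) N' := by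
  unfold gsum
  have a1 := min_le_left (N : ℤ) (N' - h)
  have a2 := min_le_right (N : ℤ) (N' - h)
  have a3 := le_max_left (0 : ℤ) (0 - h)
  have a4 := le_max_right (0 : ℤ) (0 - h)
  refine le_min ?_ ?_
  · exact norm_sum_ec_le _ _ (fun m : ℤ => γ * (m : ℝ) ^ k - γ' * (((m + h : ℤ)) : ℝ) ^ k) N
      (by linarith)
  · exact norm_sum_ec_le _ _ (fun m : ℤ => γ * (m : ℝ) ^ k - γ' * (((m + h : ℤ)) : ℝ) ^ k) N'
      (by linarith)

/-- the cross-scale bound. -/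
lemma gsum_cross (k : ℕ) (hk : 3 ≤ k) : ∃ A : ℕ, ∃ C : ℝ, 1 ≤ A ∧ 1 ≤ C ∧
    ∀ (q : ℕ) (_ : 1 ≤ q) (a : ℝ) (_ : 4 ≤ a) (X X' : ℕ) (t t' : ℝ)
      (_ : |t| ≤ a + 1) (_ : |t'| ≤ a + 1) (_ : a - 1 ≤ |t'|)
      (_ : (q : ℝ) * a ^ 2 ≤ X') (_ : 2 * X' ≤ X) (h : ℤ),
      (‖gsum k (Nq q X) (Nq q X') (t / (X : ℝ) ^ k * (q : ℝ) ^ k) (t' / (X' : ℝ) ^ k * (q : ℝ) ^ k) h‖ /
        Nq q X') ^ A * a ≤ C := by
  obtain ⟨A, C, hA, hC, hW⟩ := weyl_inverse k (by omega)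
  refine ⟨A, 4 * C, hA, by linarith, ?_⟩
  intro q hq a ha X X' t t' ht ht' ht'2 hX' hXX h
  have hqR1 : (1 : ℝ) ≤ q := by exact_mod_cast hq
  have hqR : (0 : ℝ) < q := by linarith
  have ha0 : (0 : ℝ) < a := by linarith
  have ha2 : (1 : ℝ) ≤ a ^ 2 := one_le_pow₀ (by linarith)
  have hX'R : (1 : ℝ) ≤ X' := by
    have : (q : ℝ) * 1 ≤ q * a ^ 2 := mul_le_mul_of_nonneg_left ha2 hqR.le
    linarith
  have hX'0 : (0 : ℝ) < X' := by linarith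
  have hX'1 : 1 ≤ X' := by exact_mod_cast hX'R
  have hXR : 2 * (X' : ℝ) ≤ X := by exact_mod_cast hXX
  have hX0 : (0 : ℝ) < X := by linarith
  obtain ⟨N', hN'⟩ : ∃ N', N' = Nq q X' := ⟨_, rfl⟩
  have hN'1 : 1 ≤ N' := by rw [hN']; exact Nq_pos q X' hq hX'1
  have hN'R : (1 : ℝ) ≤ N' := by exact_mod_cast hN'1
  have hN'0 : (0 : ℝ) < N' := by linarith
  have hqN' : (X' : ℝ) ≤ q * N' := by rw [hN']; exact_mod_cast Nq_lower q X' hq
  rw [← hN']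
  obtain ⟨γ, hγ⟩ : ∃ γ, γ = t / (X : ℝ) ^ k * (q : ℝ) ^ k := ⟨_, rfl⟩
  obtain ⟨γ', hγ'⟩ : ∃ γ', γ' = t' / (X' : ℝ) ^ k * (q : ℝ) ^ k := ⟨_, rfl⟩
  rw [← hγ, ← hγ']
  obtain ⟨z, hz⟩ : ∃ z : ℝ, z = ((q : ℝ) / X') ^ k := ⟨_, rfl⟩
  have hz0 : 0 < z := by rw [hz]; positivity
  have hγ'z : |γ'| = |t'| * z := by
    rw [hγ', hz, abs_mul, abs_div, abs_of_pos (show (0 : ℝ) < (X' : ℝ) ^ k by positivity),
      abs_of_pos (show (0 : ℝ) < (q : ℝ) ^ k by positivity), div_pow]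
    ring
  have hγz : |γ| ≤ |t| * z / 8 := by
    rw [hγ, hz, abs_mul, abs_div, abs_of_pos (show (0 : ℝ) < (X : ℝ) ^ k by positivity),
      abs_of_pos (show (0 : ℝ) < (q : ℝ) ^ k by positivity), div_pow]
    have h1 : 8 * (X' : ℝ) ^ k ≤ (X : ℝ) ^ k := by
      calc 8 * (X' : ℝ) ^ k = 2 ^ 3 * (X' : ℝ) ^ k := by norm_num
        _ ≤ 2 ^ k * (X' : ℝ) ^ k := by
            refine mul_le_mul_of_nonneg_right ?_ (by positivity)
            exact pow_le_pow_right₀ (by norm_num) hk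
        _ = (2 * (X' : ℝ)) ^ k := (mul_pow _ _ _).symm
        _ ≤ (X : ℝ) ^ k := pow_le_pow_left₀ (by positivity) hXR _
    have h2 : |t| / (X : ℝ) ^ k ≤ |t| / (8 * (X' : ℝ) ^ k) :=
      div_le_div_of_nonneg_left (abs_nonneg _) (by positivity) h1
    calc |t| / (X : ℝ) ^ k * (q : ℝ) ^ k ≤ |t| / (8 * (X' : ℝ) ^ k) * (q : ℝ) ^ k :=
          mul_le_mul_of_nonneg_right h2 (by positivity)
      _ = |t| * ((q : ℝ) ^ k / (X' : ℝ) ^ k) / 8 := by field_simp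
  have hta : |t| ≤ 5 / 4 * a := by linarith
  have ht'a : |t'| ≤ 5 / 4 * a := by linarith
  have ht'b : 3 / 4 * a ≤ |t'| := by linarith
  have haz : 0 < a * z := by positivity
  have g1 : |γ| ≤ 5 / 32 * (a * z) := by
    have : |t| * z ≤ 5 / 4 * a * z := mul_le_mul_of_nonneg_right hta hz0.le
    linarith
  have g2 : |γ'| ≤ 5 / 4 * (a * z) := by
    rw [hγ'z]
    have : |t'| * z ≤ 5 / 4 * a * z := mul_le_mul_of_nonneg_right ht'a hz0.le
    linarith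
  have g3 : 3 / 4 * (a * z) ≤ |γ'| := by
    rw [hγ'z]
    have : 3 / 4 * a * z ≤ |t'| * z := mul_le_mul_of_nonneg_right ht'b hz0.le
    linarith
  obtain ⟨δ, hδ⟩ : ∃ δ, δ = γ + (-1) * γ' := ⟨_, rfl⟩
  have hδ1 : a * z / 2 ≤ |δ| := by
    have h1 : |γ'| - |γ| ≤ |δ| := by
      have : |γ'| ≤ |γ' - γ| + |γ| := by
        have := abs_add_le (γ' - γ) γ
        rwa [sub_add_cancel] at this
      have e : |δ| = |γ' - γ| := by rw [hδ, abs_sub_comm]; congr 1; ring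
      rw [e]; linarith
    linarith
  have hδ2 : |δ| ≤ 2 * (a * z) := by
    have h1 : |δ| ≤ |γ| + |γ'| := by
      rw [hδ]
      refine (abs_add_le _ _).trans ?_
      rw [abs_mul]; simp
    linarith
  have hPh : Ph k δ (fun m : ℤ => γ * (m : ℝ) ^ k - γ' * (((m + h : ℤ)) : ℝ) ^ k) := by
    have h1 := Ph_pow k γ
    have h2 := Ph_smul (-1) (Ph_shift h (Ph_pow k γ'))
    have h3 := Ph_add h1 h2
    rw [← hδ] at h3
    convert h3 using 1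
    funext m
    ring
  obtain ⟨q1, c1, hq1, hw1, hw2⟩ := hW N' hN'1 δ _ hPh (max (0 : ℤ) (0 - h))
    (min ((Nq q X : ℕ) : ℤ) (N' - h)) (by
      have a2 := min_le_right ((Nq q X : ℕ) : ℤ) (N' - h)
      have a4 := le_max_right (0 : ℤ) (0 - h)
      linarith)
  obtain ⟨w, hw⟩ : ∃ w : ℝ, w = (‖gsum k (Nq q X) N' γ γ' h‖ / N') ^ A := ⟨_, rfl⟩
  have hw' : (‖∑ n ∈ Ico (max (0 : ℤ) (0 - h)) (min ((Nq q X : ℕ) : ℤ) (N' - h)),
      ec ((fun m : ℤ => γ * (m : ℝ) ^ k - γ' * (((m + h : ℤ)) : ℝ) ^ k) n)‖ / N') ^ A = w := by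
    rw [hw]; rfl
  rw [hw'] at hw1 hw2
  rw [← hw]
  have hw0 : 0 ≤ w := by rw [hw]; positivity
  have hq1R : (1 : ℝ) ≤ q1 := by exact_mod_cast hq1
  have hq10 : (0 : ℝ) < q1 := by linarith
  have hzN : 1 ≤ z * (N' : ℝ) ^ k := by
    rw [hz, ← mul_pow]
    apply one_le_pow₀
    rw [div_mul_eq_mul_div, le_div_iff₀ hX'0, one_mul]
    exact hqN'
  have hN'k0 : (0 : ℝ) < (N' : ℝ) ^ k := by positivity
  have hN'a : a ^ 2 ≤ N' := by
    have : (q : ℝ) * a ^ 2 ≤ q * N' := hX'.trans hqN'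
    exact le_of_mul_le_mul_left this hqR
  have haa : a ≤ a ^ 2 := by
    have : a * 1 ≤ a * a := mul_le_mul_of_nonneg_left (by linarith) ha0.le
    rw [sq]; linarith
  rcases eq_or_ne c1 0 with hc | hc
  · rw [hc, Int.cast_zero, sub_zero, abs_mul, abs_of_pos hq10] at hw2
    have h1 : |δ| * (w * (N' : ℝ) ^ k) ≤ C := by
      refine le_trans ?_ hw2
      have : 0 ≤ |δ| * (w * (N' : ℝ) ^ k) := by positivity
      calc |δ| * (w * (N' : ℝ) ^ k) = 1 * (|δ| * (w * (N' : ℝ) ^ k)) := (one_mul _).symm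
        _ ≤ q1 * (|δ| * (w * (N' : ℝ) ^ k)) := mul_le_mul_of_nonneg_right hq1R this
        _ = _ := by ring
    have h2 : a * z / 2 * (w * (N' : ℝ) ^ k) ≤ C :=
      (mul_le_mul_of_nonneg_right hδ1 (by positivity)).trans h1
    have h3 : w * a / 2 * 1 ≤ w * a / 2 * (z * (N' : ℝ) ^ k) :=
      mul_le_mul_of_nonneg_left hzN (by positivity)
    have h4 : w * a / 2 * (z * (N' : ℝ) ^ k) = a * z / 2 * (w * (N' : ℝ) ^ k) := by ring
    linarith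
  · have hc1 : (1 : ℝ) ≤ |(c1 : ℝ)| := by
      have := Int.one_le_abs hc
      exact_mod_cast this
    rcases le_or_gt ((q1 : ℝ) * |δ|) (1 / 2) with hs | hs
    · have h1 : (1 : ℝ) / 2 ≤ |(q1 : ℝ) * δ - c1| := by
        have h2 : |(c1 : ℝ)| ≤ |(q1 : ℝ) * δ - c1| + |(q1 : ℝ) * δ| := by
          have := abs_add_le ((c1 : ℝ) - q1 * δ) (q1 * δ)
          rw [sub_add_cancel] at this
          rw [abs_sub_comm]
          exact this
        rw [abs_mul, abs_of_pos hq10] at h2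
        linarith
      have h2 : 1 / 2 * (w * (N' : ℝ) ^ k) ≤ C := by
        refine (mul_le_mul_of_nonneg_right h1 (by positivity)).trans ?_
        rw [← mul_assoc]
        exact hw2
      have h3 : a ≤ (N' : ℝ) ^ k :=
        haa.trans (hN'a.trans (le_self_pow₀ hN'R (by omega)))
      have h4 : w * a ≤ w * (N' : ℝ) ^ k := mul_le_mul_of_nonneg_left h3 hw0
      linarith
    · have h1 : 1 / 2 < q1 * (2 * (a * z)) :=
        lt_of_lt_of_le hs (mul_le_mul_of_nonneg_left hδ2 hq10.le)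
      have h2 : z * a ^ 2 ≤ 1 := by
        have h3 : (q : ℝ) / X' ≤ 1 / a ^ 2 := by
          rw [div_le_div_iff₀ hX'0 (by positivity)]
          linarith
        have h4 : (q : ℝ) / X' ≤ 1 := h3.trans (by
          rw [div_le_one (by positivity)]; exact ha2)
        have h5 : z ≤ q / X' := by
          rw [hz]
          exact pow_le_of_le_one (by positivity) h4 (by omega)
        calc z * a ^ 2 ≤ (1 / a ^ 2) * a ^ 2 :=
              mul_le_mul_of_nonneg_right (h5.trans h3) (by positivity)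
          _ = 1 := by field_simp
      have h3 : a ≤ 4 * q1 := by
        have h4 : q1 * (2 * (a * z)) * a ≤ 2 * q1 := by
          have : q1 * (2 * (a * z)) * a = 2 * q1 * (z * a ^ 2) := by ring
          rw [this]
          calc 2 * (q1 : ℝ) * (z * a ^ 2) ≤ 2 * q1 * 1 :=
                mul_le_mul_of_nonneg_left h2 (by positivity)
            _ = 2 * q1 := by ring
        have h5 : 1 / 2 * a ≤ q1 * (2 * (a * z)) * a := mul_le_mul_of_nonneg_right h1.le ha0.le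
        linarith
      have h4 : w * a ≤ w * (4 * q1) := mul_le_mul_of_nonneg_left h3 hw0
      linarith

/-- the same-scale bound. -/
lemma dl_same (κ m : ℕ) (hκ : 2 ≤ κ) (C : ℝ) (hC : 1 ≤ C)
    (hst : ∀ (X : ℕ) (_ : 1 ≤ X) (α R : ℝ) (_ : 1 ≤ R)
      (_ : ∀ (q : ℕ) (c : ℤ), 1 ≤ q → (q : ℝ) ≤ R → R < |q * α - c| * (X : ℝ) ^ (κ + 1)),
      Dl (κ + 1) m X α ^ (2 * (κ + 1)) ≤
        C * (1 / R ^ (2 * κ + 1) + 1 / (X : ℝ) ^ (2 * (κ + 1))))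
    (q : ℕ) (hq : 1 ≤ q) (a : ℝ) (ha : 4 ≤ a) (X : ℕ) (t : ℝ)
    (ht : |t| ≤ a + 1) (ht2 : a - 1 ≤ |t|) (hX : (q : ℝ) * a ^ 2 ≤ X) :
    Dl (κ + 1) m (Nq q X) (t / (X : ℝ) ^ (κ + 1) * (q : ℝ) ^ (κ + 1)) ^ (2 * (κ + 1)) * a ^ 5 ≤
      33 * C := by
  have hqR1 : (1 : ℝ) ≤ q := by exact_mod_cast hq
  have hqR : (0 : ℝ) < q := by linarith
  have ha0 : (0 : ℝ) < a := by linarith
  have ha2 : (1 : ℝ) ≤ a ^ 2 := one_le_pow₀ (by linarith)
  have hXR : (1 : ℝ) ≤ X := by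
    have : (q : ℝ) * 1 ≤ q * a ^ 2 := mul_le_mul_of_nonneg_left ha2 hqR.le
    linarith
  have hX0 : (0 : ℝ) < X := by linarith
  have hX1 : 1 ≤ X := by exact_mod_cast hXR
  obtain ⟨N, hN⟩ : ∃ N, N = Nq q X := ⟨_, rfl⟩
  have hN1 : 1 ≤ N := by rw [hN]; exact Nq_pos q X hq hX1
  have hNR : (1 : ℝ) ≤ N := by exact_mod_cast hN1
  have hN0 : (0 : ℝ) < N := by linarith
  have hqN : (X : ℝ) ≤ q * N := by rw [hN]; exact_mod_cast Nq_lower q X hq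
  rw [← hN]
  obtain ⟨γ, hγ⟩ : ∃ γ, γ = t / (X : ℝ) ^ (κ + 1) * (q : ℝ) ^ (κ + 1) := ⟨_, rfl⟩
  rw [← hγ]
  obtain ⟨z, hz⟩ : ∃ z : ℝ, z = ((q : ℝ) / X) ^ (κ + 1) := ⟨_, rfl⟩
  have hz0 : 0 < z := by rw [hz]; positivity
  have hγz : |γ| = |t| * z := by
    rw [hγ, hz, abs_mul, abs_div, abs_of_pos (show (0 : ℝ) < (X : ℝ) ^ (κ + 1) by positivity),
      abs_of_pos (show (0 : ℝ) < (q : ℝ) ^ (κ + 1) by positivity), div_pow]
    ring
  have hzN : 1 ≤ z * (N : ℝ) ^ (κ + 1) := by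
    rw [hz, ← mul_pow]
    apply one_le_pow₀
    rw [div_mul_eq_mul_div, le_div_iff₀ hX0, one_mul]
    exact hqN
  have hNa : a ^ 2 ≤ N := by
    have : (q : ℝ) * a ^ 2 ≤ q * N := hX.trans hqN
    exact le_of_mul_le_mul_left this hqR
  have hza : z * a ^ 2 ≤ 1 := by
    have h3 : (q : ℝ) / X ≤ 1 / a ^ 2 := by
      rw [div_le_div_iff₀ hX0 (by positivity)]
      linarith
    have h4 : (q : ℝ) / X ≤ 1 := h3.trans (by
      rw [div_le_one (by positivity)]; exact ha2)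
    have h5 : z ≤ q / X := by
      rw [hz]
      exact pow_le_of_le_one (by positivity) h4 (by omega)
    calc z * a ^ 2 ≤ (1 / a ^ 2) * a ^ 2 :=
          mul_le_mul_of_nonneg_right (h5.trans h3) (by positivity)
      _ = 1 := by field_simp
  have h1 := hst N hN1 γ (a / 2) (by linarith) (by
    intro q' c' hq' hq'R
    have hq'1 : (1 : ℝ) ≤ q' := by exact_mod_cast hq'
    have hq'0 : (0 : ℝ) < q' := by linarith
    rcases eq_or_ne c' 0 with hc | hc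
    · rw [hc, Int.cast_zero, sub_zero, abs_mul, abs_of_pos hq'0, hγz]
      have e : (q' : ℝ) * (|t| * z) * (N : ℝ) ^ (κ + 1) = q' * |t| * (z * (N : ℝ) ^ (κ + 1)) := by ring
      rw [e]
      have b1 : 1 * |t| ≤ q' * |t| := mul_le_mul_of_nonneg_right hq'1 (abs_nonneg _)
      have b2 : q' * |t| * 1 ≤ q' * |t| * (z * (N : ℝ) ^ (κ + 1)) :=
        mul_le_mul_of_nonneg_left hzN (by positivity)
      linarith
    · have hc1 : (1 : ℝ) ≤ |(c' : ℝ)| := by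
        have := Int.one_le_abs hc
        exact_mod_cast this
      have b1 : (q' : ℝ) * |γ| ≤ 5 / 8 := by
        rw [hγz]
        have b2 : |t| ≤ 5 / 4 * a := by linarith
        calc (q' : ℝ) * (|t| * z) ≤ (a / 2) * (5 / 4 * a * z) := by
              refine mul_le_mul hq'R (mul_le_mul_of_nonneg_right b2 hz0.le) (by positivity)
                (by positivity)
          _ = 5 / 8 * (z * a ^ 2) := by ring
          _ ≤ 5 / 8 * 1 := mul_le_mul_of_nonneg_left hza (by norm_num)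
          _ = 5 / 8 := by ring
      have b3 : (3 : ℝ) / 8 ≤ |(q' : ℝ) * γ - c'| := by
        have h2 : |(c' : ℝ)| ≤ |(q' : ℝ) * γ - c'| + |(q' : ℝ) * γ| := by
          have := abs_add_le ((c' : ℝ) - q' * γ) (q' * γ)
          rw [sub_add_cancel] at this
          rw [abs_sub_comm]
          exact this
        rw [abs_mul, abs_of_pos hq'0] at h2
        linarith
      have b4 : a ^ 2 ≤ (N : ℝ) ^ (κ + 1) := hNa.trans (le_self_pow₀ hNR (by omega))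
      have b5 : 4 * a ≤ a ^ 2 := by
        rw [sq]; exact mul_le_mul_of_nonneg_right ha ha0.le
      calc a / 2 < 3 / 8 * a ^ 2 := by linarith
        _ ≤ |(q' : ℝ) * γ - c'| * (N : ℝ) ^ (κ + 1) :=
          mul_le_mul b3 b4 (by positivity) (abs_nonneg _))
  have h2 : 1 / (a / 2) ^ (2 * κ + 1) ≤ 32 / a ^ 5 := by
    have b1 : (a / 2) ^ 5 ≤ (a / 2) ^ (2 * κ + 1) :=
      pow_le_pow_right₀ (by linarith) (by omega)
    calc 1 / (a / 2) ^ (2 * κ + 1) ≤ 1 / (a / 2) ^ 5 :=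
          one_div_le_one_div_of_le (by positivity) b1
      _ = 32 / a ^ 5 := by rw [div_pow]; norm_num
  have h3 : 1 / (N : ℝ) ^ (2 * (κ + 1)) ≤ 1 / a ^ 5 := by
    apply one_div_le_one_div_of_le (by positivity)
    calc a ^ 5 ≤ a ^ (2 * (2 * (κ + 1))) := pow_le_pow_right₀ (by linarith) (by omega)
      _ = (a ^ 2) ^ (2 * (κ + 1)) := by rw [pow_mul]
      _ ≤ (N : ℝ) ^ (2 * (κ + 1)) := pow_le_pow_left₀ (by positivity) hNa _
  have h4 : Dl (κ + 1) m N γ ^ (2 * (κ + 1)) ≤ C * (33 / a ^ 5) := by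
    refine h1.trans (mul_le_mul_of_nonneg_left ?_ (by linarith))
    have e : (33 : ℝ) / a ^ 5 = 32 / a ^ 5 + 1 / a ^ 5 := by ring
    rw [e]; linarith
  calc Dl (κ + 1) m N γ ^ (2 * (κ + 1)) * a ^ 5 ≤ C * (33 / a ^ 5) * a ^ 5 :=
        mul_le_mul_of_nonneg_right h4 (by positivity)
    _ = 33 * C := by field_simp

/-- frequency shift at scale `2^J`. -/
noncomputable def bet (k : ℕ) (τ : ℕ × ℤ × ℤ) (J : ℕ) : ℝ :=
  tt k (2 ^ J) τ / (((2 ^ J : ℕ) : ℝ)) ^ k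

/-- both bounds together, uniformly. -/
lemma theta_bound (κ m : ℕ) (hκ : 2 ≤ κ) (C : ℝ) (hC : 1 ≤ C)
    (hst : ∀ (X : ℕ) (_ : 1 ≤ X) (α R : ℝ) (_ : 1 ≤ R)
      (_ : ∀ (q : ℕ) (c : ℤ), 1 ≤ q → (q : ℝ) ≤ R → R < |q * α - c| * (X : ℝ) ^ (κ + 1)),
      Dl (κ + 1) m X α ^ (2 * (κ + 1)) ≤
        C * (1 / R ^ (2 * κ + 1) + 1 / (X : ℝ) ^ (2 * (κ + 1)))) :
    ∃ A : ℕ, ∃ K : ℝ, 1 ≤ A ∧ 1 ≤ K ∧ ∀ τ : ℕ × ℤ × ℤ, 1 ≤ τ.1 →
      ∃ U : ℝ, 0 ≤ U ∧ (∀ d, 5 * A ≤ d → U ^ d * ((1 + τ.2.2.natAbs : ℕ) : ℝ) ^ 5 ≤ K) ∧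
      (∀ J, τ.1 * (1 + τ.2.2.natAbs) ^ 2 ≤ 2 ^ J →
        Dl (κ + 1) m (Nq τ.1 (2 ^ J)) (bet (κ + 1) τ J * (τ.1 : ℝ) ^ (κ + 1)) ^ (2 * (κ + 1)) *
          ((1 + τ.2.2.natAbs : ℕ) : ℝ) ^ 5 ≤ K) ∧
      (∀ J J', τ.1 * (1 + τ.2.2.natAbs) ^ 2 ≤ 2 ^ J → τ.1 * (1 + τ.2.2.natAbs) ^ 2 ≤ 2 ^ J' →
        J ≠ J' → ∀ h : ℤ,
        ‖gsum (κ + 1) (Nq τ.1 (2 ^ J)) (Nq τ.1 (2 ^ J')) (bet (κ + 1) τ J * (τ.1 : ℝ) ^ (κ + 1))
          (bet (κ + 1) τ J' * (τ.1 : ℝ) ^ (κ + 1)) h‖ ≤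
          U * min (Nq τ.1 (2 ^ J) : ℝ) (Nq τ.1 (2 ^ J'))) := by
  obtain ⟨A, C1, hA, hC1, hg⟩ := gsum_cross (κ + 1) (by omega)
  refine ⟨A, (2 * C1) ^ 5 + 4 * (33 * C) + 1024 * 4 ^ (κ + 1), hA, ?_, ?_⟩
  · have h1 : (1 : ℝ) ≤ 4 ^ (κ + 1) := one_le_pow₀ (by norm_num)
    have h2 : (0 : ℝ) ≤ (2 * C1) ^ 5 := by positivity
    linarith
  intro τ hq
  obtain ⟨q, c, i⟩ := τ
  simp only at hq ⊢
  have hC10 : 0 < C1 := by linarith
  have hK1 : (0 : ℝ) ≤ (2 * C1) ^ 5 := by positivity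
  have hK2 : (0 : ℝ) ≤ 4 * (33 * C) := by linarith
  have hK3 : (0 : ℝ) ≤ 1024 * 4 ^ (κ + 1) := by positivity
  have hqR1 : (1 : ℝ) ≤ q := by exact_mod_cast hq
  have hi1 : ((1 + i.natAbs : ℕ) : ℝ) = 1 + |(i : ℝ)| := by
    push_cast
    rw [Nat.cast_natAbs]; simp
  rcases lt_or_ge i.natAbs 4 with h4 | h4
  · have hle : ((1 + i.natAbs : ℕ) : ℝ) ^ 5 ≤ 1024 := by
      have : ((1 + i.natAbs : ℕ) : ℝ) ≤ 4 := by exact_mod_cast (by omega : 1 + i.natAbs ≤ 4)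
      calc ((1 + i.natAbs : ℕ) : ℝ) ^ 5 ≤ 4 ^ 5 := pow_le_pow_left₀ (Nat.cast_nonneg _) this 5
        _ = 1024 := by norm_num
    have h41 : (1 : ℝ) ≤ 4 ^ (κ + 1) := one_le_pow₀ (by norm_num)
    refine ⟨1, zero_le_one, ?_, ?_, ?_⟩
    · intro d _
      rw [one_pow, one_mul]
      have : (1024 : ℝ) * 1 ≤ 1024 * 4 ^ (κ + 1) := mul_le_mul_of_nonneg_left h41 (by norm_num)
      linarith
    · intro J _
      have hN := Nq_pos q (2 ^ J) hq Nat.one_le_two_pow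
      have h1 : Dl (κ + 1) m (Nq q (2 ^ J)) (bet (κ + 1) (q, c, i) J * (q : ℝ) ^ (κ + 1)) ^ (2 * (κ + 1)) ≤
          4 ^ (κ + 1) := by
        calc _ ≤ (2 : ℝ) ^ (2 * (κ + 1)) :=
              pow_le_pow_left₀ (Dl_nonneg _ _ _ _) (Dl_le_two _ _ _ _ hN) _
          _ = 4 ^ (κ + 1) := by rw [pow_mul]; norm_num
      calc _ ≤ (4 : ℝ) ^ (κ + 1) * 1024 := mul_le_mul h1 hle (by positivity) (by positivity)
        _ ≤ _ := by linarith
    · intro J J' _ _ _ h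
      rw [one_mul]
      exact norm_gsum_le _ _ _ _ _ _
  · obtain ⟨a, ha⟩ : ∃ a : ℝ, a = |(i : ℝ)| := ⟨_, rfl⟩
    have hnat : ((i.natAbs : ℕ) : ℝ) = a := by rw [ha, Nat.cast_natAbs]; simp
    have ha4 : 4 ≤ a := by rw [← hnat]; exact_mod_cast h4
    have ha0 : 0 < a := by linarith
    rw [← ha] at hi1
    have hscale : ∀ J, q * (1 + i.natAbs) ^ 2 ≤ 2 ^ J → (q : ℝ) * a ^ 2 ≤ ((2 ^ J : ℕ) : ℝ) := by
      intro J hJ
      have h1 : ((q * (1 + i.natAbs) ^ 2 : ℕ) : ℝ) ≤ ((2 ^ J : ℕ) : ℝ) := by exact_mod_cast hJ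
      refine le_trans ?_ h1
      rw [Nat.cast_mul, Nat.cast_pow, hi1]
      refine mul_le_mul_of_nonneg_left ?_ (by linarith)
      exact pow_le_pow_left₀ ha0.le (by linarith) 2
    have htb : ∀ J, |tt (κ + 1) (2 ^ J) (q, c, i)| ≤ a + 1 ∧ a - 1 ≤ |tt (κ + 1) (2 ^ J) (q, c, i)| := by
      intro J
      have h1 := abs_tt_sub (κ + 1) (2 ^ J) Nat.one_le_two_pow (q, c, i) hq
      simp only at h1
      constructor
      · have h2 := abs_add_le (tt (κ + 1) (2 ^ J) (q, c, i) - i) i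
        rw [sub_add_cancel, ← ha] at h2
        linarith
      · have h2 := abs_add_le ((i : ℝ) - tt (κ + 1) (2 ^ J) (q, c, i)) (tt (κ + 1) (2 ^ J) (q, c, i))
        rw [sub_add_cancel, ← ha, abs_sub_comm] at h2
        linarith
    have h1a : (1 + a) ≤ 5 / 4 * a := by linarith
    have h1a5 : (1 + a) ^ 5 ≤ 4 * a ^ 5 := by
      calc (1 + a) ^ 5 ≤ (5 / 4 * a) ^ 5 := pow_le_pow_left₀ (by linarith) h1a 5
        _ = (5 / 4) ^ 5 * a ^ 5 := by rw [mul_pow]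
        _ ≤ 4 * a ^ 5 := mul_le_mul_of_nonneg_right (by norm_num) (by positivity)
    obtain ⟨U0, hU00, hU0A⟩ : ∃ U0 : ℝ, 0 ≤ U0 ∧ U0 ^ A = C1 / a :=
      ⟨(C1 / a) ^ ((A : ℝ)⁻¹), by positivity, Real.rpow_inv_natCast_pow (by positivity) (by omega)⟩
    have hcr : ∀ J J', q * (1 + i.natAbs) ^ 2 ≤ 2 ^ J' → J' < J → ∀ h : ℤ,
        ‖gsum (κ + 1) (Nq q (2 ^ J)) (Nq q (2 ^ J')) (bet (κ + 1) (q, c, i) J * (q : ℝ) ^ (κ + 1))
          (bet (κ + 1) (q, c, i) J' * (q : ℝ) ^ (κ + 1)) h‖ ≤ min 1 U0 * Nq q (2 ^ J') := by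
      intro J J' hJ' hlt h
      have hN' := Nq_pos q (2 ^ J') hq Nat.one_le_two_pow
      have hN'R : (0 : ℝ) < Nq q (2 ^ J') := by exact_mod_cast hN'
      have h1 := hg q hq a ha4 (2 ^ J) (2 ^ J') (tt (κ + 1) (2 ^ J) (q, c, i))
        (tt (κ + 1) (2 ^ J') (q, c, i)) (htb J).1 (htb J').1 (htb J').2 (hscale J' hJ') (by
          calc 2 * 2 ^ J' = 2 ^ (J' + 1) := by rw [pow_succ]; ring
            _ ≤ 2 ^ J := Nat.pow_le_pow_right (by norm_num) hlt) h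
      have h2 := norm_gsum_le (κ + 1) (Nq q (2 ^ J)) (Nq q (2 ^ J'))
        (bet (κ + 1) (q, c, i) J * (q : ℝ) ^ (κ + 1)) (bet (κ + 1) (q, c, i) J' * (q : ℝ) ^ (κ + 1)) h
      have h1' : (‖gsum (κ + 1) (Nq q (2 ^ J)) (Nq q (2 ^ J')) (bet (κ + 1) (q, c, i) J * (q : ℝ) ^ (κ + 1))
          (bet (κ + 1) (q, c, i) J' * (q : ℝ) ^ (κ + 1)) h‖ / Nq q (2 ^ J')) ^ A * a ≤ C1 := h1
      obtain ⟨g, hgg⟩ : ∃ g, g = ‖gsum (κ + 1) (Nq q (2 ^ J)) (Nq q (2 ^ J')) (bet (κ + 1) (q, c, i) J * (q : ℝ) ^ (κ + 1))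
          (bet (κ + 1) (q, c, i) J' * (q : ℝ) ^ (κ + 1)) h‖ := ⟨_, rfl⟩
      rw [← hgg] at h1' h2 ⊢
      have hg0 : 0 ≤ g := by rw [hgg]; exact norm_nonneg _
      rw [← div_le_iff₀ hN'R]
      refine le_min ?_ ?_
      · rw [div_le_one hN'R]
        exact h2.trans (min_le_right _ _)
      · have h3 : (g / Nq q (2 ^ J')) ^ A ≤ U0 ^ A := by
          rw [hU0A, le_div_iff₀ ha0]
          exact h1'
        exact le_of_pow_le_pow_left₀ (by omega) hU00 h3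
    refine ⟨min 1 U0, le_min zero_le_one hU00, ?_, ?_, ?_⟩
    · intro d hd
      rw [hi1]
      have hm0 : 0 ≤ min 1 U0 := le_min zero_le_one hU00
      calc (min 1 U0) ^ d * (1 + a) ^ 5 ≤ (min 1 U0) ^ (5 * A) * (1 + a) ^ 5 := by
            refine mul_le_mul_of_nonneg_right ?_ (by positivity)
            exact pow_le_pow_of_le_one hm0 (min_le_left _ _) hd
        _ = ((min 1 U0) ^ A * (1 + a)) ^ 5 := by
            rw [mul_pow, ← pow_mul, mul_comm A 5]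
        _ ≤ (C1 / a * (5 / 4 * a)) ^ 5 := by
            refine pow_le_pow_left₀ (by positivity) ?_ 5
            refine mul_le_mul ?_ h1a (by linarith) (by positivity)
            rw [← hU0A]
            exact pow_le_pow_left₀ hm0 (min_le_right _ _) A
        _ = (5 / 4 * C1) ^ 5 := by congr 1; field_simp
        _ ≤ (2 * C1) ^ 5 := pow_le_pow_left₀ (by positivity) (by linarith) 5
        _ ≤ _ := by linarith
    · intro J hJ
      rw [hi1]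
      have h1 := dl_same κ m hκ C hC hst q hq a ha4 (2 ^ J) (tt (κ + 1) (2 ^ J) (q, c, i))
        (htb J).1 (htb J).2 (hscale J hJ)
      have h1' : Dl (κ + 1) m (Nq q (2 ^ J)) (bet (κ + 1) (q, c, i) J * (q : ℝ) ^ (κ + 1)) ^ (2 * (κ + 1)) *
          a ^ 5 ≤ 33 * C := h1
      have h0 : 0 ≤ Dl (κ + 1) m (Nq q (2 ^ J)) (bet (κ + 1) (q, c, i) J * (q : ℝ) ^ (κ + 1)) ^ (2 * (κ + 1)) :=
        pow_nonneg (Dl_nonneg _ _ _ _) _
      have h2 := mul_le_mul_of_nonneg_left h1a5 h0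
      linarith
    · intro J J' hJ hJ' hne h
      rcases lt_or_gt_of_ne hne with hlt | hlt
      · rw [gsum_symm]
        refine (hcr J' J hJ hlt (-h)).trans ?_
        refine mul_le_mul_of_nonneg_left ?_ (le_min zero_le_one hU00)
        refine le_min le_rfl ?_
        have : Nq q (2 ^ J) ≤ Nq q (2 ^ J') := by
          unfold Nq
          refine Nat.div_le_div_right ?_
          have : 2 ^ J ≤ 2 ^ J' := Nat.pow_le_pow_right (by norm_num) hlt.le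
          omega
        exact_mod_cast this
      · refine (hcr J J' hJ' hlt h).trans ?_
        refine mul_le_mul_of_nonneg_left ?_ (le_min zero_le_one hU00)
        refine le_min ?_ le_rfl
        have : Nq q (2 ^ J') ≤ Nq q (2 ^ J) := by
          unfold Nq
          refine Nat.div_le_div_right ?_
          have : 2 ^ J' ≤ 2 ^ J := Nat.pow_le_pow_right (by norm_num) hlt.le
          omega
        exact_mod_cast this

end Pool.Agent.helper132_sph
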