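import Mathlib

/-! Arithmetic k-spherical maximal function: definitions used in the statement. -/

namespace Pool.Agent.helper132_sph

open scoped ENNReal

/-- `S_{k,d}(r)`: the `m ∈ ℤ^d` with `Σ |m_i|^k = r^k`. -/
def sphere (k d : ℕ) (r : ℝ) : Set (Fin d → ℤ) :=
  {m | ∑ i, |(m i : ℝ)| ^ k = r ^ k}

/-- `N_{k,d}(r)`: the number of points of `S_{k,d}(r)`. -/
noncomputable def numPts (k d : ℕ) (r : ℝ) : ℕ := (sphere k d r).ncard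

/-- `R_{k,d}`: the radii `r > 0` with `S_{k,d}(r)` nonempty. -/
def radii (k d : ℕ) : Set ℝ := {r | 0 < r ∧ (sphere k d r).Nonempty}

/-- `A_r f (x)`: the average of `f (x - y)` over `y ∈ S_{k,d}(r)`. -/
noncomputable def sphAvg (k : ℕ) {d : ℕ} (r : ℝ) (f : (Fin d → ℤ) → ℂ) (x : Fin d → ℤ) : ℂ :=
  (∑ᶠ y ∈ sphere k d r, f (x - y)) / (numPts k d r : ℂ)

/-- `A_* f (x)`: the supremum of `|A_r f (x)|` over `r ∈ R_{k,d}`, as an extended nonnegative real. -/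
noncomputable def sphMax (k : ℕ) {d : ℕ} (f : (Fin d → ℤ) → ℂ) (x : Fin d → ℤ) : ℝ≥0∞ :=
  ⨆ r ∈ radii k d, ENNReal.ofReal ‖sphAvg k r f x‖

/-- Distribution function: the number of `x ∈ ℤ^d` with `g x > t`. -/
noncomputable def distr {d : ℕ} (g : (Fin d → ℤ) → ℝ≥0∞) (t : ℝ) : ℝ≥0∞ :=
  (({x | ENNReal.ofReal t < g x} : Set (Fin d → ℤ)).encard : ℝ≥0∞)

/-- The `ℓ^{p,∞}` quantity `sup_{t>0} t λ_g(t)^{1/p}`. -/
noncomputable def weakNorm {d : ℕ} (p : ℝ) (g : (Fin d → ℤ) → ℝ≥0∞) : ℝ≥0∞ :=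
  ⨆ (t : ℝ) (_ : 0 < t), ENNReal.ofReal t * distr g t ^ (1 / p)

/-- The `ℓ^{p,1}` quantity `p ∫_0^∞ λ_g(t)^{1/p} dt`. -/
noncomputable def lorentzNorm {d : ℕ} (p : ℝ) (g : (Fin d → ℤ) → ℝ≥0∞) : ℝ≥0∞ :=
  ENNReal.ofReal p * ∫⁻ t in Set.Ioi (0 : ℝ), distr g t ^ (1 / p)

end Pool.Agent.helper132_sph
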