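import Pool.Agent.helper132_sph.Cross

/-! Sup distance, density and scale indices. -/

namespace Pool.Agent.helper132_sph

open Finset

/-- sup distance on `ℤ^d`. -/
def nd {d : ℕ} (x y : Fin d → ℤ) : ℕ := Finset.univ.sup (fun j => (x j - y j).natAbs)

lemma natAbs_le_nd {d : ℕ} (x y : Fin d → ℤ) (j : Fin d) : (x j - y j).natAbs ≤ nd x y :=
  Finset.le_sup (f := fun j => (x j - y j).natAbs) (Finset.mem_univ j)

lemma nd_lt_iff {d : ℕ} (x y : Fin d → ℤ) (M : ℕ) (hM : 0 < M) :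
    nd x y < M ↔ ∀ j, |x j - y j| < M := by
  unfold nd
  rw [Finset.sup_lt_iff (by simpa using hM)]
  constructor
  · intro h j
    have := h j (Finset.mem_univ j)
    rw [Int.abs_eq_natAbs]
    exact_mod_cast this
  · intro h j _
    have := h j
    rw [Int.abs_eq_natAbs] at this
    exact_mod_cast this

lemma nd_le_iff {d : ℕ} (x y : Fin d → ℤ) (M : ℕ) : nd x y ≤ M ↔ ∀ j, |x j - y j| ≤ M := by
  unfold nd
  rw [Finset.sup_le_iff]
  constructor
  · intro h j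
    have := h j (Finset.mem_univ j)
    rw [Int.abs_eq_natAbs]
    exact_mod_cast this
  · intro h j _
    have := h j
    rw [Int.abs_eq_natAbs] at this
    exact_mod_cast this

lemma nd_comm {d : ℕ} (x y : Fin d → ℤ) : nd x y = nd y x := by
  unfold nd
  congr 1
  funext j
  rw [← Int.natAbs_neg]
  congr 1
  ring

lemma nd_triangle {d : ℕ} (x y z : Fin d → ℤ) : nd x z ≤ nd x y + nd y z := by
  rw [nd_le_iff]
  intro j
  have h1 := natAbs_le_nd x y j
  have h2 := natAbs_le_nd y z j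
  have h3 : |x j - z j| ≤ |x j - y j| + |y j - z j| := by
    have := abs_add_le (x j - y j) (y j - z j)
    rwa [sub_add_sub_cancel] at this
  have h1' : |x j - y j| ≤ (nd x y : ℤ) := by
    rw [Int.abs_eq_natAbs]; exact_mod_cast h1
  have h2' : |y j - z j| ≤ (nd y z : ℤ) := by
    rw [Int.abs_eq_natAbs]; exact_mod_cast h2
  push_cast
  linarith

/-- density hypothesis. -/
def Dens {d : ℕ} (E F : Finset (Fin d → ℤ)) (ρ : ℝ) : Prop :=
  ∀ x ∈ F, ∀ j : ℕ, (((E.filter (fun e => nd x e < 2 ^ j)).card : ℕ) : ℝ) ≤ ρ * ((2 : ℝ) ^ j) ^ d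

lemma Dens.mono {d : ℕ} {E F F' : Finset (Fin d → ℤ)} {ρ : ℝ} (h : Dens E F ρ) (hF : F' ⊆ F) :
    Dens E F' ρ := fun x hx => h x (hF hx)

/-- distance to `F`. -/
noncomputable def dF {d : ℕ} (F : Finset (Fin d → ℤ)) (e : Fin d → ℤ) : ℕ :=
  sInf {n | ∃ x ∈ F, nd x e = n}

lemma dF_mem {d : ℕ} {F : Finset (Fin d → ℤ)} (hF : F.Nonempty) (e : Fin d → ℤ) :
    ∃ x ∈ F, nd x e = dF F e := by
  obtain ⟨x, hx⟩ := hF
  exact Nat.sInf_mem (s := {n | ∃ x ∈ F, nd x e = n}) ⟨nd x e, x, hx, rfl⟩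

lemma dF_le {d : ℕ} {F : Finset (Fin d → ℤ)} {x : Fin d → ℤ} (hx : x ∈ F) (e : Fin d → ℤ) :
    dF F e ≤ nd x e := Nat.sInf_le ⟨x, hx, rfl⟩

lemma dens_near {d : ℕ} {E F : Finset (Fin d → ℤ)} {ρ : ℝ} (hD : Dens E F ρ) (hF : F.Nonempty)
    (e : Fin d → ℤ) (s : ℕ) (h : dF F e < 2 ^ s) :
    (((E.filter (fun e' => nd e e' < 2 ^ s)).card : ℕ) : ℝ) ≤ ρ * ((2 : ℝ) ^ (s + 1)) ^ d := by
  obtain ⟨x, hx, hxe⟩ := dF_mem hF e
  refine le_trans ?_ (hD x hx (s + 1))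
  have : (E.filter (fun e' => nd e e' < 2 ^ s)).card ≤
      (E.filter (fun e' => nd x e' < 2 ^ (s + 1))).card := by
    refine Finset.card_le_card ?_
    intro e' he'
    rw [Finset.mem_filter] at he' ⊢
    refine ⟨he'.1, ?_⟩
    have h1 := nd_triangle x e e'
    have h2 : (2 : ℕ) ^ (s + 1) = 2 ^ s + 2 ^ s := by rw [pow_succ]; ring
    omega
  exact_mod_cast this

/-- the level of a point relative to `F`. -/
noncomputable def idx {d : ℕ} (j0 : ℕ) (F : Finset (Fin d → ℤ)) (e : Fin d → ℤ) : ℕ :=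
  max j0 (Nat.log 2 (dF F e / 4))

lemma idx_ge {d : ℕ} (j0 : ℕ) (F : Finset (Fin d → ℤ)) (e : Fin d → ℤ) : j0 ≤ idx j0 F e :=
  le_max_left _ _

lemma idx_upper {d : ℕ} (j0 : ℕ) (F : Finset (Fin d → ℤ)) (e : Fin d → ℤ) :
    dF F e < 2 ^ (idx j0 F e + 3) := by
  have h1 : Nat.log 2 (dF F e / 4) ≤ idx j0 F e := le_max_right _ _
  have h2 : dF F e / 4 < 2 ^ (Nat.log 2 (dF F e / 4) + 1) := Nat.lt_pow_succ_log_self (by norm_num) _
  have h3 : (2 : ℕ) ^ (Nat.log 2 (dF F e / 4) + 1) ≤ 2 ^ (idx j0 F e + 1) :=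
    Nat.pow_le_pow_right (by norm_num) (by omega)
  have h4 : (2 : ℕ) ^ (idx j0 F e + 3) = 2 ^ (idx j0 F e + 1) * 4 := by
    rw [show idx j0 F e + 3 = (idx j0 F e + 1) + 2 by ring, pow_add]; norm_num
  rw [h4]
  omega

lemma idx_lower {d : ℕ} (j0 : ℕ) (F : Finset (Fin d → ℤ)) (e : Fin d → ℤ) (h : j0 < idx j0 F e) :
    4 * 2 ^ (idx j0 F e) ≤ dF F e := by
  have h1 : idx j0 F e = Nat.log 2 (dF F e / 4) := by
    unfold idx at h ⊢
    rcases le_total j0 (Nat.log 2 (dF F e / 4)) with h2 | h2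
    · exact max_eq_right h2
    · rw [max_eq_left h2] at h
      exact absurd h (lt_irrefl _)
  rw [h1] at h ⊢
  have h2 : dF F e / 4 ≠ 0 := by
    intro h0
    rw [h0, Nat.log_zero_right] at h
    omega
  have h3 : 2 ^ Nat.log 2 (dF F e / 4) ≤ dF F e / 4 := Nat.pow_log_le_self 2 h2
  omega

/-- visible points at scale `J` have level at most `J - 2`. -/
lemma idx_visible {d : ℕ} (j0 : ℕ) (F : Finset (Fin d → ℤ)) (x e : Fin d → ℤ) (hx : x ∈ F) (J : ℕ)
    (hJ : j0 + 2 ≤ J) (h : nd x e < 2 ^ J) : idx j0 F e + 2 ≤ J := by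
  rcases (idx_ge j0 F e).eq_or_lt with h1 | h1
  · omega
  · have h2 := idx_lower j0 F e h1
    have h3 := dF_le hx e
    have h4 : (2 : ℕ) ^ (idx j0 F e + 2) < 2 ^ J := by
      rw [pow_add]
      have : (2 : ℕ) ^ 2 = 4 := by norm_num
      rw [this]
      omega
    have := (Nat.pow_lt_pow_iff_right (by norm_num : 1 < 2)).1 h4
    omega

/-- points of level `≥ J - 1` are far from `x`. -/
lemma idx_far {d : ℕ} (j0 : ℕ) (F : Finset (Fin d → ℤ)) (x e : Fin d → ℤ) (hx : x ∈ F) (J : ℕ)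
    (hJ : j0 + 2 ≤ J) (h : J < idx j0 F e + 2) : 2 ^ J + 2 ^ (idx j0 F e) ≤ nd x e := by
  have h1 : j0 < idx j0 F e := by omega
  have h2 := idx_lower j0 F e h1
  have h3 := dF_le hx e
  have h4 : (2 : ℕ) ^ J ≤ 2 ^ (idx j0 F e + 1) := Nat.pow_le_pow_right (by norm_num) (by omega)
  rw [pow_succ] at h4
  omega

/-- density inside a level set. -/
lemma dens_level {d : ℕ} {E F : Finset (Fin d → ℤ)} {ρ : ℝ} (hD : Dens E F ρ) (hF : F.Nonempty)
    (j0 : ℕ) (e : Fin d → ℤ) (J : ℕ) (hJ : idx j0 F e ≤ J) :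
    (((E.filter (fun e' => nd e e' < 2 ^ J)).card : ℕ) : ℝ) ≤ ρ * ((2 : ℝ) ^ (J + 4)) ^ d := by
  have h1 := idx_upper j0 F e
  have h2 : (2 : ℕ) ^ (idx j0 F e + 3) ≤ 2 ^ (J + 3) := Nat.pow_le_pow_right (by norm_num) (by omega)
  refine le_trans ?_ (dens_near hD hF e (J + 3) (by omega))
  have : (E.filter (fun e' => nd e e' < 2 ^ J)).card ≤
      (E.filter (fun e' => nd e e' < 2 ^ (J + 3))).card := by
    refine Finset.card_le_card ?_
    intro e' he'
    rw [Finset.mem_filter] at he' ⊢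
    refine ⟨he'.1, ?_⟩
    have h4 : (2 : ℕ) ^ J ≤ 2 ^ (J + 3) := Nat.pow_le_pow_right (by norm_num) (by omega)
    omega
  exact_mod_cast this

/-- exponential sum over the translates of `E`. -/
noncomputable def Ts {d : ℕ} (k X : ℕ) (α : ℝ) (E : Finset (Fin d → ℤ)) (x : Fin d → ℤ) : ℂ :=
  ∑ e ∈ E, ∏ j, kap k X α (x j - e j)

lemma prod_kap_ne {d : ℕ} (k X : ℕ) (hX : 1 ≤ X) (α : ℝ) (x e : Fin d → ℤ)
    (h : ∏ j, kap k X α (x j - e j) ≠ 0) : nd x e < X := by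
  rw [nd_lt_iff _ _ _ hX]
  intro j
  have h1 := Finset.prod_ne_zero_iff.1 h j (Finset.mem_univ j)
  have h2 := kap_supp k X α _ h1
  rw [abs_lt]
  have : (0 : ℤ) < X := by exact_mod_cast hX
  constructor <;> linarith [h2.1, h2.2]

lemma Ts_filter {d : ℕ} (k X : ℕ) (hX : 1 ≤ X) (α : ℝ) (E : Finset (Fin d → ℤ)) (x : Fin d → ℤ)
    (P : (Fin d → ℤ) → Prop) [DecidablePred P] (h : ∀ e ∈ E, nd x e < X → P e) :
    Ts k X α E x = Ts k X α (E.filter P) x := by
  unfold Ts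
  rw [Finset.sum_filter]
  refine Finset.sum_congr rfl fun e he => ?_
  split_ifs with hP
  · rfl
  · by_contra hne
    exact hP (h e he (prod_kap_ne k X hX α x e hne))

/-- Cauchy-Schwarz and the restricted second moment. -/
lemma l1_bound {d : ℕ} (k m X r : ℕ) (hX : 1 ≤ X) (α : ℝ)
    (E B : Finset (Fin d → ℤ)) (σ : ℝ) (hσ : 0 ≤ σ)
    (hB : ∀ e ∈ E, (((E.filter (fun e' => nd e e' < X)).card : ℕ) : ℝ) ≤ σ * (X : ℝ) ^ d)
    (hr1 : 1 ≤ r) (hr : r < d) (hm : m * r ≤ d) :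
    ∑ x ∈ B, ‖Ts k X α E x‖ / (X : ℝ) ^ d ≤
      √(B.card) * √(E.card * σ ^ (1 - (r : ℝ) / d) * Dl k m X α ^ r) := by
  have hXR : (0 : ℝ) < X := by exact_mod_cast hX
  have h1 := Real.sum_mul_le_sqrt_mul_sqrt B (fun _ => (1 : ℝ)) (fun x => ‖Ts k X α E x‖ / (X : ℝ) ^ d)
  simp only [one_mul, one_pow, Finset.sum_const, nsmul_eq_mul, mul_one] at h1
  refine h1.trans (mul_le_mul_of_nonneg_left (Real.sqrt_le_sqrt ?_) (Real.sqrt_nonneg _))
  have h2 := restricted_second_moment k m X r hX α E B σ hσ (by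
    intro e he
    have := hB e he
    simp only [nd_lt_iff _ _ _ hX] at this
    exact this) hr1 hr hm
  refine le_trans (le_of_eq ?_) h2
  rw [Finset.sum_div]
  refine Finset.sum_congr rfl fun x _ => ?_
  unfold Ts
  rw [div_pow, ← pow_mul, mul_comm d 2]

/-- single scale bound. -/
lemma single_scale {d : ℕ} (k m r J : ℕ) (α : ℝ) (E F F' : Finset (Fin d → ℤ)) (ρ : ℝ) (hρ : 0 ≤ ρ)
    (hD : Dens E F ρ) (hF : F' ⊆ F) (hr1 : 1 ≤ r) (hr : r < d) (hm : m * r ≤ d) :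
    ∑ x ∈ F', ‖Ts k (2 ^ J) α E x‖ / (((2 ^ J : ℕ) : ℝ)) ^ d ≤
      √(F'.card) * √(E.card * ((2 : ℝ) ^ d * ρ) ^ (1 - (r : ℝ) / d) * Dl k m (2 ^ J) α ^ r) := by
  classical
  rcases F'.eq_empty_or_nonempty with h0 | hne
  · rw [h0]; simp
  have hFne : F.Nonempty := hne.mono hF
  have hX : 1 ≤ 2 ^ J := Nat.one_le_two_pow
  have h1 : ∀ x ∈ F', ‖Ts k (2 ^ J) α E x‖ / (((2 ^ J : ℕ) : ℝ)) ^ d =
      ‖Ts k (2 ^ J) α (E.filter (fun e => dF F e < 2 ^ J)) x‖ / (((2 ^ J : ℕ) : ℝ)) ^ d := by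
    intro x hx
    rw [Ts_filter k (2 ^ J) hX α E x (fun e => dF F e < 2 ^ J)]
    intro e _ he
    exact lt_of_le_of_lt (dF_le (hF hx) e) he
  rw [Finset.sum_congr rfl h1]
  refine (l1_bound k m (2 ^ J) r hX α _ F' ((2 : ℝ) ^ d * ρ) (by positivity) ?_ hr1 hr hm).trans ?_
  · intro e he
    rw [Finset.mem_filter] at he
    have h2 := dens_near hD hFne e J he.2
    have h3 : ((((E.filter (fun e => dF F e < 2 ^ J)).filter (fun e' => nd e e' < 2 ^ J)).card : ℕ) : ℝ) ≤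
        (((E.filter (fun e' => nd e e' < 2 ^ J)).card : ℕ) : ℝ) := by
      have : ((E.filter (fun e => dF F e < 2 ^ J)).filter (fun e' => nd e e' < 2 ^ J)).card ≤
          (E.filter (fun e' => nd e e' < 2 ^ J)).card := by
        refine Finset.card_le_card (Finset.filter_subset_filter _ (Finset.filter_subset _ _))
      exact_mod_cast this
    refine h3.trans (h2.trans (le_of_eq ?_))
    push_cast
    rw [pow_succ, mul_pow]
    ring
  · refine mul_le_mul_of_nonneg_left (Real.sqrt_le_sqrt ?_) (Real.sqrt_nonneg _)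
    have h3 : (((E.filter (fun e => dF F e < 2 ^ J)).card : ℕ) : ℝ) ≤ E.card := by
      exact_mod_cast Finset.card_filter_le _ _
    have h4 : 0 ≤ ((2 : ℝ) ^ d * ρ) ^ (1 - (r : ℝ) / d) := Real.rpow_nonneg (by positivity) _
    have h5 := Dl_nonneg k m (2 ^ J) α
    gcongr

/-- grouped Cauchy-Schwarz. -/
lemma group_cs {d : ℕ} (E F : Finset (Fin d → ℤ)) (J g : (Fin d → ℤ) → ℕ) :
    ∑ n ∈ F.image J, √((F.filter (fun x => J x = n)).card) * √((E.filter (fun e => g e = n)).card) ≤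
      √(F.card * E.card) := by
  classical
  refine (Real.sum_mul_le_sqrt_mul_sqrt _ _ _).trans ?_
  rw [← Real.sqrt_mul (Finset.sum_nonneg fun _ _ => by positivity)]
  refine Real.sqrt_le_sqrt ?_
  simp only [Real.sq_sqrt (Nat.cast_nonneg _)]
  refine mul_le_mul ?_ ?_ (Finset.sum_nonneg fun _ _ => Nat.cast_nonneg _) (Nat.cast_nonneg _)
  · have := Finset.card_eq_sum_card_image J F
    have h2 : (F.card : ℝ) = ∑ n ∈ F.image J, (((F.filter (fun x => J x = n)).card : ℕ) : ℝ) := by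
      exact_mod_cast this
    exact h2.symm.le
  · have h1 : (((E.filter (fun e => g e ∈ F.image J)).card : ℕ) : ℝ) =
        ∑ n ∈ F.image J, ((((E.filter (fun e => g e ∈ F.image J)).filter (fun e => g e = n)).card : ℕ) : ℝ) := by
      have := Finset.card_eq_sum_card_fiberwise (f := g) (s := E.filter (fun e => g e ∈ F.image J))
        (t := F.image J) (by
          intro e he
          rw [Finset.mem_coe, Finset.mem_filter] at he
          exact he.2)
      exact_mod_cast this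
    have h2 : ∀ n ∈ F.image J, ((((E.filter (fun e => g e ∈ F.image J)).filter (fun e => g e = n)).card : ℕ) : ℝ) =
        (((E.filter (fun e => g e = n)).card : ℕ) : ℝ) := by
      intro n hn
      congr 2
      ext e
      simp only [Finset.mem_filter]
      constructor
      · rintro ⟨⟨a, _⟩, c⟩; exact ⟨a, c⟩
      · rintro ⟨a, c⟩; exact ⟨⟨a, by rw [c]; exact hn⟩, c⟩
    rw [← Finset.sum_congr rfl h2, ← h1]
    exact_mod_cast Finset.card_filter_le _ _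

lemma sum_group {d : ℕ} (F : Finset (Fin d → ℤ)) (J : (Fin d → ℤ) → ℕ) (f : (Fin d → ℤ) → ℝ) :
    ∑ x ∈ F, f x = ∑ n ∈ F.image J, ∑ x ∈ F.filter (fun x => J x = n), f x := by
  classical
  rw [Finset.sum_fiberwise_of_maps_to]
  intro x hx
  exact Finset.mem_image_of_mem J hx

end Pool.Agent.helper132_sph
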