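import Pool.Agent.helper132_sph.LB1
import Pool.Agent.helper132_sph.MP

/-! Decay away from the integers, and an interval where the number of representations is large. -/

namespace Pool.Agent.helper132_sph

open Finset

lemma block_bound (g : ℕ → ℂ) (hg : ∀ y, ‖g y‖ ≤ 1) (q : ℕ) (hq : 2 ≤ q) (ζ : ℝ) (L : ℕ)
    (hp : ∀ l < L, ‖g (q * l) + g (q * l + 1)‖ ≤ 2 - ζ) :
    ‖∑ y ∈ range (q * L), g y‖ ≤ L * (q - ζ) := by
  induction L with
  | zero => simp
  | succ L ih =>
    rw [Nat.mul_succ, Finset.sum_range_add]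
    have h1 := ih (fun l hl => hp l (by omega))
    have h2 : ‖∑ x ∈ range q, g (q * L + x)‖ ≤ q - ζ := by
      obtain ⟨q', rfl⟩ : ∃ q', q = 2 + q' := ⟨q - 2, by omega⟩
      rw [Finset.sum_range_add]
      have e : ∑ x ∈ range 2, g ((2 + q') * L + x) = g ((2 + q') * L) + g ((2 + q') * L + 1) := by
        rw [Finset.sum_range_succ, Finset.sum_range_one, add_zero]
      rw [e]
      have h3 := hp L (by omega)
      have h4 : ‖∑ x ∈ range q', g ((2 + q') * L + (2 + x))‖ ≤ q' := by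
        refine (norm_sum_le _ _).trans ?_
        calc ∑ x ∈ range q', ‖g ((2 + q') * L + (2 + x))‖ ≤ ∑ x ∈ range q', (1 : ℝ) :=
              Finset.sum_le_sum fun x _ => hg _
          _ = q' := by simp
      refine (norm_add_le _ _).trans ?_
      push_cast
      linarith
    refine (norm_add_le _ _).trans ?_
    push_cast
    linarith

lemma fS_eq_range (k X : ℕ) (α : ℝ) : fS k X α = ∑ y ∈ range X, ec (α * (y : ℝ) ^ k) := by
  unfold fS
  rw [sum_Ico_int]
  have : ((X : ℤ) - 0).toNat = X := by omega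
  rw [this]
  refine Finset.sum_congr rfl fun y _ => ?_
  simp

lemma fdecay (k : ℕ) (hk : 2 ≤ k) : ∃ θ κ0 : ℝ, ∃ X1 : ℕ, 0 < θ ∧ θ < 1 ∧ 1 ≤ κ0 ∧ 1 ≤ X1 ∧
    ∀ X, X1 ≤ X → ∀ α : ℝ, ‖fS k X α‖ ≤ θ * X ∨ ∃ b : ℤ, |α - b| * (X : ℝ) ^ k ≤ κ0 := by
  obtain ⟨A, C, hA, hC, hW⟩ := weyl_inverse k (by omega)
  have hpi := Real.pi_pos
  have hkR : (0 : ℝ) < k := by exact_mod_cast (by omega : 0 < k)
  obtain ⟨Q, hQ⟩ : ∃ Q : ℝ, Q = C * 2 ^ A := ⟨_, rfl⟩
  have h2A : (2 : ℝ) ≤ 2 ^ A := le_self_pow₀ (by norm_num) (by omega)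
  have hQ2 : 2 ≤ Q := by
    rw [hQ]
    calc (2 : ℝ) = 1 * 2 := by ring
      _ ≤ C * 2 ^ A := mul_le_mul hC h2A (by norm_num) (by linarith)
  have hQ0 : 0 < Q := by linarith
  obtain ⟨η, hη⟩ : ∃ η : ℝ, η = 4 / Q ^ 2 := ⟨_, rfl⟩
  have hη0 : 0 < η := by rw [hη]; positivity
  have hη1 : η ≤ 1 := by
    rw [hη, div_le_one (by positivity)]
    calc (4 : ℝ) = 2 ^ 2 := by norm_num
      _ ≤ Q ^ 2 := pow_le_pow_left₀ (by norm_num) hQ2 2
  have hηQ : η / (4 * Q) ≤ 1 / 8 := by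
    rw [div_le_iff₀ (by positivity)]; linarith
  have hηQ0 : 0 < η / (4 * Q) := by positivity
  obtain ⟨X1, hX1⟩ := exists_nat_ge (max (max 1 (2 * Q)) (4 * Real.pi * Q * k / η))
  have b1 : (1 : ℝ) ≤ X1 := (le_max_left _ _).trans ((le_max_left _ _).trans hX1)
  have b2 : 2 * Q ≤ X1 := (le_max_right _ _).trans ((le_max_left _ _).trans hX1)
  have b3 : 4 * Real.pi * Q * k / η ≤ X1 := (le_max_right _ _).trans hX1
  refine ⟨1 - η / (4 * Q), Q, X1, by linarith, by linarith, by linarith, by exact_mod_cast b1, ?_⟩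
  intro X hX α
  have hXR : (X1 : ℝ) ≤ X := by exact_mod_cast hX
  have hX1' : (1 : ℝ) ≤ X := by linarith
  have hX0 : (0 : ℝ) < X := by linarith
  have hX2Q : 2 * Q ≤ X := by linarith
  have hX3 : 4 * Real.pi * Q * k / η ≤ X := by linarith
  have hXn : 1 ≤ X := by exact_mod_cast hX1'
  by_cases hcase : ‖fS k X α‖ ≤ (1 - η / (4 * Q)) * X
  · left; exact hcase
  push Not at hcase
  right
  obtain ⟨q, c, hq, h1, h2⟩ := hW X hXn α (fun n : ℤ => α * (n : ℝ) ^ k) (Ph_pow k α) 0 X (by simp)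
  obtain ⟨u, hu⟩ : ∃ u : ℝ, u = ‖fS k X α‖ / X := ⟨_, rfl⟩
  have hu' : ‖∑ n ∈ Ico (0 : ℤ) X, ec ((fun n : ℤ => α * (n : ℝ) ^ k) n)‖ / X = u := by
    rw [hu]; rfl
  rw [hu'] at h1 h2
  have hu2 : 1 / 2 ≤ u := by
    rw [hu, le_div_iff₀ hX0]
    have : 1 / 2 * (X : ℝ) ≤ (1 - η / (4 * Q)) * X := mul_le_mul_of_nonneg_right (by linarith) hX0.le
    linarith
  have huA : (1 / 2 : ℝ) ^ A ≤ u ^ A := pow_le_pow_left₀ (by norm_num) hu2 A
  have hhalf : (1 / 2 : ℝ) ^ A * 2 ^ A = 1 := by rw [← mul_pow]; norm_num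
  have hconv : ∀ z : ℝ, 0 ≤ z → z * u ^ A ≤ C → z ≤ Q := by
    intro z hz hzC
    have h3 : z * (1 / 2 : ℝ) ^ A ≤ C := (mul_le_mul_of_nonneg_left huA hz).trans hzC
    have h4 : z * (1 / 2 : ℝ) ^ A * 2 ^ A ≤ C * 2 ^ A := mul_le_mul_of_nonneg_right h3 (by positivity)
    rw [mul_assoc, hhalf, mul_one, ← hQ] at h4
    exact h4
  have hqQ : (q : ℝ) ≤ Q := hconv q (Nat.cast_nonneg _) h1
  have hqR : (1 : ℝ) ≤ q := by exact_mod_cast hq
  have hq0 : (0 : ℝ) < q := by linarith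
  have hβQ : |(q : ℝ) * α - c| * (X : ℝ) ^ k ≤ Q := by
    refine hconv _ (by positivity) ?_
    calc |(q : ℝ) * α - c| * (X : ℝ) ^ k * u ^ A = |(q : ℝ) * α - c| * u ^ A * (X : ℝ) ^ k := by ring
      _ ≤ C := h2
  by_cases hdvd : (q : ℤ) ∣ c
  · obtain ⟨b, rfl⟩ := hdvd
    refine ⟨b, le_trans ?_ hβQ⟩
    refine mul_le_mul_of_nonneg_right ?_ (by positivity)
    have : (q : ℝ) * α - (((q : ℤ) * b : ℤ) : ℝ) = q * (α - b) := by push_cast; ring
    rw [this, abs_mul, abs_of_pos hq0]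
    exact le_mul_of_one_le_left (abs_nonneg _) hqR
  · exfalso
    have hq2 : 2 ≤ q := by
      by_contra hlt
      have : q = 1 := by omega
      rw [this] at hdvd
      exact hdvd (by simp)
    obtain ⟨β, hβ⟩ : ∃ β : ℝ, β = α - c / q := ⟨_, rfl⟩
    have hαβ : α = (c : ℝ) / q + β := by rw [hβ]; ring
    have hβ1 : |β| * (X : ℝ) ^ k ≤ Q := by
      have h3 : |(q : ℝ) * α - c| = q * |β| := by
        rw [hβ, ← abs_of_pos hq0, ← abs_mul, abs_of_pos hq0]
        congr 1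
        field_simp
      rw [h3] at hβQ
      refine le_trans ?_ hβQ
      rw [mul_assoc]
      exact le_mul_of_one_le_left (by positivity) hqR
    obtain ⟨L, hL⟩ : ∃ L : ℕ, L = X / q := ⟨_, rfl⟩
    have hqL : q * L ≤ X := by rw [hL]; exact Nat.mul_div_le _ _
    have hpair : ∀ l < L, ‖ec (α * (((q * l : ℕ) : ℝ)) ^ k) + ec (α * (((q * l + 1 : ℕ) : ℝ)) ^ k)‖ ≤
        2 - η / 2 := by
      intro l hl
      have h3 := ec_pair k q hq (by omega) c β l
      rw [← hαβ] at h3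
      push_cast
      refine h3.trans ?_
      have h4 := one_add_ec_le Q hQ2 q c hq hqQ hdvd
      rw [← hη] at h4
      have h5 : ((q : ℝ) * l + 1) ^ k - ((q : ℝ) * l) ^ k ≤ k * (X : ℝ) ^ (k - 1) := by
        have h6 := pow_sub_pow_le k ((q : ℝ) * l + 1) ((q : ℝ) * l) (by positivity) (by linarith)
        refine h6.trans ?_
        have h7 : (q : ℝ) * l + 1 ≤ X := by
          have h8 : q * l + 1 ≤ X := by
            have : q * (l + 1) ≤ q * L := Nat.mul_le_mul_left _ hl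
            rw [Nat.mul_add, Nat.mul_one] at this
            omega
          exact_mod_cast h8
        have h9 : (q : ℝ) * l + 1 - q * l = 1 := by ring
        rw [h9, mul_one]
        refine mul_le_mul_of_nonneg_left ?_ hkR.le
        exact pow_le_pow_left₀ (by positivity) h7 _
      have h10 : 2 * Real.pi * (|β| * (((q : ℝ) * l + 1) ^ k - ((q : ℝ) * l) ^ k)) ≤ η / 2 := by
        have h11 : |β| * (((q : ℝ) * l + 1) ^ k - ((q : ℝ) * l) ^ k) ≤ k * Q / X := by
          calc |β| * (((q : ℝ) * l + 1) ^ k - ((q : ℝ) * l) ^ k) ≤ |β| * (k * (X : ℝ) ^ (k - 1)) :=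
                mul_le_mul_of_nonneg_left h5 (abs_nonneg _)
            _ = k * (|β| * (X : ℝ) ^ k) / X := by
                obtain ⟨k', rfl⟩ : ∃ k', k = k' + 1 := ⟨k - 1, by omega⟩
                rw [Nat.add_sub_cancel, pow_succ]
                field_simp
            _ ≤ k * Q / X := by gcongr
        have h12 : 2 * Real.pi * (k * Q / X) ≤ η / 2 := by
          rw [div_le_iff₀ hη0] at hX3
          have h13 : 2 * Real.pi * (k * Q / X) = (4 * Real.pi * Q * k) / (2 * X) := by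
            field_simp; ring
          rw [h13, div_le_iff₀ (by positivity)]
          linarith
        exact (mul_le_mul_of_nonneg_left h11 (by positivity)).trans h12
      linarith
    have hblock := block_bound (fun y : ℕ => ec (α * (y : ℝ) ^ k)) (fun y => (norm_ec _).le) q hq2 (η / 2) L hpair
    have hsplit : fS k X α = ∑ y ∈ range (q * L), ec (α * (y : ℝ) ^ k) +
        ∑ y ∈ Ico (q * L) X, ec (α * (y : ℝ) ^ k) := by
      rw [fS_eq_range, Finset.range_eq_Ico, Finset.range_eq_Ico,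
        Finset.sum_Ico_consecutive _ (Nat.zero_le _) hqL]
    have hrest : ‖∑ y ∈ Ico (q * L) X, ec (α * (y : ℝ) ^ k)‖ ≤ X - q * L := by
      refine (norm_sum_le _ _).trans ?_
      simp only [norm_ec, Finset.sum_const, Nat.card_Ico, nsmul_eq_mul, mul_one]
      rw [Nat.cast_sub hqL]
      push_cast
      exact le_rfl
    have hLlow : (X : ℝ) / Q - 1 ≤ L := by
      have h3 : (X : ℝ) / q - 1 < L := by
        have h4 := Nat.lt_mul_div_succ X (by omega : 0 < q)
        rw [← hL] at h4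
        have h5 : (X : ℝ) < q * (L + 1) := by exact_mod_cast h4
        have h6 : (X : ℝ) / q < L + 1 := by
          rw [div_lt_iff₀ hq0]; linarith
        linarith
      have h7 : (X : ℝ) / Q ≤ X / q := div_le_div_of_nonneg_left hX0.le hq0 hqQ
      linarith
    have hfin : ‖fS k X α‖ ≤ X - L * (η / 2) := by
      rw [hsplit]
      refine (norm_add_le _ _).trans ?_
      calc _ ≤ (L : ℝ) * (q - η / 2) + (X - q * L) := add_le_add hblock hrest
        _ = _ := by ring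
    have h8 : ((X : ℝ) / Q - 1) * (η / 2) ≤ L * (η / 2) := mul_le_mul_of_nonneg_right hLlow (by positivity)
    have h9 : η / (4 * Q) * X ≤ ((X : ℝ) / Q - 1) * (η / 2) := by
      have h10 : 1 ≤ X / (2 * Q) := by rw [le_div_iff₀ (by positivity)]; linarith
      have e1 : η / (4 * Q) * X = (X / (2 * Q)) * (η / 2) := by field_simp; ring
      have e2 : ((X : ℝ) / Q - 1) = 2 * (X / (2 * Q)) - 1 := by field_simp
      rw [e1, e2]
      refine mul_le_mul_of_nonneg_right ?_ (by positivity)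
      linarith
    have h11 : (1 - η / (4 * Q)) * X = X - η / (4 * Q) * X := by ring
    rw [h11] at hcase
    linarith

end Pool.Agent.helper132_sph
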