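import Pool.Agent.helper132_sph.LB2

/-! An interval where the number of representations is large. -/

namespace Pool.Agent.helper132_sph

open Finset

/-- number of `y ∈ [0,X)^s` with `Σ y^k = n`. -/
def cS (k X s n : ℕ) : ℕ :=
  ((Fintype.piFinset (fun _ : Fin s => range X)).filter (fun y => ∑ j, (y j) ^ k = n)).card

lemma geom_ec_zero (P : ℕ) (hP : 1 ≤ P) (w : ℤ) (hw : w ≠ 0) (hwP : |w| < P) :
    ∑ a ∈ range P, ec ((a : ℝ) / P * w) = 0 := by
  have hPR : (0 : ℝ) < P := by exact_mod_cast hP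
  have h1 : ∀ a : ℕ, ec ((a : ℝ) / P * w) = ec ((w : ℝ) / P) ^ a := by
    intro a
    rw [← ec_nat_mul]
    congr 1
    ring
  simp only [h1]
  obtain ⟨z, hz⟩ : ∃ z, z = ec ((w : ℝ) / P) := ⟨_, rfl⟩
  rw [← hz]
  have hzP : z ^ P = 1 := by
    rw [hz, ← ec_nat_mul]
    have : (P : ℝ) * ((w : ℝ) / P) = (w : ℤ) := by field_simp
    rw [this, ec_int]
  have hz1 : z ≠ 1 := by
    intro h
    obtain ⟨b, _, hb⟩ := exists_int_abs_sub_le ((w : ℝ) / P)
    rw [← hz, h, sub_self, norm_zero] at hb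
    have h2 : |(w : ℝ) / P - b| = 0 := le_antisymm (by linarith [abs_nonneg ((w : ℝ) / P - b)]) (abs_nonneg _)
    rw [abs_eq_zero, sub_eq_zero, div_eq_iff hPR.ne'] at h2
    have h3 : w = b * P := by exact_mod_cast h2
    rcases eq_or_ne b 0 with hb0 | hb0
    · rw [hb0, zero_mul] at h3; exact hw h3
    · have h4 := Int.one_le_abs hb0
      rw [h3, abs_mul, Nat.abs_cast] at hwP
      have : 1 * (P : ℤ) ≤ |b| * P := mul_le_mul_of_nonneg_right h4 (Nat.cast_nonneg _)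
      linarith
  have := mul_geom_sum z P
  rw [hzP, sub_self] at this
  rcases mul_eq_zero.1 this with h2 | h2
  · exact absurd (sub_eq_zero.1 h2) hz1
  · exact h2

/-- Fourier side. -/
noncomputable def Phi (k X s P : ℕ) (n : ℕ) : ℂ :=
  ∑ a ∈ range P, ec (-((a : ℝ) / P * n)) * fS k X ((a : ℝ) / P) ^ s

lemma sum_ec_prod (s : ℕ) (f : Fin s → ℝ) : ∏ j, ec (f j) = ec (∑ j, f j) := by
  have hs : ∀ (S : Finset (Fin s)), ∏ j ∈ S, ec (f j) = ec (∑ j ∈ S, f j) := by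
    intro S
    classical
    induction S using Finset.induction_on with
    | empty => simp [ec_zero]
    | insert i S hi ih => rw [Finset.prod_insert hi, Finset.sum_insert hi, ec_add, ih]
  exact hs _

lemma Phi_eq (k X s P n : ℕ) (hP : 1 ≤ P) (hn : n < P)
    (hy : ∀ y ∈ Fintype.piFinset (fun _ : Fin s => range X), ∑ j, (y j) ^ k < P) :
    Phi k X s P n = (P : ℂ) * cS k X s n := by
  classical
  unfold Phi cS
  have h1 : ∀ a ∈ range P, ec (-((a : ℝ) / P * n)) * fS k X ((a : ℝ) / P) ^ s =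
      ∑ y ∈ Fintype.piFinset (fun _ : Fin s => range X),
        ec ((a : ℝ) / P * (((∑ j, (y j) ^ k : ℕ) : ℤ) - (n : ℤ) : ℤ)) := by
    intro a _
    have h2 : fS k X ((a : ℝ) / P) ^ s = ∑ y ∈ Fintype.piFinset (fun _ : Fin s => range X),
        ∏ j, ec ((a : ℝ) / P * ((y j : ℕ) : ℝ) ^ k) := by
      have h9 := Finset.prod_univ_sum (fun _ : Fin s => range X)
        (fun _ (m : ℕ) => ec ((a : ℝ) / P * (m : ℝ) ^ k))
      rw [Finset.prod_const, Finset.card_univ, Fintype.card_fin, ← fS_eq_range] at h9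
      exact h9
    rw [h2, Finset.mul_sum]
    refine Finset.sum_congr rfl fun y _ => ?_
    rw [sum_ec_prod, ← ec_add]
    congr 1
    push_cast
    rw [← Finset.mul_sum]
    ring
  rw [Finset.sum_congr rfl h1, Finset.sum_comm]
  have h3 : ∀ y ∈ Fintype.piFinset (fun _ : Fin s => range X),
      ∑ a ∈ range P, ec ((a : ℝ) / P * (((∑ j, (y j) ^ k : ℕ) : ℤ) - (n : ℤ) : ℤ)) =
      if ∑ j, (y j) ^ k = n then (P : ℂ) else 0 := by
    intro y hyy
    have hlt := hy y hyy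
    split_ifs with h
    · exact (geom_ec P hP _).2 (by rw [h]; ring)
    · refine geom_ec_zero P hP _ ?_ ?_
      · intro h0
        apply h
        have : ((∑ j, (y j) ^ k : ℕ) : ℤ) = n := by linarith
        exact_mod_cast this
      · rw [abs_lt]
        have h4 : ((∑ j, (y j) ^ k : ℕ) : ℤ) < P := by exact_mod_cast hlt
        have h5 : (n : ℤ) < P := by exact_mod_cast hn
        have h6 : (0 : ℤ) ≤ ((∑ j, (y j) ^ k : ℕ) : ℤ) := Nat.cast_nonneg _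
        have h7 : (0 : ℤ) ≤ (n : ℤ) := Nat.cast_nonneg _
        constructor <;> linarith
  rw [Finset.sum_congr rfl h3, ← Finset.sum_filter, Finset.sum_const, nsmul_eq_mul]
  ring

lemma Phi_diff (k X s s0 P n n' : ℕ) (hX : 1 ≤ X) (hs : s0 ≤ s) (θ κ0 : ℝ) (hθ : 0 < θ)
    (hdec : ∀ α : ℝ, ‖fS k X α‖ ≤ θ * X ∨ ∃ b : ℤ, |α - b| * (X : ℝ) ^ k ≤ κ0) (hκ : 0 ≤ κ0) :
    ‖Phi k X s P n - Phi k X s P n'‖ ≤
      (X : ℝ) ^ s * (∑ a ∈ range P, (‖fS k X ((a : ℝ) / P)‖ / X) ^ s0) *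
        (2 * θ ^ (s - s0) + 2 * Real.pi * κ0 * (|(n : ℝ) - n'| / (X : ℝ) ^ k)) := by
  classical
  have hXR : (0 : ℝ) < X := by exact_mod_cast hX
  have hXk : (0 : ℝ) < (X : ℝ) ^ k := by positivity
  have hpi := Real.pi_pos
  unfold Phi
  rw [← Finset.sum_sub_distrib]
  refine (norm_sum_le _ _).trans ?_
  rw [Finset.mul_sum, Finset.sum_mul]
  refine Finset.sum_le_sum fun a _ => ?_
  obtain ⟨α, hα⟩ : ∃ α : ℝ, α = (a : ℝ) / P := ⟨_, rfl⟩
  rw [← hα]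
  obtain ⟨v, hv⟩ : ∃ v : ℝ, v = ‖fS k X α‖ := ⟨_, rfl⟩
  have hv0 : 0 ≤ v := by rw [hv]; exact norm_nonneg _
  have hvX : v ≤ X := by rw [hv]; exact norm_fS_le _ _ _
  rw [← sub_mul, norm_mul, norm_pow, ← hv]
  have hvX1 : v / X ≤ 1 := by rw [div_le_one hXR]; exact hvX
  have hE2 : ‖ec (-(α * n)) - ec (-(α * n'))‖ ≤ 2 := by
    refine (norm_sub_le _ _).trans ?_
    rw [norm_ec, norm_ec]; norm_num
  have hterm2 : 0 ≤ 2 * Real.pi * κ0 * (|(n : ℝ) - n'| / (X : ℝ) ^ k) := by positivity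
  have hterm1 : 0 ≤ 2 * θ ^ (s - s0) := by positivity
  have hvs : v ^ s = (X : ℝ) ^ s * (v / X) ^ s0 * (v / X) ^ (s - s0) := by
    have : (v / X) ^ s0 * (v / X) ^ (s - s0) = (v / X) ^ s := by
      rw [← pow_add]; congr 1; omega
    rw [mul_assoc, this, div_pow]; field_simp
  rcases hdec α with h | ⟨b, hb⟩
  · rw [← hv] at h
    have h1 : (v / X) ^ (s - s0) ≤ θ ^ (s - s0) := by
      refine pow_le_pow_left₀ (by positivity) ?_ _
      rw [div_le_iff₀ hXR]; exact h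
    calc ‖ec (-(α * n)) - ec (-(α * n'))‖ * v ^ s ≤ 2 * ((X : ℝ) ^ s * (v / X) ^ s0 * θ ^ (s - s0)) := by
          rw [hvs]; gcongr
      _ = (X : ℝ) ^ s * (v / X) ^ s0 * (2 * θ ^ (s - s0)) := by ring
      _ ≤ _ := by
          refine mul_le_mul_of_nonneg_left ?_ (by positivity)
          linarith
  · have h2 : ∀ N : ℕ, ec (-(α * N)) = ec (-((α - b) * N)) := by
      intro N
      have : -(α * (N : ℝ)) = -((α - b) * N) + ((-(b * (N : ℤ)) : ℤ) : ℝ) := by push_cast; ring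
      rw [this, ec_add_int]
    rw [h2, h2]
    have h3 : ‖ec (-((α - b) * n)) - ec (-((α - b) * n'))‖ ≤
        2 * Real.pi * κ0 * (|(n : ℝ) - n'| / (X : ℝ) ^ k) := by
      refine (norm_ec_sub_le _ _).trans ?_
      have e : -((α - b) * (n : ℝ)) - -((α - b) * (n' : ℝ)) = -((α - b) * ((n : ℝ) - n')) := by ring
      rw [e, abs_neg, abs_mul]
      have h4 : |α - b| ≤ κ0 / (X : ℝ) ^ k := by rw [le_div_iff₀ hXk]; exact hb
      calc 2 * Real.pi * (|α - b| * |(n : ℝ) - n'|) ≤ 2 * Real.pi * (κ0 / (X : ℝ) ^ k * |(n : ℝ) - n'|) := by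
            gcongr
        _ = _ := by ring
    have h5 : (v / X) ^ (s - s0) ≤ 1 := pow_le_one₀ (by positivity) hvX1
    calc ‖ec (-((α - b) * n)) - ec (-((α - b) * n'))‖ * v ^ s
        ≤ (2 * Real.pi * κ0 * (|(n : ℝ) - n'| / (X : ℝ) ^ k)) * ((X : ℝ) ^ s * (v / X) ^ s0 * 1) := by
          rw [hvs]; gcongr
      _ = (X : ℝ) ^ s * (v / X) ^ s0 * (2 * Real.pi * κ0 * (|(n : ℝ) - n'| / (X : ℝ) ^ k)) := by ring
      _ ≤ _ := by
          refine mul_le_mul_of_nonneg_left ?_ (by positivity)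
          linarith

lemma exists_s (s0 : ℕ) (K θ : ℝ) (hK : 1 ≤ K) (hθ0 : 0 < θ) (hθ1 : θ < 1) :
    ∃ s : ℕ, s0 + 1 ≤ s ∧ K * ((2 * s : ℕ) + 2) ^ 3 * (2 * θ ^ (s - s0)) ≤ 1 / 2 := by
  have h1 := tendsto_pow_const_mul_const_pow_of_abs_lt_one 3 (show |θ| < 1 by
    rw [abs_of_pos hθ0]; exact hθ1)
  obtain ⟨M, hM⟩ : ∃ M : ℝ, M = 2 * K * (2 * s0 + 4) ^ 3 := ⟨_, rfl⟩
  have hM0 : 0 < M := by rw [hM]; positivity
  have h2 := h1.eventually (gt_mem_nhds (show (0 : ℝ) < 1 / (2 * M) by positivity))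
  obtain ⟨t, ht1, ht2⟩ := (h2.and (Filter.eventually_ge_atTop 1)).exists
  have htR : (1 : ℝ) ≤ t := by exact_mod_cast ht2
  refine ⟨s0 + t, by omega, ?_⟩
  have e : s0 + t - s0 = t := by omega
  rw [e]
  have h3 : (((2 * (s0 + t) : ℕ)) : ℝ) + 2 ≤ (2 * s0 + 4) * t := by
    push_cast
    have : (s0 : ℝ) ≤ s0 * t := le_mul_of_one_le_right (Nat.cast_nonneg _) htR
    nlinarith
  calc K * ((((2 * (s0 + t) : ℕ)) : ℝ) + 2) ^ 3 * (2 * θ ^ t)
      ≤ K * ((2 * s0 + 4) * t) ^ 3 * (2 * θ ^ t) := by gcongr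
    _ = M * ((t : ℝ) ^ 3 * θ ^ t) := by rw [hM]; ring
    _ ≤ M * (1 / (2 * M)) := mul_le_mul_of_nonneg_left ht1.le hM0.le
    _ = 1 / 2 := by field_simp

/-- interval lemma. -/
lemma interval_lemma (k : ℕ) (hk : 2 ≤ k) : ∃ s X1 : ℕ, ∃ δ : ℝ, 1 ≤ s ∧ 1 ≤ X1 ∧ 0 < δ ∧ δ ≤ 1 ∧
    ∀ X, X1 ≤ X → ∃ n0 : ℕ, n0 < s * X ^ k ∧ ∀ n : ℕ, n0 ≤ n → (n : ℝ) ≤ n0 + δ * (X : ℝ) ^ k →
      (X : ℝ) ^ s ≤ 2 * s * (X : ℝ) ^ k * cS k X s n := by
  classical
  obtain ⟨θ, κ0, X1, hθ0, hθ1, hκ0, hX11, hdec⟩ := fdecay k hk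
  obtain ⟨s0, K, hs0, hK, hmv⟩ := mean_value k (by omega)
  obtain ⟨s, hs, hsb⟩ := exists_s s0 K θ hK hθ0 hθ1
  have hpi := Real.pi_pos
  obtain ⟨M, hM⟩ : ∃ M : ℝ, M = K * (((2 * s : ℕ) : ℝ) + 2) ^ 3 := ⟨_, rfl⟩
  have hM0 : 0 < M := by rw [hM]; positivity
  rw [← hM] at hsb
  have hs1 : 1 ≤ s := by omega
  have hsR : (1 : ℝ) ≤ s := by exact_mod_cast hs1
  refine ⟨s, X1, min 1 (1 / (2 * M * (2 * Real.pi * κ0))), hs1, hX11,
    lt_min one_pos (by positivity), min_le_left _ _, ?_⟩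
  intro X hX
  have hX1 : 1 ≤ X := hX11.trans hX
  have hXR : (1 : ℝ) ≤ X := by exact_mod_cast hX1
  have hX0 : (0 : ℝ) < X := by linarith
  have hXk : (0 : ℝ) < (X : ℝ) ^ k := by positivity
  have hXkn : 1 ≤ X ^ k := Nat.one_le_pow _ _ hX1
  obtain ⟨P, hP⟩ : ∃ P : ℕ, P = 2 * s * X ^ k := ⟨_, rfl⟩
  have hP1 : 1 ≤ P := by
    rw [hP]; exact Nat.mul_pos (by omega) hXkn
  have hPR : (P : ℝ) = 2 * s * (X : ℝ) ^ k := by rw [hP]; push_cast; ring
  -- range of values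
  have hval : ∀ y ∈ Fintype.piFinset (fun _ : Fin s => range X), ∑ j, (y j) ^ k < s * X ^ k := by
    intro y hy
    rw [Fintype.mem_piFinset] at hy
    calc ∑ j, (y j) ^ k < ∑ _j : Fin s, X ^ k := by
          refine Finset.sum_lt_sum_of_nonempty ?_ ?_
          · exact ⟨⟨0, by omega⟩, Finset.mem_univ _⟩
          · intro j _
            exact Nat.pow_lt_pow_left (Finset.mem_range.1 (hy j)) (by omega)
      _ = s * X ^ k := by simp
  have hval2 : ∀ y ∈ Fintype.piFinset (fun _ : Fin s => range X), ∑ j, (y j) ^ k < P := by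
    intro y hy
    have := hval y hy
    rw [hP, mul_assoc]
    omega
  -- the peak
  have hpeak : ∃ n0 ∈ range (s * X ^ k), X ^ s ≤ s * X ^ k * cS k X s n0 := by
    by_contra hcon
    push Not at hcon
    have h1 : ∑ n ∈ range (s * X ^ k), cS k X s n = X ^ s := by
      unfold cS
      rw [← Finset.card_eq_sum_card_fiberwise (f := fun y : Fin s → ℕ => ∑ j, (y j) ^ k)]
      · rw [Fintype.card_piFinset]; simp
      · intro y hy
        rw [Finset.mem_coe] at hy ⊢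
        exact Finset.mem_range.2 (hval y hy)
    have h2 : ∑ n ∈ range (s * X ^ k), (s * X ^ k * cS k X s n) < ∑ n ∈ range (s * X ^ k), X ^ s :=
      Finset.sum_lt_sum_of_nonempty ⟨0, Finset.mem_range.2 (Nat.mul_pos (by omega) hXkn)⟩ hcon
    rw [← Finset.mul_sum, h1, Finset.sum_const, Finset.card_range, smul_eq_mul] at h2
    exact absurd h2 (lt_irrefl _)
  obtain ⟨n0, hn0, hn0p⟩ := hpeak
  rw [Finset.mem_range] at hn0
  refine ⟨n0, hn0, ?_⟩
  intro n hn1 hn2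
  have hmin1 : min 1 (1 / (2 * M * (2 * Real.pi * κ0))) ≤ 1 := min_le_left _ _
  have hmin2 : min 1 (1 / (2 * M * (2 * Real.pi * κ0))) ≤ 1 / (2 * M * (2 * Real.pi * κ0)) := min_le_right _ _
  have hnP : n < P := by
    have h1 : (n : ℝ) ≤ n0 + 1 * (X : ℝ) ^ k := hn2.trans (by
      have := mul_le_mul_of_nonneg_right hmin1 hXk.le
      linarith)
    have h2 : (n : ℝ) ≤ ((n0 + X ^ k : ℕ) : ℝ) := by push_cast; linarith
    have h3 : n ≤ n0 + X ^ k := by exact_mod_cast h2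
    have h4 : X ^ k ≤ s * X ^ k := Nat.le_mul_of_pos_left _ hs1
    rw [hP, mul_assoc]
    omega
  have hn0P : n0 < P := by
    rw [hP, mul_assoc]; omega
  have e1 := Phi_eq k X s P n hP1 hnP hval2
  have e2 := Phi_eq k X s P n0 hP1 hn0P hval2
  have hmv2 := hmv (2 * s) X (by omega) hX1
  have hPc : 2 * s * X ^ k = P := hP.symm
  rw [hPc, ← hM] at hmv2
  have hd := Phi_diff k X s s0 P n n0 hX1 (by omega) θ κ0 hθ0 (hdec X hX) (by linarith)
  have hsum0 : 0 ≤ ∑ a ∈ range P, (‖fS k X ((a : ℝ) / P)‖ / X) ^ s0 :=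
    Finset.sum_nonneg fun a _ => by positivity
  have hnn : |(n : ℝ) - n0| / (X : ℝ) ^ k ≤ 1 / (2 * M * (2 * Real.pi * κ0)) := by
    rw [div_le_iff₀ hXk, abs_of_nonneg (by
      have : (n0 : ℝ) ≤ n := by exact_mod_cast hn1
      linarith)]
    have := mul_le_mul_of_nonneg_right hmin2 hXk.le
    linarith
  have hpieces : 2 * θ ^ (s - s0) + 2 * Real.pi * κ0 * (|(n : ℝ) - n0| / (X : ℝ) ^ k) ≤ 1 / M := by
    have h1 : 2 * θ ^ (s - s0) ≤ 1 / (2 * M) := by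
      rw [le_div_iff₀ (by positivity)]
      linarith
    have h2 : 2 * Real.pi * κ0 * (|(n : ℝ) - n0| / (X : ℝ) ^ k) ≤ 1 / (2 * M) := by
      calc _ ≤ 2 * Real.pi * κ0 * (1 / (2 * M * (2 * Real.pi * κ0))) :=
            mul_le_mul_of_nonneg_left hnn (by positivity)
        _ = 1 / (2 * M) := by field_simp
    have h3 : 1 / M = 1 / (2 * M) + 1 / (2 * M) := by field_simp; norm_num
    rw [h3]
    linarith
  have hd2 : ‖Phi k X s P n - Phi k X s P n0‖ ≤ (X : ℝ) ^ s := by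
    refine hd.trans ?_
    calc _ ≤ (X : ℝ) ^ s * M * (1 / M) := by
          have h0 : 0 ≤ 2 * θ ^ (s - s0) + 2 * Real.pi * κ0 * (|(n : ℝ) - n0| / (X : ℝ) ^ k) := by positivity
          gcongr
      _ = (X : ℝ) ^ s := by field_simp
  rw [e1, e2] at hd2
  have h6 : (P : ℝ) * cS k X s n0 - P * cS k X s n ≤ (X : ℝ) ^ s := by
    have h7 : ‖(P : ℂ) * cS k X s n - (P : ℂ) * cS k X s n0‖ =
        |(P : ℝ) * cS k X s n - P * cS k X s n0| := by
      rw [← Real.norm_eq_abs, ← Complex.norm_real]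
      push_cast
      rfl
    rw [h7, abs_sub_comm] at hd2
    exact (le_abs_self _).trans hd2
  have h8 : 2 * (X : ℝ) ^ s ≤ P * cS k X s n0 := by
    have h9 : ((X ^ s : ℕ) : ℝ) ≤ ((s * X ^ k * cS k X s n0 : ℕ) : ℝ) := by exact_mod_cast hn0p
    push_cast at h9
    rw [hPR]
    linarith
  rw [← hPR]
  linarith

end Pool.Agent.helper132_sph
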