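import Pool.Agent.helper132_sph.Triple

/-! Large scales for a single triple. -/

namespace Pool.Agent.helper132_sph

open Finset

lemma wt_pos (τ : ℕ × ℤ × ℤ) (hq : 1 ≤ τ.1) : 1 ≤ wt τ := by
  unfold wt
  exact Nat.mul_pos hq (by omega)

lemma sqrt_mul_le_of {a b M Z : ℝ} (hM : 1 ≤ M) (hZ : 0 ≤ Z) (ha : 0 ≤ a) (h : a * b ≤ M * Z) :
    √a * √b ≤ M * √Z := by
  rw [← Real.sqrt_mul ha]
  calc √(a * b) ≤ √(M * Z) := Real.sqrt_le_sqrt h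
    _ ≤ √(M ^ 2 * Z) := by
        refine Real.sqrt_le_sqrt (mul_le_mul_of_nonneg_right ?_ hZ)
        exact le_self_pow₀ hM (by norm_num)
    _ = M * √Z := by
        rw [Real.sqrt_mul (by positivity), Real.sqrt_sq (by linarith)]

/-- grouped sums of products of square roots. -/
lemma group_bound {d : ℕ} (E F : Finset (Fin d → ℤ)) (J g : (Fin d → ℤ) → ℕ)
    (f : (Fin d → ℤ) → ℝ) (M Z : ℝ) (hM : 1 ≤ M) (hZ : 0 ≤ Z)
    (h : ∀ n ∈ F.image J, ∑ x ∈ F.filter (fun x => J x = n), f x ≤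
      √((F.filter (fun x => J x = n)).card * (E.filter (fun e => g e = n)).card * (M * Z))) :
    ∑ x ∈ F, f x ≤ M * √((F.card : ℝ) * E.card * Z) := by
  have hM0 : 0 ≤ M := by linarith
  rw [sum_group F J]
  calc _ ≤ ∑ n ∈ F.image J, √((F.filter (fun x => J x = n)).card) *
        √((E.filter (fun e => g e = n)).card) * √(M * Z) := by
        refine Finset.sum_le_sum fun n hn => (h n hn).trans (le_of_eq ?_)
        rw [Real.sqrt_mul (by positivity), Real.sqrt_mul (by positivity)]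
    _ = (∑ n ∈ F.image J, √((F.filter (fun x => J x = n)).card) *
        √((E.filter (fun e => g e = n)).card)) * √(M * Z) := by rw [Finset.sum_mul]
    _ ≤ √(F.card * E.card) * √(M * Z) :=
        mul_le_mul_of_nonneg_right (group_cs E F J g) (Real.sqrt_nonneg _)
    _ ≤ M * √((F.card : ℝ) * E.card * Z) := by
        refine sqrt_mul_le_of hM (by positivity) (by positivity) (le_of_eq ?_)
        ring

lemma window_kap {d : ℕ} (k m : ℕ) (C : ℝ) (hC : 1 ≤ C) (τ : ℕ × ℤ × ℤ)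
    (E F : Finset (Fin d → ℤ)) (ρ : ℝ) (hρ : 0 ≤ ρ) (hD : Dens E F ρ) (J : (Fin d → ℤ) → ℕ)
    (hG : ∀ x ∈ F, GoodT k m C (2 ^ J x) τ) (j0 s : ℕ) (hk : 1 ≤ k) (hkd : 2 * k < d)
    (hmd : m * (2 * k) ≤ d) :
    ∑ x ∈ F, ‖Ts k (2 ^ J x) (frq k (2 ^ J x) τ) (E.filter (fun e => idx j0 F e + s = J x)) x‖ /
        (((2 ^ J x : ℕ) : ℝ)) ^ d ≤
      16 ^ d * C * √((F.card : ℝ) * E.card *
        (ρ ^ (1 - ((2 * k : ℕ) : ℝ) / d) / (wt τ : ℝ) ^ 5)) := by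
  classical
  rcases F.eq_empty_or_nonempty with h0 | hne
  · rw [h0]; simp
  obtain ⟨x1, hx1⟩ := hne
  have hFne : F.Nonempty := ⟨x1, hx1⟩
  have hq := (hG x1 hx1).q_pos
  have hw : (0 : ℝ) < (wt τ : ℝ) := by exact_mod_cast wt_pos τ hq
  have hR0 : 0 ≤ ρ ^ (1 - ((2 * k : ℕ) : ℝ) / d) := Real.rpow_nonneg hρ _
  have h16 : (1 : ℝ) ≤ 16 ^ d := one_le_pow₀ (by norm_num)
  refine group_bound E F J (fun e => idx j0 F e + s) _ (16 ^ d * C) _ (by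
    calc (1 : ℝ) = 1 * 1 := by ring
      _ ≤ 16 ^ d * C := mul_le_mul h16 hC zero_le_one (by positivity)) (by positivity) ?_
  intro n hn
  rw [Finset.mem_image] at hn
  obtain ⟨x0, hx0, hx0n⟩ := hn
  have hX : 1 ≤ 2 ^ n := Nat.one_le_two_pow
  have hG0 := (hG x0 hx0).dl_le
  rw [hx0n] at hG0
  have h1 : ∀ x ∈ F.filter (fun x => J x = n),
      ‖Ts k (2 ^ J x) (frq k (2 ^ J x) τ) (E.filter (fun e => idx j0 F e + s = J x)) x‖ /
        (((2 ^ J x : ℕ) : ℝ)) ^ d =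
      ‖Ts k (2 ^ n) (frq k (2 ^ n) τ) (E.filter (fun e => idx j0 F e + s = n)) x‖ /
        (((2 ^ n : ℕ) : ℝ)) ^ d := by
    intro x hx
    rw [(Finset.mem_filter.1 hx).2]
  rw [Finset.sum_congr rfl h1]
  refine (l1_bound k m (2 ^ n) (2 * k) hX _ _ _ ((16 : ℝ) ^ d * ρ) (by positivity) ?_ (by omega)
    hkd hmd).trans ?_
  · intro e he
    rw [Finset.mem_filter] at he
    have h2 := dens_level hD hFne j0 e n (by omega)
    have h3 : ((((E.filter (fun e => idx j0 F e + s = n)).filter (fun e' => nd e e' < 2 ^ n)).card : ℕ) : ℝ) ≤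
        (((E.filter (fun e' => nd e e' < 2 ^ n)).card : ℕ) : ℝ) := by
      have : ((E.filter (fun e => idx j0 F e + s = n)).filter (fun e' => nd e e' < 2 ^ n)).card ≤
          (E.filter (fun e' => nd e e' < 2 ^ n)).card :=
        Finset.card_le_card (Finset.filter_subset_filter _ (Finset.filter_subset _ _))
      exact_mod_cast this
    refine h3.trans (h2.trans (le_of_eq ?_))
    push_cast
    rw [pow_add, mul_pow]
    norm_num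
    ring
  · rw [← Real.sqrt_mul (by positivity)]
    refine Real.sqrt_le_sqrt ?_
    rw [mul_assoc ((F.filter (fun x => J x = n)).card : ℝ)]
    refine mul_le_mul_of_nonneg_left ?_ (by positivity)
    rw [mul_assoc]
    refine mul_le_mul_of_nonneg_left ?_ (by positivity)
    have h4 := rpow_const_le 16 ρ d (2 * k) (by norm_num) hρ hkd
    have h5 : Dl k m (2 ^ n) (frq k (2 ^ n) τ) ^ (2 * k) ≤ C / (wt τ : ℝ) ^ 5 := by
      rw [le_div_iff₀ (by positivity)]; exact hG0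
    have h6 := Dl_nonneg k m (2 ^ n) (frq k (2 ^ n) τ)
    calc ((16 : ℝ) ^ d * ρ) ^ (1 - ((2 * k : ℕ) : ℝ) / d) * Dl k m (2 ^ n) (frq k (2 ^ n) τ) ^ (2 * k)
        ≤ (16 ^ d * ρ ^ (1 - ((2 * k : ℕ) : ℝ) / d)) * (C / (wt τ : ℝ) ^ 5) :=
          mul_le_mul h4 h5 (by positivity) (by positivity)
      _ = _ := by ring

/-- the hypotheses needed for the second half. -/
structure DualHyp {d : ℕ} (k m : ℕ) (C : ℝ) (τ : ℕ × ℤ × ℤ) (F : Finset (Fin d → ℤ))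
    (J : (Fin d → ℤ) → ℕ) (Θ : ℝ) : Prop where
  q_pos : 1 ≤ τ.1
  rat : ∀ j, Nat.log 2 τ.1 + 2 ≤ j →
    Dl k m (sj τ.1 j) ((τ.2.1 : ℝ) / τ.1) ^ (2 * k) * (τ.1 : ℝ) ^ 5 ≤ C
  theta_nonneg : 0 ≤ Θ
  theta_le : Θ * ((1 + τ.2.2.natAbs : ℕ) : ℝ) ^ 5 ≤ C
  dual : ∀ F' : Finset (Fin d → ℤ), F' ⊆ F → ∀ (B : Finset (Fin d → ℤ)) (G : (Fin d → ℤ) → ℂ),
    ∑ x ∈ F', ‖∑ y ∈ B, (∏ j, lam τ.1 k (2 ^ J x) (bet k τ (J x)) (x j - y j)) * G y‖ ≤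
      √(∑ y ∈ B, ‖G y‖ ^ 2) * √(F'.card * Θ)

lemma prod_const_le {d k m : ℕ} {C : ℝ} {τ : ℕ × ℤ × ℤ} {F : Finset (Fin d → ℤ)}
    {J : (Fin d → ℤ) → ℕ} {Θ : ℝ} (hC : 0 ≤ C) (H : DualHyp k m C τ F J Θ) (ρ : ℝ) (hρ : 0 ≤ ρ)
    (j : ℕ) (hj : Nat.log 2 τ.1 + 2 ≤ j) (hkd : 2 * k < d) :
    ((32 : ℝ) ^ d * ρ) ^ (1 - ((2 * k : ℕ) : ℝ) / d) *
      Dl k m (sj τ.1 j) ((τ.2.1 : ℝ) / τ.1) ^ (2 * k) * Θ ≤
      32 ^ d * C ^ 2 * (ρ ^ (1 - ((2 * k : ℕ) : ℝ) / d) / (wt τ : ℝ) ^ 5) := by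
  have hq := H.q_pos
  have hqR : (0 : ℝ) < τ.1 := by exact_mod_cast hq
  have hi0 : (0 : ℝ) < ((1 + τ.2.2.natAbs : ℕ) : ℝ) := by positivity
  have hR0 : 0 ≤ ρ ^ (1 - ((2 * k : ℕ) : ℝ) / d) := Real.rpow_nonneg hρ _
  have h1 := rpow_const_le 32 ρ d (2 * k) (by norm_num) hρ hkd
  have h2 : Dl k m (sj τ.1 j) ((τ.2.1 : ℝ) / τ.1) ^ (2 * k) ≤ C / (τ.1 : ℝ) ^ 5 := by
    rw [le_div_iff₀ (by positivity)]; exact H.rat j hj
  have h3 : Θ ≤ C / ((1 + τ.2.2.natAbs : ℕ) : ℝ) ^ 5 := by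
    rw [le_div_iff₀ (by positivity)]; exact H.theta_le
  have hw : (wt τ : ℝ) = τ.1 * ((1 + τ.2.2.natAbs : ℕ) : ℝ) := by
    unfold wt; push_cast; ring
  have h0 : 0 ≤ Dl k m (sj τ.1 j) ((τ.2.1 : ℝ) / τ.1) := Dl_nonneg _ _ _ _
  calc _ ≤ ((32 : ℝ) ^ d * ρ ^ (1 - ((2 * k : ℕ) : ℝ) / d)) * (C / (τ.1 : ℝ) ^ 5) *
        (C / ((1 + τ.2.2.natAbs : ℕ) : ℝ) ^ 5) := by
        refine mul_le_mul (mul_le_mul h1 h2 (by positivity) (by positivity)) h3 H.theta_nonneg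
          (by positivity)
    _ = _ := by
        rw [hw, mul_pow]
        field_simp

lemma window_lam {d k m : ℕ} {C : ℝ} {τ : ℕ × ℤ × ℤ} {F : Finset (Fin d → ℤ)}
    {J : (Fin d → ℤ) → ℕ} {Θ : ℝ} (hC : 1 ≤ C) (H : DualHyp k m C τ F J Θ)
    (E B : Finset (Fin d → ℤ)) (ρ : ℝ) (hρ : 0 ≤ ρ) (hD : Dens E F ρ)
    (j0 s : ℕ) (hj0 : Nat.log 2 τ.1 + 2 ≤ j0) (hk : 1 ≤ k) (hkd : 2 * k < d)
    (hmd : m * (2 * k) ≤ d) :
    ∑ x ∈ F, ‖∑ y ∈ B, (∏ j, lam τ.1 k (2 ^ J x) (bet k τ (J x)) (x j - y j)) *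
      Gf k τ.1 τ.2.1 j0 F (E.filter (fun e => idx j0 F e + s = J x)) y‖ ≤
      32 ^ d * C ^ 2 * √((F.card : ℝ) * E.card *
        (ρ ^ (1 - ((2 * k : ℕ) : ℝ) / d) / (wt τ : ℝ) ^ 5)) := by
  classical
  rcases F.eq_empty_or_nonempty with h0 | hFne
  · rw [h0]; simp
  have hC0 : 0 ≤ C := by linarith
  have hR0 : 0 ≤ ρ ^ (1 - ((2 * k : ℕ) : ℝ) / d) := Real.rpow_nonneg hρ _
  have h32 : (1 : ℝ) ≤ 32 ^ d := one_le_pow₀ (by norm_num)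
  have hC2 : (1 : ℝ) ≤ C ^ 2 := one_le_pow₀ hC
  refine group_bound E F J (fun e => idx j0 F e + s) _ (32 ^ d * C ^ 2) _ (by
    calc (1 : ℝ) = 1 * 1 := by ring
      _ ≤ 32 ^ d * C ^ 2 := mul_le_mul h32 hC2 zero_le_one (by positivity)) (by positivity) ?_
  intro n hn
  have h1 : ∀ x ∈ F.filter (fun x => J x = n),
      ‖∑ y ∈ B, (∏ j, lam τ.1 k (2 ^ J x) (bet k τ (J x)) (x j - y j)) *
      Gf k τ.1 τ.2.1 j0 F (E.filter (fun e => idx j0 F e + s = J x)) y‖ =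
      ‖∑ y ∈ B, (∏ j, lam τ.1 k (2 ^ J x) (bet k τ (J x)) (x j - y j)) *
      Gf k τ.1 τ.2.1 j0 F (E.filter (fun e => idx j0 F e + s = n)) y‖ := by
    intro x hx
    rw [(Finset.mem_filter.1 hx).2]
  rw [Finset.sum_congr rfl h1]
  refine (H.dual _ (Finset.filter_subset _ _) B _).trans ?_
  have hlev := Gf_level k m τ.1 (2 * k) τ.2.1 E F (E.filter (fun e => idx j0 F e + s = n)) B ρ hρ
    H.q_pos hD hFne j0 (n - s) hj0 (Finset.filter_subset _ _) (by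
      intro e he
      have := (Finset.mem_filter.1 he).2
      omega) (by omega) hkd hmd
  rcases (E.filter (fun e => idx j0 F e + s = n)).eq_empty_or_nonempty with he | he
  · rw [he]
    simp [Gf]
  obtain ⟨e0, he0⟩ := he
  have hns : j0 ≤ n - s := by
    have h2 := (Finset.mem_filter.1 he0).2
    have h3 := idx_ge j0 F e0
    omega
  have hpc := prod_const_le hC0 H ρ hρ (n - s) (by omega) hkd
  rw [← Real.sqrt_mul (Finset.sum_nonneg fun _ _ => by positivity)]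
  refine Real.sqrt_le_sqrt ?_
  have h0 := H.theta_nonneg
  calc (∑ y ∈ B, ‖Gf k τ.1 τ.2.1 j0 F (E.filter (fun e => idx j0 F e + s = n)) y‖ ^ 2) *
        (((F.filter (fun x => J x = n)).card : ℝ) * Θ)
      ≤ (((E.filter (fun e => idx j0 F e + s = n)).card : ℝ) *
          ((32 : ℝ) ^ d * ρ) ^ (1 - ((2 * k : ℕ) : ℝ) / d) *
          Dl k m (sj τ.1 (n - s)) ((τ.2.1 : ℝ) / τ.1) ^ (2 * k)) *
        (((F.filter (fun x => J x = n)).card : ℝ) * Θ) :=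
        mul_le_mul_of_nonneg_right hlev (by positivity)
    _ = ((F.filter (fun x => J x = n)).card : ℝ) * (E.filter (fun e => idx j0 F e + s = n)).card *
        (((32 : ℝ) ^ d * ρ) ^ (1 - ((2 * k : ℕ) : ℝ) / d) *
          Dl k m (sj τ.1 (n - s)) ((τ.2.1 : ℝ) / τ.1) ^ (2 * k) * Θ) := by ring
    _ ≤ _ := mul_le_mul_of_nonneg_left hpc (by positivity)

lemma full_lam {d k m : ℕ} {C : ℝ} {τ : ℕ × ℤ × ℤ} {F : Finset (Fin d → ℤ)}
    {J : (Fin d → ℤ) → ℕ} {Θ : ℝ} (hC : 1 ≤ C) (H : DualHyp k m C τ F J Θ)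
    (E B : Finset (Fin d → ℤ)) (ρ : ℝ) (hρ : 0 ≤ ρ) (hD : Dens E F ρ)
    (j0 : ℕ) (hj0 : Nat.log 2 τ.1 + 2 ≤ j0) (hk : 1 ≤ k) (hkd : 2 * k < d)
    (hmd : m * (2 * k) ≤ d) :
    ∑ x ∈ F, ‖∑ y ∈ B, (∏ j, lam τ.1 k (2 ^ J x) (bet k τ (J x)) (x j - y j)) *
      Gf k τ.1 τ.2.1 j0 F E y‖ ≤
      3 * (32 ^ d * C ^ 2) * √((F.card : ℝ) * E.card *
        (ρ ^ (1 - ((2 * k : ℕ) : ℝ) / d) / (wt τ : ℝ) ^ 5)) := by
  classical
  rcases F.eq_empty_or_nonempty with h0 | hFne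
  · rw [h0]; simp
  have hC0 : 0 ≤ C := by linarith
  have hR0 : 0 ≤ ρ ^ (1 - ((2 * k : ℕ) : ℝ) / d) := Real.rpow_nonneg hρ _
  have h32 : (1 : ℝ) ≤ 32 ^ d := one_le_pow₀ (by norm_num)
  have hC2 : (1 : ℝ) ≤ C ^ 2 := one_le_pow₀ hC
  have hM : (1 : ℝ) ≤ 3 * (32 ^ d * C ^ 2) := by
    have : (1 : ℝ) * 1 ≤ 32 ^ d * C ^ 2 := mul_le_mul h32 hC2 zero_le_one (by positivity)
    linarith
  refine (H.dual F (Finset.Subset.refl _) B _).trans ?_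
  refine sqrt_mul_le_of hM (by positivity) (Finset.sum_nonneg fun _ _ => by positivity) ?_
  have h0 := H.theta_nonneg
  have h1 := Gf_total k τ.1 τ.2.1 E F B hFne j0 H.q_pos hj0
  have h2 : ∀ j ∈ E.image (idx j0 F), (∑ y ∈ B,
      ‖Gf k τ.1 τ.2.1 j0 F (E.filter (fun e => idx j0 F e = j)) y‖ ^ 2) * Θ ≤
      (E.filter (fun e => idx j0 F e = j)).card *
        (32 ^ d * C ^ 2 * (ρ ^ (1 - ((2 * k : ℕ) : ℝ) / d) / (wt τ : ℝ) ^ 5)) := by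
    intro j hj
    rw [Finset.mem_image] at hj
    obtain ⟨e0, _, he0⟩ := hj
    have hjj : j0 ≤ j := by rw [← he0]; exact idx_ge _ _ _
    have hlev := Gf_level k m τ.1 (2 * k) τ.2.1 E F (E.filter (fun e => idx j0 F e = j)) B ρ hρ
      H.q_pos hD hFne j0 j hj0 (Finset.filter_subset _ _) (by
        intro e he
        exact (Finset.mem_filter.1 he).2) (by omega) hkd hmd
    have hpc := prod_const_le hC0 H ρ hρ j (by omega) hkd
    calc _ ≤ (((E.filter (fun e => idx j0 F e = j)).card : ℝ) *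
          ((32 : ℝ) ^ d * ρ) ^ (1 - ((2 * k : ℕ) : ℝ) / d) *
          Dl k m (sj τ.1 j) ((τ.2.1 : ℝ) / τ.1) ^ (2 * k)) * Θ :=
          mul_le_mul_of_nonneg_right hlev h0
      _ = ((E.filter (fun e => idx j0 F e = j)).card : ℝ) *
          (((32 : ℝ) ^ d * ρ) ^ (1 - ((2 * k : ℕ) : ℝ) / d) *
          Dl k m (sj τ.1 j) ((τ.2.1 : ℝ) / τ.1) ^ (2 * k) * Θ) := by ring
      _ ≤ _ := mul_le_mul_of_nonneg_left hpc (by positivity)
  have h3 : ∑ j ∈ E.image (idx j0 F), (((E.filter (fun e => idx j0 F e = j)).card : ℕ) : ℝ) = E.card := by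
    have := Finset.card_eq_sum_card_image (idx j0 F) E
    exact_mod_cast this.symm
  calc (∑ y ∈ B, ‖Gf k τ.1 τ.2.1 j0 F E y‖ ^ 2) * ((F.card : ℝ) * Θ)
      ≤ (3 * ∑ j ∈ E.image (idx j0 F), ∑ y ∈ B,
        ‖Gf k τ.1 τ.2.1 j0 F (E.filter (fun e => idx j0 F e = j)) y‖ ^ 2) * ((F.card : ℝ) * Θ) :=
        mul_le_mul_of_nonneg_right h1 (by positivity)
    _ = 3 * F.card * ∑ j ∈ E.image (idx j0 F), (∑ y ∈ B,
        ‖Gf k τ.1 τ.2.1 j0 F (E.filter (fun e => idx j0 F e = j)) y‖ ^ 2) * Θ := by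
        rw [← Finset.sum_mul]; ring
    _ ≤ 3 * F.card * ∑ j ∈ E.image (idx j0 F), (E.filter (fun e => idx j0 F e = j)).card *
        (32 ^ d * C ^ 2 * (ρ ^ (1 - ((2 * k : ℕ) : ℝ) / d) / (wt τ : ℝ) ^ 5)) :=
        mul_le_mul_of_nonneg_left (Finset.sum_le_sum h2) (by positivity)
    _ = _ := by
        rw [← Finset.sum_mul, h3]; ring

end Pool.Agent.helper132_sph
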