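import Pool.Agent.helper132_sph.WeylInv

/-! Correlation sums of `ec (α n^k)` and the structure of the `α` where many are large. -/

namespace Pool.Agent.helper132_sph

open Finset

/-- correlation sum `∑ ec(α (n+h)^k - α n^k)` over `n, n+h ∈ [0, X)`. -/
noncomputable def Dk (k X : ℕ) (α : ℝ) (h : ℤ) : ℂ :=
  ∑ n ∈ Ico (max (0 : ℤ) (0 - h)) (min (X : ℤ) (X - h)),
    ec (α * (((n + h : ℤ)) : ℝ) ^ k - α * (n : ℝ) ^ k)

/-- normalised size of the correlation sum. -/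
noncomputable def dl (k X : ℕ) (α : ℝ) (h : ℤ) : ℝ := ‖Dk k X α h‖ / X

/-- average of the `m`-th powers of the normalised correlation sums. -/
noncomputable def Dl (k m X : ℕ) (α : ℝ) : ℝ := (∑ h ∈ Ioo (-(X : ℤ)) X, dl k X α h ^ m) / X

lemma dl_nonneg (k X : ℕ) (α : ℝ) (h : ℤ) : 0 ≤ dl k X α h := by unfold dl; positivity

lemma norm_Dk_le (k X : ℕ) (α : ℝ) (h : ℤ) : ‖Dk k X α h‖ ≤ X := by
  unfold Dk
  refine norm_sum_ec_le _ _ (fun n : ℤ => α * (((n + h : ℤ)) : ℝ) ^ k - α * (n : ℝ) ^ k) X ?_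
  have := min_le_left (X : ℤ) (X - h)
  have := le_max_left (0 : ℤ) (0 - h)
  linarith

lemma dl_le_one (k X : ℕ) (α : ℝ) (h : ℤ) (hX : 1 ≤ X) : dl k X α h ≤ 1 := by
  unfold dl
  have hXR : (0 : ℝ) < X := by exact_mod_cast hX
  rw [div_le_one hXR]
  exact norm_Dk_le k X α h

lemma dl_neg (k X : ℕ) (α : ℝ) (h : ℤ) : dl k X α (-h) = dl k X α h := by
  unfold dl Dk
  have := norm_neg_shift (fun n : ℤ => α * (n : ℝ) ^ k) 0 X h
  rw [this]

lemma Dl_nonneg (k m X : ℕ) (α : ℝ) : 0 ≤ Dl k m X α := by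
  unfold Dl
  exact div_nonneg (Finset.sum_nonneg fun h _ => pow_nonneg (dl_nonneg _ _ _ _) _) (Nat.cast_nonneg _)

lemma Dl_eq (k m X : ℕ) (α : ℝ) (hX : 1 ≤ X) : Dl k m X α ≤ 1 / X +
    2 * (∑ h ∈ Ico 1 X, dl k X α (h : ℤ) ^ m) / X := by
  unfold Dl
  rw [sum_Ioo_symm X _ hX, ← add_div]
  have hXR : (0 : ℝ) < X := by exact_mod_cast hX
  gcongr
  · exact pow_le_one₀ (dl_nonneg _ _ _ _) (dl_le_one _ _ _ _ hX)
  · rw [Finset.mul_sum]
    refine le_of_eq (Finset.sum_congr rfl fun h _ => ?_)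
    rw [dl_neg]; ring

lemma Dl_le_two (k m X : ℕ) (α : ℝ) (hX : 1 ≤ X) : Dl k m X α ≤ 2 := by
  have hXR : (0 : ℝ) < X := by exact_mod_cast hX
  unfold Dl
  rw [div_le_iff₀ hXR]
  calc ∑ h ∈ Ioo (-(X : ℤ)) X, dl k X α h ^ m ≤ ∑ h ∈ Ioo (-(X : ℤ)) X, (1 : ℝ) :=
        Finset.sum_le_sum fun h _ => pow_le_one₀ (dl_nonneg _ _ _ _) (dl_le_one _ _ _ _ hX)
    _ = ((Ioo (-(X : ℤ)) X).card : ℝ) := by simp
    _ ≤ 2 * X := by
        rw [Int.card_Ioo]
        have : ((X : ℤ) - -(X : ℤ) - 1).toNat ≤ 2 * X := by omega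
        exact_mod_cast this

/-- The structure theorem. -/
theorem structure_prop (κ : ℕ) (hκ : 2 ≤ κ) : ∃ m : ℕ, ∃ C : ℝ, 1 ≤ m ∧ 1 ≤ C ∧
    ∀ (X : ℕ) (_ : 1 ≤ X) (α R : ℝ) (_ : 1 ≤ R)
      (_ : ∀ (q : ℕ) (c : ℤ), 1 ≤ q → (q : ℝ) ≤ R → R < |q * α - c| * (X : ℝ) ^ (κ + 1)),
      Dl (κ + 1) m X α ^ (2 * (κ + 1)) ≤
        C * (1 / R ^ (2 * κ + 1) + 1 / (X : ℝ) ^ (2 * (κ + 1))) := by
  obtain ⟨A, C, hA, hC, hW⟩ := weyl_inverse κ (by omega)
  set m := 2 * A * (2 * κ + 1) with hm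
  have hm1 : 1 ≤ m := Nat.succ_le_of_lt (by positivity)
  set K1 : ℝ := (96 * C) ^ (2 * (κ + 1)) with hK1
  set K2 : ℝ := 4 * (32 * (κ + 1) * C ^ 2) ^ (2 * κ + 1) with hK2
  have hK1' : 1 ≤ K1 := one_le_pow₀ (by linarith)
  have hK2' : 0 ≤ K2 := by positivity
  have hp2 : (1:ℝ) ≤ 2 ^ (2 * (κ + 1)) := one_le_pow₀ (by norm_num)
  refine ⟨m, 2 ^ (2 * (κ + 1)) * (1 + (K1 + K2)), hm1, ?_, ?_⟩
  · have := mul_le_mul hp2 (show (1:ℝ) ≤ 1 + (K1 + K2) by linarith) (by norm_num) (by positivity)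
    linarith
  intro X hX α R hR hmin
  have hXR : (1 : ℝ) ≤ X := by exact_mod_cast hX
  have hXpos : (0 : ℝ) < X := by linarith
  have hC0 : 0 < C := by linarith
  obtain ⟨v, hv⟩ : ∃ v : ℝ, v = 2 * (∑ h ∈ Ico 1 X, dl (κ + 1) X α (h : ℤ) ^ m) / X := ⟨_, rfl⟩
  have hsum0 : 0 ≤ ∑ h ∈ Ico 1 X, dl (κ + 1) X α (h : ℤ) ^ m :=
    Finset.sum_nonneg fun h _ => pow_nonneg (dl_nonneg _ _ _ _) _
  have hv0 : 0 ≤ v := by rw [hv]; positivity
  have hDlv : Dl (κ + 1) m X α ≤ 1 / X + v := by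
    rw [hv]; exact Dl_eq _ _ _ _ hX
  -- main claim
  have hmain : v ^ (2 * (κ + 1)) ≤ (K1 + K2) * (1 / R ^ (2 * κ + 1) + 1 / (X : ℝ) ^ (2 * (κ + 1))) := by
    have hRp : (0 : ℝ) < R ^ (2 * κ + 1) := by positivity
    have hXp : (0 : ℝ) < (X : ℝ) ^ (2 * (κ + 1)) := by positivity
    rcases hv0.eq_or_lt with hv1 | hv1
    · rw [← hv1, zero_pow (by positivity)]
      positivity
    have hsumv : ∑ h ∈ Ico 1 X, dl (κ + 1) X α (h : ℤ) ^ m = v * X / 2 := by
      rw [hv]; field_simp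
    have hv2 : v ≤ 2 := by
      have h1 : ∑ h ∈ Ico 1 X, dl (κ + 1) X α (h : ℤ) ^ m ≤ X := by
        calc ∑ h ∈ Ico 1 X, dl (κ + 1) X α (h : ℤ) ^ m ≤ ∑ h ∈ Ico 1 X, (1 : ℝ) :=
              Finset.sum_le_sum fun h _ =>
                pow_le_one₀ (dl_nonneg _ _ _ _) (dl_le_one _ _ _ _ hX)
          _ = ((X - 1 : ℕ) : ℝ) := by simp
          _ ≤ X := by exact_mod_cast Nat.sub_le X 1
      rw [hsumv] at h1
      have h2 : v * X ≤ 2 * X := by linarith
      exact le_of_mul_le_mul_right h2 hXpos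
    obtain ⟨u, hu0, hum⟩ : ∃ u : ℝ, 0 ≤ u ∧ u ^ m = v / 4 :=
      ⟨(v / 4) ^ ((m : ℝ)⁻¹), by positivity, Real.rpow_inv_natCast_pow (by positivity) (by omega)⟩
    have hu1 : u ≤ 1 := by
      by_contra hcon
      push Not at hcon
      have : 1 ≤ u ^ m := one_le_pow₀ hcon.le
      linarith
    have hupos : 0 < u := by
      rcases hu0.eq_or_lt with h | h
      · rw [← h, zero_pow (by omega)] at hum
        linarith
      · exact h
    obtain ⟨H, hH⟩ : ∃ H : Finset ℕ, H = (Ico 1 X).filter (fun h : ℕ => u ≤ dl (κ + 1) X α (h : ℤ)) :=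
      ⟨_, rfl⟩
    have hHcard : X * v / 4 ≤ H.card := by
      have h1 : ∑ h ∈ Ico 1 X, dl (κ + 1) X α (h : ℤ) ^ m ≤ H.card + X * (v / 4) := by
        rw [← Finset.sum_filter_add_sum_filter_not (Ico 1 X)
          (fun h : ℕ => u ≤ dl (κ + 1) X α (h : ℤ)), ← hH]
        refine add_le_add ?_ ?_
        · calc ∑ h ∈ H, dl (κ + 1) X α (h : ℤ) ^ m ≤ ∑ h ∈ H, (1 : ℝ) :=
              Finset.sum_le_sum fun h _ =>
                pow_le_one₀ (dl_nonneg _ _ _ _) (dl_le_one _ _ _ _ hX)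
            _ = H.card := by simp
        · calc ∑ h ∈ (Ico 1 X).filter (fun h : ℕ => ¬ u ≤ dl (κ + 1) X α (h : ℤ)),
                dl (κ + 1) X α (h : ℤ) ^ m
              ≤ ∑ h ∈ (Ico 1 X).filter (fun h : ℕ => ¬ u ≤ dl (κ + 1) X α (h : ℤ)), v / 4 := by
                refine Finset.sum_le_sum fun h hh => ?_
                have := (Finset.mem_filter.1 hh).2
                rw [← hum]
                exact pow_le_pow_left₀ (dl_nonneg _ _ _ _) (le_of_not_ge this) _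
            _ = (((Ico 1 X).filter (fun h : ℕ => ¬ u ≤ dl (κ + 1) X α (h : ℤ))).card : ℝ) * (v / 4) := by
                rw [Finset.sum_const, nsmul_eq_mul]
            _ ≤ X * (v / 4) := by
                have : ((Ico 1 X).filter (fun h : ℕ => ¬ u ≤ dl (κ + 1) X α (h : ℤ))).card ≤ X := by
                  refine (Finset.card_filter_le _ _).trans ?_
                  rw [Nat.card_Ico]; omega
                have h2 : ((((Ico 1 X).filter (fun h : ℕ => ¬ u ≤ dl (κ + 1) X α (h : ℤ))).card : ℕ) : ℝ) ≤ X := by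
                  exact_mod_cast this
                exact mul_le_mul_of_nonneg_right h2 (by positivity)
      rw [hsumv] at h1
      linarith
    obtain ⟨w, hw⟩ : ∃ w : ℝ, w = u ^ A := ⟨_, rfl⟩
    have hwpos : 0 < w := by rw [hw]; positivity
    have hw1 : w ≤ 1 := by rw [hw]; exact pow_le_one₀ hu0 hu1
    have hvw : v ≤ 4 * w := by
      have h1 : u ^ m ≤ u ^ A := pow_le_pow_of_le_one hu0 hu1 (by
        rw [hm]
        calc A ≤ 2 * A := by omega
          _ ≤ 2 * A * (2 * κ + 1) := Nat.le_mul_of_pos_right _ (by omega))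
      rw [hum, ← hw] at h1
      linarith
    have hwv : w ^ (2 * (2 * κ + 1)) = v / 4 := by
      rw [hw, ← pow_mul, ← hum, hm]
      congr 1
      ring
    have hih : ∀ h ∈ H, ∃ q : ℕ, ∃ c : ℤ, 1 ≤ q ∧ (q : ℝ) * w ≤ C ∧
        |(q : ℝ) * (((κ : ℝ) + 1) * h * α) - c| * w * (X : ℝ) ^ κ ≤ C := by
      intro h hh
      rw [hH] at hh
      have hge := (Finset.mem_filter.1 hh).2
      obtain ⟨q, c, hq1, hq2, hq3⟩ := hW X hX _ _ (Ph_pow (κ + 1) α (h : ℤ))
        (max (0 : ℤ) (0 - h)) (min (X : ℤ) (X - h)) (by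
          have := min_le_left (X : ℤ) (X - h)
          have := le_max_left (0 : ℤ) (0 - h)
          linarith)
      have hwle : w ≤ (dl (κ + 1) X α (h : ℤ)) ^ A := by
        rw [hw]; gcongr
      refine ⟨q, c, hq1, ?_, ?_⟩
      · refine le_trans ?_ hq2
        exact mul_le_mul_of_nonneg_left hwle (Nat.cast_nonneg _)
      · refine le_trans ?_ hq3
        simp only [Int.cast_natCast]
        refine mul_le_mul_of_nonneg_right ?_ (by positivity)
        exact mul_le_mul_of_nonneg_left hwle (abs_nonneg _)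
    choose! qq cc hqq using hih
    obtain ⟨B, hB⟩ : ∃ B : ℝ, B = C / w := ⟨_, rfl⟩
    have hBpos : 0 < B := by rw [hB]; positivity
    have hBw : B * w = C := by rw [hB]; field_simp
    have hB1 : 1 ≤ B := by
      rw [hB, le_div_iff₀ hwpos]; linarith
    have hsmall : 0 ≤ 1 / R ^ (2 * κ + 1) := by positivity
    have hXsmall : 0 ≤ 1 / (X : ℝ) ^ (2 * (κ + 1)) := by positivity
    rcases lt_or_ge ((X : ℝ) ^ (κ - 1)) (24 * B) with hcase | hcase
    · -- few points: v is tiny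
      have h1 : (X : ℝ) ≤ (X : ℝ) ^ (κ - 1) := le_self_pow₀ hXR (by omega)
      have h2 : w * X ≤ 24 * C := by
        calc w * X ≤ w * (24 * B) := by
              exact mul_le_mul_of_nonneg_left (h1.trans hcase.le) hwpos.le
          _ = 24 * C := by rw [← hBw]; ring
      have h3 : v * X ≤ 96 * C := by
        calc v * X ≤ (4 * w) * X := mul_le_mul_of_nonneg_right hvw hXpos.le
          _ ≤ 96 * C := by linarith
      have h4 : v ≤ 96 * C / X := by rw [le_div_iff₀ hXpos]; exact h3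
      have h5 : v ^ (2 * (κ + 1)) ≤ K1 * (1 / (X : ℝ) ^ (2 * (κ + 1))) := by
        calc v ^ (2 * (κ + 1)) ≤ (96 * C / X) ^ (2 * (κ + 1)) := pow_le_pow_left₀ hv0 h4 _
          _ = K1 * (1 / (X : ℝ) ^ (2 * (κ + 1))) := by rw [div_pow, hK1]; ring
      have h6 : 0 ≤ K1 * (1 / R ^ (2 * κ + 1)) := mul_nonneg (by linarith) hsmall
      have h7 : 0 ≤ K2 * (1 / R ^ (2 * κ + 1) + 1 / (X : ℝ) ^ (2 * (κ + 1))) :=
        mul_nonneg hK2' (by linarith)
      calc v ^ (2 * (κ + 1)) ≤ K1 * (1 / (X : ℝ) ^ (2 * (κ + 1))) := h5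
        _ ≤ _ := by linarith
    · -- pigeonhole and the counting lemma
      have hHpos : (0 : ℝ) < H.card := lt_of_lt_of_le (by positivity) hHcard
      have hqB : ∀ h ∈ H, qq h ∈ Icc 1 ⌊B⌋₊ := by
        intro h hh
        rw [Finset.mem_Icc]
        refine ⟨(hqq h hh).1, Nat.le_floor ?_⟩
        rw [hB, le_div_iff₀ hwpos]
        exact (hqq h hh).2.1
      have hfl : ((⌊B⌋₊ : ℕ) : ℝ) ≤ B := Nat.floor_le hBpos.le
      have hne : (Icc 1 ⌊B⌋₊).Nonempty := by
        refine ⟨1, Finset.mem_Icc.2 ⟨le_rfl, Nat.le_floor (by rw [Nat.cast_one]; exact hB1)⟩⟩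
      obtain ⟨q1, hq1mem, hq1⟩ := Finset.exists_le_card_fiber_of_nsmul_le_card_of_maps_to
        (b := (H.card : ℝ) / B) hqB hne (by
          rw [nsmul_eq_mul, Nat.card_Icc, Nat.add_sub_cancel]
          have h1 : ((⌊B⌋₊ : ℕ) : ℝ) * (H.card / B) ≤ B * (H.card / B) :=
            mul_le_mul_of_nonneg_right hfl (div_nonneg (Nat.cast_nonneg _) hBpos.le)
          rwa [mul_div_cancel₀ _ hBpos.ne'] at h1)
      obtain ⟨S, hS⟩ : ∃ S : Finset ℕ, S = H.filter (fun x => qq x = q1) := ⟨_, rfl⟩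
      rw [← hS] at hq1
      have hScard : X * v / (4 * B) ≤ S.card := by
        refine le_trans ?_ hq1
        have h1 : X * v / (4 * B) = X * v / 4 / B := by rw [div_div]
        rw [h1]
        exact div_le_div_of_nonneg_right hHcard hBpos.le
      have hSpos : (0 : ℝ) < S.card := lt_of_lt_of_le (by positivity) hScard
      have hSne : S.Nonempty := Finset.card_pos.1 (by exact_mod_cast hSpos)
      have hS1 : (1 : ℝ) ≤ S.card := by exact_mod_cast hSne.card_pos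
      have hSsub : S ⊆ Icc 1 X := by
        intro h hh
        rw [hS] at hh
        have h0 := (Finset.mem_filter.1 hh).1
        rw [hH] at h0
        have h1 := (Finset.mem_filter.1 h0).1
        rw [Finset.mem_Ico] at h1
        exact Finset.mem_Icc.2 ⟨h1.1, h1.2.le⟩
      have hXκpos : (0 : ℝ) < (X : ℝ) ^ κ := by positivity
      obtain ⟨q2, hq21, hq22, hq23⟩ := vino X hX (q1 * (((κ : ℝ) + 1) * α)) (B / (X : ℝ) ^ κ) S hSsub hSne
        (by
          intro h hh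
          rw [hS] at hh
          have h1 := Finset.mem_filter.1 hh
          have h2 := hqq h h1.1
          rw [h1.2] at h2
          refine ⟨cc h, ?_⟩
          rw [le_div_iff₀ hXκpos]
          have h3 : |(q1 : ℝ) * (((κ : ℝ) + 1) * h * α) - cc h| * (X : ℝ) ^ κ ≤ B := by
            rw [hB, le_div_iff₀ hwpos]
            calc |(q1 : ℝ) * (((κ : ℝ) + 1) * h * α) - cc h| * (X : ℝ) ^ κ * w
                = |(q1 : ℝ) * (((κ : ℝ) + 1) * h * α) - cc h| * w * (X : ℝ) ^ κ := by ring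
              _ ≤ C := h2.2.2
          have h4 : (h : ℝ) * (q1 * (((κ : ℝ) + 1) * α)) = q1 * (((κ : ℝ) + 1) * h * α) := by ring
          rw [h4]
          exact h3)
        (by
          have h1 : (X : ℝ) ^ κ = X ^ (κ - 1) * X := by
            rw [← pow_succ]
            congr 1
            omega
          have h2 : 24 * (X : ℝ) * (B / (X : ℝ) ^ κ) ≤ 1 := by
            rw [mul_div_assoc', div_le_one hXκpos, h1]
            calc 24 * (X : ℝ) * B = (24 * B) * X := by ring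
              _ ≤ X ^ (κ - 1) * X := mul_le_mul_of_nonneg_right hcase hXpos.le
          linarith)
      obtain ⟨c, hc⟩ := hq23
      have hq1' := Finset.mem_Icc.1 hq1mem
      have hq1B : (q1 : ℝ) ≤ B := by
        have : (q1 : ℝ) ≤ (⌊B⌋₊ : ℕ) := by exact_mod_cast hq1'.2
        linarith
      have hq2le : (q2 : ℝ) ≤ 32 * B / v := by
        rw [le_div_iff₀ hv1]
        have h1 : (q2 : ℝ) * (X * v / (4 * B)) ≤ 8 * X :=
          (mul_le_mul_of_nonneg_left hScard (Nat.cast_nonneg _)).trans hq22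
        rw [mul_div_assoc', div_le_iff₀ (by positivity)] at h1
        have h2 : (q2 * v) * X ≤ (32 * B) * X := by linarith
        exact le_of_mul_le_mul_right h2 hXpos
      obtain ⟨R', hR'⟩ : ∃ R' : ℝ, R' = 32 * (κ + 1) * B ^ 2 / v := ⟨_, rfl⟩
      have hκ1 : (1 : ℝ) ≤ (κ : ℝ) + 1 := by
        have : (0 : ℝ) ≤ κ := Nat.cast_nonneg κ
        linarith
      have hqle : (((q2 * (q1 * (κ + 1)) : ℕ)) : ℝ) ≤ R' := by
        push_cast
        calc (q2 : ℝ) * (q1 * (κ + 1)) ≤ (32 * B / v) * (B * (κ + 1)) := by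
              refine mul_le_mul hq2le ?_ (by positivity) (by positivity)
              exact mul_le_mul_of_nonneg_right hq1B (by positivity)
          _ = R' := by rw [hR']; ring
      have hclose : |(((q2 * (q1 * (κ + 1)) : ℕ)) : ℝ) * α - c| * (X : ℝ) ^ (κ + 1) ≤ R' := by
        have e1 : (((q2 * (q1 * (κ + 1)) : ℕ)) : ℝ) * α - c = q2 * (q1 * (((κ : ℝ) + 1) * α)) - c := by
          push_cast; ring
        rw [e1]
        have h1 : 8 * (B / (X : ℝ) ^ κ) / S.card ≤ 32 * B ^ 2 / (v * (X : ℝ) ^ (κ + 1)) := by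
          rw [div_le_div_iff₀ hSpos (by positivity)]
          have h1 : 8 * (B / (X : ℝ) ^ κ) * (v * (X : ℝ) ^ (κ + 1)) = 32 * B ^ 2 * (X * v / (4 * B)) := by
            rw [pow_succ]
            field_simp
            ring
          rw [h1]
          exact mul_le_mul_of_nonneg_left hScard (by positivity)
        calc |(q2 : ℝ) * (q1 * (((κ : ℝ) + 1) * α)) - c| * (X : ℝ) ^ (κ + 1)
            ≤ (32 * B ^ 2 / (v * (X : ℝ) ^ (κ + 1))) * (X : ℝ) ^ (κ + 1) :=
              mul_le_mul_of_nonneg_right (hc.trans h1) (by positivity)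
          _ = 32 * 1 * B ^ 2 / v := by field_simp
          _ ≤ 32 * (κ + 1) * B ^ 2 / v := by gcongr
          _ = R' := hR'.symm
      have hq2pos : 0 < q2 := by omega
      have hq1pos : 0 < q1 := by omega
      have hRR' : R < R' := by
        by_contra hcon
        push Not at hcon
        have := hmin (q2 * (q1 * (κ + 1))) c (Nat.succ_le_of_lt (by positivity)) (hqle.trans hcon)
        linarith
      have hR'pow : v ^ (2 * (κ + 1)) * R' ^ (2 * κ + 1) = K2 := by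
        have h1 : w ^ (2 * (2 * κ + 1)) = (w ^ 2) ^ (2 * κ + 1) := by rw [pow_mul]
        have h2 : R' = (32 * (κ + 1) * C ^ 2) / (w ^ 2 * v) := by
          rw [hR', ← hBw]; field_simp
        have hv4 : v ^ (2 * (κ + 1)) = v * v ^ (2 * κ + 1) := by
          rw [← pow_succ']
          congr 1
        rw [h2, div_pow, mul_pow (w ^ 2) v, ← h1, hwv, hv4, hK2]
        field_simp
      have h8 : v ^ (2 * (κ + 1)) * R ^ (2 * κ + 1) ≤ K2 := by
        rw [← hR'pow]
        refine mul_le_mul_of_nonneg_left ?_ (by positivity)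
        exact pow_le_pow_left₀ (by linarith) hRR'.le _
      have h9 : v ^ (2 * (κ + 1)) ≤ K2 * (1 / R ^ (2 * κ + 1)) := by
        rw [mul_one_div, le_div_iff₀ hRp]
        exact h8
      have h10 : 0 ≤ K1 * (1 / R ^ (2 * κ + 1) + 1 / (X : ℝ) ^ (2 * (κ + 1))) :=
        mul_nonneg (by linarith) (by linarith)
      have h11 : 0 ≤ K2 * (1 / (X : ℝ) ^ (2 * (κ + 1))) := mul_nonneg hK2' hXsmall
      linarith
  -- conclude
  have hpow : Dl (κ + 1) m X α ^ (2 * (κ + 1)) ≤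
      2 ^ (2 * (κ + 1)) * ((1 / (X : ℝ)) ^ (2 * (κ + 1)) + v ^ (2 * (κ + 1))) := by
    have h1 : Dl (κ + 1) m X α ≤ 2 * max (1 / (X : ℝ)) v := by
      have h2 := le_max_left (1 / (X : ℝ)) v
      have h3 := le_max_right (1 / (X : ℝ)) v
      linarith
    calc Dl (κ + 1) m X α ^ (2 * (κ + 1)) ≤ (2 * max (1 / (X : ℝ)) v) ^ (2 * (κ + 1)) :=
          pow_le_pow_left₀ (Dl_nonneg _ _ _ _) h1 _
      _ = 2 ^ (2 * (κ + 1)) * (max (1 / (X : ℝ)) v) ^ (2 * (κ + 1)) := mul_pow _ _ _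
      _ ≤ _ := by
        refine mul_le_mul_of_nonneg_left ?_ (by positivity)
        rcases max_choice (1 / (X : ℝ)) v with h | h
        · rw [h]
          have : 0 ≤ v ^ (2 * (κ + 1)) := by positivity
          linarith
        · rw [h]
          have : 0 ≤ (1 / (X : ℝ)) ^ (2 * (κ + 1)) := by positivity
          linarith
  have hRs : 0 ≤ 1 / R ^ (2 * κ + 1) := by positivity
  calc Dl (κ + 1) m X α ^ (2 * (κ + 1)) ≤
      2 ^ (2 * (κ + 1)) * ((1 / (X : ℝ)) ^ (2 * (κ + 1)) + v ^ (2 * (κ + 1))) := hpow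
    _ ≤ 2 ^ (2 * (κ + 1)) * ((1 / R ^ (2 * κ + 1) + 1 / (X : ℝ) ^ (2 * (κ + 1))) +
        (K1 + K2) * (1 / R ^ (2 * κ + 1) + 1 / (X : ℝ) ^ (2 * (κ + 1)))) := by
        refine mul_le_mul_of_nonneg_left ?_ (by positivity)
        refine add_le_add ?_ hmain
        rw [one_div_pow]
        linarith
    _ = _ := by ring

end Pool.Agent.helper132_sph
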