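import Pool.Agent.helper132_sph.TP2

/-! Summing over the triples. -/

namespace Pool.Agent.helper132_sph

open Finset

lemma sum_wt : ∃ K : ℝ, 1 ≤ K ∧ ∀ T : Finset (ℕ × ℤ × ℤ),
    (∀ τ ∈ T, 1 ≤ τ.1 ∧ -1 ≤ τ.2.1 ∧ τ.2.1 ≤ τ.1 + 1) →
    ∑ τ ∈ T, (wt τ : ℝ) ^ (-(9 / 4) : ℝ) ≤ K := by
  classical
  have hs1 : Summable (fun n : ℕ => (n : ℝ) ^ (-(5 / 4) : ℝ)) :=
    Real.summable_nat_rpow.2 (by norm_num)
  have hs2 : Summable (fun n : ℕ => (n : ℝ) ^ (-(9 / 4) : ℝ)) :=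
    Real.summable_nat_rpow.2 (by norm_num)
  obtain ⟨S1, hS1⟩ : ∃ S1, S1 = ∑' n : ℕ, (n : ℝ) ^ (-(5 / 4) : ℝ) := ⟨_, rfl⟩
  obtain ⟨S2, hS2⟩ : ∃ S2, S2 = ∑' n : ℕ, (n : ℝ) ^ (-(9 / 4) : ℝ) := ⟨_, rfl⟩
  have hS10 : 0 ≤ S1 := by rw [hS1]; exact tsum_nonneg fun n => by positivity
  have hS20 : 0 ≤ S2 := by rw [hS2]; exact tsum_nonneg fun n => by positivity
  refine ⟨1 + 4 * S1 * (2 * S2), by have : 0 ≤ 4 * S1 * (2 * S2) := by positivity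
                                    linarith, ?_⟩
  intro T hT
  obtain ⟨Q, hQ⟩ : ∃ Q : ℕ, ∀ τ ∈ T, τ.1 ≤ Q :=
    ⟨T.sup (fun τ => τ.1), fun τ hτ => Finset.le_sup (f := fun τ : ℕ × ℤ × ℤ => τ.1) hτ⟩
  obtain ⟨I, hI⟩ : ∃ I : ℕ, ∀ τ ∈ T, τ.2.2.natAbs < I :=
    ⟨T.sup (fun τ => τ.2.2.natAbs) + 1, fun τ hτ =>
      Nat.lt_succ_of_le (Finset.le_sup (f := fun τ : ℕ × ℤ × ℤ => τ.2.2.natAbs) hτ)⟩
  obtain ⟨g, hg⟩ : ∃ g : ℕ × ℤ × ℤ → ℝ, g = fun τ : ℕ × ℤ × ℤ =>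
    if -1 ≤ τ.2.1 ∧ τ.2.1 ≤ (τ.1 : ℤ) + 1 then (wt τ : ℝ) ^ (-(9 / 4) : ℝ) else 0 := ⟨_, rfl⟩
  have hg0 : ∀ τ, 0 ≤ g τ := by
    intro τ; rw [hg]; simp only; split_ifs
    · positivity
    · exact le_rfl
  have h1 : ∑ τ ∈ T, (wt τ : ℝ) ^ (-(9 / 4) : ℝ) = ∑ τ ∈ T, g τ := by
    refine Finset.sum_congr rfl fun τ hτ => ?_
    rw [hg]; simp only
    rw [if_pos (hT τ hτ).2]
  have h2 : T ⊆ (Icc 1 Q) ×ˢ ((Icc (-1) ((Q : ℤ) + 1)) ×ˢ (Ioo (-(I : ℤ)) I)) := by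
    intro τ hτ
    obtain ⟨a1, a2, a3⟩ := hT τ hτ
    have a4 := hQ τ hτ
    have a5 := hI τ hτ
    rw [Finset.mem_product, Finset.mem_product, Finset.mem_Icc, Finset.mem_Icc, Finset.mem_Ioo]
    have a4' : (τ.1 : ℤ) ≤ Q := by exact_mod_cast a4
    refine ⟨⟨a1, a4⟩, ⟨a2, by linarith⟩, ?_, ?_⟩
    · omega
    · omega
  rw [h1]
  refine (Finset.sum_le_sum_of_subset_of_nonneg h2 fun τ _ _ => hg0 τ).trans ?_
  rw [Finset.sum_product]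
  have h3 : ∀ q ∈ Icc 1 Q, ∑ ci ∈ (Icc (-1) ((Q : ℤ) + 1)) ×ˢ (Ioo (-(I : ℤ)) I), g (q, ci) ≤
      4 * (q : ℝ) ^ (-(5 / 4) : ℝ) * (2 * S2) := by
    intro q hq
    rw [Finset.mem_Icc] at hq
    have hqR : (1 : ℝ) ≤ q := by exact_mod_cast hq.1
    have hq0 : (0 : ℝ) < q := by linarith
    rw [Finset.sum_product, Finset.sum_comm]
    have h4 : ∀ i ∈ Ioo (-(I : ℤ)) I, ∑ c ∈ Icc (-1) ((Q : ℤ) + 1), g (q, c, i) ≤
        4 * (q : ℝ) ^ (-(5 / 4) : ℝ) * ((1 + i.natAbs : ℕ) : ℝ) ^ (-(9 / 4) : ℝ) := by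
      intro i _
      have h5 : ∀ c ∈ Icc (-1) ((Q : ℤ) + 1), g (q, c, i) =
          if c ∈ Icc (-1) ((q : ℤ) + 1) then ((q * (1 + i.natAbs) : ℕ) : ℝ) ^ (-(9 / 4) : ℝ) else 0 := by
        intro c _
        rw [hg]
        simp only [Finset.mem_Icc]
        rfl
      rw [Finset.sum_congr rfl h5, ← Finset.sum_filter, Finset.sum_const, nsmul_eq_mul]
      have h6 : ((((Icc (-1) ((Q : ℤ) + 1)).filter (fun c => c ∈ Icc (-1) ((q : ℤ) + 1))).card : ℕ) : ℝ) ≤ 4 * q := by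
        have h7 : ((Icc (-1) ((Q : ℤ) + 1)).filter (fun c => c ∈ Icc (-1) ((q : ℤ) + 1))).card ≤
            (Icc (-1) ((q : ℤ) + 1)).card := by
          refine Finset.card_le_card ?_
          intro c hc
          exact (Finset.mem_filter.1 hc).2
        rw [Int.card_Icc] at h7
        have h8 : ((Icc (-1) ((Q : ℤ) + 1)).filter (fun c => c ∈ Icc (-1) ((q : ℤ) + 1))).card ≤ 4 * q := by
          omega
        exact_mod_cast h8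
      have h9 : ((q * (1 + i.natAbs) : ℕ) : ℝ) ^ (-(9 / 4) : ℝ) =
          (q : ℝ) ^ (-(9 / 4) : ℝ) * ((1 + i.natAbs : ℕ) : ℝ) ^ (-(9 / 4) : ℝ) := by
        rw [Nat.cast_mul, Real.mul_rpow (by positivity) (by positivity)]
      rw [h9]
      have h10 : (q : ℝ) * (q : ℝ) ^ (-(9 / 4) : ℝ) = (q : ℝ) ^ (-(5 / 4) : ℝ) := by
        nth_rewrite 1 [← Real.rpow_one (q : ℝ)]
        rw [← Real.rpow_add hq0]; norm_num
      calc _ ≤ (4 * q) * ((q : ℝ) ^ (-(9 / 4) : ℝ) * ((1 + i.natAbs : ℕ) : ℝ) ^ (-(9 / 4) : ℝ)) :=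
            mul_le_mul_of_nonneg_right h6 (by positivity)
        _ = 4 * ((q : ℝ) * (q : ℝ) ^ (-(9 / 4) : ℝ)) * ((1 + i.natAbs : ℕ) : ℝ) ^ (-(9 / 4) : ℝ) := by ring
        _ = _ := by rw [h10]
    refine (Finset.sum_le_sum h4).trans ?_
    rw [← Finset.mul_sum]
    refine mul_le_mul_of_nonneg_left ?_ (by positivity)
    rcases Nat.eq_zero_or_pos I with hI0 | hI0
    · subst hI0
      simp only [CharP.cast_eq_zero, neg_zero, Finset.Ioo_self, Finset.sum_empty]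
      positivity
    rw [sum_Ioo_symm I _ hI0]
    have h11 : ∑ n ∈ range I, (((n + 1 : ℕ)) : ℝ) ^ (-(9 / 4) : ℝ) ≤ S2 := by
      have h12 : ∑ n ∈ range (I + 1), ((n : ℕ) : ℝ) ^ (-(9 / 4) : ℝ) ≤ S2 := by
        rw [hS2]
        exact hs2.sum_le_tsum _ fun n _ => by positivity
      rw [Finset.sum_range_succ'] at h12
      have : (0 : ℝ) ≤ ((0 : ℕ) : ℝ) ^ (-(9 / 4) : ℝ) := by positivity
      linarith
    have h13 : ∑ n ∈ range I, (((n + 1 : ℕ)) : ℝ) ^ (-(9 / 4) : ℝ) =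
        1 + ∑ n ∈ Ico 1 I, (((n + 1 : ℕ)) : ℝ) ^ (-(9 / 4) : ℝ) := by
      rw [Finset.range_eq_Ico, Finset.sum_eq_sum_Ico_succ_bot hI0]
      simp
    have h14 : ∀ n ∈ Ico 1 I, ((1 + (-(n : ℤ)).natAbs : ℕ) : ℝ) ^ (-(9 / 4) : ℝ) +
        ((1 + ((n : ℤ)).natAbs : ℕ) : ℝ) ^ (-(9 / 4) : ℝ) =
        2 * (((n + 1 : ℕ)) : ℝ) ^ (-(9 / 4) : ℝ) := by
      intro n _
      rw [Int.natAbs_neg, Int.natAbs_natCast, add_comm 1 n]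
      ring
    have h15 : ∀ n ∈ Ico 1 I, ((1 + ((n : ℤ)).natAbs : ℕ) : ℝ) ^ (-(9 / 4) : ℝ) +
        ((1 + (-(n : ℤ)).natAbs : ℕ) : ℝ) ^ (-(9 / 4) : ℝ) =
        2 * (((n + 1 : ℕ)) : ℝ) ^ (-(9 / 4) : ℝ) := by
      intro n hn
      rw [add_comm, h14 n hn]
    rw [Finset.sum_congr rfl h15, ← Finset.mul_sum]
    simp only [Int.natAbs_zero, add_zero, Nat.cast_one, Real.one_rpow]
    rw [h13] at h11
    linarith
  refine (Finset.sum_le_sum h3).trans ?_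
  rw [← Finset.sum_mul, ← Finset.mul_sum]
  have h16 : ∑ q ∈ Icc 1 Q, (q : ℝ) ^ (-(5 / 4) : ℝ) ≤ S1 := by
    rw [hS1]
    exact hs1.sum_le_tsum _ fun n _ => by positivity
  have h17 : 4 * ∑ q ∈ Icc 1 Q, (q : ℝ) ^ (-(5 / 4) : ℝ) ≤ 4 * S1 := by linarith
  have h18 := mul_le_mul_of_nonneg_right h17 (show 0 ≤ 2 * S2 by positivity)
  linarith

end Pool.Agent.helper132_sph
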