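import Pool.Agent.helper132_sph.TP

/-! The triple proposition. -/

namespace Pool.Agent.helper132_sph

open Finset

lemma log_le_rpow (W : ℕ) (hW : 1 ≤ W) : ((Nat.log 2 W + 1 : ℕ) : ℝ) ≤ 6 * (W : ℝ) ^ ((1 : ℝ) / 4) := by
  have hWR : (1 : ℝ) ≤ W := by exact_mod_cast hW
  have hW0 : (0 : ℝ) ≤ W := by linarith
  obtain ⟨v, hv⟩ : ∃ v : ℝ, v = (W : ℝ) ^ ((1 : ℝ) / 4) := ⟨_, rfl⟩
  have hv0 : 0 ≤ v := by rw [hv]; positivity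
  have hv4 : v ^ 4 = W := by
    rw [hv, ← Real.rpow_natCast, ← Real.rpow_mul hW0]; norm_num
  rw [← hv]
  have h1 : (2 : ℝ) ^ (Nat.log 2 W) ≤ W := by
    exact_mod_cast Nat.pow_log_le_self 2 (by omega)
  have h2 : ((7 : ℝ) / 6) ^ (Nat.log 2 W) ≤ v := by
    refine le_of_pow_le_pow_left₀ (n := 4) (by norm_num) hv0 ?_
    rw [hv4, ← pow_mul, mul_comm, pow_mul]
    refine le_trans (pow_le_pow_left₀ (by norm_num) (by norm_num) _) h1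
  have h3 := one_add_mul_le_pow (a := (1 : ℝ) / 6) (by norm_num) (Nat.log 2 W)
  have e : (1 : ℝ) + 1 / 6 = 7 / 6 := by norm_num
  rw [e] at h3
  push_cast
  linarith

lemma GoodT.mono {k m : ℕ} {C C' : ℝ} {X : ℕ} {τ : ℕ × ℤ × ℤ} (h : GoodT k m C X τ) (hC : C ≤ C') :
    GoodT k m C' X τ := ⟨h.q_pos, h.cop, h.c_ge, h.c_le, h.dl_le.trans hC⟩

/-- small scales. -/
lemma small_scales {d : ℕ} (k m : ℕ) (C : ℝ) (hC : 1 ≤ C) (τ : ℕ × ℤ × ℤ) (hq : 1 ≤ τ.1)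
    (E F : Finset (Fin d → ℤ)) (ρ : ℝ) (hρ : 0 ≤ ρ) (hD : Dens E F ρ) (J : (Fin d → ℤ) → ℕ)
    (hG : ∀ x ∈ F, GoodT k m C (2 ^ J x) τ) (J1 : ℕ) (hJ : ∀ x ∈ F, J x < J1)
    (hk : 1 ≤ k) (hkd : 2 * k < d) (hmd : m * (2 * k) ≤ d) :
    ∑ x ∈ F, ‖Ts k (2 ^ J x) (frq k (2 ^ J x) τ) E x‖ / (((2 ^ J x : ℕ) : ℝ)) ^ d ≤
      J1 * (2 ^ d * C) * √((F.card : ℝ) * E.card *
        (ρ ^ (1 - ((2 * k : ℕ) : ℝ) / d) / (wt τ : ℝ) ^ 5)) := by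
  classical
  have hw : (0 : ℝ) < (wt τ : ℝ) := by exact_mod_cast wt_pos τ hq
  have hR0 : 0 ≤ ρ ^ (1 - ((2 * k : ℕ) : ℝ) / d) := Real.rpow_nonneg hρ _
  have h2d : (1 : ℝ) ≤ 2 ^ d := one_le_pow₀ (by norm_num)
  have hM : (1 : ℝ) ≤ 2 ^ d * C := by
    calc (1 : ℝ) = 1 * 1 := by ring
      _ ≤ 2 ^ d * C := mul_le_mul h2d hC zero_le_one (by positivity)
  rw [sum_group F J]
  have hstep : ∀ n ∈ F.image J, ∑ x ∈ F.filter (fun x => J x = n),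
      ‖Ts k (2 ^ J x) (frq k (2 ^ J x) τ) E x‖ / (((2 ^ J x : ℕ) : ℝ)) ^ d ≤
      (2 ^ d * C) * √((F.card : ℝ) * E.card *
        (ρ ^ (1 - ((2 * k : ℕ) : ℝ) / d) / (wt τ : ℝ) ^ 5)) := by
    intro n hn
    rw [Finset.mem_image] at hn
    obtain ⟨x0, hx0, hx0n⟩ := hn
    have hG0 := (hG x0 hx0).dl_le
    rw [hx0n] at hG0
    have h1 : ∀ x ∈ F.filter (fun x => J x = n),
        ‖Ts k (2 ^ J x) (frq k (2 ^ J x) τ) E x‖ / (((2 ^ J x : ℕ) : ℝ)) ^ d =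
        ‖Ts k (2 ^ n) (frq k (2 ^ n) τ) E x‖ / (((2 ^ n : ℕ) : ℝ)) ^ d := by
      intro x hx
      rw [(Finset.mem_filter.1 hx).2]
    rw [Finset.sum_congr rfl h1]
    refine (single_scale k m (2 * k) n _ E F _ ρ hρ hD (Finset.filter_subset _ _) (by omega)
      hkd hmd).trans ?_
    refine sqrt_mul_le_of hM (by positivity) (Nat.cast_nonneg _) ?_
    have h4 := rpow_const_le 2 ρ d (2 * k) (by norm_num) hρ hkd
    have h5 : Dl k m (2 ^ n) (frq k (2 ^ n) τ) ^ (2 * k) ≤ C / (wt τ : ℝ) ^ 5 := by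
      rw [le_div_iff₀ (by positivity)]; exact hG0
    have h6 := Dl_nonneg k m (2 ^ n) (frq k (2 ^ n) τ)
    have h7 : (((F.filter (fun x => J x = n)).card : ℕ) : ℝ) ≤ F.card := by
      exact_mod_cast Finset.card_filter_le _ _
    calc (((F.filter (fun x => J x = n)).card : ℕ) : ℝ) * (E.card *
          ((2 : ℝ) ^ d * ρ) ^ (1 - ((2 * k : ℕ) : ℝ) / d) * Dl k m (2 ^ n) (frq k (2 ^ n) τ) ^ (2 * k))
        ≤ F.card * (E.card * (2 ^ d * ρ ^ (1 - ((2 * k : ℕ) : ℝ) / d)) * (C / (wt τ : ℝ) ^ 5)) := by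
          gcongr
      _ = _ := by ring
  refine (Finset.sum_le_sum hstep).trans ?_
  rw [Finset.sum_const, nsmul_eq_mul, ← mul_assoc]
  have hcard : ((F.image J).card : ℝ) ≤ J1 := by
    have h1 : F.image J ⊆ range J1 := by
      intro n hn
      rw [Finset.mem_image] at hn
      obtain ⟨x0, hx0, hx0n⟩ := hn
      rw [Finset.mem_range, ← hx0n]
      exact hJ x0 hx0
    have h2 := Finset.card_le_card h1
    rw [Finset.card_range] at h2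
    exact_mod_cast h2
  refine mul_le_mul_of_nonneg_right ?_ (Real.sqrt_nonneg _)
  exact mul_le_mul_of_nonneg_right hcard (by positivity)

theorem triple_prop (κ m : ℕ) (hκ : 2 ≤ κ) (hm : 1 ≤ m) (C : ℝ) (hC : 1 ≤ C)
    (hst : ∀ (X : ℕ) (_ : 1 ≤ X) (α R : ℝ) (_ : 1 ≤ R)
      (_ : ∀ (q : ℕ) (c : ℤ), 1 ≤ q → (q : ℝ) ≤ R → R < |q * α - c| * (X : ℝ) ^ (κ + 1)),
      Dl (κ + 1) m X α ^ (2 * (κ + 1)) ≤
        C * (1 / R ^ (2 * κ + 1) + 1 / (X : ℝ) ^ (2 * (κ + 1)))) :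
    ∃ D : ℕ, ∀ d, D ≤ d → ∃ K : ℝ, 1 ≤ K ∧ ∀ (τ : ℕ × ℤ × ℤ) (E F : Finset (Fin d → ℤ)) (ρ : ℝ)
      (_ : 0 ≤ ρ) (_ : Dens E F ρ) (J : (Fin d → ℤ) → ℕ)
      (_ : ∀ x ∈ F, GoodT (κ + 1) m C (2 ^ J x) τ),
      ∑ x ∈ F, ‖Ts (κ + 1) (2 ^ J x) (frq (κ + 1) (2 ^ J x) τ) E x‖ / (((2 ^ J x : ℕ) : ℝ)) ^ d ≤
        K * ((wt τ : ℝ) ^ (-(9 / 4) : ℝ) *
          (√((F.card : ℝ) * E.card * ρ ^ (1 - ((2 * (κ + 1) : ℕ) : ℝ) / d)) + E.card)) := by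
  classical
  obtain ⟨A, Kt, hA, hKt, hth⟩ := theta_bound κ m hκ C hC hst
  refine ⟨2 * (κ + 1) * m + 5 * A + 1, ?_⟩
  intro d hd
  have hkm : 2 * (κ + 1) ≤ 2 * (κ + 1) * m := Nat.le_mul_of_pos_right _ hm
  have hkd : 2 * (κ + 1) < d := by omega
  have hmd : m * (2 * (κ + 1)) ≤ d := by rw [mul_comm]; omega
  have hpi := Real.pi_pos
  obtain ⟨C', hC'⟩ : ∃ C' : ℝ, C' = C + (33 * C + 4 ^ (κ + 1)) + (8 ^ d + 2 * 6 ^ d) * Kt := ⟨_, rfl⟩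
  have h4p : (0 : ℝ) ≤ 4 ^ (κ + 1) := by positivity
  have h8p : (0 : ℝ) ≤ (8 ^ d + 2 * 6 ^ d) * Kt := by positivity
  have hCC' : C ≤ C' := by rw [hC']; linarith
  have hC'1 : 1 ≤ C' := hC.trans hCC'
  have hrat' : 33 * C + 4 ^ (κ + 1) ≤ C' := by rw [hC']; linarith
  have hth' : (8 ^ d + 2 * 6 ^ d) * Kt ≤ C' := by rw [hC']; linarith
  refine ⟨6 * (8 * (2 ^ d * C) + 4 * (6 * 32 ^ d * C' ^ 2)) +
    d * 4 ^ (d - 1) * (2 * Real.pi * ((κ + 1 : ℕ) : ℝ) + 4) * 2, ?_, ?_⟩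
  · have h1 : (1 : ℝ) ≤ 2 ^ d := one_le_pow₀ (by norm_num)
    have h2 : (1 : ℝ) * 1 ≤ 2 ^ d * C := mul_le_mul h1 hC zero_le_one (by positivity)
    have h3 : (0 : ℝ) ≤ 4 * (6 * 32 ^ d * C' ^ 2) := by positivity
    have h4 : (0 : ℝ) ≤ d * 4 ^ (d - 1) * (2 * Real.pi * ((κ + 1 : ℕ) : ℝ) + 4) * 2 := by positivity
    linarith
  intro τ E F ρ hρ hD J hG
  rcases F.eq_empty_or_nonempty with h0 | hne
  · rw [h0]
    simp only [Finset.sum_empty, Finset.card_empty, Nat.cast_zero, zero_mul, Real.sqrt_zero, zero_add]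
    positivity
  obtain ⟨x1, hx1⟩ := hne
  have hq := (hG x1 hx1).q_pos
  have hcop := (hG x1 hx1).cop
  have hW := wt_pos τ hq
  obtain ⟨W, hWe⟩ : ∃ W, W = wt τ := ⟨_, rfl⟩
  rw [← hWe] at hW ⊢
  have hwR : (1 : ℝ) ≤ (W : ℝ) := by exact_mod_cast hW
  have hw0 : (0 : ℝ) < (W : ℝ) := by linarith
  obtain ⟨L, hL⟩ : ∃ L, L = Nat.log 2 W := ⟨_, rfl⟩
  obtain ⟨l, hl⟩ : ∃ l, l = 4 * (L + 1) := ⟨_, rfl⟩
  obtain ⟨j0, hj0⟩ : ∃ j0, j0 = Nat.log 2 τ.1 + 2 := ⟨_, rfl⟩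
  obtain ⟨J1, hJ1⟩ : ∃ J1, J1 = l + j0 + 2 := ⟨_, rfl⟩
  have hqW : τ.1 ≤ W := by
    rw [hWe]; unfold wt
    exact Nat.le_mul_of_pos_right _ (by omega)
  have hiW : 1 + τ.2.2.natAbs ≤ W := by
    rw [hWe]; unfold wt
    exact Nat.le_mul_of_pos_left _ hq
  have hlogq : Nat.log 2 τ.1 ≤ L := by rw [hL]; exact Nat.log_mono_right hqW
  have hJ1L : J1 ≤ 8 * (L + 1) := by omega
  have h2l : W ^ 4 ≤ 2 ^ l := by
    have h1 : W ≤ 2 ^ (L + 1) := by rw [hL]; exact (Nat.lt_pow_succ_log_self (by norm_num) _).le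
    calc W ^ 4 ≤ (2 ^ (L + 1)) ^ 4 := Nat.pow_le_pow_left h1 4
      _ = 2 ^ l := by rw [← pow_mul, hl]; congr 1; ring
  have hscale : ∀ J', J1 ≤ J' → τ.1 * (1 + τ.2.2.natAbs) ^ 2 ≤ 2 ^ J' := by
    intro J' hJ'
    calc τ.1 * (1 + τ.2.2.natAbs) ^ 2 ≤ W * W ^ 2 :=
          Nat.mul_le_mul hqW (Nat.pow_le_pow_left hiW 2)
      _ = W ^ 3 := by ring
      _ ≤ W ^ 4 := Nat.pow_le_pow_right hW (by norm_num)
      _ ≤ 2 ^ l := h2l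
      _ ≤ 2 ^ J' := Nat.pow_le_pow_right (by norm_num) (by omega)
  have hscale2 : ∀ J', J1 ≤ J' → τ.1 ≤ 2 ^ J' := by
    intro J' hJ'
    refine le_trans ?_ (hscale J' hJ')
    exact Nat.le_mul_of_pos_right _ (by positivity)
  -- split
  rw [← Finset.sum_filter_add_sum_filter_not F (fun x => J x < J1)]
  obtain ⟨Fs, hFs⟩ : ∃ Fs, Fs = F.filter (fun x => J x < J1) := ⟨_, rfl⟩
  obtain ⟨Fl, hFl⟩ : ∃ Fl, Fl = F.filter (fun x => ¬ J x < J1) := ⟨_, rfl⟩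
  rw [← hFs, ← hFl]
  have hFsF : Fs ⊆ F := by rw [hFs]; exact Finset.filter_subset _ _
  have hFlF : Fl ⊆ F := by rw [hFl]; exact Finset.filter_subset _ _
  have hFsc : (Fs.card : ℝ) ≤ F.card := by exact_mod_cast Finset.card_le_card hFsF
  have hFlc : (Fl.card : ℝ) ≤ F.card := by exact_mod_cast Finset.card_le_card hFlF
  have hR0 : 0 ≤ ρ ^ (1 - ((2 * (κ + 1) : ℕ) : ℝ) / d) := Real.rpow_nonneg hρ _
  obtain ⟨R, hR⟩ : ∃ R, R = ρ ^ (1 - ((2 * (κ + 1) : ℕ) : ℝ) / d) := ⟨_, rfl⟩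
  have ps := small_scales (κ + 1) m C hC τ hq E Fs ρ hρ (hD.mono hFsF) J (fun x hx => hG x (hFsF hx))
    J1 (fun x hx => by rw [hFs] at hx; exact (Finset.mem_filter.1 hx).2) (by omega) hkd hmd
  -- dual hypotheses
  obtain ⟨U, hU0, hU1, hU2, hU3⟩ := hth τ hq
  have hi0 : (0 : ℝ) < ((1 + τ.2.2.natAbs : ℕ) : ℝ) := by positivity
  have hFlJ : ∀ x ∈ Fl, J1 ≤ J x := by
    intro x hx
    rw [hFl] at hx
    have := (Finset.mem_filter.1 hx).2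
    omega
  have H : DualHyp (κ + 1) m C' τ Fl J (8 ^ d * (Kt / ((1 + τ.2.2.natAbs : ℕ) : ℝ) ^ 5) + 2 * (6 * U) ^ d) := by
    refine ⟨hq, ?_, by positivity, ?_, ?_⟩
    · intro j hj
      exact (Dl_rat κ m hκ C hC hst τ.1 (sj τ.1 j) τ.2.1 hq hcop (sj_ge τ.1 j hq hj).2).trans hrat'
    · refine le_trans ?_ hth'
      have h1 := hU1 d (by omega)
      calc (8 ^ d * (Kt / ((1 + τ.2.2.natAbs : ℕ) : ℝ) ^ 5) + 2 * (6 * U) ^ d) *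
            ((1 + τ.2.2.natAbs : ℕ) : ℝ) ^ 5
          = 8 ^ d * Kt + 2 * 6 ^ d * (U ^ d * ((1 + τ.2.2.natAbs : ℕ) : ℝ) ^ 5) := by
            rw [mul_pow]; field_simp
        _ ≤ 8 ^ d * Kt + 2 * 6 ^ d * Kt := by
            have := mul_le_mul_of_nonneg_left h1 (show (0 : ℝ) ≤ 2 * 6 ^ d by positivity)
            linarith
        _ = (8 ^ d + 2 * 6 ^ d) * Kt := by ring
    · intro F' hF' B G
      refine lam_dual (κ + 1) m τ.1 hq hm (by omega) F' B J (fun x hx => hscale2 _ (hFlJ x (hF' hx)))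
        (bet (κ + 1) τ) U _ hU0 ?_ ?_ G
      · intro x hx
        rw [le_div_iff₀ (by positivity)]
        exact hU2 (J x) (hscale _ (hFlJ x (hF' hx)))
      · intro x hx x' hx' hne h
        exact hU3 (J x) (J x') (hscale _ (hFlJ x (hF' hx))) (hscale _ (hFlJ x' (hF' hx'))) hne h
  have pl := large_scales hC'1 H (fun x hx => (hG x (hFlF hx)).mono hCC') E ρ hρ (hD.mono hFlF) j0 l
    (by omega) (by omega) (fun x hx => by have := hFlJ x hx; omega) (by omega) hkd hmd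
  rw [← hWe, ← hR] at ps pl
  rw [← hR]
  rw [← hR] at hR0
  obtain ⟨Z, hZ⟩ : ∃ Z, Z = √((F.card : ℝ) * E.card * (R / (W : ℝ) ^ 5)) := ⟨_, rfl⟩
  have hZ0 : 0 ≤ Z := by rw [hZ]; exact Real.sqrt_nonneg _
  have hZs : √((Fs.card : ℝ) * E.card * (R / (W : ℝ) ^ 5)) ≤ Z := by
    rw [hZ]; refine Real.sqrt_le_sqrt ?_; gcongr
  have hZl : √((Fl.card : ℝ) * E.card * (R / (W : ℝ) ^ 5)) ≤ Z := by
    rw [hZ]; refine Real.sqrt_le_sqrt ?_; gcongr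
  have hlog := log_le_rpow W hW
  rw [← hL] at hlog
  -- Z (L+1) bound
  obtain ⟨V, hV⟩ : ∃ V, V = √((F.card : ℝ) * E.card * R) := ⟨_, rfl⟩
  have hV0 : 0 ≤ V := by rw [hV]; exact Real.sqrt_nonneg _
  have hZV : Z = V * (W : ℝ) ^ (-(5 / 2) : ℝ) := by
    rw [hZ, hV, ← mul_div_assoc, Real.sqrt_div (by positivity)]
    rw [div_eq_mul_inv]
    congr 1
    rw [Real.sqrt_eq_rpow, ← Real.rpow_natCast, ← Real.rpow_mul hw0.le, ← Real.rpow_neg hw0.le]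
    congr 1
    norm_num
  have hLZ : ((L + 1 : ℕ) : ℝ) * Z ≤ 6 * ((W : ℝ) ^ (-(9 / 4) : ℝ) * V) := by
    rw [hZV]
    have h1 : (W : ℝ) ^ ((1 : ℝ) / 4) * (W : ℝ) ^ (-(5 / 2) : ℝ) = (W : ℝ) ^ (-(9 / 4) : ℝ) := by
      rw [← Real.rpow_add hw0]; norm_num
    have h2 : 0 ≤ (W : ℝ) ^ (-(5 / 2) : ℝ) := Real.rpow_nonneg hw0.le _
    calc ((L + 1 : ℕ) : ℝ) * (V * (W : ℝ) ^ (-(5 / 2) : ℝ))
        ≤ (6 * (W : ℝ) ^ ((1 : ℝ) / 4)) * (V * (W : ℝ) ^ (-(5 / 2) : ℝ)) :=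
          mul_le_mul_of_nonneg_right hlog (by positivity)
      _ = 6 * (((W : ℝ) ^ ((1 : ℝ) / 4) * (W : ℝ) ^ (-(5 / 2) : ℝ)) * V) := by ring
      _ = _ := by rw [h1]
  obtain ⟨w', hw'⟩ : ∃ w' : ℝ, w' = (W : ℝ) ^ (-(9 / 4) : ℝ) := ⟨_, rfl⟩
  have hw'0 : 0 ≤ w' := by rw [hw']; exact Real.rpow_nonneg hw0.le _
  rw [← hV, ← hw']
  rw [← hw'] at hLZ
  -- error term
  have herr : (E.card : ℝ) * (d * 4 ^ (d - 1) * (2 * Real.pi * ((κ + 1 : ℕ) : ℝ) * (τ.2.2.natAbs + 1) + 4) *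
      (2 / 2 ^ l)) ≤ (d * 4 ^ (d - 1) * (2 * Real.pi * ((κ + 1 : ℕ) : ℝ) + 4) * 2) * (w' * E.card) := by
    have h1 : ((τ.2.2.natAbs : ℕ) : ℝ) + 1 ≤ W := by
      have : ((1 + τ.2.2.natAbs : ℕ) : ℝ) ≤ W := by exact_mod_cast hiW
      push_cast at this
      linarith
    have h2 : 2 * Real.pi * ((κ + 1 : ℕ) : ℝ) * ((τ.2.2.natAbs : ℕ) + 1) + 4 ≤
        (2 * Real.pi * ((κ + 1 : ℕ) : ℝ) + 4) * W := by
      have h3 : 2 * Real.pi * ((κ + 1 : ℕ) : ℝ) * (((τ.2.2.natAbs : ℕ) : ℝ) + 1) ≤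
          2 * Real.pi * ((κ + 1 : ℕ) : ℝ) * W := mul_le_mul_of_nonneg_left h1 (by positivity)
      linarith
    have h4 : (2 : ℝ) / 2 ^ l ≤ 2 / (W : ℝ) ^ 4 := by
      refine div_le_div_of_nonneg_left (by norm_num) (by positivity) ?_
      exact_mod_cast h2l
    have h5 : (W : ℝ) * (2 / (W : ℝ) ^ 4) ≤ 2 * w' := by
      have h6 : (W : ℝ) * (2 / (W : ℝ) ^ 4) = 2 * (W : ℝ) ^ (-3 : ℝ) := by
        rw [Real.rpow_neg hw0.le]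
        have : (W : ℝ) ^ (3 : ℝ) = (W : ℝ) ^ 3 := by exact_mod_cast Real.rpow_natCast (W : ℝ) 3
        rw [this]
        field_simp
      rw [h6]
      refine mul_le_mul_of_nonneg_left ?_ (by norm_num)
      rw [hw']
      exact Real.rpow_le_rpow_of_exponent_le hwR (by norm_num)
    calc (E.card : ℝ) * (d * 4 ^ (d - 1) * (2 * Real.pi * ((κ + 1 : ℕ) : ℝ) * (τ.2.2.natAbs + 1) + 4) *
          (2 / 2 ^ l))
        ≤ (E.card : ℝ) * (d * 4 ^ (d - 1) * ((2 * Real.pi * ((κ + 1 : ℕ) : ℝ) + 4) * W) *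
          (2 / (W : ℝ) ^ 4)) := by gcongr
      _ = (d * 4 ^ (d - 1) * (2 * Real.pi * ((κ + 1 : ℕ) : ℝ) + 4)) * ((W : ℝ) * (2 / (W : ℝ) ^ 4)) *
          E.card := by ring
      _ ≤ (d * 4 ^ (d - 1) * (2 * Real.pi * ((κ + 1 : ℕ) : ℝ) + 4)) * (2 * w') * E.card := by gcongr
      _ = _ := by ring
  have hs2 : (J1 : ℝ) * (2 ^ d * C) * √((Fs.card : ℝ) * E.card * (R / (W : ℝ) ^ 5)) ≤
      8 * (2 ^ d * C) * (6 * (w' * V)) := by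
    have h1 : (J1 : ℝ) ≤ 8 * ((L + 1 : ℕ) : ℝ) := by exact_mod_cast hJ1L
    calc (J1 : ℝ) * (2 ^ d * C) * √((Fs.card : ℝ) * E.card * (R / (W : ℝ) ^ 5))
        ≤ (8 * ((L + 1 : ℕ) : ℝ)) * (2 ^ d * C) * Z := by gcongr
      _ = 8 * (2 ^ d * C) * (((L + 1 : ℕ) : ℝ) * Z) := by ring
      _ ≤ _ := mul_le_mul_of_nonneg_left hLZ (by positivity)
  have hl2 : (l : ℝ) * (6 * 32 ^ d * C' ^ 2) * √((Fl.card : ℝ) * E.card * (R / (W : ℝ) ^ 5)) ≤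
      4 * (6 * 32 ^ d * C' ^ 2) * (6 * (w' * V)) := by
    have h1 : (l : ℝ) = 4 * ((L + 1 : ℕ) : ℝ) := by exact_mod_cast hl
    calc (l : ℝ) * (6 * 32 ^ d * C' ^ 2) * √((Fl.card : ℝ) * E.card * (R / (W : ℝ) ^ 5))
        ≤ (4 * ((L + 1 : ℕ) : ℝ)) * (6 * 32 ^ d * C' ^ 2) * Z := by rw [h1]; gcongr
      _ = 4 * (6 * 32 ^ d * C' ^ 2) * (((L + 1 : ℕ) : ℝ) * Z) := by ring
      _ ≤ _ := mul_le_mul_of_nonneg_left hLZ (by positivity)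
  have hfin := add_le_add ps pl
  refine hfin.trans ?_
  have e1 : 0 ≤ (6 * (8 * (2 ^ d * C) + 4 * (6 * 32 ^ d * C' ^ 2))) * (w' * (E.card : ℝ)) := by positivity
  have e2 : 0 ≤ (d * 4 ^ (d - 1) * (2 * Real.pi * ((κ + 1 : ℕ) : ℝ) + 4) * 2) * (w' * V) := by positivity
  have e3 : (6 * (8 * (2 ^ d * C) + 4 * (6 * 32 ^ d * C' ^ 2)) +
      d * 4 ^ (d - 1) * (2 * Real.pi * ((κ + 1 : ℕ) : ℝ) + 4) * 2) * (w' * (V + E.card)) =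
      8 * (2 ^ d * C) * (6 * (w' * V)) + 4 * (6 * 32 ^ d * C' ^ 2) * (6 * (w' * V)) +
      (6 * (8 * (2 ^ d * C) + 4 * (6 * 32 ^ d * C' ^ 2))) * (w' * (E.card : ℝ)) +
      (d * 4 ^ (d - 1) * (2 * Real.pi * ((κ + 1 : ℕ) : ℝ) + 4) * 2) * (w' * V) +
      (d * 4 ^ (d - 1) * (2 * Real.pi * ((κ + 1 : ℕ) : ℝ) + 4) * 2) * (w' * E.card) := by ring
  rw [e3]
  linarith

end Pool.Agent.helper132_sph
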