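import Pool.Agent.helper132_sph.Conv

/-! The contribution of a single triple. -/

namespace Pool.Agent.helper132_sph

open Finset

lemma sum_half_pow_le (S : Finset ℕ) (N0 : ℕ) (hS : ∀ n ∈ S, N0 ≤ n) :
    ∑ n ∈ S, ((1 : ℝ) / 2) ^ n ≤ 2 * (1 / 2) ^ N0 := by
  classical
  obtain ⟨M, hM⟩ : ∃ M, ∀ n ∈ S, n < M := ⟨S.sup id + 1, fun n hn => by
    have := Finset.le_sup (f := id) hn
    simp only [id] at this
    omega⟩
  have h1 : S ⊆ Ico N0 M := fun n hn => Finset.mem_Ico.2 ⟨hS n hn, hM n hn⟩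
  calc ∑ n ∈ S, ((1 : ℝ) / 2) ^ n ≤ ∑ n ∈ Ico N0 M, ((1 : ℝ) / 2) ^ n :=
        Finset.sum_le_sum_of_subset_of_nonneg h1 fun _ _ _ => by positivity
    _ ≤ (1 / 2) ^ N0 / (1 - 1 / 2) := geom_sum_Ico_le_of_lt_one (by norm_num) (by norm_num)
    _ = 2 * (1 / 2) ^ N0 := by ring

lemma split_levels {d : ℕ} (E : Finset (Fin d → ℤ)) (I : (Fin d → ℤ) → ℕ) (J l : ℕ) (hl : 2 ≤ l)
    (f : (Fin d → ℤ) → ℂ) (hf : ∀ e ∈ E, J < I e + 2 → f e = 0) :
    ∑ e ∈ E, f e = ∑ e ∈ E.filter (fun e => I e + l ≤ J), f e +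
      ∑ s ∈ Ico 2 l, ∑ e ∈ E.filter (fun e => I e + s = J), f e := by
  classical
  simp only [Finset.sum_filter]
  rw [Finset.sum_comm, ← Finset.sum_add_distrib]
  refine Finset.sum_congr rfl fun e he => ?_
  rcases lt_or_ge J (I e + 2) with h | h
  · rw [hf e he h]; simp
  · rcases le_or_gt (I e + l) J with h2 | h2
    · rw [if_pos h2]
      rw [Finset.sum_eq_zero, add_zero]
      intro s hs
      rw [Finset.mem_Ico] at hs
      rw [if_neg (by omega)]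
    · rw [if_neg (by omega), zero_add]
      rw [Finset.sum_eq_single (J - I e)]
      · rw [if_pos (by omega)]
      · intro s _ hs
        rw [if_neg (by omega)]
      · intro hs
        exfalso
        apply hs
        rw [Finset.mem_Ico]
        omega

lemma rpow_const_le (b ρ : ℝ) (d r : ℕ) (hb : 1 ≤ b) (hρ : 0 ≤ ρ) (hr : r < d) :
    (b ^ d * ρ) ^ (1 - (r : ℝ) / d) ≤ b ^ d * ρ ^ (1 - (r : ℝ) / d) := by
  have hdR : (0 : ℝ) < d := by exact_mod_cast (by omega : 0 < d)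
  rw [Real.mul_rpow (by positivity) hρ]
  refine mul_le_mul_of_nonneg_right ?_ (Real.rpow_nonneg hρ _)
  have h1 : 1 ≤ b ^ d := one_le_pow₀ hb
  calc (b ^ d) ^ (1 - (r : ℝ) / d) ≤ (b ^ d) ^ (1 : ℝ) := by
        refine Real.rpow_le_rpow_of_exponent_le h1 ?_
        have : 0 ≤ (r : ℝ) / d := by positivity
        linarith
    _ = b ^ d := Real.rpow_one _

/-- the kernel approximation error at one scale. -/
lemma err_one {d : ℕ} (k q X s : ℕ) (c : ℤ) (t : ℝ) (hk : 1 ≤ k) (hX : 1 ≤ X) (hq : 1 ≤ q)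
    (hs : 1 ≤ s) (hqs : q ∣ s) (hsX : s ≤ X) (F : Finset (Fin d → ℤ)) (e : Fin d → ℤ) :
    ∑ x ∈ F, ‖∏ j, (kap k X ((c : ℝ) / q + t / (X : ℝ) ^ k) (x j - e j) / (X : ℂ)) -
      ∏ j, bker q k X s c (t / (X : ℝ) ^ k) (x j - e j)‖ ≤
      d * (((2 * Real.pi * k * |t| + 4) * s / X) * 4 ^ (d - 1)) := by
  classical
  have hXR : (0 : ℝ) < X := by exact_mod_cast hX
  have hsR : (0 : ℝ) < s := by exact_mod_cast hs
  have hsXR : (s : ℝ) ≤ X := by exact_mod_cast hsX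
  have hpi := Real.pi_pos
  have hinj : Set.InjOn (fun x : Fin d → ℤ => (fun j => x j - e j)) (F : Set (Fin d → ℤ)) := by
    intro a _ b _ hab
    funext j
    have := congrFun hab j
    simp only at this
    linarith
  have e2 := Finset.sum_image (f := fun v : Fin d → ℤ =>
    ‖∏ j, (kap k X ((c : ℝ) / q + t / (X : ℝ) ^ k) (v j) / (X : ℂ)) -
      ∏ j, bker q k X s c (t / (X : ℝ) ^ k) (v j)‖) hinj
  refine e2.symm.le.trans ?_
  refine le_trans (sum_le_sum_of_ne _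
    (Fintype.piFinset (fun _ : Fin d => Ico (0 : ℤ) ((X + s : ℤ)))) _
    (fun _ => norm_nonneg _) ?_) ?_
  · intro v _ hne
    rw [Fintype.mem_piFinset]
    rw [norm_ne_zero_iff] at hne
    by_contra hcon
    push Not at hcon
    obtain ⟨j, hj⟩ := hcon
    apply hne
    rw [Finset.mem_Ico] at hj
    have h1 : ∏ j, (kap k X ((c : ℝ) / q + t / (X : ℝ) ^ k) (v j) / (X : ℂ)) = 0 := by
      refine Finset.prod_eq_zero (Finset.mem_univ j) ?_
      by_contra h0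
      have : kap k X ((c : ℝ) / q + t / (X : ℝ) ^ k) (v j) ≠ 0 := by
        intro h0'; apply h0; rw [h0', zero_div]
      have := kap_supp k X _ _ this
      apply hj
      have hs0 : (0 : ℤ) ≤ s := Nat.cast_nonneg _
      exact ⟨this.1, by linarith [this.2]⟩
    have h2 : ∏ j, bker q k X s c (t / (X : ℝ) ^ k) (v j) = 0 := by
      refine Finset.prod_eq_zero (Finset.mem_univ j) ?_
      by_contra h0
      exact hj (bker_supp q k X s c _ _ hs h0)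
    rw [h1, h2, sub_zero]
  · refine prod_ker_l1 d (fun n => kap k X ((c : ℝ) / q + t / (X : ℝ) ^ k) n / (X : ℂ))
      (fun n => bker q k X s c (t / (X : ℝ) ^ k) n) ((X + s : ℤ)) _ 4 ?_ ?_ (by positivity)
    · exact fact_one q k X s c t hk hX hq hs hqs hsX
    · calc ∑ n ∈ Ico (0 : ℤ) ((X + s : ℤ)), (‖kap k X ((c : ℝ) / q + t / (X : ℝ) ^ k) n / (X : ℂ)‖ +
            ‖bker q k X s c (t / (X : ℝ) ^ k) n‖)
          ≤ ∑ n ∈ Ico (0 : ℤ) ((X + s : ℤ)), (1 / (X : ℝ) + 1 / X) := by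
            refine Finset.sum_le_sum fun n _ => add_le_add ?_ ?_
            · rw [norm_div, Complex.norm_natCast]
              exact div_le_div_of_nonneg_right (norm_kap_le _ _ _ _) hXR.le
            · exact norm_bker_le q k X s c _ n hX hq hs hqs
        _ = (X + s) * (2 / X) := by
            rw [Finset.sum_const, Int.card_Ico, nsmul_eq_mul]
            have : (((X : ℤ) + s - 0).toNat : ℝ) = X + s := by
              have h1 : ((X : ℤ) + s - 0).toNat = X + s := by omega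
              rw [h1]; push_cast; ring
            rw [this]
            ring
        _ ≤ (X + X) * (2 / X) := by gcongr
        _ = 4 := by field_simp; ring

/-- the total kernel approximation error. -/
lemma err_total {d : ℕ} (k : ℕ) (hk : 1 ≤ k) (τ : ℕ × ℤ × ℤ) (hq : 1 ≤ τ.1)
    (E F : Finset (Fin d → ℤ)) (J : (Fin d → ℤ) → ℕ) (j0 l : ℕ) (hj0 : Nat.log 2 τ.1 + 2 ≤ j0) :
    ∑ x ∈ F, ∑ e ∈ E.filter (fun e => idx j0 F e + l ≤ J x),
      ‖∏ j, (kap k (2 ^ J x) (frq k (2 ^ J x) τ) (x j - e j) / ((2 ^ J x : ℕ) : ℂ)) -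
        ∏ j, bker τ.1 k (2 ^ J x) (sj τ.1 (idx j0 F e)) τ.2.1 (bet k τ (J x)) (x j - e j)‖ ≤
      E.card * (d * 4 ^ (d - 1) * (2 * Real.pi * k * (τ.2.2.natAbs + 1) + 4) * (2 / 2 ^ l)) := by
  classical
  have hpi := Real.pi_pos
  have hswap : ∑ x ∈ F, ∑ e ∈ E.filter (fun e => idx j0 F e + l ≤ J x),
      ‖∏ j, (kap k (2 ^ J x) (frq k (2 ^ J x) τ) (x j - e j) / ((2 ^ J x : ℕ) : ℂ)) -
        ∏ j, bker τ.1 k (2 ^ J x) (sj τ.1 (idx j0 F e)) τ.2.1 (bet k τ (J x)) (x j - e j)‖ =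
      ∑ e ∈ E, ∑ x ∈ F.filter (fun x => idx j0 F e + l ≤ J x),
      ‖∏ j, (kap k (2 ^ J x) (frq k (2 ^ J x) τ) (x j - e j) / ((2 ^ J x : ℕ) : ℂ)) -
        ∏ j, bker τ.1 k (2 ^ J x) (sj τ.1 (idx j0 F e)) τ.2.1 (bet k τ (J x)) (x j - e j)‖ := by
    simp only [Finset.sum_filter]
    rw [Finset.sum_comm]
  rw [hswap, ← nsmul_eq_mul, ← Finset.sum_const]
  refine Finset.sum_le_sum fun e _ => ?_
  obtain ⟨n0, hn0⟩ : ∃ n0, n0 = idx j0 F e := ⟨_, rfl⟩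
  rw [← hn0]
  have hn0j : j0 ≤ n0 := by rw [hn0]; exact idx_ge _ _ _
  obtain ⟨hs1, hs2⟩ := sj_ge τ.1 n0 hq (by omega)
  have hs3 := sj_le τ.1 n0
  rw [sum_group _ J]
  have hstep : ∀ n ∈ (F.filter (fun x => n0 + l ≤ J x)).image J,
      ∑ x ∈ (F.filter (fun x => n0 + l ≤ J x)).filter (fun x => J x = n),
      ‖∏ j, (kap k (2 ^ J x) (frq k (2 ^ J x) τ) (x j - e j) / ((2 ^ J x : ℕ) : ℂ)) -
        ∏ j, bker τ.1 k (2 ^ J x) (sj τ.1 n0) τ.2.1 (bet k τ (J x)) (x j - e j)‖ ≤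
      d * 4 ^ (d - 1) * (2 * Real.pi * k * (τ.2.2.natAbs + 1) + 4) * 2 ^ n0 * (1 / 2) ^ n := by
    intro n hn
    rw [Finset.mem_image] at hn
    obtain ⟨x0, hx0, hx0n⟩ := hn
    have hln : n0 + l ≤ n := by
      rw [← hx0n]; exact (Finset.mem_filter.1 hx0).2
    have hX : 1 ≤ 2 ^ n := Nat.one_le_two_pow
    have h1 : ∀ x ∈ (F.filter (fun x => n0 + l ≤ J x)).filter (fun x => J x = n),
      ‖∏ j, (kap k (2 ^ J x) (frq k (2 ^ J x) τ) (x j - e j) / ((2 ^ J x : ℕ) : ℂ)) -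
        ∏ j, bker τ.1 k (2 ^ J x) (sj τ.1 n0) τ.2.1 (bet k τ (J x)) (x j - e j)‖ =
      ‖∏ j, (kap k (2 ^ n) ((τ.2.1 : ℝ) / τ.1 + tt k (2 ^ n) τ / (((2 ^ n : ℕ)) : ℝ) ^ k) (x j - e j) / ((2 ^ n : ℕ) : ℂ)) -
        ∏ j, bker τ.1 k (2 ^ n) (sj τ.1 n0) τ.2.1 (tt k (2 ^ n) τ / (((2 ^ n : ℕ)) : ℝ) ^ k) (x j - e j)‖ := by
      intro x hx
      rw [(Finset.mem_filter.1 hx).2, ← frq_eq k (2 ^ n) hX τ]
      rfl
    rw [Finset.sum_congr rfl h1]
    have h2n : (2 : ℕ) ^ n0 ≤ 2 ^ n := Nat.pow_le_pow_right (by norm_num) (by omega)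
    refine (err_one k τ.1 (2 ^ n) (sj τ.1 n0) τ.2.1 (tt k (2 ^ n) τ) hk hX hq (by omega)
      (sj_dvd _ _) (by omega) _ e).trans ?_
    have ht : |tt k (2 ^ n) τ| ≤ τ.2.2.natAbs + 1 := by
      have h3 := abs_tt_sub k (2 ^ n) hX τ hq
      have h4 := abs_add_le (tt k (2 ^ n) τ - τ.2.2) τ.2.2
      rw [sub_add_cancel] at h4
      have h5 : ((τ.2.2.natAbs : ℕ) : ℝ) = |(τ.2.2 : ℝ)| := by rw [Nat.cast_natAbs]; simp
      rw [h5]; linarith
    have hs3R : (sj τ.1 n0 : ℝ) ≤ 2 ^ n0 := by exact_mod_cast hs3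
    have hXe : (((2 ^ n : ℕ)) : ℝ) = 2 ^ n := by push_cast; ring
    rw [hXe, one_div, inv_pow]
    calc (d : ℝ) * (((2 * Real.pi * k * |tt k (2 ^ n) τ| + 4) * (sj τ.1 n0) / 2 ^ n) * 4 ^ (d - 1))
        ≤ (d : ℝ) * (((2 * Real.pi * k * (τ.2.2.natAbs + 1) + 4) * 2 ^ n0 / 2 ^ n) * 4 ^ (d - 1)) := by
          gcongr
      _ = _ := by ring
  refine (Finset.sum_le_sum hstep).trans ?_
  rw [← Finset.mul_sum]
  have hgeo := sum_half_pow_le ((F.filter (fun x => n0 + l ≤ J x)).image J) (n0 + l) (by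
    intro n hn
    rw [Finset.mem_image] at hn
    obtain ⟨x0, hx0, hx0n⟩ := hn
    rw [← hx0n]; exact (Finset.mem_filter.1 hx0).2)
  have hc0 : 0 ≤ (d : ℝ) * 4 ^ (d - 1) * (2 * Real.pi * k * (τ.2.2.natAbs + 1) + 4) * 2 ^ n0 := by
    positivity
  refine (mul_le_mul_of_nonneg_left hgeo hc0).trans (le_of_eq ?_)
  rw [pow_add, one_div, inv_pow, inv_pow]
  field_simp

end Pool.Agent.helper132_sph
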