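import Pool.Agent.helper132_sph.Basic

/-! A counting lemma: many multiples of `γ` near integers force `γ` to be near a rational. -/

namespace Pool.Agent.helper132_sph

open Finset

/-- `Near x ε`: some integer lies within `ε` of `x`. -/
def Near (x ε : ℝ) : Prop := ∃ b : ℤ, |x - b| ≤ ε

lemma Near.nonneg {x ε : ℝ} (h : Near x ε) : 0 ≤ ε := by
  obtain ⟨b, hb⟩ := h
  exact (abs_nonneg _).trans hb

lemma Near.mono {x ε δ : ℝ} (h : Near x ε) (hd : ε ≤ δ) : Near x δ := by
  obtain ⟨b, hb⟩ := h
  exact ⟨b, hb.trans hd⟩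

lemma near_half (x : ℝ) : Near x (1 / 2) := ⟨round x, abs_sub_round x⟩

lemma vino (N : ℕ) (hN : 1 ≤ N) (γ ε : ℝ) (S : Finset ℕ) (hS : S ⊆ Icc 1 N) (hne : S.Nonempty)
    (hε : ∀ h ∈ S, Near (h * γ) ε) (hsm : 24 * N * ε ≤ S.card) :
    ∃ q : ℕ, 1 ≤ q ∧ (q : ℝ) * S.card ≤ 8 * N ∧ Near (q * γ) (8 * ε / S.card) := by
  have hσpos : (0 : ℝ) < S.card := by exact_mod_cast hne.card_pos
  have hε0 : 0 ≤ ε := by
    obtain ⟨h, hh⟩ := hne
    exact (hε h hh).nonneg
  rcases lt_or_ge S.card 8 with hc | hc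
  · obtain ⟨h, hh⟩ := hne
    have hh' := Finset.mem_Icc.1 (hS hh)
    refine ⟨h, hh'.1, ?_, ?_⟩
    · have h1 : (h : ℝ) ≤ N := by exact_mod_cast hh'.2
      have h2 : (S.card : ℝ) ≤ 8 := by exact_mod_cast hc.le
      nlinarith [h1, h2, hσpos, (Nat.cast_nonneg h : (0:ℝ) ≤ h)]
    · refine (hε h hh).mono ?_
      rw [le_div_iff₀ hσpos]
      have h2 : (S.card : ℝ) ≤ 8 := by exact_mod_cast hc.le
      nlinarith
  · obtain ⟨r, hr1, hr2⟩ := Real.exists_rat_abs_sub_le_and_den_le γ (n := 2 * N) (by omega)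
    set q := r.den with hq
    set a := r.num with ha
    have hqpos : 0 < q := r.den_pos
    have hqR : (0 : ℝ) < q := by exact_mod_cast hqpos
    have hrc : (r : ℝ) = a / q := by rw [ha, hq]; exact Rat.cast_def r
    rw [hrc] at hr1
    have hNR : (1 : ℝ) ≤ N := by exact_mod_cast hN
    have hqN : (q : ℝ) ≤ 2 * N := by exact_mod_cast hr2
    have hcop : IsCoprime (a : ℤ) (q : ℤ) := by
      have := r.reduced
      rw [Int.isCoprime_iff_gcd_eq_one]
      exact this
    push_cast at hr1
    -- |q γ - a| ≤ 1/(2N+1)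
    have hθ : |q * γ - a| ≤ 1 / (2 * N + 1) := by
      have h1 : q * γ - a = q * (γ - a / q) := by field_simp
      rw [h1, abs_mul, abs_of_pos hqR]
      calc (q : ℝ) * |γ - a / q| ≤ q * (1 / ((2 * N + 1) * q)) := by gcongr
        _ = 1 / (2 * N + 1) := by field_simp
    choose! b hb using hε
    have hR : ∀ h ∈ S, |((h : ℤ) * a - q * b h : ℤ)| < (q * ε + 1 / 2 : ℝ) := by
      intro h hh
      have hh' := Finset.mem_Icc.1 (hS hh)
      have hhN : (h : ℝ) ≤ N := by exact_mod_cast hh'.2
      have h0 : (0 : ℝ) ≤ h := Nat.cast_nonneg h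
      have e1 : ((((h : ℤ) * a - q * b h : ℤ)) : ℝ) = q * (h * γ - b h) - h * (q * γ - a) := by
        push_cast; ring
      have e2 : |((((h : ℤ) * a - q * b h : ℤ)) : ℝ)| ≤ q * ε + h * (1 / (2 * N + 1)) := by
        rw [e1]
        refine (abs_sub _ _).trans ?_
        rw [abs_mul, abs_mul, abs_of_pos hqR, abs_of_nonneg h0]
        gcongr
        exact hb h hh
      have e3 : (h : ℝ) * (1 / (2 * N + 1)) < 1 / 2 := by
        rw [mul_one_div, div_lt_div_iff₀ (by positivity) (by norm_num)]
        nlinarith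
      rw [Int.cast_abs]
      linarith
    -- the injection
    have hinj : ∀ h ∈ S, ∀ h' ∈ S, ((h : ℤ) * a - q * b h) = ((h' : ℤ) * a - q * b h') →
        h / q = h' / q → h = h' := by
      intro h hh h' hh' e1 e2
      have e3 : (q : ℤ) ∣ ((h : ℤ) - h') * a := by
        refine ⟨b h - b h', ?_⟩
        linarith
      have e4 : (q : ℤ) ∣ ((h : ℤ) - h') := hcop.symm.dvd_of_dvd_mul_right e3
      have e5 : h ≡ h' [MOD q] := by
        rw [← Int.natCast_modEq_iff]
        exact (Int.modEq_iff_dvd.2 (by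
          have := dvd_neg.2 e4
          simpa using this))
      have e6 : h % q = h' % q := e5
      rw [← Nat.div_add_mod h q, ← Nat.div_add_mod h' q, e2, e6]
    set K := ⌊(q * ε + 1 / 2 : ℝ)⌋₊ with hK
    have hKle : (K : ℝ) ≤ q * ε + 1 / 2 := Nat.floor_le (by positivity)
    have hcard : S.card ≤ (2 * K + 1) * (N / q + 1) := by
      have : S.card ≤ ((Finset.Icc (-(K : ℤ)) K) ×ˢ (Finset.range (N / q + 1))).card := by
        refine Finset.card_le_card_of_injOn (fun h => ((h : ℤ) * a - q * b h, h / q)) ?_ ?_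
        · intro h hh
          simp only [Finset.coe_product, Set.mem_prod, Finset.coe_Icc, Set.mem_Icc,
            Finset.coe_range, Set.mem_Iio]
          have h1 := hR h hh
          have h2 : |((h : ℤ) * a - q * b h : ℤ)| ≤ K := by
            have h3 : (((|((h : ℤ) * a - q * b h : ℤ)|).toNat : ℕ) : ℤ)
                = |((h : ℤ) * a - q * b h : ℤ)| := Int.toNat_of_nonneg (abs_nonneg _)
            rw [← h3]
            have h4 : ((|((h : ℤ) * a - q * b h : ℤ)|).toNat) ≤ K := by
              apply Nat.le_floor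
              have h5 : (((|((h : ℤ) * a - q * b h : ℤ)|).toNat : ℕ) : ℝ)
                  = ((|((h : ℤ) * a - q * b h : ℤ)| : ℤ) : ℝ) := by
                exact_mod_cast congrArg (fun z : ℤ => (z : ℝ)) h3
              rw [h5]
              exact h1.le
            exact_mod_cast h4
          refine ⟨abs_le.1 h2, ?_⟩
          have := (Finset.mem_Icc.1 (hS hh)).2
          exact Nat.lt_succ_of_le (Nat.div_le_div_right this)
        · intro h hh h' hh' e
          simp only [Prod.mk.injEq] at e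
          exact hinj h hh h' hh' e.1 e.2
      rw [Finset.card_product, Int.card_Icc, Finset.card_range] at this
      have e : ((K : ℤ) + 1 - (-(K : ℤ))).toNat = 2 * K + 1 := by omega
      rwa [e] at this
    have hσ8 : (8 : ℝ) ≤ S.card := by exact_mod_cast hc
    have hdiv : ((N / q : ℕ) : ℝ) ≤ N / q := Nat.cast_div_le
    have hmain : (S.card : ℝ) ≤ (2 * (q * ε + 1 / 2) + 1) * (N / q + 1) := by
      calc (S.card : ℝ) ≤ (2 * K + 1) * ((N / q : ℕ) + 1) := by exact_mod_cast hcard
        _ ≤ _ := by gcongr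
    have hmain2 : (S.card : ℝ) ≤ 2 * ε * N + 2 * (q * ε) + 2 * (N / q) + 2 := by
      have : (2 * (q * ε + 1 / 2) + 1) * (N / q + 1) = 2 * ε * N + 2 * (q * ε) + 2 * ((N:ℝ) / q) + 2 := by
        field_simp
        ring
      linarith
    have hqε : (q : ℝ) * ε ≤ 2 * N * ε := by gcongr
    have hqσ : (q : ℝ) * S.card ≤ 4 * N := by
      have h1 : (S.card : ℝ) / 2 ≤ 2 * (N / q) := by nlinarith
      have h2 : (q : ℝ) * (S.card / 2) ≤ q * (2 * (N / q)) := by gcongr
      have h3 : (q : ℝ) * (2 * (N / q)) = 2 * N := by field_simp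
      linarith
    have hqe6 : (q : ℝ) * ε ≤ 1 / 6 := by
      -- q ε σ ≤ 4 N ε ≤ σ / 6
      have h1 : (q : ℝ) * S.card * ε ≤ 4 * N * ε := by gcongr
      have h2 : (q : ℝ) * ε * S.card ≤ (1 / 6) * S.card := by nlinarith
      exact le_of_mul_le_mul_right h2 hσpos
    have hRz : ∀ h ∈ S, ((h : ℤ) * a - q * b h) = 0 := by
      intro h hh
      have h1 := hR h hh
      have h2 : ((|((h : ℤ) * a - q * b h : ℤ)| : ℤ) : ℝ) < 1 := by linarith
      have h3 : |((h : ℤ) * a - q * b h : ℤ)| < 1 := by exact_mod_cast h2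
      exact Int.abs_lt_one_iff.1 h3
    have hdvd : ∀ h ∈ S, q ∣ h := by
      intro h hh
      have h1 : (q : ℤ) ∣ (h : ℤ) * a := ⟨b h, by linarith [hRz h hh]⟩
      have h2 : (q : ℤ) ∣ (h : ℤ) := hcop.symm.dvd_of_dvd_mul_right h1
      exact_mod_cast h2
    set hm := S.max' hne with hhm
    have hmS : hm ∈ S := Finset.max'_mem S hne
    have hmq : S.card * q ≤ hm := by
      have : S.card ≤ (Finset.Icc 1 (hm / q)).card := by
        refine Finset.card_le_card_of_injOn (fun h => h / q) ?_ ?_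
        · intro h hh
          simp only [Finset.coe_Icc, Set.mem_Icc]
          have h1 := hdvd h hh
          have h2 := (Finset.mem_Icc.1 (hS hh)).1
          constructor
          · exact Nat.div_pos (Nat.le_of_dvd (by omega) h1) hqpos
          · exact Nat.div_le_div_right (Finset.le_max' S h hh)
        · intro h hh h' hh' e
          have h1 := Nat.div_mul_cancel (hdvd h hh)
          have h2 := Nat.div_mul_cancel (hdvd h' hh')
          simp only at e
          rw [← h1, ← h2, e]
      rw [Nat.card_Icc] at this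
      have h3 : hm / q + 1 - 1 = hm / q := by omega
      rw [h3] at this
      calc S.card * q ≤ hm / q * q := Nat.mul_le_mul_right q this
        _ ≤ hm := Nat.div_mul_le_self hm q
    have hmqR : (S.card : ℝ) * q ≤ hm := by exact_mod_cast hmq
    have hmpos : (0 : ℝ) < hm := by
      have : (0 : ℝ) < S.card * q := by positivity
      linarith
    refine ⟨q, hqpos, by linarith, a, ?_⟩
    have hb' := hb hm hmS
    have hz := hRz hm hmS
    have hz' : (hm : ℝ) * a = q * b hm := by
      have : ((hm : ℤ) * a : ℤ) = q * b hm := by linarith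
      exact_mod_cast this
    -- hm * (qγ - a) = q (hm γ - b)
    have e1 : (hm : ℝ) * (q * γ - a) = q * (hm * γ - b hm) := by linarith
    have e2 : (hm : ℝ) * |q * γ - a| ≤ q * ε := by
      have : |(hm : ℝ) * (q * γ - a)| = |q * (hm * γ - b hm)| := by rw [e1]
      rw [abs_mul, abs_mul, abs_of_pos hmpos, abs_of_pos hqR] at this
      rw [this]
      gcongr
    have e3 : (S.card : ℝ) * |q * γ - a| ≤ ε := by
      have h1 : (S.card : ℝ) * q * |q * γ - a| ≤ q * ε := by
        calc (S.card : ℝ) * q * |q * γ - a| ≤ hm * |q * γ - a| := by gcongr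
          _ ≤ q * ε := e2
      have h2 : (q : ℝ) * (S.card * |q * γ - a|) ≤ q * ε := by linarith
      exact le_of_mul_le_mul_left h2 hqR
    rw [le_div_iff₀ hσpos]
    nlinarith [abs_nonneg (q * γ - a)]

end Pool.Agent.helper132_sph
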