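import Pool.Agent.helper132_sph.Weyl

namespace Pool.Agent.helper132_sph

open Finset


/-- The inverse theorem: a large Weyl sum forces its leading coefficient to be near a rational. -/
theorem weyl_inverse (m : ℕ) (hm : 1 ≤ m) : ∃ A : ℕ, ∃ C : ℝ, 1 ≤ A ∧ 1 ≤ C ∧
    ∀ (N : ℕ) (_ : 1 ≤ N) (α : ℝ) (φ : ℤ → ℝ) (_ : Ph m α φ) (a b : ℤ) (_ : b - a ≤ N),
    ∃ q : ℕ, ∃ c : ℤ, 1 ≤ q ∧ (q : ℝ) * (‖∑ n ∈ Ico a b, ec (φ n)‖ / N) ^ A ≤ C ∧
      |q * α - c| * (‖∑ n ∈ Ico a b, ec (φ n)‖ / N) ^ A * (N : ℝ) ^ m ≤ C := by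
  induction m, hm using Nat.le_induction with
  | base =>
    refine ⟨1, 1, le_rfl, le_rfl, ?_⟩
    intro N hN α φ hφ a b hab
    obtain ⟨c, hc⟩ := weyl_one N hN α φ hφ a b hab
    refine ⟨1, c, le_rfl, ?_, ?_⟩
    · have hNR : (0 : ℝ) < N := by exact_mod_cast hN
      simp only [Nat.cast_one, one_mul, pow_one]
      rw [div_le_one hNR]
      exact norm_sum_ec_le a b φ N hab
    · simpa using hc
  | succ m hm ih =>
    obtain ⟨A, C, hA, hC, ih⟩ := ih
    set K : ℝ := 192 * C ^ 2 * 64 ^ A with hK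
    have hC0 : 0 < C := by linarith
    have h64 : (1 : ℝ) ≤ 64 ^ A := one_le_pow₀ (by norm_num)
    have hK1 : 192 ≤ K := by
      rw [hK]
      have h1 : (1 : ℝ) ≤ C ^ 2 := one_le_pow₀ hC
      have h2 := mul_le_mul h1 h64 (by norm_num) (by positivity)
      linarith
    have hKm : (1 : ℝ) ≤ K ^ (m + 1) := one_le_pow₀ (by linarith)
    refine ⟨(4 * A + 2) * (m + 1), K ^ (m + 1) + 64 * (m + 1) * C ^ 2 * 64 ^ A, ?_, ?_, ?_⟩
    · exact Nat.succ_le_of_lt (by positivity)
    · have : (0:ℝ) ≤ 64 * (m + 1) * C ^ 2 * 64 ^ A := by positivity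
      linarith
    intro N hN α φ hφ a b hab
    set Sn := ‖∑ n ∈ Ico a b, ec (φ n)‖ with hSn
    set u := Sn / N with hu
    have hNR : (1 : ℝ) ≤ N := by exact_mod_cast hN
    have hNpos : (0 : ℝ) < N := by linarith
    have hS0 : 0 ≤ Sn := norm_nonneg _
    have hSN : Sn ≤ N := norm_sum_ec_le a b φ N hab
    have hu0 : 0 ≤ u := by positivity
    have hu1 : u ≤ 1 := by rw [hu, div_le_one hNpos]; exact hSN
    have hSu : Sn = u * N := by rw [hu]; field_simp
    have hpe : u ^ ((4 * A + 2) * (m + 1)) = (u ^ (4 * A + 2)) ^ (m + 1) := by rw [pow_mul]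
    have hule : u ^ ((4 * A + 2) * (m + 1)) ≤ u ^ (4 * A + 2) :=
      pow_le_pow_of_le_one hu0 hu1 (Nat.le_mul_of_pos_right _ (Nat.succ_pos m))
    have hCpos : (0:ℝ) ≤ 64 * (m + 1) * C ^ 2 * 64 ^ A := by positivity
    rcases le_or_gt ((N : ℝ) * u ^ (4 * A + 2)) K with hT | hT
    · -- trivial case
      refine ⟨1, round α, le_rfl, ?_, ?_⟩
      · have : u ^ ((4 * A + 2) * (m + 1)) ≤ 1 := pow_le_one₀ hu0 hu1
        simp only [Nat.cast_one, one_mul]
        linarith
      · have h1 : |((1:ℕ):ℝ) * α - round α| ≤ 1 := by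
          rw [Nat.cast_one, one_mul]
          exact (abs_sub_round α).trans (by norm_num)
        have h2 : u ^ ((4 * A + 2) * (m + 1)) * (N : ℝ) ^ (m + 1) ≤ K ^ (m + 1) := by
          rw [hpe, ← mul_pow]
          gcongr
          linarith
        calc |((1:ℕ):ℝ) * α - round α| * u ^ ((4 * A + 2) * (m + 1)) * (N : ℝ) ^ (m + 1)
            = |((1:ℕ):ℝ) * α - round α| * (u ^ ((4 * A + 2) * (m + 1)) * (N : ℝ) ^ (m + 1)) := by ring
          _ ≤ 1 * K ^ (m + 1) := by gcongr
          _ ≤ _ := by linarith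
    · -- main case
      have hupos : 0 < u := by
        rcases hu0.lt_or_eq with h | h
        · exact h
        · exfalso
          rw [← h] at hT
          simp at hT
          linarith
      set w := (u ^ 2 / 8) ^ A with hw
      have hwpos : 0 < w := by positivity
      have hw64 : u ^ (4 * A + 2) = w ^ 2 * 64 ^ A * u ^ 2 := by
        rw [hw, ← pow_mul, mul_comm A 2, pow_mul, ← mul_pow, pow_add, mul_comm 4 A, mul_comm A 4,
          pow_mul]
        congr 2
        ring
      have hkey : 192 * C ^ 2 < N * (w ^ 2 * u ^ 2) := by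
        rw [hw64, hK] at hT
        have : 192 * C ^ 2 * 64 ^ A < (N * (w ^ 2 * u ^ 2)) * 64 ^ A := by linarith
        exact lt_of_mul_lt_mul_right this (by positivity)
      have hw1 : w ≤ 1 := by
        rw [hw]
        apply pow_le_one₀ (by positivity)
        have : u ^ 2 ≤ 1 := pow_le_one₀ hu0 hu1
        linarith
      have hN4 : 4 ≤ N * u ^ 2 := by
        have h1 : w ^ 2 ≤ 1 := pow_le_one₀ hwpos.le hw1
        have h2 : N * (w ^ 2 * u ^ 2) ≤ N * (1 * u ^ 2) := by gcongr
        have h3 : (1 : ℝ) ≤ C ^ 2 := one_le_pow₀ hC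
        linarith
      -- differencing
      set D : ℤ → ℝ := fun h => ‖∑ n ∈ Ico (max a (a - h)) (min b (b - h)), ec (φ (n + h) - φ n)‖
        with hD
      have hlen : ∀ h : ℤ, min b (b - h) - max a (a - h) ≤ N := by
        intro h
        have := min_le_left b (b - h)
        have := le_max_left a (a - h)
        linarith
      have hDN : ∀ h : ℤ, D h ≤ N := fun h =>
        norm_sum_ec_le _ _ (fun n => φ (n + h) - φ n) N (hlen h)
      have hD0 : ∀ h : ℤ, 0 ≤ D h := fun h => norm_nonneg _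
      have hdiff := weyl_diff N φ a b hab
      rw [sum_Ioo_symm N _ hN] at hdiff
      have hdiff2 : Sn ^ 2 ≤ N + 2 * ∑ h ∈ Ico 1 N, D (h : ℤ) := by
        refine hdiff.trans ?_
        rw [Finset.mul_sum]
        refine add_le_add (hDN 0) ?_
        refine Finset.sum_le_sum fun h _ => ?_
        have := norm_neg_shift φ a b h
        simp only [hD]
        rw [this]
        linarith
      set H := (Ico 1 N).filter (fun h : ℕ => u ^ 2 / 8 ≤ D (h : ℤ) / N) with hH
      have hHcard : u ^ 2 * N / 8 ≤ H.card := by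
        have h1 : ∑ h ∈ Ico 1 N, D (h : ℤ) ≤ N * H.card + N * (N * (u ^ 2 / 8)) := by
          rw [← Finset.sum_filter_add_sum_filter_not (Ico 1 N) (fun h : ℕ => u ^ 2 / 8 ≤ D (h : ℤ) / N)]
          refine add_le_add ?_ ?_
          · calc ∑ h ∈ H, D (h : ℤ) ≤ ∑ h ∈ H, (N : ℝ) := Finset.sum_le_sum fun h _ => hDN h
              _ = N * H.card := by rw [Finset.sum_const, nsmul_eq_mul]; ring
          · calc ∑ h ∈ (Ico 1 N).filter (fun h : ℕ => ¬ (u ^ 2 / 8 ≤ D (h : ℤ) / N)), D (h : ℤ)
                ≤ ∑ h ∈ (Ico 1 N).filter (fun h : ℕ => ¬ (u ^ 2 / 8 ≤ D (h : ℤ) / N)),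
                  (N * (u ^ 2 / 8)) := by
                  refine Finset.sum_le_sum fun h hh => ?_
                  have := (Finset.mem_filter.1 hh).2
                  rw [not_le, div_lt_iff₀ hNpos] at this
                  linarith
              _ = (((Ico 1 N).filter (fun h : ℕ => ¬ (u ^ 2 / 8 ≤ D (h : ℤ) / N))).card : ℝ) *
                  (N * (u ^ 2 / 8)) := by rw [Finset.sum_const, nsmul_eq_mul]
              _ ≤ N * (N * (u ^ 2 / 8)) := by
                  gcongr
                  have : ((Ico 1 N).filter (fun h : ℕ => ¬ (u ^ 2 / 8 ≤ D (h : ℤ) / N))).card ≤ N := by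
                    refine (Finset.card_filter_le _ _).trans ?_
                    rw [Nat.card_Ico]; omega
                  exact_mod_cast this
        have h2 : (u * N) ^ 2 ≤ N + 2 * (N * H.card + N * (N * (u ^ 2 / 8))) := by
          rw [← hSu]; linarith
        have h3 : N * (u ^ 2 * N) ≤ N * (1 + 2 * (H.card + N * (u ^ 2 / 8))) := by
          have e1 : N * (u ^ 2 * N) = (u * N) ^ 2 := by ring
          have e2 : N * (1 + 2 * ((H.card : ℝ) + N * (u ^ 2 / 8))) =
            N + 2 * (N * H.card + N * (N * (u ^ 2 / 8))) := by ring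
          rw [e1, e2]
          exact h2
        have h4 := le_of_mul_le_mul_left h3 hNpos
        linarith
      -- apply the induction hypothesis
      have hih : ∀ h ∈ H, ∃ q : ℕ, ∃ c : ℤ, 1 ≤ q ∧ (q : ℝ) * w ≤ C ∧
          |(q : ℝ) * (((m : ℝ) + 1) * h * α) - c| * w * (N : ℝ) ^ m ≤ C := by
        intro h hh
        have hge := (Finset.mem_filter.1 hh).2
        obtain ⟨q, c, hq1, hq2, hq3⟩ := ih N hN _ _ (hφ (h : ℤ)) (max a (a - h)) (min b (b - h))
          (hlen h)
        have hwle : w ≤ (D (h : ℤ) / N) ^ A := by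
          rw [hw]; gcongr
        refine ⟨q, c, hq1, ?_, ?_⟩
        · refine le_trans ?_ hq2
          gcongr
        · refine le_trans ?_ hq3
          simp only [Int.cast_natCast]
          gcongr
      choose! qq cc hqq using hih
      obtain ⟨B, hB⟩ : ∃ B : ℝ, B = C / w := ⟨_, rfl⟩
      have hBpos : 0 < B := by rw [hB]; positivity
      have hB1 : 1 ≤ B := by
        rw [hB, le_div_iff₀ hwpos]; linarith
      have hqB : ∀ h ∈ H, qq h ∈ Icc 1 ⌊B⌋₊ := by
        intro h hh
        rw [Finset.mem_Icc]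
        refine ⟨(hqq h hh).1, Nat.le_floor ?_⟩
        rw [hB, le_div_iff₀ hwpos]
        exact (hqq h hh).2.1
      have hfl : ((⌊B⌋₊ : ℕ) : ℝ) ≤ B := Nat.floor_le hBpos.le
      have hne : (Icc 1 ⌊B⌋₊).Nonempty := by
        refine ⟨1, Finset.mem_Icc.2 ⟨le_rfl, Nat.le_floor (by rw [Nat.cast_one]; exact hB1)⟩⟩
      obtain ⟨q1, hq1mem, hq1⟩ := Finset.exists_le_card_fiber_of_nsmul_le_card_of_maps_to
        (b := (H.card : ℝ) / B) hqB hne (by
          rw [nsmul_eq_mul, Nat.card_Icc, Nat.add_sub_cancel]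
          have h1 : ((⌊B⌋₊ : ℕ) : ℝ) * (H.card / B) ≤ B * (H.card / B) :=
            mul_le_mul_of_nonneg_right hfl (div_nonneg (Nat.cast_nonneg _) hBpos.le)
          rwa [mul_div_cancel₀ _ hBpos.ne'] at h1)
      set S := H.filter (fun x => qq x = q1) with hS
      have hScard : u ^ 2 * N / (8 * B) ≤ S.card := by
        refine le_trans ?_ hq1
        have h1 : u ^ 2 * N / (8 * B) = u ^ 2 * N / 8 / B := by rw [div_div]
        rw [h1]
        exact div_le_div_of_nonneg_right hHcard hBpos.le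
      have hSpos : (0 : ℝ) < S.card := by
        refine lt_of_lt_of_le ?_ hScard
        positivity
      have hSne : S.Nonempty := Finset.card_pos.1 (by exact_mod_cast hSpos)
      have hSsub : S ⊆ Icc 1 N := by
        intro h hh
        have h1 := (Finset.mem_filter.1 ((Finset.mem_filter.1 hh).1)).1
        rw [Finset.mem_Ico] at h1
        exact Finset.mem_Icc.2 ⟨h1.1, h1.2.le⟩
      have hNm : (N : ℝ) ≤ (N : ℝ) ^ m := le_self_pow₀ hNR (by omega)
      have hNmpos : (0 : ℝ) < (N : ℝ) ^ m := by positivity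
      have hBw : B * w = C := by rw [hB]; field_simp
      have hB2 : 192 * B ^ 2 ≤ u ^ 2 * N := by
        have h1 : (192 * B ^ 2) * w ^ 2 ≤ (u ^ 2 * N) * w ^ 2 := by
          have : (192 * B ^ 2) * w ^ 2 = 192 * C ^ 2 := by rw [← hBw]; ring
          rw [this]
          linarith
        exact le_of_mul_le_mul_right h1 (by positivity)
      obtain ⟨q2, hq21, hq22, hq23⟩ := vino N hN (q1 * (((m : ℝ) + 1) * α)) (B / (N : ℝ) ^ m) S hSsub hSne
        (by
          intro h hh
          have h1 := Finset.mem_filter.1 hh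
          have h2 := hqq h h1.1
          rw [h1.2] at h2
          refine ⟨cc h, ?_⟩
          rw [le_div_iff₀ hNmpos]
          have h3 : |(q1 : ℝ) * (((m : ℝ) + 1) * h * α) - cc h| * (N : ℝ) ^ m ≤ B := by
            rw [hB, le_div_iff₀ hwpos]
            calc |(q1 : ℝ) * (((m : ℝ) + 1) * h * α) - cc h| * (N : ℝ) ^ m * w
                = |(q1 : ℝ) * (((m : ℝ) + 1) * h * α) - cc h| * w * (N : ℝ) ^ m := by ring
              _ ≤ C := h2.2.2
          have h4 : (h : ℝ) * (q1 * (((m : ℝ) + 1) * α)) = q1 * (((m : ℝ) + 1) * h * α) := by ring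
          rw [h4]
          exact h3)
        (by
          have h1 : 24 * (N : ℝ) * (B / (N : ℝ) ^ m) ≤ 24 * B := by
            rw [mul_div_assoc', div_le_iff₀ hNmpos]
            have := mul_le_mul_of_nonneg_right hNm hBpos.le
            linarith
          have h2 : 24 * B ≤ u ^ 2 * N / (8 * B) := by
            rw [le_div_iff₀ (by positivity)]
            linarith [hB2]
          linarith)
      obtain ⟨c, hc⟩ := hq23
      have hq1' := Finset.mem_Icc.1 hq1mem
      have hq1B : (q1 : ℝ) ≤ B := by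
        have : (q1 : ℝ) ≤ (⌊B⌋₊ : ℕ) := by exact_mod_cast hq1'.2
        linarith
      have hq2le : (q2 : ℝ) ≤ 64 * B / u ^ 2 := by
        rw [le_div_iff₀ (by positivity)]
        have h1 : (q2 : ℝ) * (u ^ 2 * N / (8 * B)) ≤ 8 * N := by
          refine le_trans ?_ hq22
          gcongr
        rw [mul_div_assoc', div_le_iff₀ (by positivity)] at h1
        have h2 : (q2 * u ^ 2) * N ≤ (64 * B) * N := by linarith
        exact le_of_mul_le_mul_right h2 hNpos
      have heps : 8 * (B / (N : ℝ) ^ m) / S.card ≤ 64 * B ^ 2 / (u ^ 2 * (N : ℝ) ^ (m + 1)) := by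
        rw [div_le_div_iff₀ hSpos (by positivity)]
        have h1 : 8 * (B / (N : ℝ) ^ m) * (u ^ 2 * (N : ℝ) ^ (m + 1)) = 64 * B ^ 2 * (u ^ 2 * N / (8 * B)) := by
          rw [pow_succ]
          field_simp
          ring
        rw [h1]
        gcongr
      refine ⟨q2 * (q1 * (m + 1)), c, ?_, ?_, ?_⟩
      · have : 0 < q1 := by omega
        have : 0 < q2 := by omega
        exact Nat.succ_le_of_lt (by positivity)
      · have h1 : (((q2 * (q1 * (m + 1)) : ℕ)) : ℝ) ≤ (64 * B / u ^ 2) * (B * (m + 1)) := by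
          push_cast
          gcongr
        calc (((q2 * (q1 * (m + 1)) : ℕ)) : ℝ) * u ^ ((4 * A + 2) * (m + 1))
            ≤ ((64 * B / u ^ 2) * (B * (m + 1))) * u ^ (4 * A + 2) := by gcongr
          _ = 64 * (m + 1) * (B * w) ^ 2 * 64 ^ A := by
              rw [hw64]; field_simp
          _ = 64 * (m + 1) * C ^ 2 * 64 ^ A := by rw [hBw]
          _ ≤ _ := by linarith
      · have e1 : (((q2 * (q1 * (m + 1)) : ℕ)) : ℝ) * α - c = q2 * (q1 * (((m : ℝ) + 1) * α)) - c := by
          push_cast; ring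
        rw [e1]
        calc |(q2 : ℝ) * (q1 * (((m : ℝ) + 1) * α)) - c| * u ^ ((4 * A + 2) * (m + 1)) * (N : ℝ) ^ (m + 1)
            ≤ (64 * B ^ 2 / (u ^ 2 * (N : ℝ) ^ (m + 1))) * u ^ (4 * A + 2) * (N : ℝ) ^ (m + 1) := by
              gcongr
              exact hc.trans heps
          _ = 64 * (B * w) ^ 2 * 64 ^ A := by
              rw [hw64]; field_simp
          _ = 64 * C ^ 2 * 64 ^ A := by rw [hBw]
          _ ≤ 64 * (m + 1) * C ^ 2 * 64 ^ A := by
              have : (1 : ℝ) ≤ (m : ℝ) + 1 := by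
                have : (0:ℝ) ≤ m := Nat.cast_nonneg m
                linarith
              have h5 : (0:ℝ) < 64 * (C ^ 2 * 64 ^ A) := by positivity
              have h6 := mul_le_mul_of_nonneg_left this h5.le
              linarith
          _ ≤ _ := by linarith

end Pool.Agent.helper132_sph
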